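import Pool.Agent.P.MP_e94e4b_nt.E2.IfZ

/-! Step APX. -/

namespace Pool.Agent.P.E2

open Finset Real Filter Topology MeasureTheory
open Pool.Agent.P.MP_e86632_nt (ee nn ee_add norm_ee ee_neg ee_zero)
open Pool.Agent.P.MP_8be758_nt.Avg (gs Rough red ft en nsq vau_g gs_pos gs_le_one gs_neg gs_anti)
open Pool.Agent.P.MP_e94e4b_nt.PF (mN sgm)
open ArithmeticFunction (vonMangoldt moebius)
open DirichletCharacter (LFunction)

namespace APXa

theorem step {m : ℝ} (hm : 1 ≤ m) : 1 / ((m + 1) * √(m + 1)) ≤ 2 / √m - 2 / √(m + 1) := by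
  have h1 : √m ^ 2 = m := Real.sq_sqrt (by linarith)
  have h2 : √(m + 1) ^ 2 = m + 1 := Real.sq_sqrt (by linarith)
  have h3 : 0 < √m := Real.sqrt_pos.2 (by linarith)
  have h4 : √m ≤ √(m + 1) := Real.sqrt_le_sqrt (by linarith)
  generalize √m = a at *
  generalize √(m + 1) = b at *
  have h5 : 0 < b := by linarith
  rw [← h2, div_sub_div _ _ h3.ne' h5.ne', div_le_div_iff₀ (by positivity) (by positivity)]
  have h6 : (b - a) * (a + b) = 1 := by nlinarith
  have h7 : a * (a + b) ≤ 2 * b ^ 2 := by nlinarith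
  have h8 : a * b = (b - a) * b * (a * (a + b)) := by linear_combination (-a * b) * h6
  have h9 := mul_le_mul_of_nonneg_left h7 (mul_nonneg (sub_nonneg.2 h4) h5.le)
  nlinarith

theorem tail {k0 : ℕ} (hk : 1 ≤ k0) (J : ℕ) :
    ∑ j ∈ range J, 1 / (((k0 + j : ℕ) : ℝ) * √((k0 + j : ℕ) : ℝ)) ≤ 3 / √(k0 : ℝ) := by
  have h0 : (1 : ℝ) ≤ k0 := by exact_mod_cast hk
  have h1 : 0 < √(k0 : ℝ) := Real.sqrt_pos.2 (by linarith)
  have key : ∀ J : ℕ, ∑ j ∈ range (J + 1), 1 / (((k0 + j : ℕ) : ℝ) * √((k0 + j : ℕ) : ℝ)) ≤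
      3 / √(k0 : ℝ) - 2 / √((k0 + J : ℕ) : ℝ) := by
    intro J
    induction J with
    | zero =>
      have : 1 / ((k0 : ℝ) * √(k0 : ℝ)) ≤ 1 / √(k0 : ℝ) :=
        one_div_le_one_div_of_le h1 (le_mul_of_one_le_left h1.le h0)
      have e : 3 / √(k0 : ℝ) - 2 / √(k0 : ℝ) = 1 / √(k0 : ℝ) := by ring
      simpa only [zero_add, range_one, sum_singleton, add_zero, e] using this
    | succ J ih =>
      rw [sum_range_succ]
      have := step (m := ((k0 + J : ℕ) : ℝ)) (by exact_mod_cast (by omega : 1 ≤ k0 + J))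
      have e : ((k0 + (J + 1) : ℕ) : ℝ) = ((k0 + J : ℕ) : ℝ) + 1 := by push_cast; ring
      rw [e]
      linarith
  rcases J with _ | J
  · simp; positivity
  · exact (key J).trans (sub_le_self _ (by positivity))

theorem summ {k0 : ℕ} (hk : 1 ≤ k0) :
    Summable fun j : ℕ => 1 / (((k0 + j : ℕ) : ℝ) * √((k0 + j : ℕ) : ℝ)) :=
  summable_of_sum_range_le (fun _ => by positivity) (tail hk)

theorem dcpow {n : ℕ} (hn : n ≠ 0) {f : ℂ → ℂ} (hf : Differentiable ℂ f) :
    Differentiable ℂ fun s => (n : ℂ) ^ f s :=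
  hf.const_cpow (Or.inl (by exact_mod_cast hn))

theorem dBk {q k : ℕ} (hq : 1 ≤ q) (hk : 1 ≤ k) (c : ℕ → ℂ) {s : ℂ} (hs : s ≠ 1) :
    DifferentiableAt ℂ (fun z => Bk q c z k) s := by
  unfold Bk
  have h1 : 0 < k * q := Nat.mul_pos hk hq
  refine (DifferentiableAt.fun_sum fun n hn => ?_).sub (DifferentiableAt.const_mul ?_ _)
  · exact (dcpow (by have := (mem_Ioc.1 hn).1; omega) (by fun_prop) s).const_mul _
  · refine ((dcpow (Nat.mul_pos (by omega) hq).ne' (by fun_prop) s).sub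
      (dcpow h1.ne' (by fun_prop) s)).div (by fun_prop) (sub_ne_zero.2 hs.symm)

theorem key (hAP1 : S_AP1) (hAP2 : S_AP2) {q : ℕ} [NeZero q] (χ : DirichletCharacter ℂ q) {k0 : ℕ}
    (hk : 1 ≤ k0) {V : Set ℂ} (hV : IsOpen V) (hc : Convex ℝ V) (h1 : (1 : ℂ) ∉ V) {s z0 : ℂ}
    (hs : s ∈ V) (hs' : 1 / 2 < s.re) (hz : z0 ∈ V) (hz' : 1 < z0.re) :
    LFunction χ s = ∑ n ∈ Icc 1 (k0 * q), ch χ n * (n : ℂ) ^ (-s) +
      ∑' j : ℕ, Bk q (ch χ) s (k0 + j) -
        kap q (ch χ) * (((k0 * q : ℕ) : ℂ) ^ (1 - s) / (1 - s)) := by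
  have hP := per_ch χ
  set R := ‖s‖ + ‖z0‖ + 1 with hR
  set U := V ∩ {z : ℂ | 1 / 2 < z.re} ∩ Metric.ball 0 R with hU
  have ho : IsOpen U :=
    (hV.inter (isOpen_lt continuous_const Complex.continuous_re)).inter Metric.isOpen_ball
  have hcU : Convex ℝ U := (hc.inter (convex_halfSpace_re_gt _)).inter (convex_ball _ _)
  have hne : ∀ z ∈ U, z ≠ 1 := fun z hz h => h1 (h ▸ hz.1.1)
  have hb : ∀ (j : ℕ) (z : ℂ), z ∈ U → ‖Bk q (ch χ) z (k0 + j)‖ ≤
      2 * q * R * (1 / (((k0 + j : ℕ) : ℝ) * √((k0 + j : ℕ) : ℝ))) := fun j z hz => by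
    refine (hAP1 q _ _ z hP hz.1.2.le (hne z hz) (by omega)).trans ?_
    have := (mem_ball_zero_iff.1 hz.2).le
    rw [mul_one_div]
    gcongr
  have hsu := (summ hk).mul_left (2 * q * R)
  have d1 : DifferentiableOn ℂ (LFunction χ) U := fun z hz =>
    (DirichletCharacter.differentiableAt_LFunction χ z (Or.inl (hne z hz))).differentiableWithinAt
  have d2 : DifferentiableOn ℂ (fun z => ∑ n ∈ Icc 1 (k0 * q), ch χ n * (n : ℂ) ^ (-z) +
      ∑' j : ℕ, Bk q (ch χ) z (k0 + j) -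
        kap q (ch χ) * (((k0 * q : ℕ) : ℂ) ^ (1 - z) / (1 - z))) U := by
    refine (DifferentiableOn.add ?_ (Complex.differentiableOn_tsum_of_summable_norm hsu
      (fun j z hz => (dBk hP.1 (by omega) _ (hne z hz)).differentiableWithinAt) ho hb)).sub ?_
    · refine DifferentiableOn.fun_sum fun n hn => Differentiable.differentiableOn ?_
      exact (dcpow (by have := (mem_Icc.1 hn).1; omega) (by fun_prop)).const_mul _
    · intro z hz
      exact (((dcpow (Nat.mul_pos hk hP.1).ne' (by fun_prop) z).div (by fun_prop)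
        (sub_ne_zero.2 (hne z hz).symm)).const_mul _).differentiableWithinAt
  have hz0 : z0 ∈ U := ⟨⟨hz, by show 1 / 2 < z0.re; linarith⟩,
    mem_ball_zero_iff.2 (by linarith [norm_nonneg s])⟩
  refine ((Complex.analyticOnNhd_iff_differentiableOn ho).2 d1).eqOn_of_preconnected_of_eventuallyEq
    ((Complex.analyticOnNhd_iff_differentiableOn ho).2 d2) hcU.isPreconnected hz0 ?_
    ⟨⟨hs, hs'⟩, mem_ball_zero_iff.2 (by linarith [norm_nonneg z0])⟩
  filter_upwards [ho.mem_nhds hz0,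
    (isOpen_lt continuous_const Complex.continuous_re).mem_nhds hz'] with z h2 h3
  have h4 := tendsto_nhds_unique (Summable.of_norm_bounded hsu fun j => hb j z h2).hasSum.tendsto_sum_nat
    (hAP2 q k0 _ z hP h3 hk)
  rw [h4, DirichletCharacter.LFunction_eq_LSeries χ h3]
  unfold ch
  ring

end APXa

open APXa in
theorem p_APX (hAP1 : S_AP1) (hAP2 : S_AP2) :
    S_APX := by
  intro q _ χ s k0 h1 h2 hk
  have hP := per_ch χ
  have hs : s ≠ 1 := by
    rintro rfl
    norm_num at h2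
  have e : LFunction χ s = ∑ n ∈ Icc 1 (k0 * q), ch χ n * (n : ℂ) ^ (-s) +
      ∑' j : ℕ, Bk q (ch χ) s (k0 + j) -
        kap q (ch χ) * (((k0 * q : ℕ) : ℂ) ^ (1 - s) / (1 - s)) := by
    rcases le_abs.1 h2 with h | h
    · exact key hAP1 hAP2 χ hk (V := {z : ℂ | 0 < z.im}) (z0 := 2 + Complex.I)
        (isOpen_lt continuous_const Complex.continuous_im) (convex_halfSpace_im_gt _) (by simp)
        (by show 0 < s.im; linarith) h1 (by simp) (by simp)
    · exact key hAP1 hAP2 χ hk (V := {z : ℂ | z.im < 0}) (z0 := 2 - Complex.I)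
        (isOpen_lt Complex.continuous_im continuous_const) (convex_halfSpace_im_lt _) (by simp)
        (by show s.im < 0; linarith) h1 (by simp) (by simp)
  rw [e, add_sub_assoc, add_sub_cancel_left, add_comm]
  refine (norm_sub_le _ _).trans (add_le_add ?_ ?_)
  · refine (tsum_of_norm_bounded ((summ hk).mul_left (2 * q * ‖s‖)).hasSum fun j => ?_).trans ?_
    · rw [mul_one_div]
      exact hAP1 q _ _ s hP h1.le hs (by omega)
    · rw [tsum_mul_left]
      refine (mul_le_mul_of_nonneg_left ((summ hk).tsum_le_of_sum_range_le (tail hk))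
        (by positivity)).trans_eq (by ring)
  · rw [norm_mul, norm_div, Complex.norm_natCast_cpow_of_pos (Nat.mul_pos hk hP.1)]
    refine (mul_le_of_le_one_left (by positivity) (norm_kap_le hP)).trans ?_
    have h3 : |s.im| ≤ ‖1 - s‖ := by simpa using Complex.abs_im_le_norm (1 - s)
    simp only [Complex.sub_re, Complex.one_re]
    gcongr

end Pool.Agent.P.E2
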