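import Pool.Agent.P.MP_e94e4b_nt.E2.IfC

/-! Step CHX. -/

namespace Pool.Agent.P.E2

open Finset Real Filter Topology MeasureTheory
open Pool.Agent.P.MP_e86632_nt (ee nn ee_add norm_ee ee_neg ee_zero)
open Pool.Agent.P.MP_8be758_nt.Avg (gs Rough red ft en nsq vau_g gs_pos gs_le_one gs_neg gs_anti)
open Pool.Agent.P.MP_e94e4b_nt.PF (mN sgm)
open ArithmeticFunction (vonMangoldt moebius)
open DirichletCharacter (LFunction)

namespace CHXa

theorem split {F : ℝ → ℝ} (hF : Continuous F) {B θ w T : ℝ} (h0 : ∀ t, 0 ≤ F t)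
    (hB : ∀ t, F t ≤ B) (hθ : 0 < θ) (hw : θ ≤ w) (hT : 0 ≤ T) :
    ∫ t, F t * (gs (θ * t) - 1 * gs (w * t)) ^ 2 ≤
      (∫ t in {t : ℝ | T ≤ |t|}, gs (t / θ⁻¹) * F t) + 2 * T * (B * (π * (w * T) ^ 2) ^ 2) := by
  have hB0 : 0 ≤ B := (h0 0).trans (hB 0)
  have ha : ∀ t, |θ * t| ≤ |w * t| := fun t => by
    rw [abs_mul, abs_mul, abs_of_pos hθ, abs_of_pos (hθ.trans_le hw)]; gcongr
  have h1 : ∀ t, (gs (θ * t) - 1 * gs (w * t)) ^ 2 ≤ gs (t / θ⁻¹) := fun t => by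
    rw [div_inv_eq_mul, mul_comm t]
    have a1 := gs_anti (ha t)
    have a2 := gs_pos (w * t)
    have a3 := gs_le_one (θ * t)
    nlinarith
  have hc : Continuous fun t => F t * (gs (θ * t) - 1 * gs (w * t)) ^ 2 := by fun_prop
  have hi : Integrable fun t => F t * (gs (θ * t) - 1 * gs (w * t)) ^ 2 :=
    int_of_le_gs (B := B) (inv_pos.2 hθ) hc fun t => by
      rw [Real.norm_of_nonneg (mul_nonneg (h0 t) (sq_nonneg _))]
      exact mul_le_mul (hB t) (h1 t) (sq_nonneg _) hB0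
  rw [← integral_add_compl (meas_abs_ge T) hi]
  refine add_le_add (setIntegral_mono_on hi.integrableOn (int_gs_mul (B := B) (inv_pos.2 hθ) hF
    fun t => by rw [abs_of_nonneg (h0 t)]; exact hB t).integrableOn (meas_abs_ge T) fun t _ => ?_) ?_
  · rw [mul_comm]
    exact mul_le_mul_of_nonneg_right (h1 t) (h0 t)
  have hU : Us 0 T (2 * T) {t : ℝ | T ≤ |t|}ᶜ := by
    refine ⟨(meas_abs_ge T).compl, fun t ht => ⟨abs_nonneg t, (not_le.1 (show ¬ T ≤ |t| from ht)).le⟩,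
      ?_⟩
    have : {t : ℝ | T ≤ |t|}ᶜ = Set.Ioo (-T) T := by
      ext t; simp only [Set.mem_compl_iff, Set.mem_ofPred_eq, not_le, abs_lt, Set.mem_Ioo]
    rw [this, Real.volume_real_Ioo_of_le (by linarith)]
    linarith
  refine hU.int_le hc (by positivity) fun t ht => mul_le_mul (hB t) ?_ (sq_nonneg _) hB0
  rw [one_mul, ← sq_abs]
  refine pow_le_pow_left₀ (abs_nonneg _) ((gs_sub_le _ _).trans ?_) 2
  have a1 : (θ * t) ^ 2 ≤ (w * t) ^ 2 := sq_le_sq.2 (ha t)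
  have a2 : (w * t) ^ 2 ≤ (w * T) ^ 2 := by
    rw [mul_pow, mul_pow, ← sq_abs t]
    have := (hU.2.1 t ht).2
    gcongr
  rw [abs_of_nonpos (by linarith)]
  have := Real.pi_pos
  have a3 := sq_nonneg (θ * t)
  gcongr
  linarith

theorem small {r X : ℝ} (hr : 1 ≤ r) (h : 4 * 220 ^ 2 * 256 * r ^ 626 ≤ Real.exp (8 * r)) :
    2 * (2 * Real.exp (4 * r)) * ((110 * X * (2 * r ^ 13)) ^ 2 *
      (π * (Th r * (2 * Real.exp (4 * r))) ^ 2) ^ 2) ≤ X ^ 2 / r ^ 600 := by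
  set E := Real.exp r with hE
  have e0 : 0 < E := Real.exp_pos r
  have e4 : Real.exp (4 * r) = E ^ 4 := by rw [hE, ← Real.exp_nat_mul]; norm_num
  have e8 : Real.exp (8 * r) = E ^ 8 := by rw [hE, ← Real.exp_nat_mul]; norm_num
  have e7 : Th r = (E ^ 7)⁻¹ := by rw [Th, Real.exp_neg, hE, ← Real.exp_nat_mul]; norm_num
  have hp : π ^ 2 ≤ 16 := by nlinarith [Real.pi_lt_four, Real.pi_pos]
  rw [e8] at h
  rw [e4, e7, le_div_iff₀ (by positivity)]
  calc _ = X ^ 2 * (4 * 220 ^ 2 * 16 * π ^ 2 * r ^ 626 / E ^ 8) := by field_simp; ring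
    _ ≤ X ^ 2 * 1 := by
        gcongr
        rw [div_le_one (by positivity)]
        refine le_trans ?_ h
        have : 0 ≤ r ^ 626 := by positivity
        nlinarith
    _ = _ := mul_one _

end CHXa

theorem p_CHX (hRNG : S_RNG) (hDP : S_DP) (hGS : S_GS) (hPL : S_PL) :
    S_CHX := by
  obtain ⟨b, hDP⟩ := hDP
  refine ⟨b, ?_⟩
  filter_upwards [hRNG, hDP, hGS, eventually_ge_atTop 1,
    ev_pe (4 * 220 ^ 2 * 256) 626 (c := 8) (by norm_num)] with r hR hD hG hr hs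
  intro P θ q _ χ h1 h2 h3 h4 h5
  have hP : 1 ≤ P := (one_le_pow₀ hr).trans h1
  have hX := XX_pos r
  have hθ : 0 < θ := lt_of_lt_of_le (by positivity) h3
  have hT : Th r ≤ 1 := Real.exp_le_one_iff.2 (by linarith)
  obtain ⟨g1, -, -, g2⟩ := hG P hP h2
  have hR := hR P hP h2
  have key : ∀ t, ∑ j ∈ Mr r, (gE r P j : ℂ) * ch χ j * ee (-(t * Real.log j)) =
      dq (PP P) (ch χ) t * dq (RN r P) (fun n => (th n * ph r P n : ℝ) * ch χ n) t := fun t => by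
    simp only [mul_assoc]
    rw [g2 fun j => ch χ j * ee (-(t * Real.log j)), dq, dq, sum_mul_sum]
    refine sum_congr rfl fun p hp => sum_congr rfl fun n hn => ?_
    have := nit_mul t (hR.pp p hp).1.ne_zero (Nat.zero_lt_of_lt (mem_Ioc.1 hn).1).ne'
    rw [nit] at this
    rw [this, ch_mul]
    ring
  have hb : ∀ t, ‖∑ j ∈ Mr r, (gE r P j : ℂ) * ch χ j * ee (-(t * Real.log j))‖ ≤
      110 * XX r * (2 * r ^ 13) := fun t => by
    refine (norm_dq_le (I := Mr r) (a := fun j => (gE r P j : ℂ) * ch χ j) (B := 2 * r ^ 13)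
      (fun n _ => ?_) t).trans (mul_le_mul_of_nonneg_right hR.mrc (by positivity))
    rw [norm_mul, Complex.norm_real, Real.norm_of_nonneg (g1 n).1]
    exact (mul_le_of_le_one_right (g1 n).1 (norm_ch_le χ n)).trans (g1 n).2
  have h6 := hPL (Mr r) (fun m => (gE r P m : ℂ) * ch χ m) (fun m => Real.log m) θ (Th r) 1 hθ
    (Th_pos r)
  have h7 := CHXa.split
    (F := fun t => ‖∑ j ∈ Mr r, (gE r P j : ℂ) * ch χ j * ee (-(t * Real.log j))‖ ^ 2)
    (by fun_prop) (fun _ => sq_nonneg _) (fun t => pow_le_pow_left₀ (norm_nonneg _) (hb t) 2) hθ h4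
    (T := 2 * Real.exp (4 * r)) (by positivity)
  have h8 := hD P θ⁻¹ q χ h1 h2 ((one_le_inv₀ hθ).2 (h4.trans hT))
    (by rw [X2, ← inv_div]; exact inv_anti₀ (by positivity) h3) h5
  have h9 := CHXa.small (X := XX r) hr hs
  rw [← h6] at h7
  simp only [one_mul] at h7
  simp only [← mul_pow, ← norm_mul, ← key] at h8
  unfold Dl
  rw [mul_div_assoc]
  linarith

end Pool.Agent.P.E2
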