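import Pool.Agent.P.MP_e94e4b_nt.E2.IfD

/-! Step DP. -/

namespace Pool.Agent.P.E2

open Finset Real Filter Topology MeasureTheory
open Pool.Agent.P.MP_e86632_nt (ee nn ee_add norm_ee ee_neg ee_zero)
open Pool.Agent.P.MP_8be758_nt.Avg (gs Rough red ft en nsq vau_g gs_pos gs_le_one gs_neg gs_anti)
open Pool.Agent.P.MP_e94e4b_nt.PF (mN sgm)
open ArithmeticFunction (vonMangoldt moebius)
open DirichletCharacter (LFunction)

namespace DPa

theorem pw {r P α : ℝ} {b : ℕ} (hr : 1 ≤ r) (hα : 0 < α) (hb : 320 / α ≤ b) (h : r ^ b ≤ P) :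
    P ^ (1 - α) * r ^ 320 ≤ P := by
  have h0 : 0 < P := lt_of_lt_of_le (by positivity) h
  have h1 : r ^ 320 ≤ P ^ α := by
    rw [div_le_iff₀ hα] at hb
    calc r ^ 320 = r ^ ((320 : ℕ) : ℝ) := (Real.rpow_natCast _ _).symm
      _ ≤ r ^ ((b : ℝ) * α) := Real.rpow_le_rpow_of_exponent_le hr (by exact_mod_cast hb)
      _ = (r ^ b) ^ α := by rw [Real.rpow_mul (by linarith), Real.rpow_natCast]
      _ ≤ P ^ α := Real.rpow_le_rpow (by positivity) h hα.le
  calc _ ≤ P ^ (1 - α) * P ^ α := by gcongr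
    _ = P := by rw [← Real.rpow_add h0, sub_add_cancel, Real.rpow_one]

theorem tail {l r Z : ℝ} (h1 : 1 ≤ Z) (h2 : Z ≤ Real.exp l) (h3 : r ≤ l) :
    Z * Real.exp (-(Real.exp (2 * l) / Z) ^ 2) * Real.exp r ≤ 1 := by
  have h4 : Real.exp l ≤ Real.exp (2 * l) / Z := by
    rw [le_div_iff₀ (by linarith), two_mul, Real.exp_add]
    gcongr
  have h5 : 2 * l ≤ (Real.exp (2 * l) / Z) ^ 2 := by
    refine le_trans ?_ (pow_le_pow_left₀ (Real.exp_pos l).le h4 2)
    rw [pow_two, ← Real.exp_add, ← two_mul]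
    linarith [Real.add_one_le_exp (2 * l)]
  calc _ ≤ Real.exp l * Real.exp (-(2 * l)) * Real.exp l := by gcongr
    _ = 1 := by rw [← Real.exp_add, ← Real.exp_add, ← Real.exp_zero]; congr 1; ring

theorem us {F : ℝ → ℂ} (hF : Continuous F) {T0 T V m : ℝ}
    (h : volume.real {t : ℝ | |t| ≤ T ∧ V < ‖F t‖} ≤ m) :
    Us T0 T m {t : ℝ | (T0 ≤ |t| ∧ |t| ≤ T) ∧ V < ‖F t‖} := by
  refine ⟨((meas_abs_ge T0).inter (measurableSet_le (f := fun t : ℝ => |t|) (by fun_prop)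
    measurable_const)).inter (measurableSet_lt measurable_const hF.norm.measurable),
    fun t ht => ht.1, le_trans (measureReal_mono (fun t ht => And.intro ht.1.2 ht.2) ?_) h⟩
  exact ((measure_mono (t := Set.Icc (-T) T) fun t ht => abs_le.1 ht.1).trans_lt
    measure_Icc_lt_top).ne

end DPa

theorem p_DP (hRNG : S_RNG) (hPH : S_PH) (hMV : S_MV) (hUM : S_UM) (hPU : S_PU) (hDPA : S_DPA) :
    S_DP := by
  obtain ⟨C, hC, hMV⟩ := hMV
  obtain ⟨κ, hκ, hPU⟩ := hPU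
  obtain ⟨α, b0, hα, hUM⟩ := hUM κ hκ
  refine ⟨b0 + ⌈320 / α⌉₊, ?_⟩
  filter_upwards [hRNG, hPH, hPU, hUM, eventually_ge_atTop 1,
    ev_pp (36960 * C) one_pos (show 626 < 640 by omega), ev_pe 12 600 (c := 1 / 4) (by norm_num),
    ev_pe1 290400 626] with r hRNG hPH hPU hUM hr e1 e2 e3 P Z q _ χ p1 p2 z1 z2 hq
  have p3 : 1 ≤ P := (one_le_pow₀ hr).trans p1
  have g := hRNG P p3 p2
  have x0 : 0 < X2 r P := (Real.exp_pos _).trans_le g.x2l
  have px : XX r = P * X2 r P := by rw [X2]; field_simp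
  have cd : ((RN r P).card : ℝ) ≤ 55 * X2 r P := by
    refine le_trans ?_ g.a2
    rw [RN, Nat.card_Ioc]
    exact_mod_cast Nat.sub_le _ _
  have co : ∀ n ∈ RN r P, ‖((th n * ph r P n : ℝ) : ℂ) * ch χ n‖ ≤ 2 * r ^ 13 := fun n hn => by
    obtain ⟨a1, a2, -⟩ := hPH P p3 p2 n
    rw [norm_mul, Complex.norm_real, Real.norm_of_nonneg (mul_nonneg (th_nonneg n) a1)]
    calc _ ≤ 2 * r ^ 13 * 1 * 1 := by
          gcongr
          exacts [(th_le_log n).trans (g.rn n hn).2.2, norm_ch_le χ n]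
      _ = _ := by ring
  have v1 := DPa.pw hr hα ((Nat.le_ceil _).trans (Nat.cast_le.2 (Nat.le_add_left _ b0))) p1
  have v0 : 0 ≤ P ^ (1 - α) := by positivity
  refine (hDPA _ _ (2 * P) (55 * X2 r P * (2 * r ^ 13)) (P ^ (1 - α)) Z _
    (Real.exp (2 * r ^ 13)) (cont_dq _ _) (cont_dq _ _)
    (fun t => (norm_dq_le (fun n _ => norm_ch_le χ n) t).trans ((mul_one _).trans_le g.ppc))
    (fun t => (norm_dq_le co t).trans (by gcongr)) v0 (by linarith) (Real.exp_pos _).le).trans ?_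
  have t1 := (hMV Z (55 * X2 r P) (RN r P) _ z1 fun n hn => ⟨Nat.one_le_of_lt (mem_Ioc.1 hn).1,
    (Nat.cast_le.2 (mem_Ioc.1 hn).2).trans g.a2⟩).trans (mul_le_mul
      (mul_le_mul_of_nonneg_left (show _ ≤ 56 * X2 r P by linarith) hC.le) ((nsq_le co).trans (mul_le_mul_of_nonneg_right cd (sq_nonneg _)))
      (sum_nonneg fun _ _ => sq_nonneg _) (by positivity))
  have t2 := hPU P q χ _ p3 p2 hq (DPa.us (cont_dq _ _) (hUM P (ch χ)
    ((pow_le_pow_right₀ hr (Nat.le_add_right _ _)).trans p1) p2 (norm_ch_le χ)))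
  have t3 := DPa.tail z1 (z2.trans g.x2u) (le_self_pow₀ hr (by omega) : r ≤ r ^ 13)
  refine (add_le_add (add_le_add (mul_le_mul_of_nonneg_left t1 (sq_nonneg _))
    (mul_le_mul_of_nonneg_left t2 (sq_nonneg _))) le_rfl).trans ?_
  have r0 : 0 < r := by linarith
  rw [le_div_iff₀ (by positivity), px]
  have e4 : 12 * r ^ 600 * Real.exp (-(r / 4)) ≤ 1 := by
    rw [Real.exp_neg, ← div_eq_mul_inv, div_le_one (Real.exp_pos _)]
    exact e2.trans_eq (by congr 1; ring)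
  generalize P ^ (1 - α) = V at v0 v1
  generalize Real.exp (-(r / 4)) = E at e4
  have w0 := Real.exp_pos (-(Real.exp (2 * r ^ 13) / Z) ^ 2)
  generalize Real.exp (-(Real.exp (2 * r ^ 13) / Z) ^ 2) = W at t3 w0
  generalize X2 r P = X at x0
  have s1 : V ^ 2 * (36960 * C * r ^ 626) ≤ P ^ 2 :=
    (mul_le_mul_of_nonneg_left e1 (sq_nonneg _)).trans
      (le_trans (le_of_eq (by ring)) (pow_le_pow_left₀ (by positivity) v1 2))
  have s3 : Z * W * (290400 * r ^ 626) ≤ 1 :=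
    (mul_le_mul_of_nonneg_left e3 (by positivity)).trans t3
  have u1 := mul_le_mul_of_nonneg_left s1 (sq_nonneg X)
  have u2 := mul_le_mul_of_nonneg_left e4 (sq_nonneg (P * X))
  have u3 := mul_le_mul_of_nonneg_left s3 (sq_nonneg (P * X))
  linear_combination u1 / 3 + u2 / 3 + u3 / 3

end Pool.Agent.P.E2
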