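import Pool.Agent.P.MP_e94e4b_nt.E2.IfC

/-! Step CI1. -/

namespace Pool.Agent.P.E2

open Finset Real Filter Topology MeasureTheory
open Pool.Agent.P.MP_e86632_nt (ee nn ee_add norm_ee ee_neg ee_zero)
open Pool.Agent.P.MP_8be758_nt.Avg (gs Rough red ft en nsq vau_g gs_pos gs_le_one gs_neg gs_anti)
open Pool.Agent.P.MP_e94e4b_nt.PF (mN sgm)
open ArithmeticFunction (vonMangoldt moebius)
open DirichletCharacter (LFunction)

namespace CI1a

theorem orth (h : ℤ) (α0 : ℝ) :
    ∫ α in α0..(α0 + 1), ee (h * α) = if h = 0 then 1 else 0 := by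
  split_ifs with h0
  · simp [h0]
  have hc : (Complex.I * (2 * π * h) : ℂ) ≠ 0 :=
    mul_ne_zero Complex.I_ne_zero (mul_ne_zero (mul_ne_zero two_ne_zero
      (Complex.ofReal_ne_zero.2 Real.pi_ne_zero)) (by exact_mod_cast h0))
  have e : ∀ x : ℝ, ee (h * x) = Complex.exp (Complex.I * (2 * π * h) * x) := fun x => by
    unfold ee; congr 1; push_cast; ring
  simp only [e]
  rw [integral_exp_mul_complex hc, ← e, ← e, mul_add, mul_one,
    Pool.Agent.P.MP_e86632_nt.ee_add_int, sub_self, zero_div]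

theorem orth_sum {ι : Type} (S : Finset ι) (c : ι → ℂ) (h : ι → ℤ) (α0 : ℝ) :
    ∫ α in α0..(α0 + 1), ∑ i ∈ S, c i * ee (h i * α) = ∑ i ∈ S, if h i = 0 then c i else 0 := by
  rw [intervalIntegral.integral_finsetSum fun i _ => Continuous.intervalIntegrable (by fun_prop) _ _]
  refine sum_congr rfl fun i _ => ?_
  rw [intervalIntegral.integral_const_mul, orth]
  split_ifs <;> simp

end CI1a

theorem p_CI1 :
    S_CI1 := by
  intro I I' J f g s α0
  constructor
  · apply Complex.ofReal_injective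
    rw [← intervalIntegral.integral_ofReal]
    have e : ∀ α : ℝ, ((‖ft I f α‖ ^ 2 : ℝ) : ℂ) = ∑ x ∈ I ×ˢ I,
        f x.1 * (starRingEnd ℂ) (f x.2) * ee ((((x.1 : ℤ) - x.2 : ℤ) : ℝ) * α) := fun α => by
      rw [ft, Pool.Agent.P.MP_e94e4b_nt.PF.HG_sq, sum_product]
      refine sum_congr rfl fun n _ => sum_congr rfl fun m _ => ?_
      rw [map_mul, ← ee_neg, show (((n : ℤ) - m : ℤ) : ℝ) * α = n * α + -(m * α) by
        push_cast; ring, ee_add]
      ring
    simp only [e]
    rw [CI1a.orth_sum, sum_product, nsq, Complex.ofReal_sum]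
    refine sum_congr rfl fun n hn => ?_
    simp only [sub_eq_zero, Nat.cast_inj]
    rw [sum_ite_eq, if_pos hn, Complex.mul_conj, Complex.normSq_eq_norm_sq]
  · intro h
    have e : ∀ α : ℝ, ft I f α * ft I' g α * (starRingEnd ℂ) (Ws J s α) =
        ∑ x ∈ J ×ˢ I ×ˢ I', f x.2.1 * g x.2.2 *
          ee ((((x.2.1 : ℤ) + x.2.2 - s x.1 : ℤ) : ℝ) * α) := fun α => by
      rw [ft, ft, Ws, map_sum, mul_sum, sum_product]
      refine sum_congr rfl fun N _ => ?_
      rw [sum_mul_sum, sum_mul, sum_product]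
      refine sum_congr rfl fun p _ => ?_
      rw [sum_mul]
      refine sum_congr rfl fun m _ => ?_
      rw [← ee_neg, show (((p : ℤ) + m - s N : ℤ) : ℝ) * α = p * α + m * α + -(s N * α) by
        push_cast; ring, ee_add, ee_add]
      ring
    simp only [e]
    rw [CI1a.orth_sum, sum_product]
    refine sum_congr rfl fun N hN => ?_
    rw [sum_product]
    refine sum_congr rfl fun p hp => ?_
    obtain ⟨h1, h2⟩ := h N hN p hp
    rw [sum_eq_single_of_mem (s N - p) h2]
    · rw [if_pos (by dsimp only; omega)]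
    · intro m _ hm
      rw [if_neg (by dsimp only; omega)]

end Pool.Agent.P.E2
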