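import Pool.Agent.P.MP_e94e4b_nt.E2.IfZ

/-! Step AP1. -/

namespace Pool.Agent.P.E2

open Finset Real Filter Topology MeasureTheory
open Pool.Agent.P.MP_e86632_nt (ee nn ee_add norm_ee ee_neg ee_zero)
open Pool.Agent.P.MP_8be758_nt.Avg (gs Rough red ft en nsq vau_g gs_pos gs_le_one gs_neg gs_anti)
open Pool.Agent.P.MP_e94e4b_nt.PF (mN sgm)
open ArithmeticFunction (vonMangoldt moebius)
open DirichletCharacter (LFunction)

namespace AP1a

theorem per_sum {q : ℕ} {c : ℕ → ℂ} (h : Per q c) (a : ℕ) :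
    ∑ n ∈ Ioc a (a + q), c n = ∑ n ∈ range q, c n := by
  have h1 : ∀ a : ℕ, ∑ n ∈ range q, c (a + n) = ∑ n ∈ range q, c n := by
    intro a
    induction a with
    | zero => simp
    | succ a ih =>
      have e1 := sum_range_succ (fun n => c (a + n)) q
      have e2 := sum_range_succ' (fun n => c (a + n)) q
      simp only [add_zero, h.2.2] at e1 e2
      rw [← ih]
      have e3 : ∑ n ∈ range q, c (a + 1 + n) = ∑ n ∈ range q, c (a + (n + 1)) :=
        sum_congr rfl fun n _ => by congr 1; ring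
      rw [e3]
      exact add_right_cancel (e2.symm.trans e1)
  rw [← h1 (a + 1), ← Finset.Ico_add_one_add_one_eq_Ioc, sum_Ico_eq_sum_range]
  congr 2; omega

theorem lip (s : ℂ) (hs : 1 / 2 ≤ s.re) {a b x : ℝ} (ha : 1 ≤ a) (hx : x ∈ Set.Icc a b) :
    ‖(x : ℂ) ^ (-s) - (a : ℂ) ^ (-s)‖ ≤ ‖s‖ / (a * √a) * (b - a) := by
  have hs0 : -s ≠ 0 := by
    intro h; rw [neg_eq_zero] at h; rw [h] at hs; norm_num at hs
  have h := norm_image_sub_le_of_norm_deriv_le_segment' (a := a) (b := b)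
    (f := fun y : ℝ => (y : ℂ) ^ (-s)) (f' := fun y : ℝ => -s * (y : ℂ) ^ (-s - 1))
    (C := ‖s‖ / (a * √a))
    (fun y hy => (hasDerivAt_ofReal_cpow_const (by linarith [hy.1]) hs0).hasDerivWithinAt)
    (fun y hy => by
      have hy1 : 1 ≤ y := ha.trans hy.1
      rw [norm_mul, norm_neg, Complex.norm_cpow_eq_rpow_re_of_pos (by linarith), div_eq_mul_inv]
      refine mul_le_mul_of_nonneg_left ?_ (norm_nonneg _)
      have e : (a * √a)⁻¹ = a ^ (-(3 / 2 : ℝ)) := by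
        rw [Real.rpow_neg (by linarith), Real.sqrt_eq_rpow,
          show (3 / 2 : ℝ) = 1 + 1 / 2 by norm_num, Real.rpow_add (by linarith), Real.rpow_one]
      rw [e]
      calc y ^ (-s - 1).re ≤ y ^ (-(3 / 2 : ℝ)) :=
            Real.rpow_le_rpow_of_exponent_le hy1 (by simp; linarith)
        _ ≤ _ := Real.rpow_le_rpow_of_nonpos (by linarith) hy.1 (by norm_num)) x hx
  refine h.trans (mul_le_mul_of_nonneg_left (by linarith [hx.2]) (by positivity))

theorem intg (s : ℂ) (hs : 1 / 2 ≤ s.re) (h1 : s ≠ 1) {a b : ℝ} (ha : 1 ≤ a) (hab : a ≤ b) :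
    ‖((b : ℂ) ^ (1 - s) - (a : ℂ) ^ (1 - s)) / (1 - s) - (b - a : ℝ) * (a : ℂ) ^ (-s)‖ ≤
      ‖s‖ / (a * √a) * (b - a) * (b - a) := by
  have hs0 : -s ≠ -1 := fun h => h1 (neg_injective h)
  have h := norm_image_sub_le_of_norm_deriv_le_segment' (a := a) (b := b)
    (f := fun y : ℝ => (y : ℂ) ^ (-s + 1) / (-s + 1) - (y : ℂ) * (a : ℂ) ^ (-s))
    (f' := fun y : ℝ => (y : ℂ) ^ (-s) - (a : ℂ) ^ (-s))
    (C := ‖s‖ / (a * √a) * (b - a))
    (fun y hy => by
      have d1 := hasDerivAt_ofReal_cpow_const' (x := y) (by linarith [hy.1]) hs0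
      have d2 := (Complex.ofRealCLM.hasDerivAt (x := y)).mul_const ((a : ℂ) ^ (-s))
      simpa using (d1.fun_sub d2).hasDerivWithinAt)
    (fun y hy => lip s hs ha ⟨hy.1, hy.2.le⟩) b ⟨hab, le_rfl⟩
  refine le_of_eq_of_le ?_ h
  congr 1
  rw [show -s + 1 = 1 - s by ring]
  push_cast; ring

end AP1a

theorem p_AP1 :
    S_AP1 := by
  intro q k c s hc hs h1 hk
  have hq : (1 : ℝ) ≤ q := by exact_mod_cast hc.1
  have hk' : (1 : ℝ) ≤ k := by exact_mod_cast hk
  set a : ℝ := ((k * q : ℕ) : ℝ) with hadef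
  set b : ℝ := (((k + 1) * q : ℕ) : ℝ) with hbdef
  have ha : a = k * q := by rw [hadef]; push_cast; ring
  have hb : b - a = q := by rw [hadef, hbdef]; push_cast; ring
  have ha1 : 1 ≤ a := by rw [ha]; nlinarith
  have hi := AP1a.intg s hs h1 ha1 (show a ≤ b by linarith)
  rw [hb] at hi
  set D : ℝ := ‖s‖ / (a * √a) with hD
  have hD0 : 0 ≤ D := by positivity
  have hsum : ∑ n ∈ Ioc (k * q) ((k + 1) * q), c n = q * kap q c := by
    rw [add_mul, one_mul, AP1a.per_sum hc, kap, mul_div_cancel₀]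
    exact_mod_cast (show (q : ℝ) ≠ 0 by linarith)
  have hs1 : ‖∑ n ∈ Ioc (k * q) ((k + 1) * q), c n * ((n : ℂ) ^ (-s) - (a : ℂ) ^ (-s))‖ ≤
      q * (D * q) := by
    refine (norm_sum_le_of_le _ (n := fun _ => D * q) fun n hn => ?_).trans ?_
    · rw [mem_Ioc] at hn
      have h2 := AP1a.lip s hs (b := b) (x := n) ha1
        ⟨by rw [hadef]; exact_mod_cast hn.1.le, by rw [hbdef]; exact_mod_cast hn.2⟩
      rw [hb] at h2
      rw [norm_mul]
      calc _ ≤ 1 * (D * q) := mul_le_mul (hc.2.1 n) (by simpa using h2) (norm_nonneg _) zero_le_one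
        _ = _ := one_mul _
    · simp [add_mul]
  have he : Bk q c s k =
      ∑ n ∈ Ioc (k * q) ((k + 1) * q), c n * ((n : ℂ) ^ (-s) - (a : ℂ) ^ (-s)) -
        kap q c * (((b : ℂ) ^ (1 - s) - (a : ℂ) ^ (1 - s)) / (1 - s) -
          (q : ℝ) * (a : ℂ) ^ (-s)) := by
    simp only [mul_sub, sum_sub_distrib, ← sum_mul, hsum, Bk, hadef, hbdef, Complex.ofReal_natCast]
    ring
  rw [he]
  refine (norm_sub_le _ _).trans ?_
  rw [norm_mul]
  have h3 := mul_le_mul (norm_kap_le hc) hi (norm_nonneg _) zero_le_one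
  have h4 : D * q ≤ ‖s‖ / (k * √(k : ℝ)) := by
    have h5 : √(k : ℝ) ≤ √a := Real.sqrt_le_sqrt (by rw [ha]; nlinarith)
    have h6 : 0 < √(k : ℝ) := Real.sqrt_pos.2 (by linarith)
    calc D * q = ‖s‖ / (k * √a) := by
          have h7 : 0 < √a := h6.trans_le h5
          rw [hD]; nth_rewrite 1 [ha]; field_simp
      _ ≤ _ := by gcongr
  calc _ ≤ q * (D * q) + 1 * (D * q * q) := add_le_add hs1 h3
    _ = 2 * q * (D * q) := by ring
    _ ≤ 2 * q * (‖s‖ / (k * √(k : ℝ))) := by gcongr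
    _ = _ := by ring

end Pool.Agent.P.E2
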