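import Pool.Agent.P.MP_e94e4b_nt.E2.IfZ

/-! Step AP2. -/

namespace Pool.Agent.P.E2

open Finset Real Filter Topology MeasureTheory
open Pool.Agent.P.MP_e86632_nt (ee nn ee_add norm_ee ee_neg ee_zero)
open Pool.Agent.P.MP_8be758_nt.Avg (gs Rough red ft en nsq vau_g gs_pos gs_le_one gs_neg gs_anti)
open Pool.Agent.P.MP_e94e4b_nt.PF (mN sgm)
open ArithmeticFunction (vonMangoldt moebius)
open DirichletCharacter (LFunction)

namespace AP2a

theorem tel (q k0 : ℕ) (c : ℕ → ℂ) (s : ℂ) (J : ℕ) :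
    ∑ j ∈ range J, Bk q c s (k0 + j) =
      ∑ n ∈ Ioc 0 ((k0 + J) * q), c n * (n : ℂ) ^ (-s) -
        ∑ n ∈ Ioc 0 (k0 * q), c n * (n : ℂ) ^ (-s) -
        kap q c * (((((k0 + J) * q : ℕ) : ℂ) ^ (1 - s) - ((k0 * q : ℕ) : ℂ) ^ (1 - s)) / (1 - s)) := by
  induction J with
  | zero => simp
  | succ J ih =>
    rw [sum_range_succ, ih, Bk, ← add_assoc, ← sum_Ioc_consecutive _ (Nat.zero_le ((k0 + J) * q))
      (Nat.mul_le_mul_right q (Nat.le_succ (k0 + J)))]
    ring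

theorem part (c : ℕ → ℂ) (s : ℂ) (N : ℕ) :
    ∑ n ∈ range (N + 1), LSeries.term c s n = ∑ n ∈ Ioc 0 N, c n * (n : ℂ) ^ (-s) := by
  induction N with
  | zero => simp
  | succ N ih =>
    rw [sum_range_succ, ih, sum_Ioc_succ_top (Nat.zero_le N),
      LSeries.term_of_ne_zero (Nat.succ_ne_zero N), Complex.cpow_neg, div_eq_mul_inv]

end AP2a

theorem p_AP2 :
    S_AP2 := by
  intro q k0 c s hP hs hk
  have hsum : LSeriesSummable c s :=
    LSeriesSummable_of_bounded_of_one_lt_re (m := 1) (fun n _ => hP.2.1 n) hs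
  have h0 : Tendsto (fun J : ℕ => (k0 + J) * q) atTop atTop :=
    tendsto_atTop_mono (fun J => (Nat.le_add_left J k0).trans (Nat.le_mul_of_pos_right _ hP.1))
      tendsto_id
  have h1 : Tendsto (fun J : ℕ => ∑ n ∈ Ioc 0 ((k0 + J) * q), c n * (n : ℂ) ^ (-s)) atTop
      (𝓝 (LSeries c s)) := by
    have := hsum.hasSum.tendsto_sum_nat.comp ((tendsto_add_atTop_nat 1).comp h0)
    exact this.congr fun J => AP2a.part c s _
  have h2 : Tendsto (fun J : ℕ => (((k0 + J) * q : ℕ) : ℂ) ^ (1 - s)) atTop (𝓝 0) := by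
    rw [tendsto_zero_iff_norm_tendsto_zero]
    have := (tendsto_rpow_neg_atTop (sub_pos.2 hs)).comp (tendsto_natCast_atTop_atTop.comp h0)
    refine this.congr fun J => ?_
    rw [Complex.norm_natCast_cpow_of_pos (Nat.mul_pos (by omega) hP.1)]
    simp
  have e : Icc 1 (k0 * q) = Ioc 0 (k0 * q) := rfl
  simp only [AP2a.tel, e]
  convert (h1.sub_const _).sub (((h2.sub_const _).div_const (1 - s)).const_mul (kap q c)) using 2
  ring

end Pool.Agent.P.E2
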