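import Pool.Agent.P.MP_e94e4b_nt.E2.IfC

/-! Step ARC. -/

namespace Pool.Agent.P.E2

open Finset Real Filter Topology MeasureTheory
open Pool.Agent.P.MP_e86632_nt (ee nn ee_add norm_ee ee_neg ee_zero)
open Pool.Agent.P.MP_8be758_nt.Avg (gs Rough red ft en nsq vau_g gs_pos gs_le_one gs_neg gs_anti)
open Pool.Agent.P.MP_e94e4b_nt.PF (mN sgm)
open ArithmeticFunction (vonMangoldt moebius)
open DirichletCharacter (LFunction)

theorem p_ARC (hGEO : S_GEO) (hARC1 : S_ARC1) (hOV : S_OV) :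
    S_ARC := by
  obtain ⟨C, hC, h1⟩ := hARC1
  refine ⟨60 * C, by positivity, ?_⟩
  filter_upwards [hGEO, h1, eventually_ge_atTop 1] with r hG h1 hr P y K H hS α
  have g := hG P y K H hS
  have hX := XX_pos r
  have hH : 0 < (H : ℝ) ^ 2 := lt_of_lt_of_le (by positivity) g.hl
  have h2 := hOV r P y K H (fun v => ‖Dl r P ((H : ℝ) ^ 2 / XX r) (fun m => ee (m * α)) v‖ ^ 2) g
    (by fun_prop) (int_Dl_sq r P (by positivity) _) fun _ => by positivity
  have h3 : ∑ i ∈ range (y / (K * H)), (Yb y (K * H) i : ℝ) ≤ 4 * XX r := by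
    rw [← Nat.cast_sum, g.xt.1]
    exact g.xt.2.2.2
  have h4 : r ^ 600 ≤ r ^ 700 := pow_le_pow_right₀ hr (by norm_num)
  refine (sum_le_sum fun i hi => h1 P y K H hS i (mem_range.1 hi) α).trans ?_
  rw [← mul_sum, sum_add_distrib, ← sum_div, ← sum_div, mul_comm 60 C, mul_assoc, mul_add 60]
  refine mul_le_mul_of_nonneg_left (add_le_add ?_ ?_) hC.le
  · refine (div_le_div_of_nonneg_right h2 (by positivity)).trans_eq ?_
    generalize ∫ v : ℝ, ‖Dl r P ((H : ℝ) ^ 2 / XX r) (fun m => ee (m * α)) v‖ ^ 2 = I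
    field_simp
  · rw [← mul_div_assoc]
    exact div_le_div₀ (by positivity) (by linarith) (by positivity) h4

end Pool.Agent.P.E2
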