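import Pool.Agent.P.MP_e94e4b_nt.E2.IfC

/-! Step ARC1. -/

namespace Pool.Agent.P.E2

open Finset Real Filter Topology MeasureTheory
open Pool.Agent.P.MP_e86632_nt (ee nn ee_add norm_ee ee_neg ee_zero)
open Pool.Agent.P.MP_8be758_nt.Avg (gs Rough red ft en nsq vau_g gs_pos gs_le_one gs_neg gs_anti)
open Pool.Agent.P.MP_e94e4b_nt.PF (mN sgm)
open ArithmeticFunction (vonMangoldt moebius)
open DirichletCharacter (LFunction)

namespace ARC1a

theorem rem2 {r a Y : ℝ} (h1 : 1 ≤ r) (ha : a ≤ 20 * Real.exp (2 * r))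
    (hY : Real.exp (r ^ 13 / 2) ≤ Y) (e1 : 552960 * r ^ 733 ≤ Real.exp r)
    (e2 : 3 * r + 0 ≤ 1 / 2 * r ^ 13) :
    256 * (6 * r ^ 13) ^ 2 * (3 * r ^ 7 * a) ≤ Y / r ^ 700 := by
  have h0 : 0 < r := by linarith
  rw [le_div_iff₀ (by positivity)]
  calc _ = 27648 * r ^ 733 * a := by ring
    _ ≤ 27648 * r ^ 733 * (20 * Real.exp (2 * r)) := by gcongr
    _ = 552960 * r ^ 733 * Real.exp (2 * r) := by ring
    _ ≤ Real.exp r * Real.exp (2 * r) := by gcongr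
    _ ≤ Real.exp (r ^ 13 / 2) := by
      rw [← Real.exp_add]; exact Real.exp_le_exp.2 (by linarith)
    _ ≤ Y := hY

theorem rem3 {r Y : ℝ} (h1 : 1 ≤ r) (hY0 : 0 ≤ Y) (hY : Y ≤ 5 * Real.exp (r ^ 13))
    (e1 : 1620 * r ^ 726 ≤ Real.exp r) :
    (6 * r ^ 13) ^ 2 * (3 * Y) ^ 2 * Real.exp (-(3 * r ^ 7) ^ 2) ≤ Y / r ^ 700 := by
  have h0 : 0 < r := by linarith
  have a1 : r ≤ r ^ 14 := le_self_pow₀ h1 (by omega)
  have a2 : r ^ 13 ≤ r ^ 14 := pow_le_pow_right₀ h1 (by omega)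
  have a3 : Real.exp r * Real.exp (r ^ 13) * Real.exp (-(3 * r ^ 7) ^ 2) ≤ 1 := by
    rw [← Real.exp_add, ← Real.exp_add, Real.exp_le_one_iff]
    have : (3 * r ^ 7) ^ 2 = 9 * r ^ 14 := by ring
    linarith
  rw [le_div_iff₀ (by positivity)]
  calc _ = Y * (324 * r ^ 726 * Y * Real.exp (-(3 * r ^ 7) ^ 2)) := by ring
    _ ≤ Y * (324 * r ^ 726 * (5 * Real.exp (r ^ 13)) * Real.exp (-(3 * r ^ 7) ^ 2)) := by gcongr
    _ = Y * (1620 * r ^ 726 * Real.exp (r ^ 13) * Real.exp (-(3 * r ^ 7) ^ 2)) := by ring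
    _ ≤ Y * (Real.exp r * Real.exp (r ^ 13) * Real.exp (-(3 * r ^ 7) ^ 2)) := by gcongr
    _ ≤ Y := mul_le_of_le_one_right hY0 a3

theorem rem1 {r Y : ℝ} (h1 : 1 ≤ r) (hY0 : 0 ≤ Y) :
    2 * (1 / r ^ 400) ^ 2 * (3 * Y) ≤ 6 * (Y / r ^ 700) := by
  have h0 : 0 < r := by linarith
  have a2 : r ^ 700 ≤ r ^ 800 := pow_le_pow_right₀ h1 (by omega)
  calc _ = 6 * (Y / r ^ 800) := by field_simp; ring
    _ ≤ _ := by gcongr

end ARC1a

theorem p_ARC1 (hGEO : S_GEO) (hGS : S_GS) (hGAL : S_GAL) (hCB : S_CB) (hLOC : S_LOC) (hEXT : S_EXT) :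
    S_ARC1 := by
  obtain ⟨C, hC, hG⟩ := hGAL
  refine ⟨8 * C, by positivity, ?_⟩
  filter_upwards [hGEO, hGS, hCB, hLOC, eventually_ge_atTop 1, ev_pe1 552960 733, ev_pe1 1620 726,
    ev_lin 3 0 (c := 1 / 2) (by norm_num) (show 2 ≤ 13 by omega)] with r g1 g2 g3 g4 h1 e1 e2 e3
  intro P y K H hs i hi α
  have G := g1 P y K H hs
  obtain ⟨x1, x2, x3, x4⟩ := G.x1 i hi
  obtain ⟨y1, -⟩ := G.y1 i hi
  obtain ⟨i1, -, -⟩ := G.ig i hi
  have hL := g4 P y K H hs i hi α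
  have hb : ∀ m, ‖ba r P y (K * H) i α m‖ ≤ 6 * r ^ 13 := fun m => by
    have b1 := (g2 P G.p1 hs.p2).1 m
    have b2 := g3 P (xb y (K * H) i) α G.p1 hs.p2 x1
      (le_trans (by exact_mod_cast (by omega : xb y (K * H) i ≤ xb y (K * H) (i + 1))) x2)
    refine (norm_sub_le _ _).trans ?_
    rw [norm_mul, norm_ee, mul_one, Complex.norm_real, Real.norm_of_nonneg b1.1]
    linarith [b1.2]
  have x3' : (xb y (K * H) i : ℝ) + Yb y (K * H) i = xb y (K * H) (i + 1) := by exact_mod_cast x3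
  have y2 : y ≤ Yb y (K * H) i := by
    have k0 := G.k0
    have kh := G.kh
    have : 1 ≤ K * H := Nat.mul_pos (by omega) (by omega)
    nlinarith
  have y3 : Real.exp (r ^ 13 / 2) ≤ Yb y (K * H) i := by rw [← G.ye]; exact_mod_cast y2
  have cA : ((xb y (K * H) i - Yb y (K * H) i : ℕ) : ℝ) = xb y (K * H) i - Yb y (K * H) i :=
    Nat.cast_sub x4
  have cA' : ((xb y (K * H) i + 2 * Yb y (K * H) i : ℕ) : ℝ) =
      xb y (K * H) i + 2 * Yb y (K * H) i := by push_cast; ring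
  have hX := XX_pos r
  have hl : 1 ≤ (H : ℝ) ^ 2 := (one_le_pow₀ h1).trans G.hl
  have hu := G.hu
  have hY0 : (0 : ℝ) ≤ Yb y (K * H) i := Nat.cast_nonneg _
  have hE := hEXT (xb y (K * H) i - Yb y (K * H) i) (xb y (K * H) i + 2 * Yb y (K * H) i)
    (ba r P y (K * H) i α)
    (fun u => ‖Dl r P ((H : ℝ) ^ 2 / XX r) (fun m => ee (m * α)) (Real.log u)‖ / XX r)
    ((H : ℝ) ^ 2 / XX r * xb y (K * H) i) (3 * r ^ 7) (6 * r ^ 13) (1 / r ^ 400)
  rw [cA, cA'] at hE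
  have hx5 : (xb y (K * H) i : ℝ) ≤ 5 * XX r := by linarith
  have q1 : (1 : ℝ) ≤ xb y (K * H) i / XX r := (one_le_div hX).2 x1
  have q5 : (xb y (K * H) i : ℝ) / XX r ≤ 5 := (div_le_iff₀ hX).2 hx5
  have ea : (H : ℝ) ^ 2 / XX r * xb y (K * H) i = (H : ℝ) ^ 2 * (xb y (K * H) i / XX r) := by ring
  have a1 : 1 ≤ (H : ℝ) ^ 2 / XX r * xb y (K * H) i := by
    rw [ea]; exact one_le_mul_of_one_le_of_one_le hl q1
  have a2 : (H : ℝ) ^ 2 / XX r * xb y (K * H) i ≤ 20 * Real.exp (2 * r) := by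
    rw [ea]; nlinarith
  have a3 : (H : ℝ) ^ 2 / XX r * xb y (K * H) i * (1 / (H : ℝ) ^ 2) ≤ 5 := by
    rw [ea, mul_right_comm, mul_one_div_cancel (by linarith), one_mul]; exact q5
  have h0 : 0 < r := by linarith
  have hc : ContinuousOn (fun u => ‖Dl r P ((H : ℝ) ^ 2 / XX r) (fun m => ee (m * α))
      (Real.log u)‖ / XX r) (Set.Icc ((xb y (K * H) i : ℝ) - Yb y (K * H) i)
        (xb y (K * H) i + 2 * Yb y (K * H) i)) :=
    ((cont_Dl _ _ _ _).comp_continuousOn (Real.continuousOn_log.mono fun u hu =>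
      (by linarith [hu.1] : 0 < u).ne')).norm.div_const _
  have hE2 := hE (by omega) a1 (by positivity) (by positivity) hb hc
    fun u u1 u2 => hL u _ rfl u1 u2
  refine (hG _ _ _ _ (by linarith) (by positivity) a3).trans ?_
  rw [mul_comm 8 C, mul_assoc]
  refine mul_le_mul_of_nonneg_left (hE2.trans ?_) hC.le
  simp only [div_pow _ (XX r)]
  rw [intervalIntegral.integral_div,
    show (xb y (K * H) i : ℝ) + 2 * Yb y (K * H) i - (xb y (K * H) i - Yb y (K * H) i) =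
      3 * Yb y (K * H) i by ring]
  have r1 := ARC1a.rem1 h1 hY0
  have r2 := ARC1a.rem2 h1 a2 y3 e1 e3
  have r3 := ARC1a.rem3 h1 hY0 (show _ ≤ 5 * XX r by linarith) e2
  have r4 : 0 ≤ (∫ u in ((xb y (K * H) i : ℝ) - Yb y (K * H) i)..(xb y (K * H) i +
      2 * Yb y (K * H) i), ‖Dl r P ((H : ℝ) ^ 2 / XX r) (fun m => ee (m * α))
        (Real.log u)‖ ^ 2) / XX r ^ 2 :=
    div_nonneg (intervalIntegral.integral_nonneg (by linarith) fun _ _ => by positivity)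
      (by positivity)
  linarith

end Pool.Agent.P.E2
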