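import Pool.Agent.P.MP_e94e4b_nt.E2.IfZ

/-! Step BC. -/

namespace Pool.Agent.P.E2

open Finset Real Filter Topology MeasureTheory
open Pool.Agent.P.MP_e86632_nt (ee nn ee_add norm_ee ee_neg ee_zero)
open Pool.Agent.P.MP_8be758_nt.Avg (gs Rough red ft en nsq vau_g gs_pos gs_le_one gs_neg gs_anti)
open Pool.Agent.P.MP_e94e4b_nt.PF (mN sgm)
open ArithmeticFunction (vonMangoldt moebius)
open DirichletCharacter (LFunction)

namespace BCa

end BCa

theorem p_BC :
    S_BC := by
  intro f s0 ρ B hρ hB hf h s hs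
  have ho := Metric.isOpen_ball (x := s0) (ε := ρ)
  have h0 := Metric.mem_ball_self (x := s0) hρ
  obtain ⟨g, g0, hg⟩ := ((hf.deriv ho).div hf fun z hz => (h z hz).1).isExactOn_ball.with_val_at s0 0
  have dg : DifferentiableOn ℂ g (Metric.ball s0 ρ) := fun z hz =>
    (hg z hz).differentiableAt.differentiableWithinAt
  have e : ∀ z ∈ Metric.ball s0 ρ, f z * Complex.exp (-g z) = f s0 := fun z hz => by
    have := ho.is_const_of_deriv_eq_zero (convex_ball s0 ρ).isPreconnected
      (f := fun z => f z * Complex.exp (-g z)) (hf.mul dg.neg.cexp) (fun z hz => by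
        have h1 := (h z hz).1
        refine (((hf.differentiableAt (ho.mem_nhds hz)).hasDerivAt.mul (hg z hz).neg.cexp).deriv).trans ?_
        simp only [Pi.div_apply, Pi.zero_apply]
        field_simp
        ring) hz h0
    simpa [g0] using this
  have re : ∀ z ∈ Metric.ball s0 ρ, (g z).re ≤ B := fun z hz => by
    have h1 := (h z hz).2
    rw [← e z hz, norm_mul, Complex.norm_exp, mul_left_comm, ← Real.exp_add,
      le_mul_iff_one_le_right (norm_pos_iff.2 (h z hz).1), Real.one_le_exp_iff, Complex.neg_re] at h1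
    linarith
  have m : ∀ z ∈ Metric.ball (0 : ℂ) ρ, z + s0 ∈ Metric.ball s0 ρ := fun z hz => by simpa using hz
  have b : ∀ z, ‖z - s0‖ ≤ ρ / 2 → ‖g z‖ ≤ 2 * B := fun z hz => by
    have := Complex.borelCaratheodory_zero (f := fun z => g (z + s0)) (z := z - s0) hB
      (dg.comp (by fun_prop) m) (fun z hz => re _ (m z hz)) hρ
      (mem_ball_zero_iff.2 (by linarith)) (by simpa using g0)
    rw [sub_add_cancel] at this
    refine this.trans ?_
    rw [div_le_iff₀ (by linarith)]
    gcongr
    linarith
  have t : ∀ z ∈ Metric.closedBall s (ρ / 4), ‖z - s0‖ ≤ ρ / 2 := fun z hz => by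
    have := norm_sub_le_norm_sub_add_norm_sub z s s0
    have := mem_closedBall_iff_norm.1 hz
    linarith
  have sub : Metric.closedBall s (ρ / 4) ⊆ Metric.ball s0 ρ := fun z hz =>
    mem_ball_iff_norm.2 (by linarith [t z hz])
  have := Complex.norm_deriv_le_of_forall_mem_sphere_norm_le (by linarith : 0 < ρ / 4)
    (dg.diffContOnCl_ball sub) fun z hz => b z (t z (Metric.sphere_subset_closedBall hz))
  rw [(hg s (sub (Metric.mem_closedBall_self (by linarith)))).deriv] at this
  exact this.trans_eq (by field_simp; ring)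

end Pool.Agent.P.E2
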