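import Pool.Agent.P.MP_e94e4b_nt.E2.IfZ

/-! Step BL. -/

namespace Pool.Agent.P.E2

open Finset Real Filter Topology MeasureTheory
open Pool.Agent.P.MP_e86632_nt (ee nn ee_add norm_ee ee_neg ee_zero)
open Pool.Agent.P.MP_8be758_nt.Avg (gs Rough red ft en nsq vau_g gs_pos gs_le_one gs_neg gs_anti)
open Pool.Agent.P.MP_e94e4b_nt.PF (mN sgm)
open ArithmeticFunction (vonMangoldt moebius)
open DirichletCharacter (LFunction)

namespace BLa

theorem abel (b : ℕ → ℂ) (g : ℕ → ℝ) (a N : ℕ) (B : ℝ) (hB0 : 0 ≤ B)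
    (hB : ∀ n, n ≤ N → ‖∑ i ∈ Ioc a n, b i‖ ≤ B)
    (hg0 : ∀ i, 0 ≤ g i) (hg : ∀ i, a < i → g (i + 1) ≤ g i) :
    ‖∑ i ∈ Ioc a N, b i * (g i : ℂ)‖ ≤ B * g (a + 1) := by
  refine Pool.Agent.P.MP_e86632_nt.abel_bound b (fun i => (g i : ℂ)) a N B (g (a + 1)) hB0
    (hg0 _) hB fun haN => ?_
  obtain ⟨M, rfl⟩ : ∃ M, N = M + 1 := ⟨N - 1, by omega⟩
  simp only [Nat.add_sub_cancel]
  have h2 : ∀ i ∈ Ioc a M, ‖(g (i + 1) : ℂ) - g i‖ = -(g (i + 1) - g i) := by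
    intro i hi
    rw [← Complex.ofReal_sub, Complex.norm_real, Real.norm_eq_abs,
      abs_of_nonpos (sub_nonpos.2 (hg i (mem_Ioc.1 hi).1))]
  rw [sum_congr rfl h2, sum_neg_distrib, Pool.Agent.P.MP_e86632_nt.tele_Ioc g a M (by omega),
    Complex.norm_real, Real.norm_eq_abs, abs_of_nonneg (hg0 _)]
  linarith

end BLa

theorem p_BL (hVB : S_VB) :
    S_BL := by
  filter_upwards [hVB, eventually_ge_atTop (1 : ℝ)] with r h hr q M N c s hc hq hM hMN hN h1 h2 h3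
  have hr9 : 1 ≤ r ^ 9 := one_le_pow₀ hr
  have hM1 : (1 : ℝ) ≤ M := (Real.one_le_exp (by linarith)).trans hM
  have hM0 : (0 : ℝ) < M := by linarith
  have hre : 0 ≤ s.re := by
    have : 1 / r ^ 9 ≤ 1 := div_le_self zero_le_one hr9
    linarith
  have ht : 2 * π * (s.im / (2 * π)) = s.im := by field_simp
  have e : ∑ n ∈ Ioc M N, c n * (n : ℂ) ^ (-s) =
      ∑ n ∈ Ioc M N, c n * nit (s.im / (2 * π)) n * (((n : ℝ) ^ (-s.re) : ℝ) : ℂ) := by
    refine sum_congr rfl fun n hn => ?_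
    rw [cpow_nit s (by have := (mem_Ioc.1 hn).1; omega)]
    ring
  rw [e]
  have hanti : ∀ x y : ℝ, 0 < x → x ≤ y → y ^ (-s.re) ≤ x ^ (-s.re) := fun x y hx hxy =>
    Real.rpow_le_rpow_of_nonpos hx hxy (by linarith)
  refine (BLa.abel (fun n => c n * nit (s.im / (2 * π)) n) (fun n => (n : ℝ) ^ (-s.re)) M N
    (8 * M * Real.exp (-(Real.log M / r ^ 9))) (by positivity) (fun n hn => ?_)
    (fun i => by positivity) fun i hi => ?_).trans ?_
  · rcases le_total M n with h4 | h4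
    · exact h q M n c _ hc hq hM h4 (hn.trans hN) (by rwa [ht]) (by rwa [ht])
    · rw [Ioc_eq_empty (by omega), sum_empty, norm_zero]; positivity
  · refine hanti _ _ ?_ (by push_cast; linarith)
    exact_mod_cast (by omega : 0 < i)
  · have h4 : ((M + 1 : ℕ) : ℝ) ^ (-s.re) ≤ (M : ℝ) ^ (-s.re) :=
      hanti _ _ hM0 (by push_cast; linarith)
    have h5 : (M : ℝ) * Real.exp (-(Real.log M / r ^ 9)) * (M : ℝ) ^ (-s.re) ≤ 1 := by
      rw [Real.rpow_def_of_pos hM0]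
      nth_rewrite 1 [← Real.exp_log hM0]
      rw [← Real.exp_add, ← Real.exp_add, Real.exp_le_one_iff]
      have h6 := mul_le_mul_of_nonneg_left h3 (Real.log_nonneg hM1)
      have h7 : Real.log M * (1 - 1 / r ^ 9) = Real.log M - Real.log M / r ^ 9 := by ring
      linarith
    have h6 := mul_le_mul_of_nonneg_left h4
      (show 0 ≤ 8 * (M : ℝ) * Real.exp (-(Real.log M / r ^ 9)) by positivity)
    linarith

end Pool.Agent.P.E2
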