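import Pool.Agent.P.MP_e94e4b_nt.E2.IfC

/-! Step BLK. -/

namespace Pool.Agent.P.E2

open Finset Real Filter Topology MeasureTheory
open Pool.Agent.P.MP_e86632_nt (ee nn ee_add norm_ee ee_neg ee_zero)
open Pool.Agent.P.MP_8be758_nt.Avg (gs Rough red ft en nsq vau_g gs_pos gs_le_one gs_neg gs_anti)
open Pool.Agent.P.MP_e94e4b_nt.PF (mN sgm)
open ArithmeticFunction (vonMangoldt moebius)
open DirichletCharacter (LFunction)

namespace BLKa

theorem card_RR (K : ℕ) : (RR K).card ≤ K ^ 2 := by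
  rw [RR, card_sigma, pow_two]
  refine (sum_le_card_nsmul _ _ K fun q hq => ?_).trans (by simp)
  refine le_trans ?_ (mem_Icc.1 hq).2
  exact (card_le_card fun a ha => mem_range.2 (mem_red.1 ha).1).trans (card_range q).le

theorem num {r L Y E n1 n2 s S : ℝ} (hr : 1 ≤ r) (hL : 0 ≤ L) (hY : 0 ≤ Y) (h1 : n1 ≤ Y)
    (h2 : n2 ≤ 12 * r ^ 26 * Y) (hs : r ^ 55 ≤ s) (hS : S ≤ Y / (3 * r ^ 20))
    (e1 : 312 * r ^ 46 ≤ 1 * r ^ 55) (e2 : 3 * r ^ 20 ≤ 1 * r ^ 30) :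
    8 * L / s * (n1 + n2) + L * (1 / r ^ 30 * n1 + E / (1 / r ^ 30)) + L * S ≤
      L * (Y / r ^ 20 + r ^ 30 * E) := by
  have r0 : 0 < r := by linarith
  have r1 : 1 ≤ r ^ 26 := one_le_pow₀ hr
  have s0 : 0 < s := lt_of_lt_of_le (by positivity) hs
  have a1 : 8 / s * (n1 + n2) ≤ Y / (3 * r ^ 20) := by
    calc 8 / s * (n1 + n2) ≤ 8 / s * (13 * r ^ 26 * Y) := by gcongr; nlinarith
      _ ≤ 8 / (312 * r ^ 46) * (13 * r ^ 26 * Y) := by gcongr; linarith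
      _ = _ := by field_simp; ring
  have a2 : 1 / r ^ 30 * n1 ≤ Y / (3 * r ^ 20) := by
    calc 1 / r ^ 30 * n1 ≤ 1 / r ^ 30 * Y := by gcongr
      _ ≤ 1 / (3 * r ^ 20) * Y := by gcongr; linarith
      _ = _ := by ring
  have a3 : Y / r ^ 20 = 3 * (Y / (3 * r ^ 20)) := by field_simp
  have a4 : E / (1 / r ^ 30) = r ^ 30 * E := by field_simp
  rw [a4, a3, show 8 * L / s * (n1 + n2) = L * (8 / s * (n1 + n2)) by ring, ← mul_add, ← mul_add]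
  gcongr L * ?_
  linarith

theorem num2 {r Y H2 k : ℝ} (hr : 1 ≤ r) (hY : 2 * Real.exp (r ^ 13 / 2) ≤ Y)
    (hH : H2 ≤ 4 * Real.exp (2 * r)) (H0 : 0 < H2) (hk : k ≤ 4 * r ^ 220)
    (e1 : 144 * r ^ 253 ≤ Real.exp r) (e2 : 3 * r + 0 ≤ 1 / 4 * r ^ 13) :
    k * (4 * r ^ 13 * (Real.exp (-(r ^ 13 / 4)) * Y + 1 / (Real.exp (-(r ^ 13 / 4)) * (1 / H2)))) ≤
      Y / (3 * r ^ 20) := by
  have r0 : 0 < r := by linarith
  set ν := Real.exp (-(r ^ 13 / 4)) with hν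
  have n0 : 0 < ν := Real.exp_pos _
  have Y0 : 0 < Y := lt_of_lt_of_le (by positivity) hY
  have x1 : 1 ≤ Real.exp (2 * r) := Real.one_le_exp (by linarith)
  have b1 : ν * ν * Real.exp (r ^ 13 / 2) = 1 := by
    rw [hν, ← Real.exp_add, ← Real.exp_add, ← Real.exp_zero]; congr 1; ring
  have b2 : 1 / (ν * (1 / H2)) ≤ 2 * Real.exp (2 * r) * (ν * Y) := by
    rw [div_le_iff₀ (by positivity), mul_one_div, ← mul_div_assoc, le_div_iff₀ H0]
    calc 1 * H2 ≤ 2 * Real.exp (2 * r) * (ν * (2 * Real.exp (r ^ 13 / 2))) * ν := by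
          nlinarith
      _ ≤ _ := by gcongr
  have b3 : Real.exp r * Real.exp (2 * r) * ν ≤ 1 := by
    rw [hν, ← Real.exp_add, ← Real.exp_add]; exact Real.exp_le_one_iff.2 (by linarith)
  calc _ ≤ 4 * r ^ 220 * (4 * r ^ 13 * (3 * Real.exp (2 * r) * (ν * Y))) := by
        gcongr; nlinarith [mul_pos n0 Y0]
    _ = (144 * r ^ 253 * Real.exp (2 * r) * ν) * (Y / (3 * r ^ 20)) := by field_simp; ring
    _ ≤ (Real.exp r * Real.exp (2 * r) * ν) * (Y / (3 * r ^ 20)) := by gcongr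
    _ ≤ 1 * (Y / (3 * r ^ 20)) := by gcongr
    _ = _ := one_mul _

end BLKa

open BLKa in
theorem p_BLK (hGEO : S_GEO) (hGS : S_GS) (hCB : S_CB) (hCIRC : S_CIRC) (hMIN : S_MIN) :
    S_BLK := by
  filter_upwards [hGEO, hGS, hCB, eventually_ge_atTop 1, ev_pp 312 one_pos (show 46 < 55 by omega),
    ev_pp 3 one_pos (show 20 < 30 by omega), ev_pe1 144 253,
    ev_lin 3 0 (show (0 : ℝ) < 1 / 4 by norm_num) (show 2 ≤ 13 by omega)]
    with r g1 g2 g3 hr e1 e2 e3 e4 P y K H hS i hi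
  have G := g1 P y K H hS
  have r0 : 0 < r := by linarith
  obtain ⟨m1, m2, m3⟩ := hMIN K H (y + i * (K * H)) G.k0 G.kh
  have K1 : (1 : ℝ) ≤ K := by exact_mod_cast G.k0
  have H1 : (1 : ℝ) ≤ H := by exact_mod_cast (show 1 ≤ H by have := G.k0; have := G.kh; omega)
  obtain ⟨x1, x2, x3, x4⟩ := G.x1 i hi
  have h := hCIRC _ (RR K) fr (fun x => cb r P (xb y (K * H) i) (fr x)) (Ip y (K * H) i)
    (JJ y (K * H) i) (xb y (K * H) i - Yb y (K * H) i) (xb y (K * H) i + 2 * Yb y (K * H) i)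
    (fun p => (p1 p : ℂ)) (fun m => (gE r P m : ℂ)) mN (1 / (H : ℝ) ^ 2) (8 * (K * H) / √(K : ℝ))
    (1 / r ^ 30) (Real.exp (-(r ^ 13 / 4))) (by positivity) (by positivity) (Real.exp_pos _)
    (by positivity) m1 m2 (fun N hN => (G.jj i hi N hN).2.2.2.2.2) m3
  have cJ : ((JJ y (K * H) i).card : ℝ) = K * H := by simp [JJ]
  have cp : ((Ip y (K * H) i).card : ℝ) = Yb y (K * H) i := by simp [Ip, Yb]
  have cg : ((Ig y (K * H) i).card : ℝ) = 3 * Yb y (K * H) i := by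
    rw [Ig, Nat.card_Ioc]; norm_cast; omega
  have n1 : nsq (Ip y (K * H) i) (fun p => (p1 p : ℂ)) ≤ Yb y (K * H) i :=
    (nsq_le fun n _ => norm_p1_le n).trans (by rw [cp]; simp)
  have n2 : nsq (Ig y (K * H) i) (fun m => (gE r P m : ℂ)) ≤ 12 * r ^ 26 * Yb y (K * H) i := by
    refine (nsq_le (B := 2 * r ^ 13) fun n _ => ?_).trans (le_of_eq (by rw [cg]; ring))
    obtain ⟨u1, u2⟩ := (g2 P G.p1 hS.p2).1 n
    rwa [Complex.norm_real, Real.norm_of_nonneg u1]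
  have hs : r ^ 55 ≤ √(K : ℝ) := Real.le_sqrt_of_sq_le (by rw [← pow_mul]; exact hS.k1)
  have hY : 2 * Real.exp (r ^ 13 / 2) ≤ Yb y (K * H) i := by
    have h5 : ((2 * y * (K * H) : ℕ) : ℝ) ≤ Yb y (K * H) i := by exact_mod_cast (G.y1 i hi).1
    push_cast at h5
    rw [← G.ye]
    have : (1 : ℝ) ≤ K * H := one_le_mul_of_one_le_of_one_le K1 H1
    nlinarith [(Nat.cast_nonneg y : (0 : ℝ) ≤ y)]
  have hk : ((RR K).card : ℝ) ≤ 4 * r ^ 220 := by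
    calc ((RR K).card : ℝ) ≤ (K : ℝ) ^ 2 := by exact_mod_cast card_RR K
      _ ≤ (2 * r ^ 110) ^ 2 := by gcongr; exact hS.k2
      _ = _ := by ring
  have hc : ∀ α, ‖cb r P (xb y (K * H) i) α‖ ≤ 4 * r ^ 13 := fun α =>
    g3 P _ α G.p1 hS.p2 x1 (le_trans (by exact_mod_cast (show _ ≤ xb y (K * H) (i + 1) by omega)) x2)
  have hT := num2 hr hY G.hu (by positivity) hk e3 e4
  have hS' : ∑ j ∈ RR K, ‖cb r P (xb y (K * H) i) (fr j)‖ * (Real.exp (-(r ^ 13 / 4)) *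
      nsq (Ip y (K * H) i) (fun p => (p1 p : ℂ)) +
      1 / (Real.exp (-(r ^ 13 / 4)) * (1 / (H : ℝ) ^ 2))) ≤ Yb y (K * H) i / (3 * r ^ 20) := by
    refine le_trans ?_ hT
    rw [← nsmul_eq_mul]
    refine sum_le_card_nsmul _ _ _ fun j _ => ?_
    have : 0 ≤ nsq (Ip y (K * H) i) (fun p => (p1 p : ℂ)) := sum_nonneg fun _ _ => by positivity
    gcongr
    exact hc _
  rw [cJ] at h
  have hN := num (L := K * H) (E := ∑ q ∈ Icc 1 K, ∑ a ∈ red q,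
    arcE r P y (K * H) i (1 / (H : ℝ) ^ 2) ((a : ℝ) / q)) hr (by positivity) (Nat.cast_nonneg _) n1 n2
    hs hS' e1 e2
  refine le_trans (le_of_eq ?_) (h.trans (le_trans (le_of_eq ?_) hN))
  · congr 2
    · simp [Rc]
    · rw [RR, sum_sigma]; rfl
  · rw [RR, sum_sigma (Icc 1 K) red fun j => ∫ β in (-(1 / (H : ℝ) ^ 2))..(1 / (H : ℝ) ^ 2), _]
    rfl

end Pool.Agent.P.E2
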