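import Pool.Agent.P.MP_e94e4b_nt.E2.IfC

/-! Step C0. -/

namespace Pool.Agent.P.E2

open Finset Real Filter Topology MeasureTheory
open Pool.Agent.P.MP_e86632_nt (ee nn ee_add norm_ee ee_neg ee_zero)
open Pool.Agent.P.MP_8be758_nt.Avg (gs Rough red ft en nsq vau_g gs_pos gs_le_one gs_neg gs_anti)
open Pool.Agent.P.MP_e94e4b_nt.PF (mN sgm)
open ArithmeticFunction (vonMangoldt moebius)
open DirichletCharacter (LFunction)

theorem p_C0 (hP0 : S_P0) (hRNG : S_RNG) (hCH1 : S_CH1) (hC1 : S_C1) :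
    S_C0 := by
  intro q ε hq hε
  have : NeZero q := ⟨by omega⟩
  obtain ⟨hc, hκ⟩ := hCH1 q
  filter_upwards [eventually_all.2 (hP0 q), hRNG, hC1, ev_pe1 (3 * q / ε) 0, ev_pe1 q 0,
    ev_lin 1 2 (c := 1 / 2) (by norm_num) (k := 13) (by norm_num), eventually_ge_atTop 0]
    with r h1 h2 h3 h4 h5 h6 h7 P v a p1 p2 hv ha
  obtain ⟨κ, k1, k2, k3⟩ := hκ a ha
  have R := h2 P p1 p2
  have l0 := Real.log_nonneg p1
  have l1 : Real.log P ≤ r := (Real.log_le_iff_le_exp (by linarith)).2 p2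
  rw [abs_le] at hv
  simp only [pow_zero, mul_one, one_mul] at h4 h5 h6
  have e : ∑ n ∈ RN r P, ((th n * ph r P n : ℝ) : ℂ) * ee (n * ((a : ℝ) / q)) *
      (gk (Th r) (Real.log n - v) : ℂ) - (Real.exp v * mf q : ℝ) =
      ∑ χ, κ χ * (∑ n ∈ RN r P, ((th n * ph r P n : ℝ) : ℂ) * ch χ n *
        (gk (Th r) (Real.log n - v) : ℂ) - kp χ * Real.exp v) := by
    simp only [mul_sub, sum_sub_distrib, mul_sum]
    congr 1
    · rw [sum_comm]
      refine sum_congr rfl fun n hn => ?_
      rcases eq_or_ne (th n) 0 with h | h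
      · simp [h]
      have hn' : q < n := by
        have := (R.rn n hn).1
        have : Real.exp r < Real.exp (r ^ 13 / 2) := Real.exp_lt_exp.2 (by linarith)
        exact_mod_cast (show (q : ℝ) < n by linarith)
      rw [k3 n ((Nat.Prime.coprime_iff_not_dvd (prime_of_th h)).2
        (Nat.not_dvd_of_pos_of_lt hq hn')), mul_sum, sum_mul]
      exact sum_congr rfl fun _ _ => by ring
    · rw [sum_eq_single 1 (fun χ _ h => by simp [kp, h]) (by simp), k2]
      simp [kp, mul_comm]
  rw [e]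
  refine (norm_sum_le_of_le _ (n := fun _ => 3 * Real.exp (v - r)) fun χ _ => ?_).trans ?_
  · rw [norm_mul]
    refine (mul_le_of_le_one_left (norm_nonneg _) (k1 χ)).trans ?_
    have a1 := h3 P v (ch χ) p1 p2 (abs_le.2 hv) (norm_ch_le χ)
    have a2 := h1 χ (Th r) v (Real.exp_le_exp.2 (by linarith)) (Real.exp_le_exp.2 (by linarith))
      (by linarith) (by linarith)
    exact (norm_sub_le_norm_sub_add_norm_sub _ _ _).trans (by linarith)
  · rw [sum_const, card_univ, nsmul_eq_mul, Real.exp_sub]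
    rw [div_le_iff₀ hε] at h4
    have : (Fintype.card (DirichletCharacter ℂ q) : ℝ) ≤ q := by exact_mod_cast hc
    have := Real.exp_pos v
    have := Real.exp_pos r
    calc _ ≤ q * (3 * (Real.exp v / Real.exp r)) := by gcongr
      _ = 3 * q * Real.exp v / Real.exp r := by ring
      _ ≤ Real.exp r * ε * Real.exp v / Real.exp r := by gcongr
      _ = _ := by field_simp

end Pool.Agent.P.E2
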