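import Pool.Agent.P.MP_e94e4b_nt.E2.IfC

/-! Step C1. -/

namespace Pool.Agent.P.E2

open Finset Real Filter Topology MeasureTheory
open Pool.Agent.P.MP_e86632_nt (ee nn ee_add norm_ee ee_neg ee_zero)
open Pool.Agent.P.MP_8be758_nt.Avg (gs Rough red ft en nsq vau_g gs_pos gs_le_one gs_neg gs_anti)
open Pool.Agent.P.MP_e94e4b_nt.PF (mN sgm)
open ArithmeticFunction (vonMangoldt moebius)
open DirichletCharacter (LFunction)

namespace C1a

theorem three {x y z t : ℝ} (hx : 5 + x ≤ t) (hy : y ≤ t) (hz : z ≤ t) :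
    30 * Real.exp x + (Real.exp y / 3 + Real.exp z / 3) ≤ Real.exp t := by
  have h1 := Real.exp_le_exp.2 hx
  have h2 := Real.exp_le_exp.2 hy
  have h3 := Real.exp_le_exp.2 hz
  have h4 : (90 : ℝ) ≤ Real.exp 5 := by
    have := Real.exp_one_gt_d9
    rw [show (5 : ℝ) = (5 : ℕ) * 1 by norm_num, Real.exp_nat_mul]
    exact le_trans (by norm_num) (pow_le_pow_left₀ (by norm_num : (0 : ℝ) ≤ 2.5) (by linarith) 5)
  rw [Real.exp_add] at h1
  nlinarith [Real.exp_pos x]

end C1a

theorem p_C1 (hTAIL : S_TAIL) (hRNG : S_RNG) (hPH : S_PH) (hPW : S_PW) :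
    S_C1 := by
  filter_upwards [hRNG, hPH, ev_pe 64 13 (c := 14) (by norm_num), ev_pe1 12 13,
    ev_lin 10 11 (c := 1 / 2) (k := 13) (by norm_num) (by norm_num),
    ev_lin 10 7 (c := 1) (k := 26) one_pos (by norm_num), eventually_ge_atTop 0]
    with r rg ph0 e1 e2 e3 e4 r0 P v F p1 p2 hv hF
  have rg := rg P p1 p2
  have ph0 := ph0 P p1 p2
  have w0 := Th_pos r
  have iw : 1 / Th r = Real.exp (7 * r) := by rw [Th, Real.exp_neg, one_div, inv_inv]
  obtain ⟨s1, s2, -⟩ := hTAIL (fun n => vonMangoldt n) (Th r) v (1 / 4) w0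
    (Real.exp_le_one_iff.2 (by linarith)) (by norm_num)
    fun n => ⟨ArithmeticFunction.vonMangoldt_nonneg, lam_le n⟩
  have g0 := fun n : ℕ => gk_nonneg w0 (Real.log n - v)
  have l0 : ∀ n : ℕ, 0 ≤ vonMangoldt n * gk (Th r) (Real.log n - v) := fun n =>
    mul_nonneg ArithmeticFunction.vonMangoldt_nonneg (g0 n)
  have nm : ∀ (n : ℕ) (x : ℝ), 0 ≤ x → ‖F n * x * (gk (Th r) (Real.log n - v) : ℂ)‖ ≤
      x * gk (Th r) (Real.log n - v) := fun n x hx => by
    rw [mul_assoc, norm_mul, ← Complex.ofReal_mul, Complex.norm_real,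
      Real.norm_of_nonneg (mul_nonneg hx (g0 n))]
    exact mul_le_of_le_one_left (mul_nonneg hx (g0 n)) (hF n)
  have s3 := Summable.of_norm_bounded s1 fun n => nm n _ ArithmeticFunction.vonMangoldt_nonneg
  have s4 : Summable fun n : ℕ => if 1 / 4 ≤ |Real.log n - v| then
      vonMangoldt n * gk (Th r) (Real.log n - v) else 0 :=
    s1.of_nonneg_of_le (fun n => by split_ifs; exacts [l0 n, le_rfl]) fun n => by
      split_ifs; exacts [le_rfl, l0 n]
  have lP := Real.log_nonneg p1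
  have lP' := (Real.log_le_iff_le_exp (by linarith)).2 p2
  obtain ⟨v1, v2⟩ := abs_le.1 hv
  have c0 : 0 ≤ 2 * r ^ 13 * (2 * Real.exp (-r ^ 26)) := by positivity
  refine (HasSum.norm_le_of_bounded
    ((hasSum_subtype_iff_indicator.1 ((RN r P).hasSum _)).sub s3.hasSum)
    (s4.hasSum.add (hasSum_subtype_iff_indicator.1 ((RN r P).hasSum fun n =>
      (vonMangoldt n - th n + 2 * r ^ 13 * (2 * Real.exp (-r ^ 26))) * (1 / Th r))))
    fun n => ?_).trans ?_
  · obtain ⟨t0, t1⟩ := hPW.1 n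
    obtain ⟨q0, q1, -, q2⟩ := ph0 n
    by_cases hn : n ∈ RN r P
    · rw [Set.indicator_of_mem (mem_coe.2 hn), Set.indicator_of_mem (mem_coe.2 hn), norm_sub_rev,
        mul_comm _ (F n), ← sub_mul, ← mul_sub, ← Complex.ofReal_sub]
      have t2 := mul_le_of_le_one_right t0 q1
      refine (nm n _ (by linarith)).trans ?_
      split_ifs with h
      · exact le_add_of_le_of_nonneg (mul_le_mul_of_nonneg_right
          (sub_le_self _ (mul_nonneg t0 q0)) (g0 n)) (mul_nonneg (by linarith) (by positivity))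
      · obtain ⟨h1, h2⟩ := abs_lt.1 (not_le.1 h)
        have q3 := q2 (abs_le.2 ⟨by linarith, by linarith⟩)
        have t3 := (th_le_log n).trans (rg.rn n hn).2.2
        have t4 : th n * (1 - ph r P n) ≤ 2 * r ^ 13 * (2 * Real.exp (-r ^ 26)) :=
          mul_le_mul t3 (by linarith) (by linarith) (by positivity)
        rw [zero_add]
        exact mul_le_mul (by linarith) (gk_le w0 _) (g0 n) (by linarith)
    · rw [Set.indicator_of_notMem (mem_coe.not.2 hn), Set.indicator_of_notMem (mem_coe.not.2 hn),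
        zero_sub, norm_neg, add_zero]
      refine (nm n _ ArithmeticFunction.vonMangoldt_nonneg).trans ?_
      split_ifs with h
      · exact le_rfl
      · rcases n.eq_zero_or_pos with rfl | h0
        · simp
        obtain ⟨h1, h2⟩ := abs_lt.1 (not_le.1 h)
        exact absurd (rg.rn' n h0 hn) (not_le.2 (abs_lt.2 ⟨by linarith, by linarith⟩))
  have a0 : (0 : ℝ) < A2 r P := ((Real.exp_pos _).trans_le rg.a1).trans_le (by exact_mod_cast rg.a12)
  have a1 := (Real.log_le_iff_le_exp a0).2 rg.a2u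
  have a2 : √(A2 r P : ℝ) ≤ Real.exp ((r ^ 13 + 5) / 2) := by
    rw [Real.exp_half]; exact Real.sqrt_le_sqrt rg.a2u
  have a3 : ((RN r P).card : ℝ) ≤ Real.exp (r ^ 13 + 5) :=
    le_trans (by rw [RN, Nat.card_Ioc]; exact_mod_cast Nat.sub_le _ _) rg.a2u
  have a4 := hPW.2 _ (RN r P) fun n hn => (mem_Ioc.1 hn).2
  have a5 : 2 * √(A2 r P : ℝ) * Real.log (A2 r P) ≤
      Real.exp ((r ^ 13 + 5) / 2) * (Real.exp r / 3) := by
    rw [mul_comm 2, mul_assoc]
    exact mul_le_mul a2 (by linarith) (by have := Real.log_natCast_nonneg (A2 r P); positivity)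
      (by positivity)
  have a6 : (RN r P).card * (2 * r ^ 13 * (2 * Real.exp (-r ^ 26))) ≤
      Real.exp (r ^ 13 + 5) * (Real.exp r / 3 * Real.exp (-r ^ 26)) :=
    mul_le_mul a3 (by nlinarith [Real.exp_pos (-r ^ 26)]) c0 (by positivity)
  have a7 : (1 / 4 / Th r) ^ 2 = Real.exp (14 * r) / 16 := by
    rw [div_right_comm, iw, div_pow, ← Real.exp_nat_mul]
    congr 2 <;> norm_num
    ring
  rw [a7, div_eq_mul_one_div _ (Th r), iw] at s2
  rw [← sum_mul, sum_add_distrib, sum_const, nsmul_eq_mul, iw]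
  refine (add_le_add s2 (mul_le_mul_of_nonneg_right (add_le_add (a4.trans a5) a6)
    (Real.exp_pos _).le)).trans (le_trans (le_of_eq ?_) (C1a.three
      (x := 4 * v - Real.exp (14 * r) / 16 + 7 * r) (y := (r ^ 13 + 5) / 2 + r + 7 * r)
      (z := r ^ 13 + 5 + r + -r ^ 26 + 7 * r) (by linarith) (by linarith) (by linarith)))
  simp only [Real.exp_add]
  ring

end Pool.Agent.P.E2
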