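import Pool.Agent.P.MP_e94e4b_nt.E2.IfC

/-! Step CB. -/

namespace Pool.Agent.P.E2

open Finset Real Filter Topology MeasureTheory
open Pool.Agent.P.MP_e86632_nt (ee nn ee_add norm_ee ee_neg ee_zero)
open Pool.Agent.P.MP_8be758_nt.Avg (gs Rough red ft en nsq vau_g gs_pos gs_le_one gs_neg gs_anti)
open Pool.Agent.P.MP_e94e4b_nt.PF (mN sgm)
open ArithmeticFunction (vonMangoldt moebius)
open DirichletCharacter (LFunction)

namespace CBa

end CBa

theorem p_CB (hMS : S_MS) (hRNG : S_RNG) (hGS : S_GS) :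
    S_CB := by
  filter_upwards [hMS, hGS, eventually_ge_atTop 1, ev_lin 0 4 one_pos (k := 13) (by norm_num)]
    with r h1 h2 h3 h4 P x α hP hP' hx hx'
  have hX := XX_pos r
  have hx0 : 0 < x := hX.trans_le hx
  have l1 : r ^ 13 ≤ Real.log x := by rw [← log_XX]; exact Real.log_le_log hX hx
  have l2 : Real.log x ≤ 4 + r ^ 13 := by
    have h5 := Real.log_le_log hx0 hx'
    have h6 := Real.log_le_sub_one_of_pos (show (0 : ℝ) < 5 by norm_num)
    rw [Real.log_mul (by norm_num) hX.ne', log_XX] at h5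
    linarith
  have h7 := (h1 (Th r) (Real.log x) (Real.exp_le_exp.2 (by linarith))
    (Real.exp_le_exp.2 (by linarith)) (by linarith) (by linarith)).2 (Mr r)
    fun n hn => (mem_Icc.1 hn).1
  rw [Real.exp_log hx0] at h7
  rw [cb, norm_div, Complex.norm_real, Real.norm_of_nonneg hx0.le, div_le_iff₀ hx0]
  refine (norm_sum_le_of_le _
    (n := fun m : ℕ => 2 * r ^ 13 * gk (Th r) (Real.log m - Real.log x)) fun m _ => ?_).trans ?_
  · have h8 := (h2 P hP hP').1 m
    have h9 := gk_nonneg (Th_pos r) (Real.log m - Real.log x)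
    rw [norm_mul, norm_mul, norm_ee, mul_one, Complex.norm_real, Complex.norm_real,
      Real.norm_of_nonneg h8.1, Real.norm_of_nonneg h9]
    exact mul_le_mul_of_nonneg_right h8.2 h9
  · rw [← mul_sum]
    exact (mul_le_mul_of_nonneg_left h7 (by positivity)).trans_eq (by ring)

end Pool.Agent.P.E2
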