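import Pool.Agent.P.MP_e94e4b_nt.E2.IfC

/-! Step CH1. -/

namespace Pool.Agent.P.E2

open Finset Real Filter Topology MeasureTheory
open Pool.Agent.P.MP_e86632_nt (ee nn ee_add norm_ee ee_neg ee_zero)
open Pool.Agent.P.MP_8be758_nt.Avg (gs Rough red ft en nsq vau_g gs_pos gs_le_one gs_neg gs_anti)
open Pool.Agent.P.MP_e94e4b_nt.PF (mN sgm)
open ArithmeticFunction (vonMangoldt moebius)
open DirichletCharacter (LFunction)

namespace CH1a

theorem card_red (q : ℕ) : (red q).card = q.totient := by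
  rw [Nat.totient_eq_card_coprime, red]
  congr 1
  ext b
  simp [Nat.coprime_comm]

theorem unit_red {q b : ℕ} (h : b ∈ red q) : IsUnit (b : ZMod q) :=
  (ZMod.isUnit_iff_coprime b q).2 (mem_red.1 h).2

theorem unit_inv {q : ℕ} {x : ZMod q} (h : IsUnit x) : IsUnit x⁻¹ :=
  IsUnit.of_mul_eq_one x (ZMod.inv_mul_of_unit x h)

theorem ee_mod {q : ℕ} (hq : 0 < q) (a m : ℕ) :
    ee ((m % q : ℕ) * ((a : ℝ) / q)) = ee (m * ((a : ℝ) / q)) := by
  rw [← Pool.Agent.P.MP_e86632_nt.ee_add_int _ ((m / q * a : ℕ) : ℤ)]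
  congr 1
  have h : (m : ℝ) = (m % q : ℕ) + q * (m / q : ℕ) := by exact_mod_cast (Nat.mod_add_div m q).symm
  have h0 : (q : ℝ) ≠ 0 := by positivity
  rw [Int.cast_natCast, Nat.cast_mul]
  generalize ((m % q : ℕ) : ℝ) = u at *
  generalize ((m / q : ℕ) : ℝ) = v at *
  rw [h]
  field_simp

end CH1a

theorem p_CH1 :
    S_CH1 := by
  intro q _
  have hq : 0 < q := NeZero.pos q
  have ht : (q.totient : ℂ) ≠ 0 := Nat.cast_ne_zero.2 (Nat.totient_pos.2 hq).ne'
  refine ⟨?_, fun a ha => ⟨fun χ => (∑ b ∈ red q, χ (b : ZMod q)⁻¹ * ee (b * ((a : ℝ) / q))) /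
    q.totient, fun χ => ?_, ?_, fun m hm => ?_⟩⟩
  · rw [← Nat.card_eq_fintype_card,
      DirichletCharacter.card_eq_totient_of_hasEnoughRootsOfUnity ℂ q]
    exact Nat.totient_le q
  · rw [norm_div, Complex.norm_natCast]
    refine div_le_one_of_le₀ ((norm_sum_le_of_le _ (n := fun _ => (1 : ℝ)) fun b _ => ?_).trans ?_)
      (Nat.cast_nonneg _)
    · rw [norm_mul, norm_ee, mul_one]
      exact χ.norm_le_one _
    · simp [CH1a.card_red]
  · have h := Pool.Agent.P.MP_8be758_nt.Avg.t_FAR.2.2 q a hq ha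
    have e : ∑ b ∈ red q, (1 : DirichletCharacter ℂ q) (b : ZMod q)⁻¹ * ee (b * ((a : ℝ) / q)) =
        (moebius q : ℂ) := by
      rw [← h]
      refine sum_congr rfl fun b hb => ?_
      rw [MulChar.one_apply (CH1a.unit_inv (CH1a.unit_red hb)), one_mul]
      congr 1
      ring
    simp only [e, mf]
    push_cast
    rfl
  · have hmq : m % q ∈ red q :=
      mem_red.2 ⟨Nat.mod_lt _ hq, by rwa [Nat.Coprime, ← Nat.gcd_rec, Nat.gcd_comm]⟩
    have e : ∀ χ : DirichletCharacter ℂ q,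
        (∑ b ∈ red q, χ (b : ZMod q)⁻¹ * ee (b * ((a : ℝ) / q))) / q.totient * ch χ m =
          ∑ b ∈ red q, χ (b : ZMod q)⁻¹ * χ (m : ZMod q) * (ee (b * ((a : ℝ) / q)) / q.totient) :=
      fun χ => by
        rw [sum_div, sum_mul]
        refine sum_congr rfl fun b _ => ?_
        rw [ch]
        ring
    simp only [e]
    rw [sum_comm, sum_eq_single_of_mem _ hmq]
    · rw [← sum_mul, DirichletCharacter.sum_char_inv_mul_char_eq ℂ (CH1a.unit_red hmq),
        if_pos (ZMod.natCast_mod m q), CH1a.ee_mod hq, mul_div_cancel₀ _ ht]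
    · intro b hb hne
      rw [← sum_mul, DirichletCharacter.sum_char_inv_mul_char_eq ℂ (CH1a.unit_red hb), if_neg,
        zero_mul]
      intro h
      rw [ZMod.natCast_eq_natCast_iff', Nat.mod_eq_of_lt (mem_red.1 hb).1] at h
      exact hne h

end Pool.Agent.P.E2
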