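import Pool.Agent.P.MP_e94e4b_nt.E2.IfC

/-! Step CHR. -/

namespace Pool.Agent.P.E2

open Finset Real Filter Topology MeasureTheory
open Pool.Agent.P.MP_e86632_nt (ee nn ee_add norm_ee ee_neg ee_zero)
open Pool.Agent.P.MP_8be758_nt.Avg (gs Rough red ft en nsq vau_g gs_pos gs_le_one gs_neg gs_anti)
open Pool.Agent.P.MP_e94e4b_nt.PF (mN sgm)
open ArithmeticFunction (vonMangoldt moebius)
open DirichletCharacter (LFunction)

namespace CHRa

theorem cop {p q : ℕ} (hp : p.Prime) (hq : 1 ≤ q) (h : q < p) : p.Coprime q :=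
  (Nat.Prime.coprime_iff_not_dvd hp).2 fun hd => absurd (Nat.le_of_dvd hq hd) (by omega)

theorem lin {ι : Type} [Fintype ι] (r P θ v : ℝ) (F : ℕ → ℂ) (κ : ι → ℂ) (G : ι → ℕ → ℂ)
    (h : ∀ m, gE r P m ≠ 0 → F m = ∑ i, κ i * G i m) :
    Dl r P θ F v = ∑ i, κ i * Dl r P θ (G i) v := by
  simp only [Dl, mul_sum]
  rw [sum_comm]
  refine sum_congr rfl fun m _ => ?_
  by_cases h0 : gE r P m = 0
  · simp [h0]
  · rw [h m h0, mul_sum, sum_mul]
    exact sum_congr rfl fun i _ => by ring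

theorem int_le {ι : Type} [Fintype ι] (r P θ B : ℝ) (hθ : 0 < θ) (F : ℕ → ℂ) (κ : ι → ℂ)
    (G : ι → ℕ → ℂ) (hκ : ∀ i, ‖κ i‖ ≤ 1) (h : ∀ m, gE r P m ≠ 0 → F m = ∑ i, κ i * G i m)
    (hB : ∀ i, ∫ v : ℝ, ‖Dl r P θ (G i) v‖ ^ 2 ≤ B) :
    ∫ v : ℝ, ‖Dl r P θ F v‖ ^ 2 ≤ (Fintype.card ι : ℝ) ^ 2 * B := by
  have hi := fun i => int_Dl_sq r P hθ (G i)
  calc _ ≤ ∫ v : ℝ, (Fintype.card ι : ℝ) * ∑ i, ‖Dl r P θ (G i) v‖ ^ 2 := by
        refine integral_mono (int_Dl_sq r P hθ F)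
          ((integrable_finsetSum _ fun i _ => hi i).const_mul _) fun v => ?_
        simp only [lin r P θ v F κ G h]
        refine (norm_sum_sq_le _ _).trans ?_
        rw [card_univ]
        gcongr with i _
        rw [norm_mul]
        exact mul_le_of_le_one_left (norm_nonneg _) (hκ i)
    _ = (Fintype.card ι : ℝ) * ∑ i, ∫ v : ℝ, ‖Dl r P θ (G i) v‖ ^ 2 := by
        rw [integral_const_mul, integral_finsetSum _ fun i _ => hi i]
    _ ≤ (Fintype.card ι : ℝ) * ∑ _i : ι, B := by gcongr with i _; exact hB i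
    _ = _ := by rw [sum_const, card_univ, nsmul_eq_mul]; ring

end CHRa

theorem p_CHR (hRNG : S_RNG) (hGEO : S_GEO) (hGS : S_GS) (hCH1 : S_CH1) (hCHX : S_CHX) :
    S_CHR := by
  obtain ⟨b, hb⟩ := hCHX
  refine ⟨b, ?_⟩
  filter_upwards [hRNG, hGEO, hGS, hb, ev_lin 9 2 one_pos (k := 13) (by norm_num),
    ev_pp 8 one_pos (show 0 < 30 by norm_num), eventually_ge_atTop 1]
    with r hR hG hS hX h1 h2 hr P y K H hst hP q hq a ha
  have G := hG P y K H hst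
  have R := hR P G.p1 hst.p2
  obtain ⟨hq1, hqK⟩ := mem_Icc.1 hq
  have hqK' : (q : ℝ) ≤ K := by exact_mod_cast hqK
  have : NeZero q := ⟨by omega⟩
  obtain ⟨hc, hκ⟩ := hCH1 q
  obtain ⟨κ, hκ1, -, hκ2⟩ := hκ a (mem_red.1 ha).2
  have hXX := XX_pos r
  have hH1 : (1 : ℝ) ≤ H := G.p1.trans hst.h1
  have hθ1 : P / XX r ≤ (H : ℝ) ^ 2 / XX r := by
    gcongr
    nlinarith [hst.h1]
  have hθ2 : (H : ℝ) ^ 2 / XX r ≤ Th r := by
    rw [div_le_iff₀ hXX, Th, XX, ← Real.exp_add]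
    refine G.hu.trans ?_
    have h4 : (4 : ℝ) ≤ Real.exp 2 := by
      have h5 : Real.exp 2 = Real.exp 1 * Real.exp 1 := by rw [← Real.exp_add]; norm_num
      nlinarith [Real.add_one_le_exp 1]
    calc 4 * Real.exp (2 * r) ≤ Real.exp 2 * Real.exp (2 * r) := by gcongr
      _ = Real.exp (2 + 2 * r) := (Real.exp_add _ _).symm
      _ ≤ _ := Real.exp_le_exp.2 (by linarith)
  have key := CHRa.int_le r P ((H : ℝ) ^ 2 / XX r) (2 * XX r ^ 2 / r ^ 600) (by positivity)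
    (fun m => ee (m * ((a : ℝ) / q))) κ (fun χ => ch χ) hκ1 (fun m hm => ?_)
    fun χ => hX P _ q χ hP hst.p2 hθ1 hθ2 (hqK'.trans G.ke)
  · refine key.trans ?_
    have hc' : (Fintype.card (DirichletCharacter ℂ q) : ℝ) ≤ 2 * r ^ 110 :=
      le_trans (by exact_mod_cast hc) (hqK'.trans hst.k2)
    have hr0 : 0 < r := by linarith
    calc _ ≤ (2 * r ^ 110) ^ 2 * (2 * XX r ^ 2 / r ^ 600) := by gcongr
      _ = XX r ^ 2 / r ^ 350 * (8 / r ^ 30) := by field_simp; norm_num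
      _ ≤ XX r ^ 2 / r ^ 350 * 1 := by
          gcongr
          rw [div_le_one (by positivity)]
          simpa using h2
      _ = _ := mul_one _
  · obtain ⟨p, hp, n, hn, hn', rfl⟩ := (hS P G.p1 hst.p2).2.1 m hm
    obtain ⟨p1, p2, -⟩ := R.pp p hp
    have n2 := (R.rn n hn).2.1
    have k1 := G.kp
    have k2 := G.p1
    refine hκ2 _ (Nat.Coprime.mul_left (CHRa.cop p1 hq1 ?_) (CHRa.cop hn' hq1 ?_))
    · exact_mod_cast (show (q : ℝ) < p by linarith)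
    · exact_mod_cast (show (q : ℝ) < n by linarith)

end Pool.Agent.P.E2
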