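import Pool.Agent.P.MP_e94e4b_nt.E2.IfC

/-! Step CI. -/

namespace Pool.Agent.P.E2

open Finset Real Filter Topology MeasureTheory
open Pool.Agent.P.MP_e86632_nt (ee nn ee_add norm_ee ee_neg ee_zero)
open Pool.Agent.P.MP_8be758_nt.Avg (gs Rough red ft en nsq vau_g gs_pos gs_le_one gs_neg gs_anti)
open Pool.Agent.P.MP_e94e4b_nt.PF (mN sgm)
open ArithmeticFunction (vonMangoldt moebius)
open DirichletCharacter (LFunction)

theorem p_CI (hRNG : S_RNG) (hGS : S_GS) (hC0 : S_C0) :
    S_CI := by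
  intro q ε hq hε
  filter_upwards [hRNG, hGS, hC0 q ε hq hε, (tendsto_pow_atTop (α := ℝ) (n := 300)
    (by norm_num)).eventually_ge_atTop q] with r hR hG hC g P x a p1 p2 x1 x2 ha
  have P1 : 1 ≤ P := le_trans (by exact_mod_cast hq) (g.trans p1)
  have X0 := XX_pos r
  have x0 : 0 < x := X0.trans_le x1
  simp only [cb, mul_assoc]
  rw [(hG P P1 p2).2.2.2, rho, sum_mul, mul_sum, Complex.ofReal_sum, sum_div, ← sum_sub_distrib]
  refine norm_sum_le_of_le _ fun p hp => ?_
  obtain ⟨pr, b1, b2⟩ := (hR P P1 p2).pp p hp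
  have p0 : (0 : ℝ) < p := by linarith
  have e : Real.exp (Real.log x - Real.log p) = x * (1 / p) := by
    rw [Real.exp_sub, Real.exp_log x0, Real.exp_log p0, mul_one_div]
  have c1 := Real.log_le_log X0 x1
  have c2 := Real.log_le_log x0 (show x ≤ 2 ^ 2 * (5 / 4 * XX r) by linarith)
  have c3 := Real.log_le_log (by linarith) b1.le
  have c4 := Real.log_le_log p0 b2
  rw [Real.log_mul (by positivity) (by positivity), Real.log_mul (by positivity) X0.ne',
    Real.log_pow] at c2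
  rw [Real.log_mul two_ne_zero (by positivity)] at c4
  rw [log_XX] at c1 c2
  push_cast at c2
  have h := hC P (Real.log x - Real.log p) (p * a) P1 p2 (abs_le.2 ⟨by linarith [Real.log_two_lt_d9],
    by linarith [Real.log_two_lt_d9, Real.log_le_sub_one_of_pos (show (0 : ℝ) < 5 / 4 by norm_num)]⟩)
    (Nat.Coprime.mul_left (Nat.coprime_of_lt_prime (by omega)
      (by exact_mod_cast (g.trans p1).trans_lt b1) pr) ha)
  rw [e, mul_assoc, mul_left_comm ε, Complex.ofReal_mul x] at h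
  have x' : (x : ℂ) ≠ 0 := Complex.ofReal_ne_zero.2 x0.ne'
  rw [div_sub' x', norm_div, Complex.norm_real, Real.norm_of_nonneg x0.le, div_le_iff₀' x0]
  refine le_of_eq_of_le (congrArg (‖· - _‖) (sum_congr rfl fun n hn => ?_)) h
  have n0 : (n : ℝ) ≠ 0 := ((Real.exp_pos _).trans_le ((hR P P1 p2).rn n hn).1).ne'
  rw [mul_assoc, Nat.cast_mul, Nat.cast_mul, Real.log_mul p0.ne' n0]
  congr 3 <;> ring_nf

end Pool.Agent.P.E2
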