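import Pool.Agent.P.MP_e94e4b_nt.E2.IfC

/-! Step CI2. -/

namespace Pool.Agent.P.E2

open Finset Real Filter Topology MeasureTheory
open Pool.Agent.P.MP_e86632_nt (ee nn ee_add norm_ee ee_neg ee_zero)
open Pool.Agent.P.MP_8be758_nt.Avg (gs Rough red ft en nsq vau_g gs_pos gs_le_one gs_neg gs_anti)
open Pool.Agent.P.MP_e94e4b_nt.PF (mN sgm)
open ArithmeticFunction (vonMangoldt moebius)
open DirichletCharacter (LFunction)

namespace CI2a

theorem bd (A B : ℕ) (k : ℤ) {β : ℝ} (h0 : 0 < β) (h1 : β < 1) :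
    ‖ft (Ioc A B) (fun _ => 1) (β + k)‖ ^ 2 ≤ (1 / (1 - β) ^ 2 + 1 / β ^ 2) / 4 := by
  have h2 : 0 < 1 - β := sub_pos.2 h1
  have key : ∀ m, 0 < m → m ≤ nn (β + k) →
      ‖ft (Ioc A B) (fun _ => 1) (β + k)‖ ^ 2 ≤ 1 / m ^ 2 / 4 := fun m m0 hm => by
    simp only [ft, one_mul]
    calc _ ≤ (1 / (2 * m)) ^ 2 := by
          gcongr
          exact (Pool.Agent.P.MP_e86632_nt.geom_bound (m0.trans_le hm) A B).trans (by gcongr)
      _ = _ := by ring
  have a1 : 0 < 1 / β ^ 2 := by positivity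
  have a2 : 0 < 1 / (1 - β) ^ 2 := by positivity
  rcases le_or_gt (round (β + k)) k with h | h
  · have : (round (β + k) : ℝ) ≤ k := by exact_mod_cast h
    linarith [key β h0 (le_trans (by linarith) (le_abs_self _))]
  · have : (k : ℝ) + 1 ≤ round (β + k) := by exact_mod_cast h
    linarith [key _ h2 (le_trans (by linarith) (neg_le_abs _))]

noncomputable def G (β : ℝ) : ℝ := ((1 - β)⁻¹ - β⁻¹) / 4

theorem piece {φ : ℝ → ℝ} {a b c : ℝ} (h : a ≤ b) (h0 : c < a) (h1 : b < c + 1)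
    (hi : IntegrableOn φ (Set.Icc a b))
    (hφ : ∀ x ∈ Set.Ioo a b, φ x ≤ (1 / (1 - (x - c)) ^ 2 + 1 / (x - c) ^ 2) / 4) :
    ∫ x in a..b, φ x ≤ G (b - c) - G (a - c) := by
  have hd : ∀ x ∈ Set.Icc a b, HasDerivAt (fun x => G (x - c))
      ((1 / (1 - (x - c)) ^ 2 + 1 / (x - c) ^ 2) / 4) x := fun x hx => by
    have d := (hasDerivAt_id' x).sub_const c
    have := (((d.const_sub 1).inv (by linarith [hx.2] : 0 < 1 - (x - c)).ne').sub
      (d.inv (by linarith [hx.1] : 0 < x - c).ne')).div_const 4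
    exact this.congr_deriv (by ring)
  exact intervalIntegral.integral_le_sub_of_hasDeriv_right_of_le h
    (fun x hx => (hd x hx).continuousAt.continuousWithinAt)
    (fun x hx => (hd x (Set.Ioo_subset_Icc_self hx)).hasDerivWithinAt) hi hφ

end CI2a

theorem p_CI2 :
    S_CI2 := by
  intro A B η θ h0 h1 h2
  set φ := Set.indicator {α : ℝ | η ≤ |α - θ|}
    (fun α => ‖ft (Ioc A B) (fun _ => 1) (α - θ)‖ ^ 2) with hφ
  have hi : ∀ a b, IntegrableOn φ (Set.Icc a b) := fun a b =>
    (Continuous.integrableOn_Icc (by unfold ft; fun_prop)).indicator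
      (measurableSet_le measurable_const (by fun_prop))
  have ii : ∀ a b, IntervalIntegrable φ volume a b := fun a b =>
    (hi _ _).intervalIntegrable
  have le : ∀ x, φ x ≤ ‖ft (Ioc A B) (fun _ => 1) (x - θ)‖ ^ 2 :=
    Set.indicator_le_self' fun _ _ => by positivity
  have a1 := CI2a.piece (a := -η) (b := θ - η) (c := θ - 1) (by linarith) (by linarith)
    (by linarith) (hi _ _) fun x hx => (le x).trans (by
      have := CI2a.bd A B (-1) (β := x - (θ - 1)) (by linarith [hx.1]) (by linarith [hx.2])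
      rwa [show x - (θ - 1) + (-1 : ℤ) = x - θ by push_cast; ring] at this)
  have a2 := CI2a.piece (a := θ + η) (b := -η + 1) (c := θ) (by linarith) (by linarith)
    (by linarith) (hi _ _) fun x hx => (le x).trans (by
      simpa using CI2a.bd A B 0 (β := x - θ) (by linarith [hx.1]) (by linarith [hx.2]))
  have a3 : ∫ x in (θ - η)..(θ + η), φ x ≤ ∫ _ in (θ - η)..(θ + η), (0 : ℝ) :=
    intervalIntegral.integral_mono_on_of_le_Ioo (by linarith) (ii _ _) intervalIntegrable_const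
      fun x hx => (Set.indicator_of_notMem (s := {α : ℝ | η ≤ |α - θ|}) (not_le.2 (show |x - θ| < η
        from abs_lt.2 ⟨by linarith [hx.1], by linarith [hx.2]⟩)) _).le
  rw [← intervalIntegral.integral_add_adjacent_intervals (ii _ (θ - η)) (ii _ _),
    ← intervalIntegral.integral_add_adjacent_intervals (ii (θ - η) (θ + η)) (ii _ _)]
  rw [show θ - η - (θ - 1) = 1 - η by ring, show -η - (θ - 1) = -η + 1 - θ by ring] at a1
  rw [add_sub_cancel_left] at a2
  rw [intervalIntegral.integral_zero] at a3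
  have a4 : 0 < (1 - η)⁻¹ := inv_pos.2 (by linarith)
  have a5 : 0 < η⁻¹ := inv_pos.2 h0
  have a6 : CI2a.G (1 - η) - CI2a.G η ≤ 1 / η := by
    rw [CI2a.G, CI2a.G, sub_sub_cancel, one_div]
    linarith
  linarith

end Pool.Agent.P.E2
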