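import Pool.Agent.P.MP_e94e4b_nt.E2.IfZ

/-! Step CMP. -/

namespace Pool.Agent.P.E2

open Finset Real Filter Topology MeasureTheory
open Pool.Agent.P.MP_e86632_nt (ee nn ee_add norm_ee ee_neg ee_zero)
open Pool.Agent.P.MP_8be758_nt.Avg (gs Rough red ft en nsq vau_g gs_pos gs_le_one gs_neg gs_anti)
open Pool.Agent.P.MP_e94e4b_nt.PF (mN sgm)
open ArithmeticFunction (vonMangoldt moebius)
open DirichletCharacter (LFunction)

namespace CMPa

theorem card_le (C : Finset ℕ) (u R : ℝ) (hR : 0 ≤ R) (h : ∀ m ∈ C, |(m : ℝ) - u| ≤ R) :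
    (C.card : ℝ) ≤ 2 * R + 1 := by
  rcases C.eq_empty_or_nonempty with rfl | hC
  · simp only [card_empty, Nat.cast_zero]; positivity
  have h1 : C ⊆ Icc (C.min' hC) (C.max' hC) := fun m hm =>
    mem_Icc.2 ⟨min'_le _ _ hm, le_max' _ _ hm⟩
  have h2 := card_le_card h1
  have h3 : C.min' hC ≤ C.max' hC := min'_le _ _ (max'_mem _ _)
  rw [Nat.card_Icc] at h2
  have h4 : C.card + C.min' hC ≤ C.max' hC + 1 := by omega
  have h5 : (C.card : ℝ) + (C.min' hC : ℕ) ≤ (C.max' hC : ℕ) + 1 := by exact_mod_cast h4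
  have h6 := abs_le.1 (h _ (min'_mem _ hC))
  have h7 := abs_le.1 (h _ (max'_mem _ hC))
  linarith [h6.1, h7.2]

theorem log_near {d : ℝ} (hd : |d| ≤ 22 / 100) : |d - Real.log (1 + d)| ≤ 13 / 10 * d ^ 2 := by
  obtain ⟨h1, h2⟩ := abs_le.1 hd
  have h0 : 0 < 1 + d := by linarith
  have h3 := Real.log_le_sub_one_of_pos h0
  have h4 := Real.one_sub_inv_le_log_of_pos h0
  have h5 : (1 + d)⁻¹ ≤ 1 - d + 13 / 10 * d ^ 2 := by
    rw [inv_le_iff_one_le_mul₀ h0]
    nlinarith [sq_nonneg d, mul_nonneg (sq_nonneg d) (show 0 ≤ d + 22 / 100 by linarith)]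
  rw [abs_of_nonneg (by linarith)]
  linarith

theorem central {u x w W ε m : ℝ} (hu : 0 < u) (hw : 0 < w) (hW : 1 ≤ W)
    (hx : |x - u| ≤ ε * u) (hε : W * w ≤ ε) (hε1 : ε ≤ 1 / 10)
    (hm : |m - u| ≤ 2 * W * (w * x)) :
    |(m - u) / (w * x) - (Real.log m - Real.log u) / w| ≤ 9 * (W * ε) := by
  obtain ⟨x1, x2⟩ := abs_le.1 hx
  have ht : 0 < W * w := by positivity
  have hε0 : 0 < ε := ht.trans_le hε
  have x3 : 9 / 10 * u ≤ x := by nlinarith
  have x4 : x ≤ 11 / 10 * u := by nlinarith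
  have x0 : 0 < x := by linarith
  obtain ⟨d, hd⟩ : ∃ d, d = (m - u) / u := ⟨_, rfl⟩
  have hm1 : m = u * (1 + d) := by rw [hd]; field_simp; ring
  have hd1 : |d| ≤ 22 / 10 * (W * w) := by
    rw [hd, abs_div, abs_of_pos hu, div_le_iff₀ hu]
    nlinarith
  have hd2 : |d| ≤ 22 / 100 := by linarith
  have h0 : 0 < 1 + d := by linarith [(abs_le.1 hd2).1]
  have hl : Real.log m - Real.log u = Real.log (1 + d) := by
    rw [hm1, Real.log_mul hu.ne' h0.ne']; ring
  have e : (m - u) / (w * x) - (Real.log m - Real.log u) / w =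
      (d * ((u - x) / x) + (d - Real.log (1 + d))) / w := by
    rw [hl, hm1]; field_simp; ring
  have h1 : |(u - x) / x| ≤ 10 / 9 * ε := by
    rw [abs_div, abs_of_pos x0, div_le_iff₀ x0, abs_sub_comm]
    nlinarith
  have h2 := log_near hd2
  have h3 : d ^ 2 ≤ (22 / 10 * (W * w)) * (22 / 10 * ε) := by
    rw [← sq_abs, pow_two]
    exact mul_le_mul hd1 (by linarith) (abs_nonneg _) (by positivity)
  have h4 : |d * ((u - x) / x)| ≤ (22 / 10 * (W * w)) * (10 / 9 * ε) := by
    rw [abs_mul]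
    exact mul_le_mul hd1 h1 (abs_nonneg _) (by positivity)
  rw [e, abs_div, abs_of_pos hw, div_le_iff₀ hw]
  refine (abs_add_le _ _).trans ?_
  have h5 : 0 < W * w * ε := by positivity
  nlinarith

theorem outer {u x w W ε m : ℝ} (hu : 0 < u) (hw : 0 < w) (hW : 1 ≤ W)
    (hx : |x - u| ≤ ε * u) (hε : W * w ≤ ε) (hε1 : ε ≤ 1 / 10) (hm0 : 0 < m)
    (hm : ¬ |m - u| ≤ 2 * W * (w * x)) : W * w ≤ |Real.log m - Real.log u| := by
  obtain ⟨x1, x2⟩ := abs_le.1 hx
  have ht : 0 < W * w := by positivity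
  have x3 : 9 / 10 * u ≤ x := by nlinarith
  obtain ⟨t, htt⟩ : ∃ t, t = W * w := ⟨_, rfl⟩
  have h1 : 18 / 10 * t * u < |m - u| := by
    have : 18 / 10 * t * u ≤ 2 * W * (w * x) := by rw [htt]; nlinarith
    linarith [not_le.1 hm]
  rw [← htt] at ht hε ⊢
  rw [← Real.log_div hm0.ne' hu.ne']
  have hq : 0 < m / u := by positivity
  rcases lt_abs.1 h1 with h | h
  · refine le_trans ?_ (le_abs_self _)
    refine le_trans ?_ (Real.one_sub_inv_le_log_of_pos hq)
    rw [inv_div, le_sub_comm, div_le_iff₀ hm0]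
    have h2 : 0 < t * u := by positivity
    nlinarith [mul_nonneg (show 0 ≤ 1 - t by linarith) (show 0 ≤ m - u - 18 / 10 * t * u by linarith)]
  · refine le_trans ?_ (neg_le_abs _)
    have h2 := Real.log_le_sub_one_of_pos hq
    have h3 : m / u ≤ 1 - t := by
      rw [div_le_iff₀ hu]
      have h2 : 0 < t * u := by positivity
      nlinarith
    linarith

end CMPa

theorem p_CMP :
    S_CMP := by
  intro u x w W ε B I S b hu hw hW ha hx hε hε1 hB hb hS hIS
  classical
  have ha0 : 0 < w * x := by linarith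
  have x0 : 0 < x := (pos_iff_pos_of_mul_pos ha0).1 hw
  have hε0 : 0 < ε := lt_of_lt_of_le (by positivity) hε
  have hW0 : 0 ≤ W := by linarith
  set C : ℕ → Prop := fun m => |(m : ℝ) - u| ≤ 2 * W * (w * x) with hC
  set g1 : ℕ → ℝ := fun m => gk (w * x) (m - u) with hg1
  set g2 : ℕ → ℝ := fun m => gk w (Real.log m - Real.log u) / x with hg2
  have hF : S.filter C = I.filter C := by
    ext m; simp only [mem_filter]
    exact and_congr_left fun h => (hIS m h).symm
  have e : ∑ m ∈ I, b m * (gk (w * x) (m - u) : ℂ) -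
      (∑ m ∈ S, b m * (gk w (Real.log m - Real.log u) : ℂ)) / x =
      ∑ m ∈ I.filter C, b m * ((g1 m - g2 m : ℝ) : ℂ) +
        (∑ m ∈ I.filter (fun m => ¬ C m), b m * (g1 m : ℂ) -
          ∑ m ∈ S.filter (fun m => ¬ C m), b m * (g2 m : ℂ)) := by
    have e1 : (∑ m ∈ S, b m * (gk w (Real.log m - Real.log u) : ℂ)) / x =
        ∑ m ∈ S, b m * (g2 m : ℂ) := by
      rw [sum_div]
      refine sum_congr rfl fun m _ => ?_
      simp only [hg2]; push_cast; ring
    rw [e1, ← sum_filter_add_sum_filter_not I C, ← sum_filter_add_sum_filter_not S C, hF]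
    simp only [Complex.ofReal_sub, mul_sub, sum_sub_distrib, hg1]
    ring
  have nb : ∀ (T : Finset ℕ) (g : ℕ → ℝ) (c : ℝ), (∀ m ∈ T, |g m| ≤ c) →
      ‖∑ m ∈ T, b m * (g m : ℂ)‖ ≤ T.card * (B * c) := by
    intro T g c h
    refine (norm_sum_le_of_le _ (n := fun _ => B * c) fun m hm => ?_).trans (by simp)
    rw [norm_mul, Complex.norm_real, Real.norm_eq_abs]
    exact mul_le_mul (hb m) (h m hm) (abs_nonneg _) hB
  have hE := Real.exp_pos (-W ^ 2)
  have h1 := nb (I.filter C) (fun m => g1 m - g2 m) (18 * (W * ε) / (w * x)) fun m hm => by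
    have h := CMPa.central hu hw hW hx hε hε1 (mem_filter.1 hm).2
    simp only [hg1, hg2, gk]
    rw [div_div, ← sub_div, abs_div, abs_of_pos ha0]
    refine div_le_div_of_nonneg_right ((gs_lip _ _).trans ?_) ha0.le
    linarith
  have h2 := nb (I.filter fun m => ¬ C m) g1 (Real.exp (-W ^ 2)) fun m hm => by
    have h := not_le.1 (mem_filter.1 hm).2
    simp only [hg1]
    rw [abs_of_nonneg (gk_nonneg ha0 _)]
    refine (gk_le_exp ha0 hW0 (by nlinarith)).trans (div_le_self hE.le ha)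
  have h3 := nb (S.filter fun m => ¬ C m) g2 (Real.exp (-W ^ 2)) fun m hm => by
    have hm0 : (0 : ℝ) < m := by exact_mod_cast hS m (mem_filter.1 hm).1
    have h := CMPa.outer hu hw hW hx hε hε1 hm0 (mem_filter.1 hm).2
    simp only [hg2]
    rw [abs_of_nonneg (div_nonneg (gk_nonneg hw _) x0.le)]
    refine (div_le_div_of_nonneg_right (gk_le_exp hw hW0 h) x0.le).trans ?_
    rw [div_div]
    exact div_le_self hE.le ha
  have c1 := CMPa.card_le (I.filter C) u _ (by positivity) fun m hm => (mem_filter.1 hm).2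
  have c2 : ((I.filter fun m => ¬ C m).card : ℝ) ≤ I.card := by
    exact_mod_cast card_filter_le _ _
  have c3 : ((S.filter fun m => ¬ C m).card : ℝ) ≤ S.card := by
    exact_mod_cast card_filter_le _ _
  have c4 : ((I.filter C).card : ℝ) ≤ 5 * W * (w * x) := by nlinarith
  have h4 : ((I.filter C).card : ℝ) * (B * (18 * (W * ε) / (w * x))) ≤ B * (100 * W ^ 2 * ε) := by
    refine (mul_le_mul_of_nonneg_right c4 (by positivity)).trans ?_
    have : 5 * W * (w * x) * (B * (18 * (W * ε) / (w * x))) = B * (90 * W ^ 2 * ε) := by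
      field_simp; ring
    rw [this]
    have : 0 ≤ W ^ 2 * ε := by positivity
    exact mul_le_mul_of_nonneg_left (by linarith) hB
  have h5 := mul_le_mul_of_nonneg_right c2 (mul_nonneg hB hE.le)
  have h6 := mul_le_mul_of_nonneg_right c3 (mul_nonneg hB hE.le)
  rw [e]
  refine (norm_add_le _ _).trans ?_
  have h7 := norm_sub_le (∑ m ∈ I.filter (fun m => ¬ C m), b m * (g1 m : ℂ))
    (∑ m ∈ S.filter (fun m => ¬ C m), b m * (g2 m : ℂ))
  linarith

end Pool.Agent.P.E2
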