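import Pool.Agent.P.MP_e94e4b_nt.E2.IfC

/-! Step CNT. -/

namespace Pool.Agent.P.E2

open Finset Real Filter Topology MeasureTheory
open Pool.Agent.P.MP_e86632_nt (ee nn ee_add norm_ee ee_neg ee_zero)
open Pool.Agent.P.MP_8be758_nt.Avg (gs Rough red ft en nsq vau_g gs_pos gs_le_one gs_neg gs_anti)
open Pool.Agent.P.MP_e94e4b_nt.PF (mN sgm)
open ArithmeticFunction (vonMangoldt moebius)
open DirichletCharacter (LFunction)

namespace CNTa

theorem icc (x D : ℝ) (hD : 0 ≤ D) : ((Icc ⌈x - D⌉ ⌊x + D⌋).card : ℝ) ≤ 2 * D + 1 := by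
  rw [Int.card_Icc]
  rcases le_or_gt 0 (⌊x + D⌋ + 1 - ⌈x - D⌉) with h | h
  · have h1 : (((⌊x + D⌋ + 1 - ⌈x - D⌉).toNat : ℤ) : ℝ) = ((⌊x + D⌋ + 1 - ⌈x - D⌉ : ℤ) : ℝ) := by
      rw [Int.toNat_of_nonneg h]
    push_cast at h1
    rw [h1]
    linarith [Int.floor_le (x + D), Int.le_ceil (x - D)]
  · rw [Int.toNat_of_nonpos h.le]
    simp only [Nat.cast_zero]
    linarith

theorem fib (α δ : ℝ) (a : ℤ) (q b : ℕ) (hq : 1 ≤ q) (ha : IsCoprime a q) (hδ : 0 ≤ δ)
    (h : |α - a / q| ≤ 1 / (q : ℝ) ^ 2) (S : Finset ℕ)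
    (hS : ∀ j ∈ S, nn (j * α) ≤ δ ∧ j / q = b) : (S.card : ℝ) ≤ 2 * δ * q + 3 := by
  have hq0 : (0 : ℝ) < q := by exact_mod_cast hq
  have h1 : S.card ≤ (Icc ⌈-((q : ℝ) ^ 2 * b * α) - (δ * q + 1)⌉
      ⌊-((q : ℝ) ^ 2 * b * α) + (δ * q + 1)⌋).card := by
    refine card_le_card_of_injOn (fun j => ((j % q : ℕ) : ℤ) * a - q * round (j * α))
      (fun j hj => ?_) fun j hj j' hj' e => ?_
    · obtain ⟨k1, k2⟩ := hS j hj
      have k3 : (j : ℝ) = q * b + (j % q : ℕ) := by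
        exact_mod_cast (k2 ▸ (Nat.div_add_mod j q).symm : j = q * b + j % q)
      have k4 : ((j % q : ℕ) : ℝ) ≤ q := by exact_mod_cast (Nat.mod_lt j hq).le
      have k5 : (((j % q : ℕ) : ℝ) * a - q * round (j * α)) + (q : ℝ) ^ 2 * b * α =
          q * (j * α - round (j * α)) - q * (j % q : ℕ) * (α - a / q) := by
        generalize (round ((j : ℝ) * α) : ℝ) = R
        rw [k3]
        field_simp
        ring
      have k6 : |(q : ℝ) * (j * α - round (j * α))| ≤ δ * q := by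
        rw [abs_mul, abs_of_pos hq0, mul_comm]
        exact mul_le_mul_of_nonneg_right k1 hq0.le
      have k7 : |(q : ℝ) * (j % q : ℕ) * (α - a / q)| ≤ 1 := by
        rw [abs_mul, abs_of_nonneg (by positivity)]
        calc (q : ℝ) * (j % q : ℕ) * |α - a / q| ≤ q * q * (1 / (q : ℝ) ^ 2) := by gcongr
          _ = 1 := by field_simp
      rw [abs_le] at k6 k7
      rw [mem_coe, mem_Icc, Int.ceil_le, Int.le_floor]
      rw [Int.cast_sub, Int.cast_mul, Int.cast_mul, Int.cast_natCast, Int.cast_natCast]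
      constructor <;> linarith
    · have k1 : (q : ℤ) ∣ (((j % q : ℕ) : ℤ) - (j' % q : ℕ)) * a :=
        ⟨round (j * α) - round (j' * α), by simp only at e; linear_combination e⟩
      have k2 := ha.symm.dvd_of_dvd_mul_right k1
      have k3 := Nat.mod_lt j hq
      have k4 := Nat.mod_lt j' hq
      have k5 := Int.eq_zero_of_abs_lt_dvd k2 (by rw [abs_lt]; constructor <;> omega)
      rw [← Nat.div_add_mod j q, ← Nat.div_add_mod j' q, (hS j hj).2, (hS j' hj').2]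
      omega
  have h2 := icc (-((q : ℝ) ^ 2 * b * α)) (δ * q + 1) (by positivity)
  have h3 : (S.card : ℝ) ≤ _ := Nat.cast_le.2 h1
  linarith

end CNTa

theorem p_CNT :
    S_CNT := by
  intro α δ a q J hq ha hδ h
  rw [card_eq_sum_card_fiberwise (f := fun j => j / q) (t := range (J / q + 1)) fun j hj =>
    mem_coe.2 (mem_range.2 (Nat.lt_succ_of_le
      (Nat.div_le_div_right (mem_Icc.1 (mem_filter.1 hj).1).2)))]
  push_cast
  refine (sum_le_card_nsmul _ _ (2 * δ * q + 3) fun b _ => CNTa.fib α δ a q b hq ha hδ h _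
    fun j hj => ⟨(mem_filter.1 (mem_filter.1 hj).1).2, (mem_filter.1 hj).2⟩).trans ?_
  rw [card_range, nsmul_eq_mul]
  push_cast
  gcongr
  exact Nat.cast_div_le

end Pool.Agent.P.E2
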