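import Pool.Agent.P.MP_e94e4b_nt.E2.IfD

/-! Step CONV. -/

namespace Pool.Agent.P.E2

open Finset Real Filter Topology MeasureTheory
open Pool.Agent.P.MP_e86632_nt (ee nn ee_add norm_ee ee_neg ee_zero)
open Pool.Agent.P.MP_8be758_nt.Avg (gs Rough red ft en nsq vau_g gs_pos gs_le_one gs_neg gs_anti)
open Pool.Agent.P.MP_e94e4b_nt.PF (mN sgm)
open ArithmeticFunction (vonMangoldt moebius)
open DirichletCharacter (LFunction)

namespace CONVa

theorem cs {a B : ℝ} (ha : 0 < a) {h : ℝ → ℝ} (hc : Continuous h) (hB : ∀ s, |h s| ≤ B) :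
    (∫ s, gs (s / a) * h s) ^ 2 ≤ a * ∫ s, gs (s / a) * h s ^ 2 := by
  have i1 := int_gs_mul ha hc hB
  have i2 := int_gs_mul (B := B ^ 2) (F := fun s => h s ^ 2) ha (hc.pow 2) fun s => by
    rw [abs_pow]
    exact pow_le_pow_left₀ (abs_nonneg _) (hB s) 2
  obtain ⟨I, hI⟩ : ∃ I, I = ∫ s, gs (s / a) * h s := ⟨_, rfl⟩
  have h1 : ∫ s, 2 * a * I * (gs (s / a) * h s) ≤
      ∫ s, (a ^ 2 * (gs (s / a) * h s ^ 2) + I ^ 2 * gs (s / a)) :=
    integral_mono (i1.const_mul _) ((i2.const_mul _).add ((gs_integrable ha).const_mul _)) fun s =>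
      by nlinarith [mul_nonneg (gs_pos (s / a)).le (sq_nonneg (a * h s - I))]
  rw [integral_add (i2.const_mul _) ((gs_integrable ha).const_mul _), integral_const_mul,
    integral_const_mul, integral_const_mul, gs_integral ha, ← hI] at h1
  rw [← hI]
  exact le_of_mul_le_mul_left (by linarith) ha

end CONVa

theorem p_CONV :
    S_CONV := by
  intro Q Φ U a w E Bq m ha hw hE cQ cΦ hQ hΦ mU fU hm h
  have hQ2 : ∀ t, ‖Q t‖ ^ 2 ≤ Bq ^ 2 := fun t => pow_le_pow_left₀ (norm_nonneg _) (hQ t) 2
  have m0 : 0 ≤ m := measureReal_nonneg.trans hm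
  have gi := gs_integrable ha
  have iF : Integrable (Function.uncurry fun t s => gs (s / a) * ‖Q (t - s)‖ ^ 2)
      ((volume.restrict U).prod volume) :=
    (Integrable.mul_prod (integrableOn_const (C := Bq ^ 2) fU) gi).mono'
      (Continuous.aestronglyMeasurable (by fun_prop)) (ae_of_all _ fun p => by
        rw [Function.uncurry, Real.norm_of_nonneg (mul_nonneg (gs_pos _).le (sq_nonneg _)), mul_comm]
        exact mul_le_mul_of_nonneg_right (hQ2 _) (gs_pos _).le)
  have iT := (gi.const_mul (Bq ^ 2 * m)).indicator (meas_abs_ge (a * w))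
  calc _ ≤ ∫ t in U, 36 * a * ∫ s, gs (s / a) * ‖Q (t - s)‖ ^ 2 := by
        refine integral_mono_of_nonneg (ae_of_all _ fun t => sq_nonneg _)
          (iF.integral_prod_left.const_mul _) (ae_of_all _ fun t => ?_)
        have hb : ∀ s, |‖Q (t - s)‖| ≤ Bq := fun s => (abs_norm _).trans_le (hQ _)
        have h1 : ‖∫ s, Φ s * Q (t - s)‖ ≤ ∫ s, 6 * (gs (s / a) * ‖Q (t - s)‖) :=
          norm_integral_le_of_norm_le ((int_gs_mul ha (by fun_prop) hb).const_mul _)
            (ae_of_all _ fun s => by
              rw [norm_mul, ← mul_assoc]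
              exact mul_le_mul_of_nonneg_right (hΦ s) (norm_nonneg _))
        have h2 := pow_le_pow_left₀ (norm_nonneg _) h1 2
        rw [integral_const_mul, mul_pow] at h2
        linarith [CONVa.cs ha (by fun_prop) hb]
    _ = 36 * a * ∫ s, gs (s / a) * ∫ t in U, ‖Q (t - s)‖ ^ 2 := by
        rw [integral_const_mul, integral_integral_swap iF]
        simp only [integral_const_mul]
    _ ≤ 36 * a * ∫ s, (E * gs (s / a) +
          {s : ℝ | a * w ≤ |s|}.indicator (fun s => Bq ^ 2 * m * gs (s / a)) s) := by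
        refine mul_le_mul_of_nonneg_left (integral_mono_of_nonneg (ae_of_all _ fun s =>
          mul_nonneg (gs_pos _).le (integral_nonneg fun _ => sq_nonneg _))
          ((gi.const_mul _).add iT) (ae_of_all _ fun s => ?_)) (by positivity)
        have g0 := gs_pos (s / a)
        by_cases e : a * w ≤ |s|
        · have : ∫ t in U, ‖Q (t - s)‖ ^ 2 ≤ Bq ^ 2 * m := by
            refine (integral_mono_of_nonneg (ae_of_all _ fun t => sq_nonneg _)
              (integrableOn_const (C := Bq ^ 2) fU) (ae_of_all _ fun t => hQ2 _)).trans ?_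
            rw [setIntegral_const, smul_eq_mul, mul_comm]
            exact mul_le_mul_of_nonneg_left hm (sq_nonneg _)
          simp only [Set.indicator_of_mem (show s ∈ {s : ℝ | a * w ≤ |s|} from e)]
          nlinarith [mul_nonneg hE g0.le]
        · simp only [Set.indicator_of_notMem (show s ∉ {s : ℝ | a * w ≤ |s|} from e)]
          nlinarith [h s (not_le.1 e).le]
    _ ≤ 36 * a * (E * a + Bq ^ 2 * m * (2 * a * Real.exp (-w ^ 2))) := by
        rw [integral_add (gi.const_mul _) iT, integral_indicator (meas_abs_ge _),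
          integral_const_mul, integral_const_mul, gs_integral ha]
        gcongr
        exact gs_tail ha hw
    _ = _ := by ring

end Pool.Agent.P.E2
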