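import Pool.Agent.P.MP_e94e4b_nt.E2.IfC

/-! Step CP. -/

namespace Pool.Agent.P.E2

open Finset Real Filter Topology MeasureTheory
open Pool.Agent.P.MP_e86632_nt (ee nn ee_add norm_ee ee_neg ee_zero)
open Pool.Agent.P.MP_8be758_nt.Avg (gs Rough red ft en nsq vau_g gs_pos gs_le_one gs_neg gs_anti)
open Pool.Agent.P.MP_e94e4b_nt.PF (mN sgm)
open ArithmeticFunction (vonMangoldt moebius)
open DirichletCharacter (LFunction)

namespace CPa

theorem am {ν : ℝ} (hν : 0 < ν) (x y : ℝ) : x * y ≤ ν * x ^ 2 + y ^ 2 / ν := by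
  have h : ν * x ^ 2 + y ^ 2 / ν - x * y = ((ν * x - y / 2) ^ 2 + 3 / 4 * y ^ 2) / ν := by
    field_simp
    ring
  rw [← sub_nonneg, h]
  positivity

theorem tm {ν Jc : ℝ} (hν : 0 < ν) {F W : ℂ} (hW : ‖W‖ ≤ Jc) (D : ℂ) :
    ‖F * D * W‖ ≤ Jc * (ν * ‖F‖ ^ 2 + ‖D‖ ^ 2 / ν) := by
  rw [norm_mul, norm_mul, mul_comm]
  exact mul_le_mul hW (am hν _ _) (by positivity) ((norm_nonneg _).trans hW)

end CPa

theorem p_CP :
    S_CP := by
  classical
  intro ι R θ c D F G W α η w0 Jc μ ν hμ hν hw hW hs hm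
  have hJ := (norm_nonneg _).trans hW
  have ht : ∀ S ⊆ R, (∀ j ∈ S, η ≤ |α - θ j|) → ‖∑ j ∈ S, c j * (F * D j * W)‖ ≤
      Jc * ∑ j ∈ R, ‖c j‖ * (ν * ‖F‖ ^ 2 + (if η ≤ |α - θ j| then ‖D j‖ ^ 2 else 0) / ν) := by
    intro S hS h
    rw [mul_sum]
    refine (norm_sum_le_of_le _ fun j hj => ?_).trans
      (sum_le_sum_of_subset_of_nonneg hS fun j _ _ => by positivity)
    rw [if_pos (h j hj), norm_mul, mul_left_comm]
    exact mul_le_mul_of_nonneg_left (CPa.tm hν hW _) (norm_nonneg _)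
  by_cases h : ∀ j ∈ R, η ≤ |α - θ j|
  · refine norm_sub_le_of_le (le_add_of_le_of_nonneg ?_ (by positivity)) (ht R Subset.rfl h)
    rw [norm_mul, norm_mul, mul_comm]
    exact mul_le_mul (hm h) (by simpa using CPa.am one_pos ‖F‖ ‖G‖) (by positivity) hw
  · push Not at h
    obtain ⟨j, hj, h⟩ := h
    rw [← add_sum_erase _ _ hj, ← sub_sub,
      show F * G * W - c j * (F * D j * W) = F * (G - c j * D j) * W by ring]
    refine norm_sub_le_of_le (le_add_of_nonneg_of_le (by positivity) ((CPa.tm hμ hW _).trans ?_))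
      (ht _ (erase_subset _ _) fun k hk => ?_)
    · gcongr
      exact le_trans (by rw [if_pos h]) (single_le_sum
        (f := fun j => if |α - θ j| < η then ‖G - c j * D j‖ ^ 2 else 0)
        (fun k _ => by positivity) hj)
    · have h1 := hs k (mem_of_mem_erase hk) j hj (ne_of_mem_erase hk)
      have h2 := abs_sub_le (θ k) α (θ j)
      rw [abs_sub_comm (θ k) α] at h2
      linarith

end Pool.Agent.P.E2
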