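import Pool.Agent.P.MP_e94e4b_nt.E2.IfZ

/-! Step CS. -/

namespace Pool.Agent.P.E2

open Finset Real Filter Topology MeasureTheory
open Pool.Agent.P.MP_e86632_nt (ee nn ee_add norm_ee ee_neg ee_zero)
open Pool.Agent.P.MP_8be758_nt.Avg (gs Rough red ft en nsq vau_g gs_pos gs_le_one gs_neg gs_anti)
open Pool.Agent.P.MP_e94e4b_nt.PF (mN sgm)
open ArithmeticFunction (vonMangoldt moebius)
open DirichletCharacter (LFunction)

namespace CSa

theorem sub_y (F : ℂ → ℂ) (σ V : ℝ) :
    ∫ y in (-(2 * π * V))..(2 * π * V), F (σ + y * Complex.I) =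
      (2 * π : ℝ) • ∫ u in (-V)..V, F (pt σ u) := by
  have h := intervalIntegral.smul_integral_comp_mul_left
    (fun y : ℝ => F (σ + y * Complex.I)) (2 * π) (a := -V) (b := V)
  rw [mul_neg] at h
  exact h.symm

theorem nk (hGF : S_GF) {w v σ σ' : ℝ} (hw : 0 < w) (hw1 : w ≤ 1) (hv : 0 ≤ v) (h0 : 0 ≤ σ)
    (h2 : σ ≤ 2) (h : σ ≤ σ') (u : ℝ) :
    ‖km w v (pt σ u)‖ ≤ 2 * Real.exp (σ' * v) * gs (w * u) := by
  rw [(hGF w v σ hw).1 u, Real.exp_add]
  refine mul_le_mul_of_nonneg_right (mul_le_mul ?_ (Real.exp_le_exp.2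
    (mul_le_mul_of_nonneg_right h hv)) (Real.exp_pos _).le (by norm_num)) (gs_pos _).le
  have h3 : w ^ 2 * σ ^ 2 / (4 * π) ≤ 1 / 2 := by
    rw [div_le_iff₀ (by positivity)]
    have a1 : w ^ 2 ≤ 1 := pow_le_one₀ hw.le hw1
    have a2 : σ ^ 2 ≤ 4 := by nlinarith
    have a3 := mul_le_mul a1 a2 (sq_nonneg _) zero_le_one
    nlinarith [Real.pi_gt_three]
  refine (Real.exp_le_exp.2 h3).trans ?_
  rw [← Real.le_log_iff_exp_le (by norm_num)]
  linarith [Real.log_two_gt_d9]

theorem gi {w : ℝ} (hw : 0 < w) :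
    Integrable (fun u : ℝ => gs (w * u)) ∧ ∫ u : ℝ, gs (w * u) = 1 / w := by
  have e : (fun u : ℝ => gs (w * u)) = fun u => gs (u / (1 / w)) :=
    funext fun u => by congr 1; field_simp
  rw [e]
  exact ⟨gs_integrable (by positivity), gs_integral (by positivity)⟩

theorem spl {x y : ℝ} (h0 : 0 ≤ y) (h : y ≤ |x|) : gs x ≤ gs (y / 2) * gs (x / 2) := by
  have h1 : y ^ 2 ≤ x ^ 2 := by rw [← sq_abs x]; gcongr
  rw [gs, gs, gs, ← Real.exp_add]
  exact Real.exp_le_exp.2 (by nlinarith [Real.pi_pos, sq_nonneg x])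

end CSa

open CSa in
theorem p_CS (hGF : S_GF) :
    S_CS := by
  intro G w v δ V B hw hw1 hv hδ hδ1 hV hB hin hline
  set F : ℂ → ℂ := fun s => G s * km w v s with hF
  have dk : Differentiable ℂ (km w v) := by unfold km; fun_prop
  have hT : 0 ≤ 2 * π * V := by positivity
  have hE := Real.exp_pos ((1 + δ) * v)
  have hg := gs_pos (w * V / 2)
  have rect := Complex.integral_boundary_rect_eq_zero_of_differentiableOn F
    ⟨1 - δ, -(2 * π * V)⟩ ⟨1 + δ, 2 * π * V⟩ fun s hs => by
      obtain ⟨h1, h2⟩ := Complex.mem_reProdIm.1 hs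
      rw [Set.uIcc_of_le (by simp only; linarith)] at h1 h2
      exact ((hin s h1.1 h1.2 (abs_le.2 h2)).1.mul (dk s)).differentiableWithinAt
  simp only at rect
  rw [sub_y, sub_y] at rect
  have bF : ∀ σ σ' u : ℝ, 1 - δ ≤ σ → σ ≤ 1 + δ → σ ≤ σ' → |u| ≤ V →
      ‖F (pt σ u)‖ ≤ B * (2 * Real.exp (σ' * v) * gs (w * u)) := fun σ σ' u a1 a2 a3 a4 => by
    rw [hF, norm_mul]
    refine mul_le_mul (hin _ (by simpa using a1) (by simpa using a2) ?_).2
      (nk hGF hw hw1 hv (by linarith) (by linarith) a3 u) (norm_nonneg _) hB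
    rw [pt_im, abs_mul, abs_of_pos (by positivity : 0 < 2 * π)]
    exact mul_le_mul_of_nonneg_left a4 (by positivity)
  have hor : ∀ u : ℝ, |u| = V → ‖∫ x in (1 - δ)..(1 + δ), F (pt x u)‖ ≤
      B / w * (4 * Real.exp ((1 + δ) * v) * gs (w * V / 2)) := fun u hu => by
    refine (intervalIntegral.norm_integral_le_of_norm_le_const
      (C := B / w * (2 * Real.exp ((1 + δ) * v) * gs (w * V / 2))) fun x hx => ?_).trans ?_
    · rw [Set.uIoc_of_le (by linarith)] at hx
      refine (bF x (1 + δ) u hx.1.le hx.2 hx.2 hu.le).trans (mul_le_mul ?_ ?_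
        (mul_nonneg (by positivity) (gs_pos _).le) (by positivity))
      · rw [le_div_iff₀ hw]; nlinarith
      · refine mul_le_mul_of_nonneg_left (gs_anti ?_) (by positivity)
        rw [abs_of_nonneg (by positivity), abs_mul, hu, abs_of_pos hw]
        nlinarith [mul_nonneg hw.le hV]
    · rw [abs_of_nonneg (by linarith)]
      have : 0 ≤ B / w * (2 * Real.exp ((1 + δ) * v) * gs (w * V / 2)) := by positivity
      nlinarith
  have h1 := hor V (abs_of_nonneg hV)
  have h2 := hor (-V) (by rw [abs_neg, abs_of_nonneg hV])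
  have h3 : ‖∫ u in (-V)..V, F (pt (1 - δ) u)‖ ≤ B / w * (2 * Real.exp ((1 - δ) * v)) := by
    have i1 := ((gi hw).1.const_mul (2 * Real.exp ((1 - δ) * v))).const_mul B
    refine (intervalIntegral.norm_integral_le_of_norm_le (by linarith) (ae_of_all _ fun u hu =>
      bF _ (1 - δ) u le_rfl (by linarith) le_rfl (abs_le.2 ⟨hu.1.le, hu.2⟩))
      i1.intervalIntegrable).trans ?_
    rw [intervalIntegral.integral_of_le (by linarith)]
    refine (setIntegral_le_integral i1 (ae_of_all _ fun u =>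
      mul_nonneg hB (mul_nonneg (by positivity) (gs_pos _).le))).trans (le_of_eq ?_)
    rw [integral_const_mul, integral_const_mul, (gi hw).2]
    ring
  have h4 : ‖∫ u in (-V)..V, F (pt (1 + δ) u)‖ ≤ B / w * (2 * Real.exp ((1 - δ) * v)) +
      B / w * (4 * Real.exp ((1 + δ) * v) * gs (w * V / 2)) := by
    have e1 : (fun x : ℝ => F (x + ((-(2 * π * V) : ℝ) : ℂ) * Complex.I)) =
        fun x => F (pt x (-V)) := funext fun x => by rw [pt, mul_neg]
    have e2 : (fun x : ℝ => F (x + ((2 * π * V : ℝ) : ℂ) * Complex.I)) = fun x => F (pt x V) := rfl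
    rw [e1, e2] at rect
    generalize (∫ u in (-V)..V, F (pt (1 + δ) u)) = R at rect ⊢
    generalize (∫ u in (-V)..V, F (pt (1 - δ) u)) = L at rect h3
    generalize (∫ x in (1 - δ)..(1 + δ), F (pt x V)) = T1 at rect h1
    generalize (∫ x in (1 - δ)..(1 + δ), F (pt x (-V))) = T2 at rect h2
    have e3 : Complex.I • (2 * π : ℝ) • (R - L) = T1 - T2 := by
      rw [smul_sub, smul_sub]; linear_combination rect
    have n1 := congrArg norm e3
    rw [norm_smul, norm_smul, Complex.norm_I, one_mul, Real.norm_of_nonneg (by positivity)] at n1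
    have n2 := norm_sub_le T1 T2
    have n3 := norm_sub_norm_le R L
    nlinarith [Real.pi_gt_three, norm_nonneg (R - L)]
  have bR : ∀ u, ‖F (pt (1 + δ) u)‖ ≤ B * (2 * Real.exp ((1 + δ) * v) * gs (w * u)) := fun u => by
    rw [hF, norm_mul]
    exact mul_le_mul (hline _ (pt_re _ _)).2
      (nk hGF hw hw1 hv (by linarith) (by linarith) le_rfl u) (norm_nonneg _) hB
  have iR : Integrable fun u => F (pt (1 + δ) u) := by
    refine (((gi hw).1.const_mul (2 * Real.exp ((1 + δ) * v))).const_mul B).mono' ?_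
      (ae_of_all _ bR)
    exact (continuous_iff_continuousAt.2 fun u => ContinuousAt.comp (f := pt (1 + δ))
      ((hline _ (pt_re _ _)).1.mul (dk _).continuousAt) (cont_pt _).continuousAt).aestronglyMeasurable
  have h5 : ‖∫ u in (Set.Ioc (-V) V)ᶜ, F (pt (1 + δ) u)‖ ≤
      B / w * (4 * Real.exp ((1 + δ) * v) * gs (w * V / 2)) := by
    have i1 := (gi (half_pos hw)).1.const_mul (B * (2 * Real.exp ((1 + δ) * v) * gs (w * V / 2)))
    refine (norm_integral_le_of_norm_le i1.integrableOn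
      ((ae_restrict_iff' measurableSet_Ioc.compl).2 (ae_of_all _ fun u hu => ?_))).trans ?_
    · refine (bR u).trans ?_
      have a1 : w * V ≤ |w * u| := by
        rw [abs_mul, abs_of_pos hw]
        refine mul_le_mul_of_nonneg_left ?_ hw.le
        by_contra a2
        exact hu ⟨(abs_lt.1 (not_le.1 a2)).1, (abs_lt.1 (not_le.1 a2)).2.le⟩
      have a2 := spl (by positivity) a1
      rw [show w * u / 2 = w / 2 * u by ring] at a2
      calc _ ≤ B * (2 * Real.exp ((1 + δ) * v) * (gs (w * V / 2) * gs (w / 2 * u))) := by gcongr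
        _ = _ := by ring
    · refine (setIntegral_le_integral i1 (ae_of_all _ fun u =>
        mul_nonneg (by positivity) (gs_pos _).le)).trans (le_of_eq ?_)
      rw [integral_const_mul, (gi (half_pos hw)).2]
      field_simp
      ring
  show ‖∫ u, F (pt (1 + δ) u)‖ ≤ _
  rw [← integral_add_compl (measurableSet_Ioc (a := -V) (b := V)) iR,
    ← intervalIntegral.integral_of_le (by linarith)]
  refine (norm_add_le _ _).trans ((add_le_add h4 h5).trans (le_of_eq (by ring)))

end Pool.Agent.P.E2
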