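import Pool.Agent.P.MP_e94e4b_nt.E2.IfD

/-! Step DPA. -/

namespace Pool.Agent.P.E2

open Finset Real Filter Topology MeasureTheory
open Pool.Agent.P.MP_e86632_nt (ee nn ee_add norm_ee ee_neg ee_zero)
open Pool.Agent.P.MP_8be758_nt.Avg (gs Rough red ft en nsq vau_g gs_pos gs_le_one gs_neg gs_anti)
open Pool.Agent.P.MP_e94e4b_nt.PF (mN sgm)
open ArithmeticFunction (vonMangoldt moebius)
open DirichletCharacter (LFunction)

namespace DPAa

end DPAa

theorem p_DPA :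
    S_DPA := by
  intro F1 F2 B1 B2 V Z T0 T c1 c2 b1 b2 hV hZ hT
  have t := gs_tail hZ (div_nonneg hT hZ.le)
  rw [mul_div_cancel₀ _ hZ.ne'] at t
  have mU : MeasurableSet {t : ℝ | (T0 ≤ |t| ∧ |t| ≤ T) ∧ V < ‖F1 t‖} :=
    ((meas_abs_ge T0).inter (measurableSet_le continuous_abs.measurable measurable_const)).inter
      (measurableSet_lt measurable_const c1.norm.measurable)
  have s1 : ∀ t, ‖F1 t‖ ^ 2 ≤ B1 ^ 2 := fun t => pow_le_pow_left₀ (norm_nonneg _) (b1 t) 2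
  have s2 : ∀ t, ‖F2 t‖ ^ 2 ≤ B2 ^ 2 := fun t => pow_le_pow_left₀ (norm_nonneg _) (b2 t) 2
  have i1 := int_gs_mul hZ (F := fun t => ‖F2 t‖ ^ 2) (B := B2 ^ 2) (by fun_prop) fun t => by
    rw [abs_of_nonneg (by positivity)]; exact s2 t
  have i2 : Integrable (Set.indicator {t : ℝ | (T0 ≤ |t| ∧ |t| ≤ T) ∧ V < ‖F1 t‖}
      fun t => ‖F2 t‖ ^ 2) := (integrable_indicator_iff mU).2
    ((Continuous.integrableOn_Icc (a := -T) (b := T) (by fun_prop)).mono_set
      fun t ht => abs_le.1 ht.1.2)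
  have i3 := (gs_integrable hZ).indicator (meas_abs_ge T)
  refine le_trans ?_ (add_le_add_right (mul_le_mul_of_nonneg_left t (sq_nonneg _)) _)
  rw [← integral_indicator mU, ← integral_indicator (meas_abs_ge T),
    ← integral_indicator (meas_abs_ge T0), ← integral_const_mul, ← integral_const_mul,
    ← integral_const_mul, ← integral_add (i1.const_mul _) (i2.const_mul _)]
  refine le_of_le_of_eq ?_ (integral_add ((i1.const_mul _).add (i2.const_mul _)) (i3.const_mul _))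
  refine integral_mono_of_nonneg (ae_of_all _ fun t => Set.indicator_nonneg (fun t _ =>
    mul_nonneg (gs_pos _).le (by positivity)) t)
    (((i1.const_mul _).add (i2.const_mul _)).add (i3.const_mul _)) (ae_of_all _ fun t => ?_)
  have g0 := (gs_pos (t / Z)).le
  have a1 : 0 ≤ V ^ 2 * (gs (t / Z) * ‖F2 t‖ ^ 2) := by positivity
  have a2 := mul_nonneg (sq_nonneg B1) (Set.indicator_nonneg
    (s := {t : ℝ | (T0 ≤ |t| ∧ |t| ≤ T) ∧ V < ‖F1 t‖}) (fun t _ => sq_nonneg ‖F2 t‖) t)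
  have a3 := mul_nonneg (sq_nonneg (B1 * B2)) (Set.indicator_nonneg
    (s := {t : ℝ | T ≤ |t|}) (fun t _ => (gs_pos (t / Z)).le) t)
  beta_reduce
  by_cases h0 : t ∈ {t : ℝ | T0 ≤ |t|}
  swap
  · rw [Set.indicator_of_notMem h0]
    linarith
  rw [Set.indicator_of_mem h0]
  by_cases h1 : t ∈ {t : ℝ | T ≤ |t|}
  · rw [Set.indicator_of_mem h1, mul_pow, mul_comm (_ * _) (gs _)]
    have := mul_le_mul_of_nonneg_left (mul_le_mul (s1 t) (s2 t) (sq_nonneg _) (sq_nonneg _)) g0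
    linarith
  by_cases h2 : V < ‖F1 t‖
  · rw [Set.indicator_of_mem (s := {t : ℝ | (T0 ≤ |t| ∧ |t| ≤ T) ∧ V < ‖F1 t‖})
      ⟨⟨h0, (not_le.1 h1).le⟩, h2⟩]
    have := mul_le_mul (gs_le_one (t / Z)) (mul_le_mul_of_nonneg_right (s1 t) (sq_nonneg ‖F2 t‖))
      (by positivity) zero_le_one
    linarith
  · have := mul_le_mul_of_nonneg_right (pow_le_pow_left₀ (norm_nonneg _) (not_lt.1 h2) 2)
      (mul_nonneg g0 (sq_nonneg ‖F2 t‖))
    linarith

end Pool.Agent.P.E2
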