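import Pool.Agent.P.MP_e94e4b_nt.E2.IfZ

/-! Step DY. -/

namespace Pool.Agent.P.E2

open Finset Real Filter Topology MeasureTheory
open Pool.Agent.P.MP_e86632_nt (ee nn ee_add norm_ee ee_neg ee_zero)
open Pool.Agent.P.MP_8be758_nt.Avg (gs Rough red ft en nsq vau_g gs_pos gs_le_one gs_neg gs_anti)
open Pool.Agent.P.MP_e94e4b_nt.PF (mN sgm)
open ArithmeticFunction (vonMangoldt moebius)
open DirichletCharacter (LFunction)

namespace DYa

theorem split (F : ℕ → ℂ) (M : ℕ) (J : ℕ) {N : ℕ} (h : M * 2 ^ J ≤ N) {x y : ℝ}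
    (hx : ‖∑ n ∈ Ioc M (M * 2 ^ J), F n‖ ≤ x) (hy : ‖∑ n ∈ Ioc (M * 2 ^ J) N, F n‖ ≤ y) :
    ‖∑ n ∈ Ioc M N, F n‖ ≤ x + y := by
  rw [← sum_Ioc_consecutive F (Nat.le_mul_of_pos_right M Nat.one_le_two_pow) h]
  exact norm_add_le_of_le hx hy

end DYa

theorem p_DY :
    S_DY := by
  intro F E M N hM hE
  have l : ∀ J, M ≤ M * 2 ^ J := fun J => Nat.le_mul_of_pos_right M Nat.one_le_two_pow
  have e : ∀ J, M * 2 ^ (J + 1) = 2 * (M * 2 ^ J) := fun J => by ring
  refine ⟨fun h => ?_, fun J => ?_⟩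
  · have key : ∀ J, (M * 2 ^ J ≤ N → ‖∑ n ∈ Ioc M (M * 2 ^ J), F n‖ ≤ E * (M * 2 ^ J : ℕ)) ∧
        (N ≤ M * 2 ^ J → ‖∑ n ∈ Ioc M N, F n‖ ≤ 2 * E * N) := fun J => by
      induction J with
      | zero =>
        refine ⟨fun _ => ?_, fun h1 => ?_⟩
        · rw [Ioc_eq_empty_of_le (by omega), sum_empty, norm_zero]; positivity
        · rw [Ioc_eq_empty_of_le (by omega), sum_empty, norm_zero]; positivity
      | succ J ih =>
        rw [e]
        refine ⟨fun h1 => (DYa.split F M J (by omega) (ih.1 (by omega))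
          (h _ _ (l J) (by omega) le_rfl h1)).trans_eq (by push_cast; ring), fun h1 => ?_⟩
        rcases le_total N (M * 2 ^ J) with h2 | h2
        · exact ih.2 h2
        have : E * (M * 2 ^ J : ℕ) ≤ E * N := by gcongr
        linarith [DYa.split F M J h2 (ih.1 h2) (h _ _ (l J) h2 h1 le_rfl)]
    exact (key N).2 (Nat.lt_two_pow_self.le.trans (Nat.le_mul_of_pos_left _ hM))
  induction J generalizing N with
  | zero =>
    intro h1 _
    rw [Ioc_eq_empty_of_le (by omega), sum_empty, norm_zero]; positivity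
  | succ J ih =>
    intro h1 h
    rw [Nat.cast_succ, mul_add_one]
    rcases le_total N (M * 2 ^ J) with h2 | h2
    · linarith [ih N h2 h]
    exact DYa.split F M J h2 (ih _ le_rfl fun a b c d f g => h a b c d f (g.trans h2))
      (h _ _ (l J) h2 (e J ▸ h1) le_rfl)

end Pool.Agent.P.E2
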