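import Pool.Agent.P.MP_e94e4b_nt.E2.IfZ

/-! Step EL. -/

namespace Pool.Agent.P.E2

open Finset Real Filter Topology MeasureTheory
open Pool.Agent.P.MP_e86632_nt (ee nn ee_add norm_ee ee_neg ee_zero)
open Pool.Agent.P.MP_8be758_nt.Avg (gs Rough red ft en nsq vau_g gs_pos gs_le_one gs_neg gs_anti)
open Pool.Agent.P.MP_e94e4b_nt.PF (mN sgm)
open ArithmeticFunction (vonMangoldt moebius)
open DirichletCharacter (LFunction)

namespace ELa

open Pool.Agent.P.MP_e86632_nt (norm_ee_sub_ee abel_bound tele_Ioc)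

theorem per_sum {q : ℕ} {c : ℕ → ℂ} (h : Per q c) (a : ℕ) :
    ∑ i ∈ Ioc a (a + q), c i = ∑ i ∈ range q, c i := by
  have h1 : ∀ a, ∑ i ∈ range q, c (a + i) = ∑ i ∈ range q, c i := by
    intro a
    induction a with
    | zero => simp
    | succ a ih =>
      have h2 := sum_range_succ (fun i => c (a + i)) q
      rw [sum_range_succ', h.2.2, add_zero, add_left_inj, ih] at h2
      rw [← h2]
      exact sum_congr rfl fun i _ => by congr 1; ring
  rw [← h1 (a + 1), ← Ico_add_one_add_one_eq_Ioc, sum_Ico_eq_sum_range]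
  congr 2
  omega

theorem part_le {q : ℕ} {c : ℕ → ℂ} (h : Per q c) (M n : ℕ) :
    ‖∑ i ∈ Ioc M n, (c i - kap q c)‖ ≤ 2 * q := by
  have hq := h.1
  have h0 : (q : ℂ) ≠ 0 := by exact_mod_cast (by omega : q ≠ 0)
  induction n using Nat.strong_induction_on with
  | _ n ih =>
    rcases le_or_gt n (M + q) with h1 | h1
    · refine (norm_sum_le_of_le _ (n := fun _ => (2 : ℝ)) fun i _ => ?_).trans ?_
      · linarith [norm_sub_le (c i) (kap q c), h.2.1 i, norm_kap_le h]
      · have h2 : ((n - M : ℕ) : ℝ) ≤ q := by exact_mod_cast (by omega : n - M ≤ q)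
        rw [sum_const, Nat.card_Ioc, nsmul_eq_mul]
        linarith
    · obtain ⟨k, rfl⟩ : ∃ k, n = k + q := ⟨n - q, by omega⟩
      have h2 : ∑ i ∈ Ioc k (k + q), (c i - kap q c) = 0 := by
        rw [sum_sub_distrib, per_sum h, sum_const, Nat.card_Ioc, nsmul_eq_mul, kap,
          Nat.add_sub_cancel_left]
        field_simp
        ring
      rw [← sum_Ioc_consecutive _ (by omega : M ≤ k) (by omega : k ≤ k + q), h2, add_zero]
      exact ih k (by omega)

/-- the primitive -/
noncomputable def G (t x : ℝ) : ℂ :=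
  (x : ℂ) * ee (-(t * Real.log x)) / (1 - Complex.I * (2 * π * t : ℝ))

theorem den_ge (t : ℝ) : 3 / 5 * (1 + |t|) ≤ ‖1 - Complex.I * (2 * π * t : ℝ)‖ := by
  refine abs_le_of_sq_le_sq' ?_ (norm_nonneg _) |>.2
  rw [Complex.sq_norm, Complex.normSq_apply]
  simp only [Complex.sub_re, Complex.one_re, Complex.mul_re, Complex.I_re, Complex.ofReal_re,
    Complex.I_im, Complex.ofReal_im, Complex.sub_im, Complex.one_im, Complex.mul_im]
  have h1 := sq_abs t
  have h2 : 9 ≤ π * π := by nlinarith [Real.pi_gt_three]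
  nlinarith [sq_nonneg (|t| - 1), mul_le_mul_of_nonneg_right h2 (sq_nonneg t)]

theorem G_deriv (t : ℝ) {x : ℝ} (hx : 0 < x) : HasDerivAt (G t) (ee (-(t * Real.log x))) x := by
  have h0 : 1 - Complex.I * (2 * π * t : ℝ) ≠ 0 := norm_pos_iff.1
    (lt_of_lt_of_le (by positivity) (den_ge t))
  have h1 := ((((Real.hasDerivAt_log hx.ne').const_mul t).neg.const_mul
    (2 * π)).ofReal_comp.const_mul Complex.I).cexp
  have h2 := (((hasDerivAt_id x).ofReal_comp).mul h1).div_const (1 - Complex.I * (2 * π * t : ℝ))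
  have hx' : (x : ℂ) ≠ 0 := by exact_mod_cast hx.ne'
  refine HasDerivAt.congr_deriv h2 ?_
  rw [div_eq_iff h0]
  simp only [ee, id, Pi.neg_apply]
  push_cast
  field_simp
  ring

theorem step (t : ℝ) {n : ℕ} (hn : 1 ≤ n) :
    ‖nit t (n + 1) - (G t (n + 1 : ℕ) - G t n)‖ ≤
      2 * π * |t| * (Real.log (n + 1 : ℕ) - Real.log n) := by
  have h0 : (0 : ℝ) < n := by exact_mod_cast hn
  have h1 : (n : ℝ) ≤ (n + 1 : ℕ) := by push_cast; linarith
  have h := Convex.norm_image_sub_le_of_norm_hasDerivWithin_le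
    (f := fun x : ℝ => (x : ℂ) * nit t (n + 1) - G t x)
    (f' := fun x : ℝ => nit t (n + 1) - ee (-(t * Real.log x))) (s := Set.Icc (n : ℝ) (n + 1 : ℕ))
    (C := 2 * π * |t| * (Real.log (n + 1 : ℕ) - Real.log n))
    (fun x hx => by
      have h2 := ((hasDerivAt_id x).ofReal_comp.mul_const (nit t (n + 1))).sub
        (G_deriv t (h0.trans_le hx.1))
      rw [Complex.ofReal_one, one_mul] at h2
      exact h2.hasDerivWithinAt)
    (fun x hx => by
      refine (norm_ee_sub_ee _ _).trans ?_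
      have h2 := Real.log_le_log h0 hx.1
      have h3 := Real.log_le_log (h0.trans_le hx.1) hx.2
      rw [neg_sub_neg, ← mul_sub, abs_mul, abs_sub_comm, abs_of_nonneg (by linarith :
        0 ≤ Real.log (n + 1 : ℕ) - Real.log x), ← mul_assoc]
      gcongr)
    (convex_Icc _ _) (Set.left_mem_Icc.2 h1) (Set.right_mem_Icc.2 h1)
  have h4 : ‖((n + 1 : ℕ) : ℝ) - n‖ = 1 := by simp
  rw [h4, mul_one] at h
  refine le_trans (le_of_eq ?_) h
  congr 1
  generalize G t (n + 1 : ℕ) = a
  push_cast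
  ring

theorem cmp (t : ℝ) {M N : ℕ} (hM : 1 ≤ M) (h : M ≤ N) :
    ‖∑ n ∈ Ioc M N, nit t n - (G t N - G t M)‖ ≤ 2 * π * |t| * (Real.log N - Real.log M) := by
  induction N, h using Nat.le_induction with
  | base => simp
  | succ N hN ih =>
    have h1 := step t (hM.trans hN)
    have h2 := norm_add_le (∑ n ∈ Ioc M N, nit t n - (G t N - G t M))
      (nit t (N + 1) - (G t (N + 1 : ℕ) - G t N))
    rw [sum_Ioc_succ_top hN]
    refine le_trans (le_of_eq ?_) (h2.trans (by linarith))
    congr 1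
    ring

theorem norm_G (t : ℝ) (n : ℕ) : ‖G t n‖ ≤ 5 / 3 * n / (1 + |t|) := by
  rw [G, norm_div, norm_mul, norm_ee, mul_one, Complex.norm_real, Real.norm_natCast]
  calc _ ≤ (n : ℝ) / (3 / 5 * (1 + |t|)) := by gcongr; exact den_ge t
    _ = _ := by field_simp

end ELa

theorem p_EL :
    S_EL := by
  intro q M N c t h hM hN
  rcases le_or_gt N M with hNM | hNM
  · rw [dq, Ioc_eq_empty (by omega), sum_empty, norm_zero]
    positivity
  have hM0 : (0 : ℝ) < M := by exact_mod_cast hM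
  have hN2 : (N : ℝ) ≤ 2 * M := by exact_mod_cast hN
  have hq : (1 : ℝ) ≤ q := by exact_mod_cast h.1
  have ht := abs_nonneg t
  have hlog : 2 * π * |t| * (Real.log N - Real.log M) ≤ 6 * |t| := by
    have h1 : Real.log N ≤ Real.log 2 + Real.log M := by
      rw [← Real.log_mul two_ne_zero hM0.ne']
      exact Real.log_le_log (by exact_mod_cast (by omega : 0 < N)) hN2
    have h2 : Real.log M ≤ Real.log N := Real.log_le_log hM0 (by exact_mod_cast hNM.le)
    have h3 : π * (Real.log N - Real.log M) ≤ 4 * (3 / 4) :=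
      mul_le_mul Real.pi_lt_four.le (by linarith [Real.log_two_lt_d9]) (by linarith) (by norm_num)
    nlinarith
  have hA : ‖∑ n ∈ Ioc M N, nit t n‖ ≤ 5 * M / (1 + |t|) + 6 * |t| := by
    have h1 := ELa.cmp t hM hNM.le
    have h2 := norm_sub_le (ELa.G t N) (ELa.G t M)
    have h3 := norm_add_le (∑ n ∈ Ioc M N, nit t n - (ELa.G t N - ELa.G t M))
      (ELa.G t N - ELa.G t M)
    have h4 : 5 / 3 * N / (1 + |t|) + 5 / 3 * M / (1 + |t|) ≤ 5 * M / (1 + |t|) := by
      rw [← add_div]; gcongr; linarith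
    rw [sub_add_cancel] at h3
    linarith [ELa.norm_G t N, ELa.norm_G t M]
  have hB := Pool.Agent.P.MP_e86632_nt.abel_bound (fun i => c i - kap q c) (nit t) M N (2 * q)
    (1 + 6 * |t|) (by positivity) (by positivity) (fun n _ => ELa.part_le h M n) fun _ => by
      rw [norm_nit]
      refine add_le_add_right (le_trans (sum_le_sum (g := fun i : ℕ =>
        2 * π * |t| * (Real.log (i + 1 : ℕ) - Real.log i)) fun i hi => ?_) ?_) _
      · refine (Pool.Agent.P.MP_e86632_nt.norm_ee_sub_ee _ _).trans (le_of_eq ?_)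
        have h1 : Real.log i ≤ Real.log (i + 1 : ℕ) := Real.log_le_log
          (by exact_mod_cast (by have := (mem_Ioc.1 hi).1; omega : 0 < i)) (by push_cast; linarith)
        rw [neg_sub_neg, ← mul_sub, abs_mul, abs_sub_comm, abs_of_nonneg (sub_nonneg.2 h1),
          ← mul_assoc]
      · rw [← mul_sum, Pool.Agent.P.MP_e86632_nt.tele_Ioc (fun i : ℕ => Real.log i) M (N - 1)
          (by omega), show N - 1 + 1 = N by omega]
        refine le_trans ?_ hlog
        gcongr
        exact Nat.le_succ M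
  have hs : dq (Ioc M N) c t = kap q c * ∑ n ∈ Ioc M N, nit t n +
      ∑ i ∈ Ioc M N, (c i - kap q c) * nit t i := by
    rw [dq, mul_sum, ← sum_add_distrib]
    exact sum_congr rfl fun i _ => by ring
  have h5 : ‖kap q c * ∑ n ∈ Ioc M N, nit t n‖ ≤ ‖∑ n ∈ Ioc M N, nit t n‖ := by
    rw [norm_mul]
    exact mul_le_of_le_one_left (norm_nonneg _) (norm_kap_le h)
  rw [hs]
  refine (norm_add_le _ _).trans ?_
  nlinarith [mul_nonneg (sub_nonneg.2 hq) ht]

end Pool.Agent.P.E2
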