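import Pool.Agent.P.MP_e94e4b_nt.E2.IfZ

/-! Step EXP. -/

namespace Pool.Agent.P.E2

open Finset Real Filter Topology MeasureTheory
open Pool.Agent.P.MP_e86632_nt (ee nn ee_add norm_ee ee_neg ee_zero)
open Pool.Agent.P.MP_8be758_nt.Avg (gs Rough red ft en nsq vau_g gs_pos gs_le_one gs_neg gs_anti)
open Pool.Agent.P.MP_e94e4b_nt.PF (mN sgm)
open ArithmeticFunction (vonMangoldt moebius)
open DirichletCharacter (LFunction)

namespace EXPa

theorem split {R : Type*} [AddCommMonoid R] (f : ℕ → R) {Q M N : ℕ} (hQ : 0 < Q) (hM : Q ≤ M)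
    (hN : M ≤ N) : ∑ n ∈ Ioc M N, f n =
      ∑ b ∈ range Q, ∑ a ∈ Ioc ((M - b) / Q) ((N - b) / Q), f (Q * a + b) := by
  rw [sum_sigma']
  refine sum_nbij' (fun n => ⟨n % Q, n / Q⟩) (fun x => Q * x.2 + x.1) ?_ ?_ ?_ ?_ ?_
  · intro n hn
    have h1 := Nat.mod_lt n hQ
    have h2 := Nat.div_add_mod n Q
    rw [mem_Ioc] at hn
    simp only [mem_sigma, mem_range, mem_Ioc, Nat.div_lt_iff_lt_mul hQ,
      Nat.le_div_iff_mul_le hQ, mul_comm _ Q]
    omega
  · rintro ⟨b, a⟩ h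
    simp only [mem_sigma, mem_range, mem_Ioc, Nat.div_lt_iff_lt_mul hQ,
      Nat.le_div_iff_mul_le hQ, mul_comm _ Q] at h ⊢
    omega
  · intro n _
    exact Nat.div_add_mod n Q
  · rintro ⟨b, a⟩ h
    simp only [mem_sigma, mem_range] at h
    have h1 : (Q * a + b) % Q = b := by rw [Nat.mul_add_mod, Nat.mod_eq_of_lt h.1]
    have h2 : (Q * a + b) / Q = a := by
      rw [Nat.mul_add_div hQ, Nat.div_eq_of_lt h.1, add_zero]
    simp only [h1, h2]
  · intro n _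
    simp only [Nat.div_add_mod]

theorem term {q Q : ℕ} {c : ℕ → ℂ} (hc : Per q c) (hq : q ∣ Q) (t : ℝ) {a b : ℕ} (hb : b < Q)
    (ha : 0 < a) : c (Q * a + b) * nit t (Q * a + b) =
      c b * ee (-(t * Real.log Q)) * ee (-(t * Real.log (a + (b : ℝ) / Q))) := by
  have h0 : (0 : ℝ) < Q := by exact_mod_cast (by omega : 0 < Q)
  have h1 : (0 : ℝ) < a := by exact_mod_cast ha
  have h2 : ((Q * a + b : ℕ) : ℝ) = Q * (a + (b : ℝ) / Q) := by push_cast; field_simp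
  rw [← hc.mod hq, Nat.mul_add_mod, Nat.mod_eq_of_lt hb, nit, h2,
    Real.log_mul h0.ne' (by positivity), mul_assoc, ← ee_add]
  congr 2; ring

theorem exQ {q M : ℕ} {A : ℝ} (hq : 1 ≤ q) (hA : 1 ≤ A) (h : q * A ≤ M) :
    ∃ Q : ℕ, q ∣ Q ∧ 0 < Q ∧ 4 * M ≤ Q * A ∧ Q * A ≤ 5 * M := by
  have h0 : (1 : ℝ) ≤ q := by exact_mod_cast hq
  have h1 : (0 : ℝ) < q * A := by positivity
  have h2 : (4 * M : ℝ) / (q * A) ≤ ⌈(4 * M : ℝ) / (q * A)⌉₊ := Nat.le_ceil _
  have h3 : (⌈(4 * M : ℝ) / (q * A)⌉₊ : ℝ) < 4 * M / (q * A) + 1 :=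
    Nat.ceil_lt_add_one (by positivity)
  generalize ⌈(4 * M : ℝ) / (q * A)⌉₊ = k at h2 h3
  rw [div_le_iff₀ h1] at h2
  rw [div_add_one h1.ne', lt_div_iff₀ h1] at h3
  refine ⟨q * k, dvd_mul_right _ _, Nat.mul_pos hq (Nat.pos_of_ne_zero ?_), ?_, ?_⟩
  · rintro rfl
    simp only [Nat.cast_zero, zero_mul] at h2
    linarith
  · push_cast; linarith
  · push_cast; linarith

end EXPa

theorem p_EXP (hSH : S_SH) :
    S_EXP := by
  intro Lg τ t q M N c hτ hL ht hc hMN hN hq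
  have hlog : 1 ≤ Real.log τ := by
    rw [Real.le_log_iff_exp_le (by linarith)]
    linarith [Real.exp_one_lt_d9]
  have hLg : 10 ^ 9 ≤ Lg := by nlinarith
  have hw : 1 ≤ Real.exp (99 / 100 * Lg) := Real.one_le_exp (by linarith)
  have hA : 15 * Real.exp (99 / 100 * Lg) ≤ Real.exp Lg := by
    have h1 := Real.add_one_le_exp (Lg / 100)
    have h2 : Real.exp Lg = Real.exp (Lg / 100) * Real.exp (99 / 100 * Lg) := by
      rw [← Real.exp_add]; congr 1; ring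
    rw [h2]; gcongr; linarith
  have hD : 12 * Real.exp (-(1 / 3 * Lg)) ≤ Real.exp (-Lg / (10 ^ 11 * τ ^ 2)) := by
    have h1 := Real.add_one_le_exp (Lg / 6)
    have h2 : Real.exp (-Lg / 6) = Real.exp (Lg / 6) * Real.exp (-(1 / 3 * Lg)) := by
      rw [← Real.exp_add]; congr 1; ring
    have h3 : -Lg / 6 ≤ -Lg / (10 ^ 11 * τ ^ 2) := by
      rw [neg_div, neg_div, neg_le_neg_iff]
      exact div_le_div_of_nonneg_left (by linarith) (by norm_num) (by nlinarith)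
    refine le_trans ?_ (Real.exp_le_exp.2 h3)
    rw [h2]; gcongr; linarith
  have hAD : Real.exp (2 / 3 * Lg) = Real.exp Lg * Real.exp (-(1 / 3 * Lg)) := by
    rw [← Real.exp_add]; congr 1; ring
  have hD0 := Real.exp_pos (-(1 / 3 * Lg))
  obtain ⟨Q, hqQ, hQ0, hQ1, hQ2⟩ := EXPa.exQ hc.1 (by linarith) hq
  have hQ0' : (0 : ℝ) < Q := by exact_mod_cast hQ0
  have hQM : Q ≤ M := by
    have : (Q : ℝ) ≤ M := by nlinarith
    exact_mod_cast this
  have hmono : ∀ b, (M - b) / Q ≤ (N - b) / Q := fun b => Nat.div_le_div_right (by omega)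
  have hsum : ∑ b ∈ range Q, ((((N - b) / Q : ℕ) : ℝ) - ((M - b) / Q : ℕ)) = N - M := by
    have := EXPa.split (fun _ => (1 : ℝ)) hQ0 hQM hMN
    simp only [sum_const, Nat.card_Ioc, nsmul_eq_mul, mul_one, Nat.cast_sub hMN] at this
    rw [this]
    exact sum_congr rfl fun b _ => (Nat.cast_sub (hmono b)).symm
  have hN' : (N : ℝ) ≤ 2 * M := by exact_mod_cast hN
  have hMN' : (M : ℝ) ≤ N := by exact_mod_cast hMN
  set E := Real.exp (-Lg / (10 ^ 11 * τ ^ 2))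
  set D := Real.exp (-(1 / 3 * Lg))
  have key : ∀ b ∈ range Q, ‖∑ a ∈ Ioc ((M - b) / Q) ((N - b) / Q),
      c (Q * a + b) * nit t (Q * a + b)‖ ≤
      ((((N - b) / Q : ℕ) : ℝ) - ((M - b) / Q : ℕ)) * (E + 2 * D) + 2 * Real.exp (2 / 3 * Lg) := by
    intro b hb
    rw [mem_range] at hb
    have hb' : (b : ℝ) ≤ Q := by exact_mod_cast hb.le
    rw [sum_congr rfl fun a ha => EXPa.term hc hqQ t hb
      (lt_of_le_of_lt (Nat.zero_le _) (mem_Ioc.1 ha).1), ← mul_sum, norm_mul, norm_mul, norm_ee,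
      mul_one]
    refine (mul_le_of_le_one_left (norm_nonneg _) (hc.2.1 b)).trans
      (hSH Lg τ t _ _ _ hτ hL ht (by positivity) ((div_le_one hQ0').2 hb') (hmono b) ?_ ?_)
    · have h1 : M < Q * ((M - b) / Q) + 2 * Q := by
        have := Nat.div_add_mod (M - b) Q
        have := Nat.mod_lt (M - b) hQ0
        omega
      have h2 : (M : ℝ) < Q * ((M - b) / Q : ℕ) + 2 * Q := by exact_mod_cast h1
      have h3 : Q * Real.exp Lg ≤ Q * (5 * ((M - b) / Q : ℕ) + 10) := by linarith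
      have h4 := le_of_mul_le_mul_left h3 hQ0'
      linarith
    · have h1 : Q * ((N - b) / Q) ≤ N := (Nat.mul_div_le _ _).trans (Nat.sub_le _ _)
      have h2 : (Q : ℝ) * ((N - b) / Q : ℕ) ≤ N := by exact_mod_cast h1
      have h3 : Q * (2 * (((N - b) / Q : ℕ) : ℝ)) ≤ Q * Real.exp Lg := by linarith
      have h4 := le_of_mul_le_mul_left h3 hQ0'
      linarith
  rw [dq, EXPa.split _ hQ0 hQM hMN]
  refine (norm_sum_le_of_le _ key).trans ?_
  rw [sum_add_distrib, ← sum_mul, hsum, sum_const, card_range, nsmul_eq_mul, hAD]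
  have hM0 : (0 : ℝ) ≤ M := by positivity
  have h1 : ((N : ℝ) - M) * (E + 2 * D) ≤ M * (E + 2 * D) :=
    mul_le_mul_of_nonneg_right (by linarith) (by linarith)
  have h2 : Q * Real.exp Lg * D ≤ 5 * M * D := mul_le_mul_of_nonneg_right hQ2 hD0.le
  have h3 : M * (12 * D) ≤ M * E := mul_le_mul_of_nonneg_left hD hM0
  have h4 : 0 ≤ M * D := by positivity
  nlinarith

end Pool.Agent.P.E2
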