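import Pool.Agent.P.MP_e94e4b_nt.E2.IfC

/-! Step EXT. -/

namespace Pool.Agent.P.E2

open Finset Real Filter Topology MeasureTheory
open Pool.Agent.P.MP_e86632_nt (ee nn ee_add norm_ee ee_neg ee_zero)
open Pool.Agent.P.MP_8be758_nt.Avg (gs Rough red ft en nsq vau_g gs_pos gs_le_one gs_neg gs_anti)
open Pool.Agent.P.MP_e94e4b_nt.PF (mN sgm)
open ArithmeticFunction (vonMangoldt moebius)
open DirichletCharacter (LFunction)

namespace EXTa

theorem norm_le (I : Finset ℕ) (b : ℕ → ℂ) {a B : ℝ} (ha : 0 < a) (hb : ∀ m, ‖b m‖ ≤ B) (u : ℝ) :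
    ‖∑ m ∈ I, b m * (gk a (m - u) : ℂ)‖ ≤ B * ∑ m ∈ I, gk a (m - u) := by
  rw [mul_sum]
  refine norm_sum_le_of_le _ fun m _ => ?_
  rw [norm_mul, Complex.norm_real, Real.norm_of_nonneg (gk_nonneg ha _)]
  exact mul_le_mul_of_nonneg_right (hb m) (gk_nonneg ha _)

theorem out_le (I : Finset ℕ) {a W u : ℝ} (ha : 1 ≤ a) (hW : 0 ≤ W)
    (h : ∀ m ∈ I, W * a ≤ |(m : ℝ) - u|) :
    ∑ m ∈ I, gk a (m - u) ≤ I.card * Real.exp (-W ^ 2) := by
  refine (sum_le_sum fun m hm => (gk_le_exp (by linarith) hW (h m hm)).trans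
    (div_le_self (Real.exp_pos _).le ha)).trans (by simp)

theorem ind_int (c : ℝ) {x y : ℝ} (h : x ≤ y) :
    Integrable ((Set.Icc x y).indicator fun _ : ℝ => c) ∧
      ∫ u, (Set.Icc x y).indicator (fun _ : ℝ => c) u = (y - x) * c := by
  refine ⟨(integrable_indicator_iff measurableSet_Icc).2 continuous_const.integrableOn_Icc, ?_⟩
  rw [integral_indicator measurableSet_Icc, setIntegral_const, smul_eq_mul,
    Real.volume_real_Icc_of_le h]

end EXTa

theorem p_EXT (hRS : S_RS) :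
    S_EXT := by
  intro A A' b φ a W B δ hA ha hW hB hb hφ hin
  have ha0 : 0 < a := by linarith
  have hA' : (A : ℝ) ≤ A' := by exact_mod_cast hA
  have hWa : 0 ≤ W * a := by positivity
  have hcard : ((Ioc A A').card : ℝ) = (A' : ℝ) - A := by
    rw [Nat.card_Ioc, Nat.cast_sub hA]
  have hc1 : ContinuousOn (fun u => 2 * φ u ^ 2 + 2 * δ ^ 2) (Set.Icc (A : ℝ) A') := by fun_prop
  have hc2 : ContinuousOn (fun u => φ u ^ 2) (Set.Icc (A : ℝ) A') := by fun_prop
  have i1 : Integrable ((Set.Icc (A : ℝ) A').indicator fun u => 2 * φ u ^ 2 + 2 * δ ^ 2) :=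
    (integrable_indicator_iff measurableSet_Icc).2 hc1.integrableOn_Icc
  have e1 : ∫ u, (Set.Icc (A : ℝ) A').indicator (fun u => 2 * φ u ^ 2 + 2 * δ ^ 2) u =
      2 * (∫ u in (A : ℝ)..A', φ u ^ 2) + 2 * δ ^ 2 * (A' - A) := by
    rw [integral_indicator measurableSet_Icc, integral_Icc_eq_integral_Ioc,
      ← intervalIntegral.integral_of_le hA', intervalIntegral.integral_add
        ((hc2.intervalIntegrable_of_Icc hA').const_mul 2) intervalIntegrable_const,
      intervalIntegral.integral_const_mul, intervalIntegral.integral_const, smul_eq_mul]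
    ring
  obtain ⟨i2, e2⟩ := EXTa.ind_int (64 * B ^ 2) (show (A : ℝ) - W * a ≤ A + W * a by linarith)
  obtain ⟨i3, e3⟩ := EXTa.ind_int (64 * B ^ 2) (show (A' : ℝ) - W * a ≤ A' + W * a by linarith)
  have i4' : Integrable fun u : ℝ => ∑ m ∈ Ioc A A', gk a (m - u) :=
    integrable_finsetSum _ fun m _ => gk_integrable' ha0 _
  have i4 := i4'.const_mul (B ^ 2 * (((A' : ℝ) - A) * Real.exp (-W ^ 2)))
  have e4 : ∫ u : ℝ, B ^ 2 * (((A' : ℝ) - A) * Real.exp (-W ^ 2)) *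
      ∑ m ∈ Ioc A A', gk a (m - u) = B ^ 2 * ((A' : ℝ) - A) ^ 2 * Real.exp (-W ^ 2) := by
    rw [integral_const_mul, integral_finsetSum _ fun m _ => gk_integrable' ha0 _]
    simp only [gk_integral' ha0, sum_const, nsmul_eq_mul, mul_one, hcard]
    ring
  have key : ∀ u : ℝ, ‖∑ m ∈ Ioc A A', b m * (gk a (m - u) : ℂ)‖ ^ 2 ≤
      (Set.Icc (A : ℝ) A').indicator (fun u => 2 * φ u ^ 2 + 2 * δ ^ 2) u +
      (Set.Icc ((A : ℝ) - W * a) (A + W * a)).indicator (fun _ : ℝ => 64 * B ^ 2) u +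
      (Set.Icc ((A' : ℝ) - W * a) (A' + W * a)).indicator (fun _ : ℝ => 64 * B ^ 2) u +
      B ^ 2 * (((A' : ℝ) - A) * Real.exp (-W ^ 2)) * ∑ m ∈ Ioc A A', gk a (m - u) := by
    intro u
    have n1 : 0 ≤ (Set.Icc (A : ℝ) A').indicator (fun u => 2 * φ u ^ 2 + 2 * δ ^ 2) u :=
      Set.indicator_nonneg (fun _ _ => by positivity) u
    have n2 : 0 ≤ (Set.Icc ((A : ℝ) - W * a) (A + W * a)).indicator (fun _ : ℝ => 64 * B ^ 2) u :=
      Set.indicator_nonneg (fun _ _ => by positivity) u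
    have n3 : 0 ≤ (Set.Icc ((A' : ℝ) - W * a) (A' + W * a)).indicator
        (fun _ : ℝ => 64 * B ^ 2) u := Set.indicator_nonneg (fun _ _ => by positivity) u
    have hG : 0 ≤ ∑ m ∈ Ioc A A', gk a (m - u) := sum_nonneg fun _ _ => gk_nonneg ha0 _
    have hd : 0 ≤ (A' : ℝ) - A := by linarith
    have n4 : 0 ≤ B ^ 2 * (((A' : ℝ) - A) * Real.exp (-W ^ 2)) *
        ∑ m ∈ Ioc A A', gk a (m - u) := by positivity
    have hN := EXTa.norm_le (Ioc A A') b ha0 hb u
    have hN2 := pow_le_pow_left₀ (norm_nonneg _) hN 2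
    have h8 : ‖∑ m ∈ Ioc A A', b m * (gk a (m - u) : ℂ)‖ ^ 2 ≤ 64 * B ^ 2 := by
      refine hN2.trans ?_
      have := pow_le_pow_left₀ hG (hRS a u (Ioc A A') ha).1 2
      rw [mul_pow]
      nlinarith [sq_nonneg B]
    have hout : (∀ m ∈ Ioc A A', W * a ≤ |(m : ℝ) - u|) →
        ‖∑ m ∈ Ioc A A', b m * (gk a (m - u) : ℂ)‖ ^ 2 ≤
          B ^ 2 * (((A' : ℝ) - A) * Real.exp (-W ^ 2)) * ∑ m ∈ Ioc A A', gk a (m - u) := by
      intro h
      have h1 := EXTa.out_le (Ioc A A') ha hW h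
      rw [hcard] at h1
      refine hN2.trans ?_
      rw [mul_pow, pow_two (∑ m ∈ Ioc A A', gk a (m - u)), ← mul_assoc]
      gcongr
    rcases lt_or_ge u (A - W * a) with h1 | h1
    · have := hout fun m hm => by
        have h2 : (A : ℝ) < m := by exact_mod_cast (mem_Ioc.1 hm).1
        exact le_abs.2 (Or.inl (by linarith))
      linarith
    rcases le_or_gt u (A + W * a) with h2 | h2
    · rw [Set.indicator_of_mem (s := Set.Icc ((A : ℝ) - W * a) (A + W * a)) ⟨h1, h2⟩]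
      linarith
    rcases le_or_gt u (A' - W * a) with h3 | h3
    · rw [Set.indicator_of_mem (s := Set.Icc (A : ℝ) A') ⟨by linarith, by linarith⟩]
      have h4 := pow_le_pow_left₀ (norm_nonneg _) (hin u h2.le h3) 2
      nlinarith [sq_nonneg (φ u - δ)]
    rcases le_or_gt u (A' + W * a) with h4 | h4
    · rw [Set.indicator_of_mem (s := Set.Icc ((A' : ℝ) - W * a) (A' + W * a)) ⟨h3.le, h4⟩]
      linarith
    · have := hout fun m hm => by
        have h2 : (m : ℝ) ≤ A' := by exact_mod_cast (mem_Ioc.1 hm).2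
        exact le_abs.2 (Or.inr (by linarith))
      linarith
  refine (integral_mono_of_nonneg (ae_of_all _ fun u => by positivity)
    (((i1.add i2).add i3).add i4) (ae_of_all _ key)).trans (le_of_eq ?_)
  have s1 := integral_add i1 i2
  have s2 := integral_add (i1.add i2) i3
  have s3 := integral_add ((i1.add i2).add i3) i4
  simp only [Pi.add_apply] at s1 s2 s3 ⊢
  rw [s3, s2, s1, e1, e2, e3, e4]
  ring

end Pool.Agent.P.E2
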