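import Pool.Agent.P.MP_e94e4b_nt.E2.IfC

/-! Step FIN. -/

namespace Pool.Agent.P.E2

open Finset Real Filter Topology MeasureTheory
open Pool.Agent.P.MP_e86632_nt (ee nn ee_add norm_ee ee_neg ee_zero)
open Pool.Agent.P.MP_8be758_nt.Avg (gs Rough red ft en nsq vau_g gs_pos gs_le_one gs_neg gs_anti)
open Pool.Agent.P.MP_e94e4b_nt.PF (mN sgm)
open ArithmeticFunction (vonMangoldt moebius)
open DirichletCharacter (LFunction)

namespace FINa

theorem tend : Tendsto (fun y : ℕ => (2 * Real.log y) ^ ((13 : ℕ) : ℝ)⁻¹) atTop atTop :=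
  (tendsto_rpow_atTop (by norm_num)).comp
    ((Real.tendsto_log_atTop.comp tendsto_natCast_atTop_atTop).const_mul_atTop two_pos)

theorem ceil_le {x : ℝ} (h : 1 ≤ x) : (⌈x⌉₊ : ℝ) ≤ 2 * x := by
  have := Nat.ceil_lt_add_one (show 0 ≤ x by linarith)
  linarith

end FINa

theorem p_FIN (hPOS : S_POS) :
    S_FIN := by
  classical
  obtain ⟨B, c, hB, hc, h⟩ := hPOS
  have h1 := FINa.tend.eventually (h.and ((ev_pe1 1 B).and (eventually_ge_atTop 1)))
  obtain ⟨y0, hy0⟩ := eventually_atTop.1 (h1.and (eventually_ge_atTop 1))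
  refine ⟨B, c / 3, 2 * y0 + 2, by positivity, fun Y hY => ?_⟩
  obtain ⟨⟨h2, h3, h4⟩, h5⟩ := hy0 (Y / 2) (by omega)
  set y := Y / 2 with hy
  set r := (2 * Real.log y) ^ ((13 : ℕ) : ℝ)⁻¹ with hr
  have hy1 : (1 : ℝ) ≤ y := by exact_mod_cast h5
  have hr13 : r ^ 13 = 2 * Real.log y :=
    Real.rpow_inv_natCast_pow (mul_nonneg zero_le_two (Real.log_nonneg hy1)) (by norm_num)
  have hS : St r (r ^ B) y ⌈r ^ 110⌉₊ ⌈r ^ B⌉₊ :=
    { hy := by
        rw [XX, hr13, show 2 * Real.log y = Real.log y + Real.log y by ring, Real.exp_add,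
          Real.exp_log (by linarith), pow_two]
      k1 := Nat.le_ceil _
      k2 := FINa.ceil_le (one_le_pow₀ h4)
      h1 := Nat.le_ceil _
      h2 := FINa.ceil_le (one_le_pow₀ h4)
      p1 := pow_le_pow_right₀ h4 hB
      p2 := by simpa using h3 }
  have h6 := h2 y _ _ hS
  have h7 : (Y : ℝ) ≤ 3 * y := by exact_mod_cast (show Y ≤ 3 * y by omega)
  have h8 : ((Icc 1 (2 * y)).filter (Good B)).card ≤ ((Icc 1 Y).filter (Good B)).card :=
    card_le_card (filter_subset_filter _ (Icc_subset_Icc_right (by omega)))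
  have h9 : (((Icc 1 (2 * y)).filter (Good B)).card : ℝ) ≤ ((Icc 1 Y).filter (Good B)).card := by
    exact_mod_cast h8
  calc c / 3 * Y ≤ c / 3 * (3 * y) := by gcongr
    _ = c * y := by ring
    _ ≤ _ := h6.trans h9

end Pool.Agent.P.E2
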