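import Pool.Agent.P.MP_e94e4b_nt.E2.IfC

/-! Step FQ. -/

namespace Pool.Agent.P.E2

open Finset Real Filter Topology MeasureTheory
open Pool.Agent.P.MP_e86632_nt (ee nn ee_add norm_ee ee_neg ee_zero)
open Pool.Agent.P.MP_8be758_nt.Avg (gs Rough red ft en nsq vau_g gs_pos gs_le_one gs_neg gs_anti)
open Pool.Agent.P.MP_e94e4b_nt.PF (mN sgm)
open ArithmeticFunction (vonMangoldt moebius)
open DirichletCharacter (LFunction)

namespace FQa

theorem fib {q u : ℕ} (v a : ℕ) (hq : 1 ≤ q) (hu : q ≤ u) :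
    ft (Ioc u v) (fun p => (p1 p : ℂ)) ((a : ℝ) / q) = ∑ c ∈ red q,
      ((((Ioc u v).filter fun p => p.Prime ∧ p ≡ c [MOD q]).card : ℝ) : ℂ) *
        ee ((c : ℝ) / q * a) := by
  have e : ft (Ioc u v) (fun p => (p1 p : ℂ)) ((a : ℝ) / q) =
      ∑ p ∈ (Ioc u v).filter Nat.Prime, ee (p * ((a : ℝ) / q)) := by
    rw [sum_filter]
    exact sum_congr rfl fun p _ => by unfold p1; split_ifs with h <;> simp [h]
  rw [e, ← sum_fiberwise_of_maps_to (g := (· % q)) (t := red q) fun p hp => ?_]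
  · refine sum_congr rfl fun c hc => ?_
    rw [filter_filter, Complex.ofReal_natCast, ← nsmul_eq_mul, ← sum_const]
    refine sum_congr (filter_congr fun p _ => ?_) fun p hp => ?_
    · rw [Nat.ModEq, Nat.mod_eq_of_lt (mem_red.1 hc).1]
    · have h := (mem_filter.1 hp).2.2
      rw [Nat.ModEq, Nat.mod_eq_of_lt (mem_red.1 hc).1] at h
      have q0 : (q : ℝ) ≠ 0 := by positivity
      rw [← Pool.Agent.P.MP_e86632_nt.ee_add_int (_ / _ * _) (p / q * a : ℕ), ← h]
      congr 1
      conv_lhs => rw [← Nat.mod_add_div p q]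
      rw [Int.cast_natCast, Nat.cast_add, Nat.cast_mul, Nat.cast_mul]
      field_simp
  · obtain ⟨h1, h2⟩ := mem_filter.1 hp
    refine mem_red.2 ⟨Nat.mod_lt _ hq, ?_⟩
    have := (Nat.coprime_of_lt_prime (by omega) (hu.trans_lt (mem_Ioc.1 h1).1) h2)
    rw [Nat.Coprime, ← Nat.gcd_rec]
    exact this.symm

theorem err {q a : ℕ} (hq : 1 ≤ q) (ha : a.Coprime q) (N : ℕ → ℝ) {m b : ℝ} (hb : 0 ≤ b)
    (h : ∀ c, c.Coprime q → |N c - m| ≤ b) :
    ‖∑ c ∈ red q, (N c : ℂ) * ee ((c : ℝ) / q * a) - (moebius q * m : ℝ)‖ ≤ q * b := by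
  rw [Complex.ofReal_mul, Complex.ofReal_intCast,
    ← Pool.Agent.P.MP_8be758_nt.Avg.t_FAR.2.2 q a hq ha, sum_mul, ← sum_sub_distrib]
  refine (norm_sum_le_of_le _ (n := fun _ => b) fun c hc => ?_).trans ?_
  · rw [mul_comm _ (m : ℂ), ← sub_mul, norm_mul, norm_ee, mul_one, ← Complex.ofReal_sub,
      Complex.norm_real]
    exact h c (mem_red.1 hc).2
  · rw [sum_const, nsmul_eq_mul]
    gcongr
    exact (card_filter_le _ _).trans_eq (card_range q)

end FQa

open FQa in
theorem p_FQ (hPNT : S_PNT) (hGEO : S_GEO) :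
    S_FQ := by
  intro q ε hq hε
  have q0 : (0 : ℝ) < q := by exact_mod_cast hq
  obtain ⟨u0, hu0⟩ := eventually_atTop.1 (hPNT q (ε / (20 * q)) hq (by positivity))
  have tX : Tendsto XX atTop atTop := Real.tendsto_exp_atTop.comp (tendsto_pow_atTop (by norm_num))
  filter_upwards [hGEO, tX.eventually_ge_atTop (2 * u0), tX.eventually_ge_atTop (2 * q),
    tX.eventually_ge_atTop 4, (tendsto_pow_atTop (α := ℝ) (n := 13) (by norm_num)).eventually_ge_atTop
      (max 2 (32 / ε))] with r hG g1 g2 g3 g4 P y K H a hS ha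
  obtain ⟨-, t1, t2, t3⟩ := (hG P y K H hS).xt
  have x1 := (hG P y K H hS).x1
  have lX := log_XX r
  obtain ⟨l2, le⟩ := max_le_iff.1 g4
  generalize r ^ 13 = l at *
  generalize XX r = X at *
  generalize y / (K * H) = n at *
  have n0 : 0 < n := Nat.pos_of_ne_zero fun e => by
    rw [e, add_eq_left] at t1
    rw [t1, Nat.cast_zero] at t2
    linarith
  have a0 := (x1 0 n0).1
  have a1 := (x1 (n - 1) (by omega)).2.1
  rw [Nat.sub_add_cancel n0, ← t1] at a1
  rw [← t1]
  clear x1 t1
  generalize Xt y (K * H) = T at *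
  obtain ⟨u, hu⟩ : ∃ u, xb y (K * H) 0 = u + 1 :=
    Nat.exists_eq_succ_of_ne_zero fun e => by rw [e, Nat.cast_zero] at a0; linarith
  rw [hu] at a0 a1 ⊢
  push_cast at a0 a1
  have T0 : (0 : ℝ) ≤ T := T.cast_nonneg
  have X0 : 0 < X := by linarith
  have l1 : l - 1 ≤ Real.log u := by
    have := Real.log_le_log (by positivity) (show X / 2 ≤ u by linarith)
    rw [Real.log_div X0.ne' two_ne_zero] at this
    linarith [Real.log_two_lt_d9]
  have l3 : Real.log u ≤ l + 2 := by
    have := Real.log_le_log (by linarith) (show (u : ℝ) ≤ 2 ^ 2 * X by linarith)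
    rw [Real.log_mul (by positivity) X0.ne', Real.log_pow] at this
    push_cast at this
    linarith [Real.log_two_lt_d9]
  have e := err hq ha (fun c => (((Ioc u (u + T)).filter fun p => p.Prime ∧ p ≡ c [MOD q]).card : ℝ))
    (m := T / (q.totient * Real.log u)) (b := ε / (20 * q) * u / Real.log u)
    (div_nonneg (by positivity) (by linarith)) fun c hc => by
      have := hu0 u (by linarith) (u + T : ℕ) c (by push_cast; linarith)
        (by push_cast; linarith) hc
      rwa [Nat.floor_natCast, Nat.floor_natCast, Nat.cast_add, add_sub_cancel_left] at this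
  rw [← fib (u + T) a hq (by exact_mod_cast (show (q : ℝ) ≤ u by linarith))] at e
  rw [show Ico (u + 1) (u + 1 + T) = Ioc u (u + T) by ext; simp only [mem_Ico, mem_Ioc]; omega]
  refine (norm_sub_le_norm_sub_add_norm_sub _ _ _).trans ((add_le_add e
    (?_ : _ ≤ ε / 2 * X / l)).trans ?_)
  · rw [← Complex.ofReal_sub, Complex.norm_real, Real.norm_eq_abs,
      show (moebius q : ℝ) * (T / (q.totient * Real.log u)) - mf q * T / l =
        mf q * T * ((l - Real.log u) / (Real.log u * l)) by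
        have : Real.log u ≠ 0 := by linarith
        have : l ≠ 0 := by linarith
        rw [mf]; field_simp, abs_mul, abs_mul, abs_div, abs_of_nonneg T0,
      abs_of_pos (mul_pos (by linarith) (by linarith) : 0 < Real.log u * l)]
    rw [div_le_iff₀ hε] at le
    calc _ ≤ 1 * (4 * X) * (2 / (l / 2 * l)) := by
          gcongr
          exacts [abs_mf_le q, abs_le.2 ⟨by linarith, by linarith⟩, by linarith]
      _ = 16 / l * X / l := by field_simp; norm_num
      _ ≤ _ := by gcongr ?_ * X / l; rw [div_le_iff₀ (by linarith)]; linarith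
  · calc _ ≤ q * (ε / (20 * q) * (5 * X) / (l / 2)) + ε / 2 * X / l := by gcongr <;> linarith
      _ = _ := by field_simp; norm_num

end Pool.Agent.P.E2
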