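import Pool.Agent.P.MP_e94e4b_nt.E2.IfC

/-! Step GAL. -/

namespace Pool.Agent.P.E2

open Finset Real Filter Topology MeasureTheory
open Pool.Agent.P.MP_e86632_nt (ee nn ee_add norm_ee ee_neg ee_zero)
open Pool.Agent.P.MP_8be758_nt.Avg (gs Rough red ft en nsq vau_g gs_pos gs_le_one gs_neg gs_anti)
open Pool.Agent.P.MP_e94e4b_nt.PF (mN sgm)
open ArithmeticFunction (vonMangoldt moebius)
open DirichletCharacter (LFunction)

theorem p_GAL (hPL : S_PL) :
    S_GAL := by
  refine ⟨1 / gs 5 ^ 2, by have := gs_pos 5; positivity, fun I b a η ha hη h5 => ?_⟩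
  have h1 := hPL I b (fun j => j) a a 0 ha ha
  simp only [zero_mul, sub_zero] at h1
  have e : ∀ t : ℝ, ∑ j ∈ I, b j * ee (-(t * j)) = ft I b (-t) := fun t =>
    sum_congr rfl fun j _ => by congr 2; ring
  simp only [e] at h1
  have hc : Continuous fun t : ℝ => ‖ft I b (-t)‖ ^ 2 := by fun_prop
  have hi : Integrable fun t : ℝ => ‖ft I b (-t)‖ ^ 2 * gs (a * t) ^ 2 := by
    refine int_of_le_gs (a := 1 / a) (B := (∑ n ∈ I, ‖b n‖) ^ 2) (by positivity) (by fun_prop)
      fun t => ?_
    rw [Real.norm_of_nonneg (by positivity), div_div_eq_mul_div, div_one, mul_comm t]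
    refine mul_le_mul (pow_le_pow_left₀ (norm_nonneg _) (norm_ft_le_sum _ _ _) 2) ?_ (by positivity)
      (by positivity)
    nlinarith [gs_pos (a * t), gs_le_one (a * t)]
  have h2 : ∫ β in (-η)..η, ‖ft I b β‖ ^ 2 = ∫ t in (-η)..η, ‖ft I b (-t)‖ ^ 2 := by
    rw [intervalIntegral.integral_comp_neg fun t => ‖ft I b t‖ ^ 2, neg_neg]
  have h3 := gs_pos 5
  rw [h1, h2, one_div, ← div_eq_inv_mul, le_div_iff₀ (by positivity),
    ← intervalIntegral.integral_mul_const]
  refine (intervalIntegral.integral_mono_on (by linarith)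
    ((hc.mul continuous_const).intervalIntegrable _ _) hi.intervalIntegrable fun t ht => ?_).trans ?_
  · refine mul_le_mul_of_nonneg_left (pow_le_pow_left₀ h3.le (gs_anti ?_) 2) (by positivity)
    rw [abs_mul, abs_of_pos ha, abs_of_pos (by norm_num : (0 : ℝ) < 5)]
    exact (mul_le_mul_of_nonneg_left (abs_le.2 ht) ha.le).trans h5
  · rw [intervalIntegral.integral_of_le (by linarith)]
    exact setIntegral_le_integral hi (ae_of_all _ fun t => by positivity)

end Pool.Agent.P.E2
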