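import Pool.Agent.P.MP_e94e4b_nt.E2.IfC

/-! Step GAU. -/

namespace Pool.Agent.P.E2

open Finset Real Filter Topology MeasureTheory
open Pool.Agent.P.MP_e86632_nt (ee nn ee_add norm_ee ee_neg ee_zero)
open Pool.Agent.P.MP_8be758_nt.Avg (gs Rough red ft en nsq vau_g gs_pos gs_le_one gs_neg gs_anti)
open Pool.Agent.P.MP_e94e4b_nt.PF (mN sgm)
open ArithmeticFunction (vonMangoldt moebius)
open DirichletCharacter (LFunction)

namespace GAUa

theorem per {q : ℕ} (hq : 1 ≤ q) (a : ℕ) : Per q fun ν => ee (mN ν * ((a : ℝ) / q)) := by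
  refine ⟨hq, fun _ => (norm_ee _).le, fun n => ?_⟩
  have q0 : (q : ℝ) ≠ 0 := by positivity
  beta_reduce
  rw [← MP_e86632_nt.ee_add_int (mN n * ((a : ℝ) / q)) ((2 * (2 * n + q + 1) * a : ℕ) : ℤ)]
  congr 1
  simp only [mN]; push_cast; field_simp; ring

theorem shift {q : ℕ} {c : ℕ → ℂ} (h : Per q c) (d : ℕ) :
    ∑ ν ∈ range q, c (d + ν) = ∑ ν ∈ range q, c ν := by
  induction d with
  | zero => simp
  | succ d ih =>
    have h1 := sum_range_succ (fun ν => c (d + ν)) q
    rw [sum_range_succ', h.2.2, add_zero, add_left_inj] at h1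
    rw [← ih, ← h1]
    exact sum_congr rfl fun _ _ => by rw [add_assoc, add_comm 1]

theorem full {q : ℕ} {c : ℕ → ℂ} (h : Per q c) (N k : ℕ) :
    ∑ ν ∈ range (q * k), c (N + ν) = k * ∑ ν ∈ range q, c ν := by
  induction k with
  | zero => simp
  | succ k ih =>
    rw [Nat.mul_succ, sum_range_add, ih]
    simp only [← add_assoc, shift h]
    push_cast; ring

theorem few (q : ℕ) : #{d ∈ range q | q ∣ 4 * d} ≤ 4 := by
  refine (card_le_card_of_injOn (t := range 4) (fun d => 4 * d / q) (fun d hd => ?_)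
    fun d hd e he h => ?_).trans (card_range 4).le
  · have := mem_range.1 (mem_filter.1 hd).1
    exact mem_range.2 (Nat.div_lt_of_lt_mul (by omega))
  · have h1 := Nat.mul_div_cancel' (mem_filter.1 hd).2
    have h2 := Nat.mul_div_cancel' (mem_filter.1 he).2
    simp only at h
    rw [h] at h1
    omega

end GAUa

open GAUa in
theorem p_GAU :
    S_GAU := by
  intro q a hq
  have hp := per hq a
  have q0 : (0 : ℝ) < q := by positivity
  have g1 : ‖gam q a‖ ≤ 1 := norm_kap_le hp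
  refine ⟨fun ha => ?_, g1, fun N L => ?_⟩
  · set S := ∑ ν ∈ range q, ee (mN ν * ((a : ℝ) / q)) with hS
    have h1 : S * (starRingEnd ℂ) S = ∑ d ∈ range q, ee (2 * (d ^ 2 + d) * ((a : ℝ) / q)) *
        if (q : ℤ) ∣ ((4 * d * a : ℕ) : ℤ) then (q : ℂ) else 0 := by
      simp only [← MP_8be758_nt.Avg.t_FAR.2.1 q _ hq, mul_sum]
      rw [sum_comm, hS, map_sum, mul_sum]
      refine sum_congr rfl fun ν _ => ?_
      rw [← shift hp ν, sum_mul]
      refine sum_congr rfl fun d _ => ?_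
      rw [← ee_neg, ← ee_add, ← ee_add]
      congr 1
      simp only [mN]; push_cast; ring
    have h2 : ‖S‖ ^ 2 ≤ 4 * q := by
      rw [pow_two]
      nth_rewrite 2 [← Complex.norm_conj]
      rw [← norm_mul, h1]
      refine (norm_sum_le_of_le _ (n := fun d => if q ∣ 4 * d then (q : ℝ) else 0)
        fun d _ => ?_).trans ?_
      · rw [norm_mul, norm_ee, one_mul]
        simp only [Int.natCast_dvd_natCast, ha.symm.dvd_mul_right]
        split_ifs <;> simp
      · rw [← sum_filter, sum_const, nsmul_eq_mul]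
        gcongr
        exact_mod_cast few q
    have h3 : ‖S‖ ≤ 2 * √q := Real.le_sqrt_of_sq_le h2 |>.trans_eq (by
      rw [Real.sqrt_mul (by norm_num), show (4 : ℝ) = 2 ^ 2 by norm_num, Real.sqrt_sq (by norm_num)])
    rw [gam, ← hS, norm_div, Complex.norm_natCast, div_le_div_iff₀ q0 (Real.sqrt_pos.2 q0)]
    refine (mul_le_mul_of_nonneg_right h3 (Real.sqrt_nonneg _)).trans_eq ?_
    rw [mul_assoc, Real.mul_self_sqrt q0.le]
  · obtain ⟨k, s, hs, rfl⟩ : ∃ k s, s < q ∧ L = q * k + s :=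
      ⟨L / q, L % q, Nat.mod_lt _ hq, (Nat.div_add_mod L q).symm⟩
    have q1 : (q : ℂ) ≠ 0 := by exact_mod_cast q0.ne'
    have e : Ws (Ico N (N + (q * k + s))) mN ((a : ℝ) / q) - (q * k + s : ℕ) * gam q a =
        ∑ i ∈ range s, ee (mN (N + (q * k + i)) * ((a : ℝ) / q)) - s * gam q a := by
      rw [Ws, sum_Ico_eq_sum_range, Nat.add_sub_cancel_left, sum_range_add, full hp, gam]
      generalize ∑ ν ∈ range q, ee (mN ν * ((a : ℝ) / q)) = S
      generalize ∑ i ∈ range s, ee (mN (N + (q * k + i)) * ((a : ℝ) / q)) = T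
      push_cast; field_simp; ring
    have h1 : ‖∑ i ∈ range s, ee (mN (N + (q * k + i)) * ((a : ℝ) / q))‖ ≤ s :=
      (norm_sum_le_of_le _ (n := fun _ => (1 : ℝ)) fun n _ => (norm_ee _).le).trans (by simp)
    have h2 : ‖(s : ℂ) * gam q a‖ ≤ s := by
      rw [norm_mul, Complex.norm_natCast]; exact mul_le_of_le_one_right (Nat.cast_nonneg _) g1
    have h3 : (s : ℝ) ≤ q := by exact_mod_cast hs.le
    rw [e]
    linarith [norm_sub_le_of_le h1 h2]

end Pool.Agent.P.E2
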