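import Pool.Agent.P.MP_e94e4b_nt.E2.IfC

/-! Step GD. -/

namespace Pool.Agent.P.E2

open Finset Real Filter Topology MeasureTheory
open Pool.Agent.P.MP_e86632_nt (ee nn ee_add norm_ee ee_neg ee_zero)
open Pool.Agent.P.MP_8be758_nt.Avg (gs Rough red ft en nsq vau_g gs_pos gs_le_one gs_neg gs_anti)
open Pool.Agent.P.MP_e94e4b_nt.PF (mN sgm)
open ArithmeticFunction (vonMangoldt moebius)
open DirichletCharacter (LFunction)

namespace GDa

end GDa

theorem p_GD (hRNG : S_RNG) (hGEO : S_GEO) (hGS : S_GS) :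
    S_GD := by
  intro B hB
  filter_upwards [hRNG, hGEO, hGS, eventually_ge_atTop 20] with r h1 h2 h3 hr y K H hs i hi N hN hR
  have g := h2 _ y K H hs
  obtain ⟨p, hp, h4⟩ := exists_ne_zero_of_sum_ne_zero hR
  obtain ⟨a, b⟩ := mul_ne_zero_iff.1 h4
  have pp : p.Prime := by_contra fun e => a (if_neg e)
  obtain ⟨p₁, c1, n, -, c2, c3⟩ := (h3 _ g.p1 hs.p2).2.1 _ b
  obtain ⟨d1, -, d2⟩ := (h1 _ g.p1 hs.p2).pp _ c1
  obtain ⟨j1, -, -, j2, j3, j4⟩ := g.jj i hi N hN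
  have j5 := (j4 p hp).1
  have r1 : (1 : ℝ) ≤ r := by linarith
  have yN : (y : ℝ) ≤ N := by exact_mod_cast j1
  have l1 : r ^ 12 ≤ Real.log N := by
    have e : r ^ 13 / 2 ≤ Real.log N := by
      rw [← Real.log_exp (r ^ 13 / 2), ← g.ye]
      exact Real.log_le_log (g.ye ▸ Real.exp_pos _) yN
    have : r ^ 12 * 2 ≤ r ^ 12 * r := by gcongr; linarith
    rw [show r ^ 13 = r ^ 12 * r by ring] at e
    linarith
  have l2 : 20 * (r ^ 110 * r ^ B) ≤ Real.log N ^ B :=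
    calc _ ≤ r * (r ^ 110 * r ^ B) := by gcongr
      _ = r ^ (111 + B) := by ring
      _ ≤ r ^ (12 * B) := pow_le_pow_right₀ r1 (by omega)
      _ ≤ _ := by rw [pow_mul]; gcongr
  have l3 : (1 : ℝ) ≤ r ^ 110 := one_le_pow₀ r1
  have l4 : (0 : ℝ) < r ^ B := by positivity
  refine ⟨p, p₁, n, pp, d1, c2, ?_, by nlinarith, ?_⟩
  · rw [← c3]
    unfold mN at j5 ⊢
    omega
  · obtain ⟨-, -, x1, -⟩ := g.x1 i hi
    have y1 : (Yb y (K * H) i : ℝ) ≤ 5 * y * (K * H) := by exact_mod_cast (g.y1 i hi).2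
    obtain ⟨q1, q2⟩ := mem_Ico.1 hp
    have e : |(p : ℝ) - (N ^ 2 + N + 1)| ≤ (Yb y (K * H) i : ℝ) := by
      have e1 : (p : ℝ) ≤ Mn N + Yb y (K * H) i := by exact_mod_cast (by omega)
      have e2 : (Mn N : ℝ) ≤ p + Yb y (K * H) i := by exact_mod_cast (by omega)
      rw [Mn] at e1 e2
      push_cast at e1 e2
      exact abs_le.2 ⟨by linarith, by linarith⟩
    refine e.trans (y1.trans ?_)
    calc (5 : ℝ) * y * (K * H) ≤ 5 * N * (2 * r ^ 110 * (2 * r ^ B)) := by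
          gcongr
          exacts [hs.k2, hs.h2]
      _ = N * (20 * (r ^ 110 * r ^ B)) := by ring
      _ ≤ _ := by gcongr

end Pool.Agent.P.E2
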