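import Pool.Agent.P.MP_e94e4b_nt.E2.IfC

/-! Step GEO. -/

namespace Pool.Agent.P.E2

open Finset Real Filter Topology MeasureTheory
open Pool.Agent.P.MP_e86632_nt (ee nn ee_add norm_ee ee_neg ee_zero)
open Pool.Agent.P.MP_8be758_nt.Avg (gs Rough red ft en nsq vau_g gs_pos gs_le_one gs_neg gs_anti)
open Pool.Agent.P.MP_e94e4b_nt.PF (mN sgm)
open ArithmeticFunction (vonMangoldt moebius)
open DirichletCharacter (LFunction)

namespace GEOa

theorem mn_lt {a b : ℕ} (h : a < b) : Mn a < Mn b := by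
  unfold Mn; nlinarith

theorem mn_le {a b : ℕ} (h : a ≤ b) : Mn a ≤ Mn b := by
  unfold Mn; nlinarith

theorem xb_succ (y L i : ℕ) :
    xb y L (i + 1) = xb y L i + (2 * (y + i * L) * L + L ^ 2 + L) := by
  unfold xb Mn; ring

theorem yb_eq (y L i : ℕ) : Yb y L i = 2 * (y + i * L) * L + L ^ 2 + L := by
  rw [Yb, xb_succ, Nat.add_sub_cancel_left]

theorem xb_add (y L i : ℕ) : xb y L i + Yb y L i = xb y L (i + 1) := by
  rw [yb_eq, xb_succ]

theorem idx {y L i : ℕ} (h : i < y / L) : i * L + L ≤ y := by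
  have h1 := Nat.div_mul_le_self y L
  have h2 := Nat.mul_le_mul_right L (Nat.succ_le_of_lt h)
  rw [Nat.succ_mul] at h2
  omega

theorem xb_ge (y L i : ℕ) : y ^ 2 ≤ xb y L i := by
  have := mn_le (Nat.le_add_right y (i * L))
  unfold xb; unfold Mn at *; omega

theorem xb_le {y L i : ℕ} (hy : 3 ≤ y) (h : i < y / L) : xb y L (i + 1) ≤ 5 * y ^ 2 := by
  have h1 := idx h
  have h2 : Mn (y + (i + 1) * L) ≤ Mn (2 * y) := mn_le (by rw [Nat.succ_mul]; omega)
  unfold xb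
  refine h2.trans ?_
  unfold Mn; nlinarith

theorem yb_bd {y L i : ℕ} (hL : 1 ≤ L) (h : i < y / L) :
    2 * y * L ≤ Yb y L i ∧ Yb y L i ≤ 5 * y * L := by
  have h1 := idx h
  rw [yb_eq]
  have h2 : (i * L + L) * L ≤ y * L := Nat.mul_le_mul_right L h1
  have h3 : L ≤ L ^ 2 := Nat.le_self_pow two_ne_zero L
  constructor <;> nlinarith [Nat.zero_le (i * L * L), Nat.zero_le (y * L)]

theorem sum_yb (y L n : ℕ) : xb y L 0 + ∑ i ∈ range n, Yb y L i = xb y L n := by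
  induction n with
  | zero => simp
  | succ n ih => rw [sum_range_succ, ← add_assoc, ih, xb_add]

theorem xt_bd {y L : ℕ} (hL : 1 ≤ L) (h : 100 * L ≤ y) :
    2 * y ^ 2 ≤ Xt y L ∧ Xt y L ≤ 4 * y ^ 2 := by
  have h1 := Nat.div_mul_le_self y L
  have h2 := Nat.lt_div_mul_add (a := y) hL
  obtain ⟨d, hd⟩ := Nat.exists_eq_add_of_le (show L ≤ y by omega)
  have h3 : Mn (y + d) ≤ xb y L (y / L) := mn_le (by omega)
  have h4 : xb y L (y / L) ≤ Mn (2 * y) := mn_le (by omega)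
  have h5 : xb y L 0 = Mn y := by simp [xb]
  have h6 : Mn y + 2 * y ^ 2 ≤ Mn (y + d) := by
    have : 99 * L ≤ d := by omega
    unfold Mn; subst hd; nlinarith
  have h7 : Mn (2 * y) ≤ Mn y + 4 * y ^ 2 := by unfold Mn; nlinarith
  unfold Xt
  omega

theorem jj_nat {y L i : ℕ} (hL : 1 ≤ L) (h : i < y / L) (hY : Yb y L i ≤ xb y L i) :
    ∀ N ∈ JJ y L i, y ≤ N ∧ N < 2 * y ∧ (N - y) / L = i ∧
    xb y L i ≤ Mn N ∧ Mn N < xb y L (i + 1) ∧
    ∀ p ∈ Ip y L i, p ≤ mN N ∧ mN N - p ∈ Ig y L i := by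
  intro N hN
  have h1 := idx h
  obtain ⟨h2, h3⟩ := mem_Ico.1 hN
  have h4 : xb y L i ≤ Mn N := mn_le h2
  have h5 : Mn N < xb y L (i + 1) := mn_lt (by rw [Nat.succ_mul]; omega)
  refine ⟨by omega, by omega, ?_, h4, h5, fun p hp => ?_⟩
  · exact Nat.div_eq_of_lt_le (by omega) (by rw [Nat.succ_mul]; omega)
  · obtain ⟨h6, h7⟩ := mem_Ico.1 hp
    have h8 : mN N = 2 * Mn N := by unfold mN Mn; ring
    have h9 := xb_add y L i
    rw [Ig, mem_Ioc]
    omega

end GEOa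

open GEOa in
theorem p_GEO :
    S_GEO := by
  filter_upwards [eventually_ge_atTop 1, ev_pp 4 one_pos (show 110 < 300 by norm_num),
    ev_lin 2 5 (show (0 : ℝ) < 1 / 2 by norm_num) (show 2 ≤ 13 by norm_num)] with r h1 h2 h3
  intro P y K H hs
  have a1 : 1 ≤ r ^ 110 := one_le_pow₀ h1
  have a2 : 1 ≤ r ^ 300 := one_le_pow₀ h1
  obtain ⟨hy, k1, k2, g1, g2, p1, p2⟩ := hs
  have ye : (y : ℝ) = Real.exp (r ^ 13 / 2) := by
    refine (pow_left_inj₀ (Nat.cast_nonneg y) (Real.exp_pos _).le two_ne_zero).1 ?_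
    rw [hy, XX, ← Real.exp_nat_mul]; congr 1; push_cast; ring
  have e2 : Real.exp (2 * r) = Real.exp r ^ 2 := by rw [← Real.exp_nat_mul]; norm_num
  have hP : P ^ 2 ≤ Real.exp (2 * r) := by rw [e2]; gcongr; linarith
  have k0 : 1 ≤ K := by exact_mod_cast a1.trans k1
  have kh : 2 * K ≤ H := by
    have : (2 : ℝ) * K ≤ H := by linarith
    exact_mod_cast this
  have lu : (K : ℝ) * H ≤ Real.exp (2 * r) := by
    have : (K : ℝ) * H ≤ (P / 2) * (2 * P) := by gcongr; all_goals linarith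
    nlinarith
  have hL : 1 ≤ K * H := Nat.mul_pos k0 (by omega)
  have hy1 : 100 * (K * H) ≤ y := by
    have b1 : (100 : ℝ) ≤ Real.exp 5 := by
      have := Real.add_one_le_exp (1 : ℝ)
      have b2 : Real.exp 5 = Real.exp 1 ^ 5 := by rw [← Real.exp_nat_mul]; norm_num
      rw [b2]
      calc (100 : ℝ) ≤ 2.7 ^ 5 := by norm_num
        _ ≤ _ := by gcongr; linarith [Real.exp_one_gt_d9]
    have b3 : (100 : ℝ) * (K * H) ≤ y := by
      calc (100 : ℝ) * (K * H) ≤ Real.exp 5 * Real.exp (2 * r) := by gcongr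
        _ = Real.exp (2 * r + 5) := by rw [← Real.exp_add, add_comm]
        _ ≤ _ := by rw [ye]; exact Real.exp_le_exp.2 (by linarith)
    exact_mod_cast b3
  generalize hLe : K * H = L at hL hy1
  have c1 : ∀ i < y / L, 20 * Yb y L i ≤ y ^ 2 := fun i hi => by
    have := (yb_bd hL hi).2
    nlinarith
  have c2 : ∀ i < y / L, Yb y L i ≤ xb y L i := fun i hi => by
    have := c1 i hi
    have := xb_ge y L i
    omega
  have d1 : ∀ i, XX r ≤ xb y L i := fun i => by rw [← hy]; exact_mod_cast xb_ge y L i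
  have d2 : ∀ i < y / L, (xb y L (i + 1) : ℝ) ≤ 5 * XX r := fun i hi => by
    rw [← hy]; exact_mod_cast xb_le (by omega) hi
  have d3 : ∀ i < y / L, (20 : ℝ) * Yb y L i ≤ XX r := fun i hi => by
    rw [← hy]; exact_mod_cast c1 i hi
  have hX := XX_pos r
  refine ⟨ye, by linarith, k0, kh, by linarith, by linarith, ?_, ?_, lu, ?_, ?_, ?_, ?_, ?_⟩
  · calc r ^ 600 = (r ^ 300) ^ 2 := by ring
      _ ≤ _ := by gcongr; linarith
  · calc (H : ℝ) ^ 2 ≤ (2 * P) ^ 2 := by gcongr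
      _ ≤ _ := by nlinarith
  all_goals rw [hLe]
  · exact fun i hi => ⟨d1 i, d2 i hi, xb_add y L i, c2 i hi⟩
  · exact fun i hi => yb_bd hL hi
  · intro i hi
    have e1 := d1 i
    have e3 := d2 i hi
    have e4 := d3 i hi
    have e5 : (xb y L i : ℝ) + Yb y L i = xb y L (i + 1) := by exact_mod_cast xb_add y L i
    have e6 : (xb y L i : ℝ) + 2 * Yb y L i ≤ 6 * XX r := by linarith
    refine ⟨by linarith, e6, fun m hm => ?_⟩
    obtain ⟨m1, m2⟩ := mem_Ioc.1 hm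
    have m3 : (m : ℝ) ≤ xb y L i + 2 * Yb y L i := by exact_mod_cast m2
    exact mem_Icc.2 ⟨by omega, Nat.le_floor (by linarith)⟩
  · exact fun i hi => jj_nat hL hi (c2 i hi)
  · have e1 := sum_yb y L (y / L)
    obtain ⟨e3, e4⟩ := xt_bd hL hy1
    refine ⟨by unfold Xt; omega, by unfold Xt; omega, ?_, ?_⟩
    · rw [← hy]; exact_mod_cast e3
    · rw [← hy]; exact_mod_cast e4

end Pool.Agent.P.E2
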