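import Pool.Agent.P.MP_e94e4b_nt.E2.IfZ

/-! Step GF. -/

namespace Pool.Agent.P.E2

open Finset Real Filter Topology MeasureTheory
open Pool.Agent.P.MP_e86632_nt (ee nn ee_add norm_ee ee_neg ee_zero)
open Pool.Agent.P.MP_8be758_nt.Avg (gs Rough red ft en nsq vau_g gs_pos gs_le_one gs_neg gs_anti)
open Pool.Agent.P.MP_e94e4b_nt.PF (mN sgm)
open ArithmeticFunction (vonMangoldt moebius)
open DirichletCharacter (LFunction)

namespace GFa

theorem key (w v σ u x : ℝ) : km w v (pt σ u) * Complex.exp (-(pt σ u * x)) =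
    (Real.exp (w ^ 2 * σ ^ 2 / (4 * π) + σ * (v - x)) : ℝ) *
      ((gs (w * u) : ℂ) * ee (-(u * (x - v - w ^ 2 * σ / (2 * π))))) := by
  have hp : (π : ℂ) ≠ 0 := Complex.ofReal_ne_zero.2 Real.pi_ne_zero
  rw [km, pt, gs, ee, Complex.ofReal_exp, Complex.ofReal_exp, ← Complex.exp_add,
    ← Complex.exp_add, ← Complex.exp_add]
  congr 1
  push_cast
  field_simp
  linear_combination (4 * π ^ 2 * w ^ 2 * u ^ 2 : ℂ) * Complex.I_sq

end GFa

open GFa in
theorem p_GF :
    S_GF := by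
  intro w v σ hw
  have k0 : ∀ u, km w v (pt σ u) = (Real.exp (w ^ 2 * σ ^ 2 / (4 * π) + σ * v) : ℝ) *
      ((gs (w * u) : ℂ) * ee (-(u * (0 - v - w ^ 2 * σ / (2 * π))))) := fun u => by
    simpa using key w v σ u 0
  refine ⟨fun u => ?_, ?_, fun x => ?_⟩
  · rw [k0, norm_mul, norm_mul, norm_ee, mul_one, Complex.norm_real, Complex.norm_real,
      Real.norm_of_nonneg (Real.exp_pos _).le, Real.norm_of_nonneg (gs_pos _).le]
  · simp only [k0]
    exact (gk_four_integrable hw _).const_mul _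
  · simp only [key]
    rw [integral_const_mul, gk_four hw, ← Complex.ofReal_mul, gk, gk, gs, gs, ← mul_div_assoc,
      ← Real.exp_add]
    congr 3
    field_simp
    ring

end Pool.Agent.P.E2
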