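import Pool.Agent.P.MP_e94e4b_nt.E2.IfC

/-! Step GS. -/

namespace Pool.Agent.P.E2

open Finset Real Filter Topology MeasureTheory
open Pool.Agent.P.MP_e86632_nt (ee nn ee_add norm_ee ee_neg ee_zero)
open Pool.Agent.P.MP_8be758_nt.Avg (gs Rough red ft en nsq vau_g gs_pos gs_le_one gs_neg gs_anti)
open Pool.Agent.P.MP_e94e4b_nt.PF (mN sgm)
open ArithmeticFunction (vonMangoldt moebius)
open DirichletCharacter (LFunction)

namespace GSa

lemma bil {R : Type} [CommRing R] (φ : ℝ →+* R) {r P : ℝ} (h : Rg r P) (F : ℕ → R) :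
    ∑ m ∈ Mr r, φ (gE r P m) * F m =
      ∑ p ∈ PP P, ∑ n ∈ RN r P, φ (th n * ph r P n) * F (p * n) := by
  simp only [gE, map_sum, sum_mul]
  rw [sum_comm' (t' := PP P) (s' := fun p => (Mr r).filter fun m => p ∣ m ∧ m / p ∈ RN r P)
    (by simp only [mem_filter]; tauto)]
  refine sum_congr rfl fun p hp => ?_
  have p0 := (h.pp p hp).1.pos
  refine sum_nbij' (· / p) (p * ·) (fun m hm => (mem_filter.1 hm).2.2)
    (fun n hn => mem_filter.2 ⟨h.mr p hp n hn, dvd_mul_right _ _, by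
      rwa [Nat.mul_div_cancel_left _ p0]⟩)
    (fun m hm => Nat.mul_div_cancel' (mem_filter.1 hm).2.1) (fun n _ => Nat.mul_div_cancel_left _ p0)
    fun m hm => by rw [Nat.mul_div_cancel' (mem_filter.1 hm).2.1]

end GSa

theorem p_GS (hRNG : S_RNG) (hPH : S_PH) :
    S_GS := by
  filter_upwards [hRNG, hPH, eventually_ge_atTop 0] with r h1 h2 r0 P a b
  have h := h1 P a b
  refine ⟨fun m => ⟨sum_nonneg fun p _ => mul_nonneg (th_nonneg _) (h2 P a b _).1, ?_⟩,
    fun m hm => ?_, GSa.bil (RingHom.id ℝ) h, GSa.bil Complex.ofRealHom h⟩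
  · rw [gE, ← sum_filter_ne_zero]
    refine (sum_le_card_nsmul _ _ (2 * r ^ 13) fun p hp => ?_).trans ?_
    · exact (mul_le_of_le_one_right (th_nonneg _) (h2 P a b _).2.1).trans ((th_le_log _).trans
        (h.rn _ (mem_filter.1 (mem_filter.1 hp).1).2.2).2.2)
    · rw [nsmul_eq_mul]
      refine mul_le_of_le_one_left (by positivity) (Nat.cast_le_one.2 (card_le_one.2 ?_))
      simp only [mem_filter]
      rintro p ⟨⟨-, d, n⟩, z⟩ p' ⟨⟨c', d', -⟩, z'⟩
      have q := prime_of_th (left_ne_zero_of_mul z)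
      have q' := prime_of_th (left_ne_zero_of_mul z')
      have e : p * (m / p) = p' * (m / p') := by rw [Nat.mul_div_cancel' d, Nat.mul_div_cancel' d']
      rcases q.dvd_mul.1 (e ▸ dvd_mul_left _ p) with k | k
      · have : ((m / p : ℕ) : ℝ) ≤ p' := Nat.cast_le.2 (Nat.le_of_dvd (h.pp p' c').1.pos k)
        linarith [(h.rn _ n).2.1, (h.pp p' c').2.2]
      · rw [(Nat.prime_dvd_prime_iff_eq q q').1 k] at e
        exact Nat.eq_of_mul_eq_mul_right q'.pos e
  · obtain ⟨p, hp, z⟩ := exists_ne_zero_of_sum_ne_zero hm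
    obtain ⟨c, d, n⟩ := mem_filter.1 hp
    exact ⟨p, c, _, n, prime_of_th (left_ne_zero_of_mul z), (Nat.mul_div_cancel' d).symm⟩

end Pool.Agent.P.E2
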