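import Pool.Agent.P.MP_e94e4b_nt.E2.IfD

/-! Step HALC. -/

namespace Pool.Agent.P.E2

open Finset Real Filter Topology MeasureTheory
open Pool.Agent.P.MP_e86632_nt (ee nn ee_add norm_ee ee_neg ee_zero)
open Pool.Agent.P.MP_8be758_nt.Avg (gs Rough red ft en nsq vau_g gs_pos gs_le_one gs_neg gs_anti)
open Pool.Agent.P.MP_e94e4b_nt.PF (mN sgm)
open ArithmeticFunction (vonMangoldt moebius)
open DirichletCharacter (LFunction)

namespace HALCa

open scoped ComplexConjugate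

lemma ib {X E : Type} [TopologicalSpace X] [MeasurableSpace X] [OpensMeasurableSpace X]
    [NormedAddCommGroup E] [SecondCountableTopology E] {μ : Measure X} [IsFiniteMeasure μ]
    {f : X → E} (hf : Continuous f) (C : ℝ) (h : ∀ x, ‖f x‖ ≤ C) : Integrable f μ :=
  .of_bound hf.aestronglyMeasurable C (ae_of_all _ h)

lemma kneg (I : Finset ℕ) (u v : ℝ) :
    ‖dq I (fun _ => 1) (u - v)‖ = ‖dq I (fun _ => 1) (v - u)‖ := by
  rw [← Complex.norm_conj, dq, map_sum, dq]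
  simp [conj_nit]

lemma main (I : Finset ℕ) (b : ℕ → ℂ) (μ : Measure ℝ) [IsFiniteMeasure μ] {B : ℝ}
    (h : ∀ᵐ t ∂μ, ∫ t', ‖dq I (fun _ => 1) (t - t')‖ ∂μ ≤ B) :
    (∫ t, ‖dq I b t‖ ^ 2 ∂μ) ^ 2 ≤ nsq I b * (B * ∫ t, ‖dq I b t‖ ^ 2 ∂μ) := by
  have bS := norm_dq_le_sum I b
  have bK := norm_dq_le_sum I fun _ => 1
  set σ := ∑ n ∈ I, ‖b n‖
  set κ := ∑ n ∈ I, ‖(1 : ℂ)‖
  have σ0 : 0 ≤ σ := (norm_nonneg _).trans (bS 0)
  have i1 : ∀ k, Integrable (fun t => conj (dq I b t) * nit t k) μ := fun k =>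
    ib (by fun_prop) σ fun t => by simpa using bS t
  set A := fun k => ∫ t, conj (dq I b t) * nit t k ∂μ with hA
  have e1 : ((∫ t, ‖dq I b t‖ ^ 2 ∂μ : ℝ) : ℂ) = ∑ k ∈ I, b k * A k := by
    simp only [hA, ← integral_const_mul]
    rw [← integral_finsetSum _ fun k _ => (i1 k).const_mul _, ← integral_complex_ofReal]
    refine integral_congr_ae (ae_of_all _ fun t => ?_)
    simp only [mul_left_comm (b _), ← mul_sum]
    rw [Complex.ofReal_pow, ← Complex.conj_mul']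
    rfl
  have e2 : ((∑ k ∈ I, ‖A k‖ ^ 2 : ℝ) : ℂ) =
      ∫ p, conj (dq I b p.1) * dq I b p.2 * dq I (fun _ => 1) (p.1 - p.2) ∂μ.prod μ := by
    simp only [Complex.ofReal_sum, Complex.ofReal_pow, ← Complex.mul_conj', hA, ← integral_conj,
      ← integral_prod_mul]
    rw [← integral_finsetSum _ fun k _ => ib (by fun_prop) (σ * σ) fun p => by
      simpa using mul_le_mul (bS p.1) (bS p.2) (norm_nonneg _) σ0]
    refine integral_congr_ae (ae_of_all _ fun p => ?_)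
    simp only [dq.eq_1 I fun _ => 1, mul_sum, map_mul, Complex.conj_conj, ← nit_mul_conj]
    exact sum_congr rfl fun k _ => by ring
  have i2 : Integrable (fun p : ℝ × ℝ => ‖dq I b p.1‖ ^ 2 * ‖dq I (fun _ => 1) (p.1 - p.2)‖)
      (μ.prod μ) := ib (by fun_prop) (σ ^ 2 * κ) fun p => by
    rw [Real.norm_of_nonneg (by positivity)]
    gcongr
    exacts [bS _, bK _]
  have e3 : ∫ p, ‖dq I b p.1‖ ^ 2 * ‖dq I (fun _ => 1) (p.1 - p.2)‖ ∂μ.prod μ ≤
      B * ∫ t, ‖dq I b t‖ ^ 2 ∂μ := by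
    rw [integral_prod _ i2, ← integral_const_mul]
    refine integral_mono_ae i2.integral_prod_left (.const_mul (ib (by fun_prop) (σ ^ 2) fun t => by
      rw [norm_pow, norm_norm]; gcongr; exact bS t) _) (h.mono fun t ht => ?_)
    simp only [integral_const_mul]
    rw [mul_comm]
    gcongr
  have e4 : ∑ k ∈ I, ‖A k‖ ^ 2 ≤ B * ∫ t, ‖dq I b t‖ ^ 2 ∂μ := by
    refine (le_abs_self _).trans ((Complex.norm_real _).symm.trans_le ?_)
    rw [e2]
    refine (norm_integral_le_of_norm_le ((i2.add i2.swap).div_const 2)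
      (ae_of_all _ fun p => ?_)).trans ?_
    · simp only [norm_mul, Complex.norm_conj, Pi.add_apply, Function.comp_apply, Prod.fst_swap,
        Prod.snd_swap, kneg I p.2]
      nlinarith [mul_nonneg (sq_nonneg (‖dq I b p.1‖ - ‖dq I b p.2‖))
        (norm_nonneg (dq I (fun _ => 1) (p.1 - p.2)))]
    · rw [integral_div, integral_add' i2 i2.swap]
      simp only [Function.comp_apply]
      rw [integral_prod_swap fun p : ℝ × ℝ => ‖dq I b p.1‖ ^ 2 * ‖dq I (fun _ => 1) (p.1 - p.2)‖]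
      linarith
  have e5 : ∫ t, ‖dq I b t‖ ^ 2 ∂μ ≤ ∑ k ∈ I, ‖b k‖ * ‖A k‖ :=
    (le_abs_self _).trans ((Complex.norm_real _).symm.trans_le
      (e1 ▸ norm_sum_le_of_le _ fun k _ => (norm_mul _ _).le))
  exact (pow_le_pow_left₀ (integral_nonneg fun _ => sq_nonneg _) e5 2).trans
    ((sum_mul_sq_le_sq_mul_sq _ _ _).trans
      (mul_le_mul_of_nonneg_left e4 (sum_nonneg fun _ _ => sq_nonneg _)))

end HALCa

theorem p_HALC :
    S_HALC := by
  intro I b U B hU hf hB h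
  have := isFiniteMeasure_restrict.2 hf
  have h1 := HALCa.main I b (volume.restrict U) ((ae_restrict_mem hU).mono h)
  have h2 : 0 ≤ B * nsq I b := mul_nonneg hB (sum_nonneg fun _ _ => sq_nonneg _)
  by_contra h3
  nlinarith

end Pool.Agent.P.E2
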