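import Pool.Agent.P.MP_e94e4b_nt.E2.IfD

/-! Step HB. -/

namespace Pool.Agent.P.E2

open Finset Real Filter Topology MeasureTheory
open Pool.Agent.P.MP_e86632_nt (ee nn ee_add norm_ee ee_neg ee_zero)
open Pool.Agent.P.MP_8be758_nt.Avg (gs Rough red ft en nsq vau_g gs_pos gs_le_one gs_neg gs_anti)
open Pool.Agent.P.MP_e94e4b_nt.PF (mN sgm)
open ArithmeticFunction (vonMangoldt moebius)
open DirichletCharacter (LFunction)

namespace HBa

theorem lg {l : ℝ} (h : 0 ≤ l) : Real.log (1 + 4 * Real.exp (2 * l)) ≤ 2 * l + 4 := by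
  rw [Real.log_le_iff_le_exp (by positivity), Real.exp_add]
  have h1 := Real.add_one_le_exp (4 : ℝ)
  have h2 := Real.one_le_exp (x := 2 * l) (by positivity)
  nlinarith

end HBa

theorem p_HB (hPS : S_PS) (hHALC : S_HALC) (hIL : S_IL) :
    S_HB := by
  obtain ⟨c, hc, h⟩ := hPS
  refine ⟨c, hc, ?_⟩
  filter_upwards [h, ev_lin 0 13 one_pos (k := 13) (by norm_num), eventually_ge_atTop 0]
    with r h h13 h0 M N b U hM hU
  set l := r ^ 13 with hl
  have hl5 : 13 ≤ l := by linarith
  have hN : (0 : ℝ) ≤ N := Nat.cast_nonneg N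
  refine hHALC _ b U _ hU.1 hU.fin (by positivity) fun t ht => ?_
  have hd : ∀ t' ∈ U, |t - t'| ≤ 4 * Real.exp (2 * l) := fun t' ht' => by
    have := abs_sub t t'
    linarith [(hU.2.1 t ht).2, (hU.2.1 t' ht').2]
  have h3 : 4 * Real.exp (2 * l) ≤ Real.exp (3 * l) := by
    rw [show 3 * l = l + 2 * l by ring, Real.exp_add]
    have := Real.add_one_le_exp l
    gcongr
    linarith
  have c1 : Continuous fun t' : ℝ => 1 / (1 + |t - t'|) :=
    continuous_const.div (by fun_prop) fun _ => by positivity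
  have i1 : IntegrableOn (fun t' : ℝ => 1 / (1 + |t - t'|)) U := hU.intOn c1
  have i2 : IntegrableOn (fun _ : ℝ => Real.exp (-(c * l))) U := hU.intOn continuous_const
  have hv : volume.real U * Real.exp (-(c * l)) ≤ 1 := by
    rw [Real.exp_neg, ← div_eq_mul_inv, div_le_one (Real.exp_pos _)]
    exact hU.2.2
  calc ∫ t' in U, ‖dq (Ioc M N) (fun _ => 1) (t - t')‖
      ≤ ∫ t' in U, N * (10 * (1 / (1 + |t - t'|)) + Real.exp (-(c * l))) := by
        refine setIntegral_mono_on (hU.intOn (by fun_prop))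
          (((i1.const_mul 10).add i2).const_mul _) hU.1 fun t' ht' => ?_
        rw [mul_one_div]
        exact h 1 M N _ _ per_one (by simpa using h0) hM ((hd t' ht').trans h3)
    _ = N * (10 * (∫ t' in U, 1 / (1 + |t - t'|)) + volume.real U * Real.exp (-(c * l))) := by
        rw [integral_const_mul, integral_add (i1.const_mul 10) i2, integral_const_mul,
          setIntegral_const, smul_eq_mul]
    _ ≤ N * (50 * l) := by
        have h1 := hIL U t _ hU.1 (by positivity) hd
        have h2 := HBa.lg (l := l) (by linarith)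
        gcongr
        linarith
    _ = _ := by ring

end Pool.Agent.P.E2
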