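import Pool.Agent.P.MP_e94e4b_nt.E2.IfZ

/-! Step HF. -/

namespace Pool.Agent.P.E2

open Finset Real Filter Topology MeasureTheory
open Pool.Agent.P.MP_e86632_nt (ee nn ee_add norm_ee ee_neg ee_zero)
open Pool.Agent.P.MP_8be758_nt.Avg (gs Rough red ft en nsq vau_g gs_pos gs_le_one gs_neg gs_anti)
open Pool.Agent.P.MP_e94e4b_nt.PF (mN sgm)
open ArithmeticFunction (vonMangoldt moebius)
open DirichletCharacter (LFunction)

namespace HFa

open DirichletCharacter

theorem gen (G G0 f : ℂ → ℂ) (hf : Continuous f) (h1 : ∀ s : ℂ, 1 ≤ s.re → f s ≠ 0)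
    (hd : ∀ s, f s ≠ 0 → DifferentiableAt ℂ G0 s ∧ G s = G0 s) :
    ∃ δ B : ℝ, 0 < δ ∧
      ∀ s : ℂ, 1 - δ ≤ s.re → s.re ≤ 2 → |s.im| ≤ 3 → DifferentiableAt ℂ G s ∧ ‖G s‖ ≤ B := by
  have hO : IsOpen {s | f s ≠ 0} := isOpen_ne_fun hf continuous_const
  have hG : ∀ s, f s ≠ 0 → DifferentiableAt ℂ G s := fun s h => (hd s h).1.congr_of_eventuallyEq
    (mem_of_superset (hO.mem_nhds h) fun z hz => (hd z hz).2)
  have hK : IsCompact (Set.Icc (1 : ℝ) 2 ×ℂ Set.Icc (-3 : ℝ) 3) :=
    isCompact_Icc.reProdIm isCompact_Icc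
  obtain ⟨δ, d0, hδ⟩ := hK.exists_cthickening_subset_open hO fun s h => h1 s h.1.1
  obtain ⟨B, hB⟩ := (hK.cthickening (r := δ)).exists_bound_of_continuousOn (f := G)
    fun s h => (hG s (hδ h)).continuousAt.continuousWithinAt
  refine ⟨δ, B, d0, fun s a b c => ?_⟩
  have := Metric.mem_cthickening_of_dist_le s ⟨max s.re 1, s.im⟩ δ
    (Set.Icc (1 : ℝ) 2 ×ℂ Set.Icc (-3 : ℝ) 3)
    ⟨⟨le_max_right _ _, max_le b one_le_two⟩, abs_le.1 c⟩ (by
      rw [Complex.dist_of_im_eq (by rfl), Real.dist_eq, abs_le]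
      have := le_max_left s.re 1
      have : max s.re 1 ≤ s.re + δ := max_le (by linarith) (by linarith)
      constructor <;> dsimp only <;> linarith)
  exact ⟨hG s (hδ this), hB s this⟩

theorem dlog {f : ℂ → ℂ} (h : Differentiable ℂ f) {s : ℂ} (h0 : f s ≠ 0) :
    DifferentiableAt ℂ (fun s => -(deriv f s / f s)) s :=
  ((h.deriv s).div (h s) h0).neg

theorem zeta : ∃ Z : ℂ → ℂ, Differentiable ℂ Z ∧ ∀ s, s ≠ 1 → riemannZeta s = 1 / (s - 1) + Z s := by
  refine ⟨dslope (LFunctionTrivChar₁ 1) 1, differentiableOn_univ.1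
    ((Complex.differentiableOn_dslope univ_mem).2
      (differentiable_LFunctionTrivChar₁ 1).differentiableOn), fun s h => ?_⟩
  have := sub_ne_zero.2 h
  rw [dslope_of_ne _ h, slope_def_field, LFunctionTrivChar₁, Function.update_of_ne h,
    Function.update_self, LFunctionTrivChar, LFunction_modOne_eq]
  simp only [Nat.primeFactors_one, prod_empty]
  field_simp
  ring

end HFa

open HFa DirichletCharacter in
theorem p_HF :
    S_HF := by
  intro q _ χ
  by_cases h : χ = 1
  · subst h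
    obtain ⟨Z, z1, z2⟩ := zeta
    have hd := differentiable_LFunctionTrivChar₁ q
    let G0 : ℂ → ℂ := fun s => -(deriv (LFunctionTrivChar₁ q) s / LFunctionTrivChar₁ q s) - Z s
    obtain ⟨δ, B, d0, hB⟩ := gen (Function.update
      (fun s => ld (1 : DirichletCharacter ℂ q) s - riemannZeta s) 1 (G0 1)) G0 _ hd.continuous
      (fun s hs => by
        rcases eq_or_ne s 1 with rfl | e
        · exact LFunctionTrivChar₁_apply_one_ne_zero q
        · rw [LFunctionTrivChar₁, Function.update_of_ne e]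
          exact mul_ne_zero (sub_ne_zero.2 e) (LFunction_ne_zero_of_one_le_re _ (.inr e) hs))
      fun s hs => ⟨(dlog hd hs).sub (z1 s), by
        rcases eq_or_ne s 1 with rfl | e
        · exact Function.update_self ..
        · rw [LFunctionTrivChar₁, Function.update_of_ne e, mul_ne_zero_iff] at hs
          obtain ⟨a, b⟩ := hs
          simp only [G0]
          rw [Function.update_of_ne e, z2 s e, deriv_LFunctionTrivChar₁_apply_of_ne_one q e,
            LFunctionTrivChar₁, Function.update_of_ne e, ld]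
          field_simp
          ring⟩
    exact ⟨δ, B, _, d0, fun s e => by rw [Function.update_of_ne e, kp, if_pos rfl, one_mul], hB⟩
  · have hd := differentiable_LFunction h
    obtain ⟨δ, B, d0, hB⟩ := gen (ld χ) (ld χ) _ hd.continuous
      (fun s hs => LFunction_ne_zero_of_one_le_re _ (.inl h) hs) fun s hs => ⟨dlog hd hs, rfl⟩
    exact ⟨δ, B, _, d0, fun s _ => by rw [kp, if_neg h, zero_mul, sub_zero], hB⟩

end Pool.Agent.P.E2
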