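import Pool.Agent.P.MP_e94e4b_nt.E2.IfD

/-! Step IL. -/

namespace Pool.Agent.P.E2

open Finset Real Filter Topology MeasureTheory
open Pool.Agent.P.MP_e86632_nt (ee nn ee_add norm_ee ee_neg ee_zero)
open Pool.Agent.P.MP_8be758_nt.Avg (gs Rough red ft en nsq vau_g gs_pos gs_le_one gs_neg gs_anti)
open Pool.Agent.P.MP_e94e4b_nt.PF (mN sgm)
open ArithmeticFunction (vonMangoldt moebius)
open DirichletCharacter (LFunction)

theorem p_IL :
    S_IL := by
  intro U t0 T _ hT h
  have c : Continuous fun x : ℝ => 1 / (1 + |x|) :=
    continuous_const.div (by fun_prop) fun x => by positivity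
  have e : ∫ x in (0 : ℝ)..T, 1 / (1 + |x|) = Real.log (1 + T) := by
    rw [intervalIntegral.integral_congr (g := fun x => 1 / (1 + x)) fun x hx => by
      rw [Set.uIcc_of_le hT] at hx
      simp only [abs_of_nonneg hx.1], intervalIntegral.integral_comp_add_left (1 / ·),
      integral_one_div (Set.notMem_uIcc_of_lt (by simp) (by linarith))]
    simp
  have e' : ∫ x in (-T)..(0 : ℝ), 1 / (1 + |x|) = Real.log (1 + T) := by
    simpa [← e] using (intervalIntegral.integral_comp_neg (a := 0) (b := T)
      fun x : ℝ => 1 / (1 + |x|)).symm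
  calc _ ≤ ∫ t in Set.Icc (t0 - T) (t0 + T), 1 / (1 + |t0 - t|) :=
        setIntegral_mono_set (c.comp (continuous_const.sub continuous_id)).integrableOn_Icc
          (ae_of_all _ fun t => by positivity) (LE.le.eventuallyLE fun t ht => by
            have := abs_le.1 (h t ht)
            constructor <;> linarith)
    _ = ∫ x in (-T)..T, 1 / (1 + |x|) := by
        rw [integral_Icc_eq_integral_Ioc, ← intervalIntegral.integral_of_le (by linarith),
          intervalIntegral.integral_comp_sub_left (fun x => 1 / (1 + |x|))]
        simp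
    _ = _ := by
        rw [← intervalIntegral.integral_add_adjacent_intervals (c.intervalIntegrable _ 0)
          (c.intervalIntegrable 0 _), e, e', two_mul]

end Pool.Agent.P.E2
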