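import Pool.Agent.P.MP_e94e4b_nt.E2.IfZ

/-! Step LA1. -/

namespace Pool.Agent.P.E2

open Finset Real Filter Topology MeasureTheory
open Pool.Agent.P.MP_e86632_nt (ee nn ee_add norm_ee ee_neg ee_zero)
open Pool.Agent.P.MP_8be758_nt.Avg (gs Rough red ft en nsq vau_g gs_pos gs_le_one gs_neg gs_anti)
open Pool.Agent.P.MP_e94e4b_nt.PF (mN sgm)
open ArithmeticFunction (vonMangoldt moebius)
open DirichletCharacter (LFunction)

theorem p_LA1 :
    S_LA1 := by
  intro f s0 z ρ B hρ hd h0 hB hz hfz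
  have hm : Metric.closedBall s0 ρ ∈ 𝓝 z :=
    Metric.closedBall_mem_nhds_of_mem (by rw [Metric.mem_ball, dist_eq_norm]; linarith)
  have hg := (Complex.differentiableOn_dslope hm).2 hd
  have e : ∀ s, f s = (s - z) * dslope f z s := fun s => by
    have := sub_smul_dslope f z s
    rwa [hfz, sub_zero, smul_eq_mul, eq_comm] at this
  generalize dslope f z = g at hg e
  have g0 : g s0 ≠ 0 := fun h => h0 (by rw [e, h, mul_zero])
  have z0 : s0 - z ≠ 0 := fun h => h0 (by rw [e, h, zero_mul])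
  refine ⟨g, hg, g0, fun s hs => ?_, fun s hs => .inr (by rw [e, hs, mul_zero]), ?_⟩
  · have hc := closure_ball s0 hρ.ne'
    refine Complex.norm_le_of_forall_mem_frontier_norm_le (U := Metric.ball s0 ρ)
      Metric.isBounded_ball (DifferentiableOn.diffContOnCl (hc ▸ hg)) (fun u hu => ?_) (hc ▸ hs)
    rw [frontier_ball s0 hρ.ne'] at hu
    have h1 := hB u (Metric.sphere_subset_closedBall hu)
    rw [mem_sphere_iff_norm] at hu
    rw [e u, e s0, norm_mul, norm_mul, norm_sub_rev s0] at h1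
    have h2 : ‖u - s0‖ ≤ ‖u - z‖ + ‖z - s0‖ := norm_sub_le_norm_sub_add_norm_sub _ _ _
    have h3 : Real.exp B = Real.exp (B - 1) * Real.exp 1 := by rw [← Real.exp_add, sub_add_cancel]
    have h4 : Real.exp 1 * ‖z - s0‖ ≤ ‖u - z‖ := by
      have := mul_le_mul_of_nonneg_right Real.exp_one_lt_three.le (norm_nonneg (z - s0))
      linarith
    refine le_of_mul_le_mul_left (h1.trans ?_) (show 0 < ‖u - z‖ by linarith)
    calc _ = Real.exp 1 * ‖z - s0‖ * (Real.exp (B - 1) * ‖g s0‖) := by rw [h3]; ring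
      _ ≤ _ := by gcongr
  · have h1 := (hg.differentiableAt (Metric.closedBall_mem_nhds s0 hρ)).hasDerivAt
    have h2 := (((hasDerivAt_id s0).sub_const z).mul h1).deriv
    rw [show f = fun s => (s - z) * g s from funext e]
    rw [show (deriv (fun s => (s - z) * g s) s0) = 1 * g s0 + (s0 - z) * deriv g s0 from h2]
    field_simp
    ring

end Pool.Agent.P.E2
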