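import Pool.Agent.P.MP_e94e4b_nt.E2.IfZ

/-! Step LAN. -/

namespace Pool.Agent.P.E2

open Finset Real Filter Topology MeasureTheory
open Pool.Agent.P.MP_e86632_nt (ee nn ee_add norm_ee ee_neg ee_zero)
open Pool.Agent.P.MP_8be758_nt.Avg (gs Rough red ft en nsq vau_g gs_pos gs_le_one gs_neg gs_anti)
open Pool.Agent.P.MP_e94e4b_nt.PF (mN sgm)
open ArithmeticFunction (vonMangoldt moebius)
open DirichletCharacter (LFunction)

namespace LANa

theorem re_inv_nonneg (s0 z : ℂ) (h : z.re ≤ s0.re) : 0 ≤ (1 / (s0 - z)).re := by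
  rw [one_div, Complex.inv_re]
  apply div_nonneg
  · simp only [Complex.sub_re]; linarith
  · exact Complex.normSq_nonneg _

theorem B_nonneg (f : ℂ → ℂ) (s0 : ℂ) (ρ B : ℝ) (hρ : 0 < ρ) (h0 : f s0 ≠ 0)
    (hb : ∀ s ∈ Metric.closedBall s0 ρ, ‖f s‖ ≤ Real.exp B * ‖f s0‖) : 0 ≤ B := by
  have h1 := hb s0 (Metric.mem_closedBall_self hρ.le)
  have hpos : 0 < ‖f s0‖ := norm_pos_iff.mpr h0
  have h2 : 1 ≤ Real.exp B := by
    by_contra hc
    have hc' : Real.exp B < 1 := not_le.mp hc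
    nlinarith
  exact Real.one_le_exp_iff.mp h2

theorem first (hBC : S_BC) (hLA1 : S_LA1) (s0 : ℂ) (ρ : ℝ) (hρ : 0 < ρ) (n : ℕ) :
    ∀ (f : ℂ → ℂ) (B : ℝ), B < n → DifferentiableOn ℂ f (Metric.closedBall s0 ρ) → f s0 ≠ 0 →
      (∀ s ∈ Metric.closedBall s0 ρ, ‖f s‖ ≤ Real.exp B * ‖f s0‖) →
      (∀ s ∈ Metric.closedBall s0 ρ, f s = 0 → s.re ≤ s0.re) →
      -(deriv f s0 / f s0).re ≤ 32 * (B + 1) / ρ := by
  induction n with
  | zero =>
    intro f B hB _ h0 hb _
    have := B_nonneg f s0 ρ B hρ h0 hb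
    simp at hB
    linarith
  | succ n ih =>
    intro f B hB hd h0 hb hz
    have hB0 := B_nonneg f s0 ρ B hρ h0 hb
    by_cases hex : ∃ z, ‖z - s0‖ ≤ ρ / 4 ∧ f z = 0
    · obtain ⟨z, hz1, hz2⟩ := hex
      obtain ⟨g, hg1, hg2, hg3, hg4, hg5⟩ := hLA1 f s0 z ρ B hρ hd h0 hb hz1 hz2
      have hzmem : z ∈ Metric.closedBall s0 ρ := by
        rw [Metric.mem_closedBall, dist_eq_norm]; linarith
      have hzre : z.re ≤ s0.re := hz z hzmem hz2
      have hgz : ∀ s ∈ Metric.closedBall s0 ρ, g s = 0 → s.re ≤ s0.re := by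
        intro s hs hgs
        rcases hg4 s hgs with h | h
        · rw [h]; exact hzre
        · exact hz s hs h
      have hlt : B - 1 < n := by push_cast at hB; linarith
      have h1 := ih g (B - 1) hlt hg1 hg2 hg3 hgz
      have h2 := re_inv_nonneg s0 z hzre
      rw [hg5, Complex.add_re]
      have h3 : 32 * (B - 1 + 1) / ρ ≤ 32 * (B + 1) / ρ := by
        apply div_le_div_of_nonneg_right _ hρ.le
        linarith
      linarith
    · have hne : ∀ z, ‖z - s0‖ ≤ ρ / 4 → f z ≠ 0 := fun z h1 h2 => hex ⟨z, h1, h2⟩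
      have hsub : Metric.ball s0 (ρ / 4) ⊆ Metric.closedBall s0 ρ :=
        Metric.ball_subset_closedBall.trans (Metric.closedBall_subset_closedBall (by linarith))
      have h1 := hBC f s0 (ρ / 4) (B + 1) (by linarith) (by linarith) (hd.mono hsub)
        (fun s hs => ⟨hne s (by
            have := Metric.mem_ball.mp hs
            rw [dist_eq_norm] at this
            exact this.le), (hb s (hsub hs)).trans (by
            apply mul_le_mul_of_nonneg_right _ (norm_nonneg _)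
            exact Real.exp_le_exp.mpr (by linarith))⟩) s0 (by simp; linarith)
      have h2 : 8 * (B + 1) / (ρ / 4) = 32 * (B + 1) / ρ := by
        field_simp
        ring
      rw [h2] at h1
      have h3 := Complex.abs_re_le_norm (deriv f s0 / f s0)
      have h4 := neg_abs_le (deriv f s0 / f s0).re
      linarith

end LANa

theorem p_LAN (hBC : S_BC) (hLA1 : S_LA1) :
    S_LAN := by
  intro f s0 ρ B hρ hd h0 hb hz
  obtain ⟨n, hn⟩ := exists_nat_gt B
  refine ⟨LANa.first hBC hLA1 s0 ρ hρ n f B hn hd h0 hb hz, ?_⟩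
  intro z hz1 hz2
  obtain ⟨g, hg1, hg2, hg3, hg4, hg5⟩ := hLA1 f s0 z ρ B hρ hd h0 hb hz1 hz2
  have hzmem : z ∈ Metric.closedBall s0 ρ := by
    rw [Metric.mem_closedBall, dist_eq_norm]; linarith
  have hzre : z.re ≤ s0.re := hz z hzmem hz2
  have hgz : ∀ s ∈ Metric.closedBall s0 ρ, g s = 0 → s.re ≤ s0.re := by
    intro s hs hgs
    rcases hg4 s hgs with h | h
    · rw [h]; exact hzre
    · exact hz s hs h
  have h1 := LANa.first hBC hLA1 s0 ρ hρ n g (B - 1) (by linarith) hg1 hg2 hg3 hgz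
  rw [hg5, Complex.add_re]
  have h3 : 32 * (B - 1 + 1) / ρ ≤ 32 * (B + 1) / ρ := by
    apply div_le_div_of_nonneg_right _ hρ.le
    linarith
  linarith

end Pool.Agent.P.E2
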