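import Pool.Agent.P.MP_e94e4b_nt.E2.IfZ

/-! Step LD. -/

namespace Pool.Agent.P.E2

open Finset Real Filter Topology MeasureTheory
open Pool.Agent.P.MP_e86632_nt (ee nn ee_add norm_ee ee_neg ee_zero)
open Pool.Agent.P.MP_8be758_nt.Avg (gs Rough red ft en nsq vau_g gs_pos gs_le_one gs_neg gs_anti)
open Pool.Agent.P.MP_e94e4b_nt.PF (mN sgm)
open ArithmeticFunction (vonMangoldt moebius)
open DirichletCharacter (LFunction)

namespace LDa

theorem an {q : ℕ} [NeZero q] (χ : DirichletCharacter ℂ q) {s : ℂ} (h : s.im ≠ 0) :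
    AnalyticAt ℂ (LFunction χ) s := by
  refine DifferentiableOn.analyticAt (s := {1}ᶜ) (fun z hz =>
    (DirichletCharacter.differentiableAt_LFunction χ z (Or.inl hz)).differentiableWithinAt)
    (isOpen_compl_singleton.mem_nhds fun e => h ?_)
  rw [Set.mem_singleton_iff.1 e, Complex.one_im]

end LDa

theorem p_LD (hLB : S_LB) (hBC : S_BC) (hZL1 : S_ZL1) (hZL2 : S_ZL2) (hZF : S_ZF) :
    S_LD := by
  obtain ⟨C, hC, h1⟩ := hZL1
  filter_upwards [hLB, hZF, ev_pe1 2 11, ev_pe1 2 12, ev_pp C one_pos (show 0 < 11 by omega),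
    ev_pp 9 one_pos (show 0 < 11 by omega), ev_pp 7 one_pos (show 9 < 11 by omega),
    eventually_gt_atTop 0] with r a1 a2 a3 a4 a5 a6 a7 a8 q _ χ s b1 b2 b3 b4 b5
  simp only [pow_zero, mul_one, one_mul] at a5 a6 a7
  have p11 : 0 < r ^ 11 := by positivity
  have e0 : 0 < 1 / r ^ 11 := by positivity
  have e8 : 8 / r ^ 11 = 8 * (1 / r ^ 11) := by ring
  have e9 : 9 * (1 / r ^ 11) ≤ 1 := by rw [mul_one_div, div_le_one p11]; exact a6
  have e7 : 7 * (1 / r ^ 11) ≤ 1 / r ^ 9 := by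
    rw [mul_one_div, div_le_div_iff₀ p11 (by positivity), one_mul]; exact a7
  have ne : ∀ z : ℂ, 2 ≤ |z.im| → z.im ≠ 0 := fun z hz e => by norm_num [e] at hz
  have an := LDa.an χ (ne s (by linarith))
  refine ⟨(an.deriv.differentiableAt.div an.differentiableAt
    (a2 q χ s b1 (by linarith) (by linarith) (by linarith [Real.exp_pos (4 * r ^ 13)]))).neg, ?_⟩
  by_cases c : 1 + 1 / r ^ 11 ≤ s.re
  · have c1 : 1 < s.re := by linarith
    have : 1 / (s.re - 1) ≤ r ^ 11 := by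
      rw [one_div_le (by linarith) p11]; linarith
    linarith [(hZL2.2 q χ s c1 b3).2.2.1, h1 _ c1 b3]
  set s0 : ℂ := ⟨1 + 1 / r ^ 11, s.im⟩
  have k1 : ∀ z ∈ Metric.ball s0 (8 * (1 / r ^ 11)), |z.re - (1 + 1 / r ^ 11)| ≤ 8 * (1 / r ^ 11) ∧
      2 ≤ |z.im| ∧ |z.im| ≤ Real.exp (4 * r ^ 13) / 4 := fun z hz => by
    have d0 := (mem_ball_iff_norm.1 hz).le
    have d1 : |z.im - s.im| ≤ _ := (Complex.abs_im_le_norm (z - s0)).trans d0
    have d2 := abs_sub_abs_le_abs_sub z.im s.im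
    have d3 := abs_sub_abs_le_abs_sub s.im z.im
    rw [abs_sub_comm] at d3
    exact ⟨(Complex.abs_re_le_norm (z - s0)).trans d0, by linarith, by linarith⟩
  have k2 : 1 / r ^ 11 / 2 ≤ ‖LFunction χ s0‖ := by
    have := (hZL2.2 q χ s0 (by simp only [s0]; linarith) (by simp only [s0]; linarith)).2.2.2.2.1
    simpa [s0] using this
  have k3 := hBC (LFunction χ) s0 (8 * (1 / r ^ 11)) (2 * r) (by positivity) (by positivity)
    (fun z hz => (LDa.an χ (ne z (k1 z hz).2.1)).differentiableAt.differentiableWithinAt)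
    (fun z hz => by
      obtain ⟨d1, d2, d3⟩ := k1 z hz
      rw [abs_le] at d1
      refine ⟨a2 q χ z b1 (by linarith) d2 d3, (a1 q χ z b1 (by linarith) (by linarith)
        (by linarith) (by linarith [Real.exp_pos (4 * r ^ 13)])).trans ?_⟩
      rw [two_mul, Real.exp_add, mul_assoc]
      refine le_mul_of_one_le_right (Real.exp_pos _).le ?_
      calc (1 : ℝ) = 2 * r ^ 11 * (1 / r ^ 11 / 2) := by field_simp
        _ ≤ _ := by gcongr) s (by
      have : s - s0 = ((s.re - (1 + 1 / r ^ 11) : ℝ) : ℂ) :=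
        Complex.ext rfl (by rw [Complex.ofReal_im]; exact sub_self _)
      rw [this, Complex.norm_real, Real.norm_eq_abs, abs_le]
      constructor <;> linarith)
  rw [ld, norm_neg]
  refine k3.trans (le_trans (le_of_eq ?_) a4)
  field_simp

end Pool.Agent.P.E2
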