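import Pool.Agent.P.MP_e94e4b_nt.E2.IfC

/-! Step LOW1. -/

namespace Pool.Agent.P.E2

open Finset Real Filter Topology MeasureTheory
open Pool.Agent.P.MP_e86632_nt (ee nn ee_add norm_ee ee_neg ee_zero)
open Pool.Agent.P.MP_8be758_nt.Avg (gs Rough red ft en nsq vau_g gs_pos gs_le_one gs_neg gs_anti)
open Pool.Agent.P.MP_e94e4b_nt.PF (mN sgm)
open ArithmeticFunction (vonMangoldt moebius)
open DirichletCharacter (LFunction)

namespace LOW1a

theorem blocks {M : Type*} [AddCommMonoid M] (y L : ℕ) (f : ℕ → M) (n : ℕ) :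
    ∑ i ∈ range n, ∑ p ∈ Ip y L i, f p = ∑ p ∈ Ico (xb y L 0) (xb y L n), f p := by
  have m : Monotone (xb y L) := fun i j h => by
    unfold xb Mn
    gcongr
  induction n with
  | zero => simp
  | succ n ih =>
    rw [sum_range_succ, ih]
    exact sum_Ico_consecutive f (m n.zero_le) (m n.le_succ)

theorem one {c W g : ℂ} {ρ m L e : ℝ} (hρ : 0 ≤ ρ) (hm : |m| ≤ 1) (h1 : ‖c - (ρ * m : ℝ)‖ ≤ e * ρ)
    (h2 : ‖W‖ ≤ L) (h3 : ‖W - L * g‖ ≤ e * L) :
    ‖c * (starRingEnd ℂ) W - (ρ * m * L : ℝ) * (starRingEnd ℂ) g‖ ≤ 2 * e * ρ * L := by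
  have h : c * (starRingEnd ℂ) W - (ρ * m * L : ℝ) * (starRingEnd ℂ) g =
      (c - (ρ * m : ℝ)) * (starRingEnd ℂ) W + (ρ * m : ℝ) * (starRingEnd ℂ) (W - L * g) := by
    rw [map_sub, map_mul, Complex.conj_ofReal]
    push_cast
    ring
  rw [h]
  refine (norm_add_le _ _).trans ?_
  rw [norm_mul, norm_mul, RCLike.norm_conj, RCLike.norm_conj, Complex.norm_real, Real.norm_eq_abs,
    abs_mul, abs_of_nonneg hρ]
  have a1 := mul_le_mul h1 h2 (norm_nonneg _) ((norm_nonneg _).trans h1)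
  have a2 := mul_le_mul (mul_le_of_le_one_right hρ hm) h3 (norm_nonneg _) hρ
  linarith

end LOW1a

open LOW1a in
theorem p_LOW1 (hGEO : S_GEO) (hRHO : S_RHO) (hGAU : S_GAU) (hCI : S_CI) (hFQ : S_FQ) :
    S_LOW1 := by
  intro q ε hq hε
  have he : 0 < ε / 11 := by positivity
  filter_upwards [hGEO, hCI q _ hq he, hFQ q _ hq he, hFQ 1 1 le_rfl one_pos,
    ev_pp (2 * q) he (show 0 < 110 by norm_num), eventually_gt_atTop 0]
    with r h1 h2 h3 h4 h5 hr P y K H a hS ha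
  have G := h1 P y K H hS
  have hρ := rho_nonneg P
  have hX := XX_pos r
  have hL : 2 * (q : ℝ) ≤ ε / 11 * (K * H : ℕ) := by
    have : (K : ℝ) ≤ (K * H : ℕ) := by
      exact_mod_cast Nat.le_mul_of_pos_right K (by have := G.k0; have := G.kh; omega)
    rw [pow_zero, mul_one] at h5
    exact h5.trans (mul_le_mul_of_nonneg_left (hS.k1.trans this) he.le)
  obtain ⟨T, hT⟩ : ∃ T : ℂ, T = (rho P * mf q * (K * H : ℕ) : ℝ) * (starRingEnd ℂ) (gam q a) :=
    ⟨_, rfl⟩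
  have t1 : ‖T‖ ≤ rho P * (K * H : ℕ) := by
    rw [hT, norm_mul, RCLike.norm_conj, Complex.norm_real, Real.norm_eq_abs, abs_mul, abs_mul,
      abs_of_nonneg hρ, Nat.abs_cast]
    refine (mul_le_of_le_one_right (by positivity) (hGAU q a hq).2.1).trans ?_
    gcongr
    exact mul_le_of_le_one_right hρ (abs_mf_le q)
  have c1 : ∑ i ∈ range (y / (K * H)), ∑ p ∈ Ip y (K * H) i, p1 p ≤ 5 * XX r / r ^ 13 := by
    have b := h4 P y K H 0 hS (Nat.coprime_one_right 0)
    simp only [ft, mf, Nat.cast_zero, mul_zero, ee_zero, mul_one,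
      ArithmeticFunction.moebius_apply_one, Nat.totient_one, Int.cast_one, Nat.cast_one, div_one,
      one_mul] at b
    rw [← Complex.ofReal_sum, ← Complex.ofReal_sub, Complex.norm_real] at b
    have b2 : (Xt y (K * H) : ℝ) / r ^ 13 ≤ 4 * XX r / r ^ 13 := by
      gcongr
      exact G.xt.2.2.2
    rw [blocks]
    have := (abs_le.1 b).2
    simp only [mul_div_assoc] at b2 ⊢
    linarith
  have b3 := h3 P y K H a hS ha
  rw [ft, ← blocks] at b3
  have e : ∑ i ∈ range (y / (K * H)), mt r P y (K * H) i ((a : ℝ) / q) -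
      (rho P * (K * H) * Xt y (K * H) / r ^ 13 * mf q ^ 2 : ℝ) * (starRingEnd ℂ) (gam q a) =
      ∑ i ∈ range (y / (K * H)), (cb r P (xb y (K * H) i) ((a : ℝ) / q) *
        (starRingEnd ℂ) (Ws (JJ y (K * H) i) mN ((a : ℝ) / q)) - T) *
          ft (Ip y (K * H) i) (fun p => (p1 p : ℂ)) ((a : ℝ) / q) +
      T * (∑ i ∈ range (y / (K * H)), ft (Ip y (K * H) i) (fun p => (p1 p : ℂ)) ((a : ℝ) / q) -
        (mf q * Xt y (K * H) / r ^ 13 : ℝ)) := by
    simp only [sub_mul, sum_sub_distrib, ← mul_sum, mul_sub, mt, mul_right_comm (cb _ _ _ _), hT]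
    push_cast
    ring
  rw [e]
  refine (norm_add_le_of_le (norm_sum_le_of_le _ (n := fun i => 2 * (ε / 11) * rho P * (K * H : ℕ) *
    ∑ p ∈ Ip y (K * H) i, p1 p) fun i hi => ?_) ((norm_mul_le _ _).trans
      (mul_le_mul t1 b3 (norm_nonneg _) (by positivity)))).trans ?_
  · have x1 := G.x1 i (mem_range.1 hi)
    have x2 : (xb y (K * H) i : ℝ) ≤ xb y (K * H) (i + 1) := by
      exact_mod_cast x1.2.2.1 ▸ Nat.le_add_right _ _
    rw [norm_mul, hT]
    refine mul_le_mul (one hρ (abs_mf_le q) (h2 P _ a hS.p1 hS.p2 x1.1 (x2.trans x1.2.1) ha)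
      ((norm_Ws_le _ _ _).trans_eq (by simp [JJ])) (((hGAU q a hq).2.2 _ _).trans hL))
      ((norm_ft_le_sum _ _ _).trans_eq (sum_congr rfl fun p _ => ?_)) (norm_nonneg _)
      (by positivity)
    rw [Complex.norm_real, Real.norm_of_nonneg (p1_nonneg p)]
  · rw [← mul_sum]
    refine (add_le_add_left (mul_le_mul_of_nonneg_left c1 (by positivity)) _).trans_eq ?_
    push_cast
    ring

end Pool.Agent.P.E2
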