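import Pool.Agent.P.MP_e94e4b_nt.E2.IfC

/-! Step LOW2. -/

namespace Pool.Agent.P.E2

open Finset Real Filter Topology MeasureTheory
open Pool.Agent.P.MP_e86632_nt (ee nn ee_add norm_ee ee_neg ee_zero)
open Pool.Agent.P.MP_8be758_nt.Avg (gs Rough red ft en nsq vau_g gs_pos gs_le_one gs_neg gs_anti)
open Pool.Agent.P.MP_e94e4b_nt.PF (mN sgm)
open ArithmeticFunction (vonMangoldt moebius)
open DirichletCharacter (LFunction)

namespace LOW2a

theorem one {R q : ℕ} (hq : q ≤ R) {A E : ℝ} (hE : 0 ≤ E) (F : ℕ → ℂ)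
    (h : ∀ a ∈ red q, ‖F a - (A * mf q ^ 2 : ℝ) * (starRingEnd ℂ) (gam q a)‖ ≤ E) :
    A * sq q - R * E ≤ (∑ a ∈ red q, F a).re := by
  have h1 : ((red q).card : ℝ) ≤ R := by
    exact_mod_cast ((card_filter_le _ _).trans (card_range q).le).trans hq
  have h2 : ∑ a ∈ red q, (A * mf q ^ 2 * (gam q a).re - E) ≤ ∑ a ∈ red q, (F a).re :=
    sum_le_sum fun a ha => by
      have := (abs_le.1 ((Complex.abs_re_le_norm _).trans (h a ha))).1
      rw [Complex.sub_re, Complex.re_ofReal_mul, Complex.conj_re] at this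
      linarith
  rw [sum_sub_distrib, ← mul_sum, sum_const, nsmul_eq_mul] at h2
  rw [sq, Complex.re_sum, Complex.re_sum]
  nlinarith [mul_le_mul_of_nonneg_right h1 hE]

end LOW2a

open LOW2a in
theorem p_LOW2 (hGEO : S_GEO) (hRHO : S_RHO) (hLOW1 : S_LOW1) (hSQ2 : S_SQ2) :
    S_LOW2 := by
  intro R hR
  have R0 : (0 : ℝ) < R := by exact_mod_cast (by omega : 0 < R)
  filter_upwards [hGEO, eventually_gt_atTop 0, (eventually_all_finset (Icc 1 R)).2 fun q hq =>
    hLOW1 q (1 / (4 * R ^ 2)) (mem_Icc.1 hq).1 (by positivity)] with r h1 r0 h2 P y K H hS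
  have g := (h1 P y K H hS).xt.2.2.1
  have := rho_nonneg P
  have := XX_pos r
  have a0 : 0 ≤ rho P * (K * H) * XX r / r ^ 13 := by positivity
  have a1 : 2 * (rho P * (K * H) * XX r / r ^ 13) ≤ rho P * (K * H) * Xt y (K * H) / r ^ 13 := by
    rw [← mul_div_assoc, mul_left_comm]
    gcongr
  have b := sum_le_sum fun q (hq : q ∈ Icc 1 R) => one (mem_Icc.1 hq).2 (by positivity) _
    fun a ha => h2 q hq P y K H a hS (mem_red.1 ha).2
  rw [sum_sub_distrib, ← mul_sum, sum_const, Nat.card_Icc, nsmul_eq_mul, ← Complex.re_sum,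
    Nat.add_sub_cancel] at b
  rw [sum_comm, sum_congr rfl fun q _ => sum_comm]
  refine le_trans ?_ b
  have c := mul_le_mul_of_nonneg_left (hSQ2 R hR) ((by positivity : (0 : ℝ) ≤ _).trans a1)
  have d : (R : ℝ) * (R * (1 / (4 * R ^ 2) * (rho P * (K * H) * XX r / r ^ 13))) =
      1 / 4 * (rho P * (K * H) * XX r / r ^ 13) := by field_simp
  linarith

end Pool.Agent.P.E2
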