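import Pool.Agent.P.MP_e94e4b_nt.E2.IfC

/-! Step MIN. -/

namespace Pool.Agent.P.E2

open Finset Real Filter Topology MeasureTheory
open Pool.Agent.P.MP_e86632_nt (ee nn ee_add norm_ee ee_neg ee_zero)
open Pool.Agent.P.MP_8be758_nt.Avg (gs Rough red ft en nsq vau_g gs_pos gs_le_one gs_neg gs_anti)
open Pool.Agent.P.MP_e94e4b_nt.PF (mN sgm)
open ArithmeticFunction (vonMangoldt moebius)
open DirichletCharacter (LFunction)

namespace MINa

theorem mem_RR {K : ℕ} {x : Σ _ : ℕ, ℕ} :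
    x ∈ RR K ↔ (1 ≤ x.1 ∧ x.1 ≤ K) ∧ x.2 < x.1 ∧ x.2.Coprime x.1 := by
  rw [RR, mem_sigma, mem_Icc, mem_red]

theorem sep {K : ℕ} {x y : Σ _ : ℕ, ℕ} (hx : x ∈ RR K) (hy : y ∈ RR K) (h : x ≠ y) :
    1 / (K : ℝ) ^ 2 ≤ |fr x - fr y| := by
  obtain ⟨q, a⟩ := x
  obtain ⟨q', a'⟩ := y
  obtain ⟨⟨a1, a2⟩, -, a3⟩ := mem_RR.1 hx
  obtain ⟨⟨b1, b2⟩, -, b3⟩ := mem_RR.1 hy
  dsimp only at a1 a2 a3 b1 b2 b3
  have h1 : (a : ℤ) * q' - q * a' ≠ 0 := fun e => by
    have e1 : a * q' = q * a' := by exact_mod_cast sub_eq_zero.1 e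
    obtain rfl := Nat.dvd_antisymm (a3.symm.dvd_of_dvd_mul_left ⟨_, e1⟩)
      (b3.symm.dvd_of_dvd_mul_right ⟨a, e1.symm.trans (mul_comm _ _)⟩)
    rw [mul_comm] at e1
    exact h (by rw [Nat.eq_of_mul_eq_mul_left a1 e1])
  have h2 : (1 : ℝ) ≤ |(a : ℝ) * q' - q * a'| := by exact_mod_cast Int.one_le_abs h1
  have c1 : (0 : ℝ) < q := by exact_mod_cast a1
  have c2 : (0 : ℝ) < q' := by exact_mod_cast b1
  rw [fr, fr, div_sub_div _ _ c1.ne' c2.ne', abs_div, abs_of_pos (mul_pos c1 c2), pow_two]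
  gcongr

end MINa

open MINa in
theorem p_MIN (hWEYL : S_WEYL) :
    S_MIN := by
  intro K H N0 hK hH
  have k1 : (1 : ℝ) ≤ K := by exact_mod_cast hK
  have k2 : 2 * (K : ℝ) ≤ H := by exact_mod_cast hH
  have h0 : (0 : ℝ) < H := by linarith
  have e1 : 2 * (1 / (H : ℝ) ^ 2) ≤ 1 / (K : ℝ) ^ 2 := by
    rw [mul_one_div, div_le_div_iff₀ (by positivity) (by positivity)]
    nlinarith
  have e2 : ∀ q : ℕ, 1 ≤ q → q ≤ K → 2 * (1 / (H : ℝ) ^ 2) ≤ 1 / q := fun q a b =>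
    e1.trans (one_div_le_one_div_of_le (by exact_mod_cast a)
      ((Nat.cast_le.2 b).trans (le_self_pow₀ k1 two_ne_zero)))
  refine ⟨fun x hx => ⟨by unfold fr; positivity, ?_⟩,
    fun x hx y hy h => e1.trans (sep hx hy h), fun α a1 a2 h => ?_⟩
  · obtain ⟨⟨a1, a2⟩, a3, -⟩ := mem_RR.1 hx
    have c1 : (0 : ℝ) < x.1 := by exact_mod_cast a1
    have c2 : (x.2 : ℝ) + 1 ≤ x.1 := by exact_mod_cast a3
    have c3 := (div_le_one c1).2 c2
    rw [add_div] at c3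
    have := e2 _ a1 a2
    unfold fr
    linarith
  obtain ⟨x, b1, b2⟩ := Real.exists_rat_abs_sub_le_and_den_le α (n := H ^ 2)
    (pow_pos (by omega) 2)
  have d1 : (1 : ℝ) ≤ x.den := by exact_mod_cast x.pos
  have d2 : (x.den : ℝ) ≤ H ^ 2 := by exact_mod_cast b2
  rw [Rat.cast_def] at b1
  push_cast at b1
  by_cases g : x.den ≤ K
  · have b3 : |α - x.num / x.den| < 1 / (H : ℝ) ^ 2 :=
      b1.trans_lt (one_div_lt_one_div_of_lt (by positivity) (by nlinarith))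
    obtain ⟨b4, b5⟩ := abs_lt.1 b3
    have c1 := e2 _ x.pos g
    have c2 : (-1 : ℝ) < x.num := by
      rw [← div_lt_div_iff_of_pos_right (show (0 : ℝ) < x.den by linarith), neg_div]
      linarith
    have c3 : (x.num : ℝ) < x.den := (div_lt_one (by linarith)).1 (by linarith)
    have c4 : -1 < x.num := by exact_mod_cast c2
    have c5 : x.num < x.den := by exact_mod_cast c3
    have c6 := h ⟨x.den, x.num.natAbs⟩ (mem_RR.2 ⟨⟨x.pos, g⟩, by dsimp only; omega, x.reduced⟩)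
    rw [fr, Nat.cast_natAbs, abs_of_nonneg (show 0 ≤ x.num by omega)] at c6
    exact absurd b3 (not_lt.2 c6)
  have g1 : (K : ℝ) ≤ x.den := by exact_mod_cast (not_le.1 g).le
  have w := hWEYL α (1 / H) x.num x.den N0 (K * H) x.pos
    (Int.isCoprime_iff_gcd_eq_one.2 x.reduced) (by positivity)
    (b1.trans (one_div_le_one_div_of_le (by positivity) (by nlinarith)))
  refine (pow_le_pow_iff_left₀ (norm_nonneg _) (by positivity) two_ne_zero).1 (w.trans ?_)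
  have u1 : (K : ℝ) * H / x.den ≤ H := by
    rw [div_le_iff₀ (by linarith)]
    nlinarith
  have u2 : (x.den : ℝ) / H ≤ H := by
    rw [div_le_iff₀ h0]
    linarith
  have u3 : (4 * ((K : ℝ) * H) / x.den + 1) * (2 * (1 / H) * x.den + 3) =
      8 * K + 12 * (K * H / x.den) + 2 * (x.den / H) + 3 := by
    field_simp
    ring
  have u4 : (8 * ((K : ℝ) * H) / √K) ^ 2 = K * H * (64 * H) := by
    rw [div_pow, sq_sqrt (by linarith)]
    field_simp
    ring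
  push_cast
  rw [u3, u4, div_div_eq_mul_div, div_one]
  have u5 : 1 + 2 * (8 * K + 12 * ((K : ℝ) * H / x.den) + 2 * (x.den / H) + 3) + H ≤ 64 * H := by
    linarith
  nlinarith [mul_le_mul_of_nonneg_left u5 (show 0 ≤ (K : ℝ) * H by positivity)]

end Pool.Agent.P.E2
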