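import Pool.Agent.P.MP_e94e4b_nt.E2.IfC

/-! Step MK. -/

namespace Pool.Agent.P.E2

open Finset Real Filter Topology MeasureTheory
open Pool.Agent.P.MP_e86632_nt (ee nn ee_add norm_ee ee_neg ee_zero)
open Pool.Agent.P.MP_8be758_nt.Avg (gs Rough red ft en nsq vau_g gs_pos gs_le_one gs_neg gs_anti)
open Pool.Agent.P.MP_e94e4b_nt.PF (mN sgm)
open ArithmeticFunction (vonMangoldt moebius)
open DirichletCharacter (LFunction)

namespace MKa

/-- the weighted vector -/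
noncomputable def vv (R K : ℕ) (F : ℕ → ℕ → ℂ) : EuclideanSpace ℂ ((Ioc R K).sigma red) :=
  WithLp.toLp 2 fun x => (√(1 / √(x.1.1 : ℝ)) : ℝ) * F x.1.1 x.1.2

theorem tl_eq (R K : ℕ) (F : ℕ → ℕ → ℂ) : tl R K F = ‖vv R K F‖ ^ 2 := by
  rw [EuclideanSpace.norm_sq_eq, tl]
  refine Eq.trans ?_ (sum_coe_sort _ fun x : Σ _ : ℕ, ℕ =>
    ‖((√(1 / √(x.1 : ℝ)) : ℝ) : ℂ) * F x.1 x.2‖ ^ 2).symm
  rw [sum_sigma]
  refine sum_congr rfl fun q _ => (mul_sum _ _ _).trans (sum_congr rfl fun a _ => ?_)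
  rw [norm_mul, mul_pow, Complex.norm_real, Real.norm_eq_abs, sq_abs, Real.sq_sqrt (by positivity)]

end MKa

theorem p_MK :
    S_MK := by
  intro R K T F lam h
  have e : MKa.vv R K (fun q a => ∑ k ∈ T, F k q a) = ∑ k ∈ T, MKa.vv R K (F k) := by
    ext x
    simp [MKa.vv, mul_sum]
  rw [MKa.tl_eq, e]
  refine pow_le_pow_left₀ (norm_nonneg _) (norm_sum_le_of_le _ fun k hk => ?_) 2
  exact (pow_le_pow_iff_left₀ (norm_nonneg _) (h k hk).1 two_ne_zero).1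
    (MKa.tl_eq R K _ ▸ (h k hk).2)

end Pool.Agent.P.E2
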