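import Pool.Agent.P.MP_e94e4b_nt.E2.IfD

/-! Step MOM. -/

namespace Pool.Agent.P.E2

open Finset Real Filter Topology MeasureTheory
open Pool.Agent.P.MP_e86632_nt (ee nn ee_add norm_ee ee_neg ee_zero)
open Pool.Agent.P.MP_8be758_nt.Avg (gs Rough red ft en nsq vau_g gs_pos gs_le_one gs_neg gs_anti)
open Pool.Agent.P.MP_e94e4b_nt.PF (mN sgm)
open ArithmeticFunction (vonMangoldt moebius)
open DirichletCharacter (LFunction)

namespace MOMa

theorem card_le {S : Finset ℕ} {Y : ℝ} (hY : 0 ≤ Y) (h : ∀ p ∈ S, p.Prime ∧ (p : ℝ) ≤ Y) :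
    (S.card : ℝ) ≤ Y := by
  have h1 : S ⊆ Icc 1 ⌊Y⌋₊ := fun p hp =>
    mem_Icc.2 ⟨(h p hp).1.one_le, Nat.le_floor (h p hp).2⟩
  have h2 := card_le_card h1
  rw [Nat.card_Icc, Nat.add_sub_cancel] at h2
  exact (Nat.cast_le.2 h2).trans (Nat.floor_le hY)

theorem pow_eq (k : ℕ) {S : Finset ℕ} (a : ℕ → ℂ) (h : ∀ p ∈ S, p ≠ 0) (t : ℝ) :
    dq S a t ^ k = dq ((Fintype.piFinset fun _ : Fin k => S).image fun f => ∏ i, f i)
      (fun n => ∑ f ∈ (Fintype.piFinset fun _ : Fin k => S).filter (fun f => ∏ i, f i = n),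
        ∏ i, a (f i)) t := by
  have h1 : dq S a t ^ k = ∏ _i : Fin k, ∑ n ∈ S, a n * nit t n := by simp [dq]
  rw [h1, prod_univ_sum, dq, ← sum_fiberwise_of_maps_to (g := fun f : Fin k → ℕ => ∏ i, f i)
    fun f hf => mem_image_of_mem _ hf]
  refine sum_congr rfl fun n _ => ?_
  rw [sum_mul]
  refine sum_congr rfl fun f hf => ?_
  rw [mem_filter, Fintype.mem_piFinset] at hf
  rw [prod_mul_distrib, ← hf.2, nit_prod t _ _ fun i _ => h _ (hf.1 i)]

end MOMa

theorem p_MOM (hMV : S_MV) (hREP : S_REP) :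
    S_MOM := by
  obtain ⟨C, hC, hMV⟩ := hMV
  refine ⟨C, hC, fun k Z Y S a hk hZ hY hS ha => ?_⟩
  have hY0 : 0 ≤ Y := by linarith
  simp only [mul_comm 2 k, pow_mul, ← norm_pow,
    MOMa.pow_eq k a fun p hp => (hS p hp).1.ne_zero]
  simp only [norm_pow]
  set A := Fintype.piFinset fun _ : Fin k => S with hA
  refine (hMV Z (Y ^ k) _ _ hZ fun n hn => ?_).trans ?_
  · obtain ⟨f, hf, rfl⟩ := mem_image.1 hn
    rw [Fintype.mem_piFinset] at hf
    refine ⟨prod_pos fun i _ => (hS _ (hf i)).1.pos, ?_⟩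
    rw [Nat.cast_prod]
    exact (prod_le_prod (fun i _ => Nat.cast_nonneg _) fun i _ => (hS _ (hf i)).2).trans_eq
      (by simp)
  rw [mul_assoc _ ((k : ℝ) ^ k)]
  refine mul_le_mul_of_nonneg_left ?_ (by positivity)
  have h1 : ∀ n, ((A.filter fun f => ∏ i, f i = n).card : ℝ) ≤ (k : ℝ) ^ k := fun n => by
    have := hREP (Fin k) A 1 n fun f hf i => by
      have hp := (hS _ (Fintype.mem_piFinset.1 hf i)).1
      exact ⟨hp.pos, (ArithmeticFunction.cardFactors_apply_prime hp).le⟩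
    rw [Fintype.card_fin, mul_one] at this
    exact_mod_cast this
  have h2 : ∀ n, ‖∑ f ∈ A.filter (fun f => ∏ i, f i = n), ∏ i, a (f i)‖ ≤
      (A.filter fun f => ∏ i, f i = n).card := fun n =>
    (norm_sum_le_of_le _ (n := fun _ => (1 : ℝ)) fun f _ => by
      rw [norm_prod]
      exact prod_le_one (fun _ _ => norm_nonneg _) fun _ _ => ha _).trans (by simp)
  have h3 : ∑ n ∈ A.image (fun f => ∏ i, f i), ((A.filter fun f => ∏ i, f i = n).card : ℝ) ≤
      Y ^ k := by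
    rw [← Nat.cast_sum, ← card_eq_sum_card_image, hA, Fintype.card_piFinset, prod_const, card_univ,
      Fintype.card_fin, Nat.cast_pow]
    exact pow_le_pow_left₀ (Nat.cast_nonneg _) (MOMa.card_le hY0 hS) k
  refine le_trans ?_ (mul_le_mul_of_nonneg_left h3 (by positivity))
  rw [mul_sum]
  refine sum_le_sum fun n _ => ?_
  rw [pow_two]
  exact mul_le_mul ((h2 n).trans (h1 n)) (h2 n) (norm_nonneg _) (by positivity)

end Pool.Agent.P.E2
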