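import Pool.Agent.P.MP_e94e4b_nt.E2.IfZ

/-! Step MS. -/

namespace Pool.Agent.P.E2

open Finset Real Filter Topology MeasureTheory
open Pool.Agent.P.MP_e86632_nt (ee nn ee_add norm_ee ee_neg ee_zero)
open Pool.Agent.P.MP_8be758_nt.Avg (gs Rough red ft en nsq vau_g gs_pos gs_le_one gs_neg gs_anti)
open Pool.Agent.P.MP_e94e4b_nt.PF (mN sgm)
open ArithmeticFunction (vonMangoldt moebius)
open DirichletCharacter (LFunction)

namespace MSa

theorem small {r c y : ℝ} (h1 : 5 * c ≤ Real.exp r) (h2 : y ≤ -(2 * r)) (hc : 0 ≤ c) :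
    c * Real.exp y ≤ Real.exp (-r) / 5 := by
  have h3 : Real.exp y ≤ Real.exp (-(2 * r)) := Real.exp_le_exp.2 h2
  have h4 : Real.exp r * Real.exp (-(2 * r)) = Real.exp (-r) := by
    rw [← Real.exp_add]; congr 1; ring
  have h5 := Real.exp_pos (-(2 * r))
  calc c * Real.exp y ≤ c * Real.exp (-(2 * r)) := by gcongr
    _ ≤ Real.exp r / 5 * Real.exp (-(2 * r)) := by gcongr; linarith
    _ = _ := by rw [← h4]; ring

end MSa

theorem p_MS (hTAIL : S_TAIL) (hRS : S_RS) (hCMP : S_CMP) :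
    S_MS := by
  filter_upwards [ev_pe1 500 21, ev_pe1 150 0, ev_pe1 10 7, ev_pe 28 13 (c := 4) (by norm_num),
    ev_lin 10 0 (c := 1 / 4) (k := 13) (by norm_num) (by norm_num),
    ev_pp 3 (c := 1) (j := 13) (k := 14) one_pos (by norm_num), eventually_ge_atTop 1]
    with r e1 e2 e3 e4 e5 e6 hr w v hw1 hw2 hv1 hv2
  simp only [pow_zero, mul_one, one_mul, add_zero] at e2 e5 e6
  have hw : 0 < w := (Real.exp_pos _).trans_le hw1
  have hw3 : w ≤ 1 := hw2.trans (Real.exp_le_one_iff.2 (by linarith))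
  have hr13 : 0 < r ^ 13 := by positivity
  obtain ⟨z, hz⟩ : ∃ z, z = Real.exp v := ⟨_, rfl⟩
  have hz1 : 1 ≤ z := by rw [hz]; exact Real.one_le_exp (by linarith)
  have hz0 : 0 < z := by linarith
  have hlz : Real.log z = v := by rw [hz, Real.log_exp]
  have hW : 1 ≤ r ^ 7 := one_le_pow₀ hr
  have hWw : r ^ 7 * w ≤ 1 / 10 := by
    have h1 : w ≤ Real.exp (-r) := hw2.trans (Real.exp_le_exp.2 (by linarith))
    have h2 : Real.exp r * Real.exp (-r) = 1 := by rw [← Real.exp_add]; simp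
    have h3 := Real.exp_pos (-r)
    calc r ^ 7 * w ≤ Real.exp r / 10 * Real.exp (-r) := by gcongr; linarith
      _ = _ := by linarith
  have ha : Real.exp (v - 8 * r) ≤ w * z := by
    rw [hz, sub_eq_neg_add, Real.exp_add]; gcongr
  have ha1 : 1 ≤ w * z := (Real.one_le_exp (by linarith)).trans ha
  have hW2 : (r ^ 7) ^ 2 = r ^ 14 := by ring
  obtain ⟨S, hS⟩ : ∃ S : Finset ℕ, S = Icc 1 ⌈2 * z⌉₊ := ⟨_, rfl⟩
  have hS1 : ∀ m ∈ S, 1 ≤ m := fun m hm => by rw [hS] at hm; exact (mem_Icc.1 hm).1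
  have hSc : (S.card : ℝ) ≤ 3 * Real.exp (2 * r ^ 13) := by
    have h1 := (Nat.ceil_lt_add_one (show 0 ≤ 2 * z by positivity)).le
    have h2 : z ≤ Real.exp (2 * r ^ 13) := by rw [hz]; exact Real.exp_le_exp.2 hv2
    rw [hS, Nat.card_Icc, Nat.add_sub_cancel]
    linarith
  have c1 := hCMP z z w (r ^ 7) (r ^ 7 * w) 1 S S (fun _ => 1) hz0 hw hW ha1
    (by rw [sub_self, abs_zero]; positivity) le_rfl hWw zero_le_one (fun _ => by simp) hS1
    fun _ _ => Iff.rfl
  simp only [one_mul, hlz, hW2] at c1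
  rw [← Complex.ofReal_sum, ← Complex.ofReal_sum, ← Complex.ofReal_div, ← Complex.ofReal_sub,
    Complex.norm_real, Real.norm_eq_abs] at c1
  have hWa : r ^ 7 * (w * z) ≤ z / 10 := by
    rw [← mul_assoc]; nlinarith
  have c2 := (hRS (w * z) z S ha1).2 (r ^ 7) (by linarith) (by linarith) fun m hm => by
    obtain ⟨h1, h2⟩ := abs_le.1 (hm.trans hWa)
    rw [hS, mem_Icc]
    refine ⟨Nat.pos_of_ne_zero fun h => ?_, ?_⟩
    · rw [h, Nat.cast_zero] at h1; linarith
    · have h3 := Nat.le_ceil (2 * z)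
      exact_mod_cast (show (m : ℝ) ≤ ⌈2 * z⌉₊ by linarith)
  rw [hW2] at c2
  obtain ⟨t1, t2, -⟩ := hTAIL on w v (1 / 2) hw hw3 (by norm_num) on_bd
  have hF : ∀ n : ℕ, 0 ≤ on n * gk w (Real.log n - v) := fun n =>
    mul_nonneg (on_bd n).1 (gk_nonneg hw _)
  have hon : ∀ T : Finset ℕ, (∀ n ∈ T, 1 ≤ n) → ∑ n ∈ T, gk w (Real.log n - v) =
      ∑ n ∈ T, on n * gk w (Real.log n - v) := fun T hT =>
    sum_congr rfl fun n hn => by
      have := hT n hn
      rw [on, if_neg (by omega), one_mul]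
  have hlo : ∀ T : Finset ℕ, (∀ n ∈ T, 1 ≤ n) → ∑ n ∈ T, gk w (Real.log n - v) ≤
      ∑' n : ℕ, on n * gk w (Real.log n - v) := fun T hT => by
    rw [hon T hT]; exact t1.sum_le_tsum T fun n _ => hF n
  have hG : Summable fun n : ℕ =>
      if 1 / 2 ≤ |Real.log n - v| then on n * gk w (Real.log n - v) else 0 :=
    Summable.of_nonneg_of_le (fun n => by split_ifs; exacts [hF n, le_rfl])
      (fun n => by split_ifs; exacts [le_rfl, hF n]) t1
  have hup : ∑' n : ℕ, on n * gk w (Real.log n - v) ≤ ∑ n ∈ S, gk w (Real.log n - v) +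
      ∑' n : ℕ, (if 1 / 2 ≤ |Real.log n - v| then on n * gk w (Real.log n - v) else 0) := by
    have hH : HasSum (fun n : ℕ => if n ∈ S then on n * gk w (Real.log n - v) else 0)
        (∑ n ∈ S, gk w (Real.log n - v)) := by
      rw [hon S hS1, ← sum_congr rfl fun n (hn : n ∈ S) => if_pos hn
        (t := on n * gk w (Real.log n - v)) (e := 0)]
      exact hasSum_sum_of_ne_finset_zero fun n hn => if_neg hn
    refine hasSum_le (fun n => ?_) t1.hasSum (hH.add hG.hasSum)
    by_cases hn : n ∈ S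
    · rw [if_pos hn]
      split_ifs
      · linarith [hF n]
      · linarith
    · rw [if_neg hn, zero_add]
      rcases Nat.eq_zero_or_pos n with rfl | h0
      · simp [on]
      have h1 : ⌈2 * z⌉₊ < n := by
        rw [hS, mem_Icc] at hn; omega
      have h2 : 2 * z ≤ n := (Nat.le_ceil _).trans (by exact_mod_cast h1.le)
      have h3 := Real.log_le_log (by positivity) h2
      rw [Real.log_mul two_ne_zero hz0.ne', hlz] at h3
      rw [if_pos (le_trans (by linarith [Real.log_two_gt_d9]) (le_abs_self _))]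
  have b1 : 100 * r ^ 14 * (r ^ 7 * w) ≤ Real.exp (-r) / 5 := by
    refine le_trans ?_ (MSa.small (c := 100 * r ^ 21) (y := -(2 * r)) (by linarith) le_rfl
      (by positivity))
    rw [show 100 * r ^ 14 * (r ^ 7 * w) = 100 * r ^ 21 * w by ring]; gcongr
  have b2 : ((S.card : ℝ) + S.card) * Real.exp (-r ^ 14) ≤ Real.exp (-r) / 5 := by
    refine le_trans ?_ (MSa.small (c := 6) (y := 2 * r ^ 13 + -r ^ 14) (by linarith) (by linarith)
      (by positivity))
    rw [Real.exp_add, ← mul_assoc]; gcongr; linarith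
  have b3 : 4 / (w * z) ≤ Real.exp (-r) / 5 := by
    refine le_trans ?_ (MSa.small (c := 4) (y := -(v - 8 * r)) (by linarith) (by linarith)
      (by positivity))
    rw [Real.exp_neg, ← div_eq_mul_inv]; gcongr
  have b4 : 12 * Real.exp (-r ^ 14) ≤ Real.exp (-r) / 5 :=
    MSa.small (by linarith) (by linarith) (by positivity)
  have b5 : 30 * Real.exp (4 * v - (1 / 2 / w) ^ 2) / w ≤ z * (Real.exp (-r) / 5) := by
    have h1 : Real.exp (2 * r) / 2 ≤ 1 / 2 / w := by
      rw [le_div_iff₀ hw]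
      have h2 : Real.exp (2 * r) * Real.exp (-(2 * r)) = 1 := by rw [← Real.exp_add]; simp
      have h3 := Real.exp_pos (2 * r)
      nlinarith
    have h2 : Real.exp (4 * r) / 4 ≤ (1 / 2 / w) ^ 2 := by
      refine le_trans (le_of_eq ?_) (pow_le_pow_left₀ (by positivity) h1 2)
      rw [div_pow, ← Real.exp_nat_mul]; congr 1
      · congr 1; push_cast; ring
      · norm_num
    have h3 := MSa.small (r := r) (c := 30) (y := 3 * v - (1 / 2 / w) ^ 2 + 8 * r) (by linarith)
      (by linarith) (by positivity)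
    calc _ ≤ 30 * Real.exp (4 * v - (1 / 2 / w) ^ 2) / Real.exp (-(8 * r)) := by gcongr
      _ = z * (30 * Real.exp (3 * v - (1 / 2 / w) ^ 2 + 8 * r)) := by
        rw [mul_div_assoc, ← Real.exp_sub, hz, mul_left_comm, ← Real.exp_add]; congr 2; ring
      _ ≤ _ := by gcongr
  have hzr : Real.exp (v - r) = z * Real.exp (-r) := by rw [hz, ← Real.exp_add]; rfl
  have c3 : |∑ n ∈ S, gk w (Real.log n - v) - z| ≤ z * (4 * (Real.exp (-r) / 5)) := by
    rw [show ∑ n ∈ S, gk w (Real.log n - v) - z =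
      z * ((∑ n ∈ S, gk w (Real.log n - v)) / z - 1) by field_simp, abs_mul, abs_of_pos hz0]
    refine mul_le_mul_of_nonneg_left ?_ hz0.le
    rw [abs_le] at c1 c2 ⊢
    constructor <;> linarith [c1.1, c1.2, c2.1, c2.2]
  have hm : |∑' n : ℕ, on n * gk w (Real.log n - v) - z| ≤ z * Real.exp (-r) := by
    have h1 := hlo S hS1
    have h2 : 0 ≤ z * Real.exp (-r) := by positivity
    rw [abs_le] at c3 ⊢
    constructor <;> linarith [c3.1, c3.2]
  rw [← hz, hzr]
  refine ⟨hm, fun T hT => (hlo T hT).trans ?_⟩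
  have h1 : z * Real.exp (-r) ≤ z :=
    mul_le_of_le_one_right hz0.le (Real.exp_le_one_iff.2 (by linarith))
  linarith [(abs_le.1 hm).2]

end Pool.Agent.P.E2
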