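import Pool.Agent.P.MP_e94e4b_nt.E2.IfD

/-! Step MV. -/

namespace Pool.Agent.P.E2

open Finset Real Filter Topology MeasureTheory
open Pool.Agent.P.MP_e86632_nt (ee nn ee_add norm_ee ee_neg ee_zero)
open Pool.Agent.P.MP_8be758_nt.Avg (gs Rough red ft en nsq vau_g gs_pos gs_le_one gs_neg gs_anti)
open Pool.Agent.P.MP_e94e4b_nt.PF (mN sgm)
open ArithmeticFunction (vonMangoldt moebius)
open DirichletCharacter (LFunction)

namespace MVa

end MVa

theorem p_MV (hHG : S_HG) :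
    S_MV := by
  obtain ⟨C, hC, h⟩ := hHG
  refine ⟨C, hC, fun Z X I a hZ hI => ?_⟩
  have h1 := h 1 Z X 1 I a le_rfl hZ (by norm_num) le_rfl hI
  simp only [Icc_self, sum_singleton, MP_e94e4b_nt.PF.prim_one, MP_e94e4b_nt.PF.dp,
    MP_e94e4b_nt.PF.one_level_one, mul_one, Nat.cast_one, one_pow, one_mul] at h1
  exact h1

end Pool.Agent.P.E2
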