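import Pool.Agent.P.MP_e94e4b_nt.E2.IfC

/-! Step OV. -/

namespace Pool.Agent.P.E2

open Finset Real Filter Topology MeasureTheory
open Pool.Agent.P.MP_e86632_nt (ee nn ee_add norm_ee ee_neg ee_zero)
open Pool.Agent.P.MP_8be758_nt.Avg (gs Rough red ft en nsq vau_g gs_pos gs_le_one gs_neg gs_anti)
open Pool.Agent.P.MP_e94e4b_nt.PF (mN sgm)
open ArithmeticFunction (vonMangoldt moebius)
open DirichletCharacter (LFunction)

namespace OVa

theorem cnt {n D : ℕ} {x Y : ℕ → ℕ} (h1 : ∀ i < n, x i + Y i = x (i + 1))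
    (h2 : ∀ i < n, 2 * D ≤ Y i ∧ Y i ≤ 5 * D) (u : ℝ) :
    ((range n).filter fun i => u ∈ Set.Ioc ((x i : ℝ) - Y i) (x i + 2 * Y i)).card ≤ 8 := by
  have h3 : ∀ i d, i + d < n → x i + d * (2 * D) ≤ x (i + d) := fun i d => by
    induction d with
    | zero => simp
    | succ d ih =>
      intro h
      have := ih (by omega)
      have := h1 (i + d) (by omega)
      have := (h2 (i + d) (by omega)).1
      rw [← add_assoc, add_one_mul]
      omega
  rcases ((range n).filter fun i => u ∈ Set.Ioc ((x i : ℝ) - Y i) (x i + 2 * Y i)).eq_empty_or_nonempty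
    with e | e
  · exact e ▸ Nat.zero_le _
  obtain ⟨i, hi, hm⟩ := exists_min_image _ id e
  refine (card_le_card (t := Icc i (i + 7)) fun j hj => ?_).trans (by rw [Nat.card_Icc]; omega)
  obtain ⟨d, rfl⟩ := Nat.exists_eq_add_of_le (hm j hj)
  simp only [mem_filter, mem_range, Set.mem_Ioc, id] at hi hj ⊢
  have h4 : x (i + d) < x i + 2 * Y i + Y (i + d) := by
    exact_mod_cast (by linarith [hi.2.2, hj.2.1] : (x (i + d) : ℝ) < x i + 2 * Y i + Y (i + d))
  have := h3 i d hj.1
  have := (h2 i hi.1).2
  have := (h2 _ hj.1).2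
  have : 2 * d < 15 := lt_of_mul_lt_mul_right (by linarith : 2 * d * D < 15 * D) D.zero_le
  rw [mem_Icc]
  omega

end OVa

theorem p_OV :
    S_OV := by
  intro r P y K H φ G cφ iφ h0
  have X0 := XX_pos r
  have hl : XX r / 2 ≤ 6 * XX r := by linarith
  have hp : ∀ u ∈ Set.uIcc (XX r / 2) (6 * XX r), u ≠ 0 := fun u hu => by
    rw [Set.uIcc_of_le hl] at hu
    exact ((half_pos X0).trans_le hu.1).ne'
  have c1 : ContinuousOn (fun u => φ (Real.log u)) (Set.uIcc (XX r / 2) (6 * XX r)) :=
    cφ.comp_continuousOn (Real.continuousOn_log.mono hp)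
  have c2 : ContinuousOn (fun u : ℝ => u⁻¹) (Set.uIcc (XX r / 2) (6 * XX r)) :=
    continuousOn_inv₀.mono hp
  have i1 := (intervalIntegrable_iff_integrableOn_Ioc_of_le hl).1 (c1.intervalIntegrable (μ := volume))
  calc _ = ∑ i ∈ range (y / (K * H)), ∫ u in Set.Ioc (XX r / 2) (6 * XX r),
          (Set.Ioc ((xb y (K * H) i : ℝ) - Yb y (K * H) i)
            (xb y (K * H) i + 2 * Yb y (K * H) i)).indicator (fun u => φ (Real.log u)) u := by
        refine sum_congr rfl fun i hi => ?_
        obtain ⟨a, b, -⟩ := G.ig i (mem_range.1 hi)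
        rw [setIntegral_indicator measurableSet_Ioc, Set.inter_eq_right.2 (Set.Ioc_subset_Ioc a b),
          intervalIntegral.integral_of_le (by linarith [Nat.cast_nonneg (α := ℝ) (Yb y (K * H) i)])]
    _ ≤ ∫ u in Set.Ioc (XX r / 2) (6 * XX r), 60 * XX r * ((φ ∘ Real.log) u * u⁻¹) := by
        rw [← integral_finsetSum _ fun i _ => i1.indicator measurableSet_Ioc]
        refine setIntegral_mono_on (integrable_finsetSum _ fun i _ => i1.indicator measurableSet_Ioc)
          (((intervalIntegrable_iff_integrableOn_Ioc_of_le hl).1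
            (c1.mul c2).intervalIntegrable).const_mul _) measurableSet_Ioc fun u hu => ?_
        have u0 : 0 < u := (half_pos X0).trans hu.1
        have h8 : _ ≤ (8 : ℝ) := Nat.cast_le.2 (OVa.cnt (D := y * (K * H))
          (fun i hi => (G.x1 i hi).2.2.1) (fun i hi => by simpa only [mul_assoc] using G.y1 i hi) u)
        simp only [Set.indicator_apply, ← sum_filter, sum_const, nsmul_eq_mul, Function.comp]
        rw [mul_left_comm, mul_comm]
        refine mul_le_mul_of_nonneg_left (h8.trans ?_) (h0 _)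
        rw [← div_eq_mul_inv, le_div_iff₀ u0]
        linarith [hu.2]
    _ ≤ _ := by
        rw [integral_const_mul, ← intervalIntegral.integral_of_le hl,
          intervalIntegral.integral_comp_mul_deriv (fun u hu => Real.hasDerivAt_log (hp u hu)) c2 cφ,
          intervalIntegral.integral_of_le (Real.log_le_log (half_pos X0) hl)]
        exact mul_le_mul_of_nonneg_left (setIntegral_le_integral iφ (ae_of_all _ h0)) (by positivity)

end Pool.Agent.P.E2
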