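import Pool.Agent.P.MP_e94e4b_nt.E2.IfZ

/-! Step P0. -/

namespace Pool.Agent.P.E2

open Finset Real Filter Topology MeasureTheory
open Pool.Agent.P.MP_e86632_nt (ee nn ee_add norm_ee ee_neg ee_zero)
open Pool.Agent.P.MP_8be758_nt.Avg (gs Rough red ft en nsq vau_g gs_pos gs_le_one gs_neg gs_anti)
open Pool.Agent.P.MP_e94e4b_nt.PF (mN sgm)
open ArithmeticFunction (vonMangoldt moebius)
open DirichletCharacter (LFunction)

namespace P0a

theorem near {q : ℕ} [NeZero q] {χ : DirichletCharacter ℂ q} {G : ℂ → ℂ}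
    (hG : ∀ s, s ≠ 1 → G s = ld χ s - kp χ * riemannZeta s) {s : ℂ} (hs : s ≠ 1)
    (hd : DifferentiableAt ℂ (ld χ) s) :
    DifferentiableAt ℂ G s ∧ ‖G s‖ ≤ ‖ld χ s‖ + ‖riemannZeta s‖ := by
  constructor
  · refine (hd.sub ((differentiableAt_riemannZeta hs).const_mul (kp χ))).congr_of_eventuallyEq ?_
    filter_upwards [isOpen_ne.mem_nhds hs] with z hz using hG z hz
  · rw [hG s hs]
    refine (norm_sub_le _ _).trans (add_le_add le_rfl ?_)
    rw [norm_mul]
    exact mul_le_of_le_one_left (norm_nonneg _) (norm_kp_le χ)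

theorem ser {f : ℕ → ℂ} (k : ℂ) {s : ℂ} (hs : 1 < s.re) (hf : LSeriesSummable f s) :
    LSeriesSummable (fun n => f n - k * on n) s ∧
      LSeries (fun n => f n - k * on n) s = LSeries f s - k * riemannZeta s := by
  have h1 := (LSeriesSummable_one_iff.2 hs).smul k
  have h2 : ∀ {n : ℕ}, n ≠ 0 → f n - k * on n = (f - k • (1 : ℕ → ℂ)) n := fun hn => by
    simp [on, hn]
  refine ⟨(LSeriesSummable_congr s h2).2 (hf.sub h1), ?_⟩
  rw [LSeries_congr h2, LSeries_sub hf h1, LSeries_smul, LSeries_one_eq_riemannZeta hs]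

end P0a

theorem p_P0 (hLB : S_LB) (hZL1 : S_ZL1) (hZL2 : S_ZL2) (hLD : S_LD) (hHF : S_HF) (hMEL : S_MEL) (hCSN : S_CSN) (hTAIL : S_TAIL) (hMS : S_MS) :
    S_P0 := by
  intro q _ χ
  obtain ⟨δ, B, G, hδ, hG, hGB⟩ := hHF q χ
  obtain ⟨C, -, hC⟩ := hZL1
  filter_upwards [hLB, hLD, hCSN, hMS, ev_pe1 q 0, ev_pp 1 hδ (show 0 < 11 by norm_num),
    ev_pe B 0 two_pos, ev_pe1 128 7, ev_pe1 3 11, ev_pe1 C 0, eventually_ge_atTop 1,
    ev_pp 9 (show (0 : ℝ) < 4 by norm_num) (show 1 < 13 by norm_num)]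
    with r hLB hLD hCSN hMS hq hδr hB h7 h11 hCr hr1 h9 w v hw1 hw2 hv1 hv2
  simp only [pow_zero, pow_one, mul_one] at hq hδr hB hCr h9
  have hw0 : 0 < w := (Real.exp_pos _).trans_le hw1
  have hw3 : w ≤ 1 := hw2.trans (Real.exp_le_one_iff.2 (by linarith))
  have hr11 : 1 ≤ r ^ 11 := one_le_pow₀ hr1
  have hi0 : 0 < 1 / r ^ 11 := by positivity
  have hi1 : 1 / r ^ 11 ≤ 1 := (div_le_one (by positivity)).2 hr11
  have hi2 : 1 / r ^ 11 ≤ δ := (div_le_iff₀ (by positivity)).2 hδr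
  have hi3 : 1 / r ^ 11 ≤ 1 / r ^ 9 :=
    one_div_le_one_div_of_le (by positivity) (pow_le_pow_right₀ hr1 (by norm_num))
  have he : Real.exp r + Real.exp r ≤ Real.exp (2 * r) := by
    rw [two_mul, Real.exp_add]; nlinarith [Real.add_one_le_exp r]
  have hV : 4 * π * r ^ 7 / w ≤ Real.exp (4 * r ^ 13) / 8 := by
    rw [div_le_div_iff₀ hw0 (by norm_num)]
    have h1 : Real.exp r ≤ Real.exp (4 * r ^ 13) * Real.exp (-(8 * r)) := by
      rw [← Real.exp_add]; exact Real.exp_le_exp.2 (by linarith)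
    have h2 := mul_le_mul_of_nonneg_left hw1 (Real.exp_pos (4 * r ^ 13)).le
    have h3 := mul_le_mul_of_nonneg_right Real.pi_le_four (show 0 ≤ r ^ 7 by positivity)
    linarith
  have hI := hCSN G w v hw1 hw2 hv1 hv2 ?_ ?_
  · have hs := fun (s : ℂ) (h : s.re = 1 + 1 / r ^ 11) =>
      hZL2.2 q χ s (by linarith) (by linarith)
    have hser := fun (s : ℂ) (h : s.re = 1 + 1 / r ^ 11) =>
      P0a.ser (kp χ) (s := s) (by linarith) (hs s h).1
    obtain ⟨m1, m2⟩ := hMEL (fun n => ch χ n * vonMangoldt n - kp χ * on n) w v (1 + 1 / r ^ 11) 0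
      hw0 (by simp [on]) (hser _ (Complex.ofReal_re _)).1
    simp only [nit_zero, mul_one, add_zero] at m1 m2
    have m3 : ∀ u : ℝ, LSeries (fun n => ch χ n * vonMangoldt n - kp χ * on n)
        (pt (1 + 1 / r ^ 11) u) = G (pt (1 + 1 / r ^ 11) u) := fun u => by
      rw [(hser _ (pt_re _ u)).2, ← (hs _ (pt_re _ u)).2.1, hG]
      intro h
      have := congrArg Complex.re h
      rw [pt_re, Complex.one_re] at this
      linarith
    simp only [m3] at m2
    rw [← m2] at hI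
    have t1 := (hTAIL on w v 0 hw0 hw3 le_rfl on_bd).1
    have t2 := (Complex.summable_ofReal.2 t1).mul_left (kp χ)
    have t3 : ∑' n : ℕ, ch χ n * vonMangoldt n * (gk w (Real.log n - v) : ℂ) - kp χ * Real.exp v =
        ∑' n : ℕ, (ch χ n * vonMangoldt n - kp χ * on n) * (gk w (Real.log n - v) : ℂ) +
          kp χ * ((∑' n : ℕ, on n * gk w (Real.log n - v) - Real.exp v : ℝ) : ℂ) := by
      rw [Complex.ofReal_sub, Complex.ofReal_tsum, mul_sub, ← tsum_mul_left, ← add_sub_assoc,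
        ← m1.tsum_add t2]
      congr 2
      ext n
      push_cast; ring
    rw [t3]
    refine (norm_add_le _ _).trans ?_
    rw [norm_mul, Complex.norm_real, Real.norm_eq_abs]
    have t4 := mul_le_mul (norm_kp_le χ) (hMS w v hw1 hw2 hv1 hv2).1 (abs_nonneg _) zero_le_one
    have t5 : Real.exp (v - 9 * r) ≤ Real.exp (v - r) := Real.exp_le_exp.2 (by linarith)
    linarith
  · intro s h1 h2 h3
    rcases le_total |s.im| 3 with h4 | h4
    · obtain ⟨h5, h6⟩ := hGB s (by linarith) (by linarith) h4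
      exact ⟨h5, h6.trans hB⟩
    · obtain ⟨h5, h6⟩ := hLD q χ s hq h1 (by linarith) h4 (h3.trans hV)
      have h7 := hLB 1 1 s (by simpa using Real.one_le_exp (by linarith : (0 : ℝ) ≤ r))
        (by linarith) (by linarith) (by linarith)
        (by linarith [h3.trans hV, Real.exp_pos (4 * r ^ 13)])
      rw [DirichletCharacter.LFunction_modOne_eq] at h7
      obtain ⟨h8, h9⟩ := P0a.near hG (s := s)
        (by rintro rfl; rw [Complex.one_im, abs_zero] at h4; linarith) h5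
      exact ⟨h8, by linarith⟩
  · intro s h1
    obtain ⟨-, -, h2, h3, -⟩ := hZL2.2 q χ s (by linarith) (by linarith)
    obtain ⟨-, -, -, -, -, h4⟩ := hZL2.2 1 1 s (by linarith) (by linarith)
    rw [DirichletCharacter.LFunction_modOne_eq] at h4
    have h5 := hC s.re (by linarith) (by linarith)
    have h6 : s.re - 1 = 1 / r ^ 11 := by linarith
    rw [h6, div_div_eq_mul_div, div_one] at h4 h5
    obtain ⟨h8, h9⟩ := P0a.near hG (s := s)
      (by rintro rfl; rw [Complex.one_re] at h1; linarith) h3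
    exact ⟨h8.continuousAt, by linarith⟩

end Pool.Agent.P.E2
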