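import Pool.Agent.P.MP_e94e4b_nt.E2.IfZ

/-! Step PB. -/

namespace Pool.Agent.P.E2

open Finset Real Filter Topology MeasureTheory
open Pool.Agent.P.MP_e86632_nt (ee nn ee_add norm_ee ee_neg ee_zero)
open Pool.Agent.P.MP_8be758_nt.Avg (gs Rough red ft en nsq vau_g gs_pos gs_le_one gs_neg gs_anti)
open Pool.Agent.P.MP_e94e4b_nt.PF (mN sgm)
open ArithmeticFunction (vonMangoldt moebius)
open DirichletCharacter (LFunction)

namespace PBa

end PBa

theorem p_PB (hZL1 : S_ZL1) (hZL2 : S_ZL2) (hLD : S_LD) (hMEL : S_MEL) (hCSN : S_CSN) :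
    S_PB := by
  obtain ⟨C, hC0, hC⟩ := hZL1
  filter_upwards [hLD, hCSN, ev_pe1 4 7, ev_pe1 2 11, ev_pe1 (2 * C) 0, ev_pe1 80 0,
    eventually_ge_atTop 1] with r h1 h2 h3 h4 h5 h6 hr
  intro q _ χ w v t hq hw1 hw2 hv1 hv2 ht1 ht2
  have hw0 : 0 < w := (Real.exp_pos _).trans_le hw1
  have hw3 : w ≤ 1 := hw2.trans (Real.exp_le_one_iff.2 (by linarith))
  have hr11 : 1 ≤ r ^ 11 := one_le_pow₀ hr
  have hi0 : 0 < 1 / r ^ 11 := by positivity
  have hi1 : 1 / r ^ 11 ≤ 1 := (div_le_one (by positivity)).2 hr11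
  have hee : Real.exp r ≤ Real.exp (2 * r) := Real.exp_le_exp.2 (by linarith)
  set σ : ℝ := 1 + 1 / r ^ 11 with hσ
  have hσ1 : 1 < σ := by linarith
  have hσ2 : σ ≤ 2 := by linarith
  have hs := (hZL2.2 q χ σ (by simpa using hσ1) (by simpa using hσ2)).1
  rw [(hMEL (fun n => ch χ n * vonMangoldt n) w v σ t hw0 (by simp) hs).2]
  have he : ∀ u : ℝ, LSeries (fun n => ch χ n * vonMangoldt n) (pt σ (u + t)) =
      ld χ (pt σ u + (2 * π * t : ℝ) * Complex.I) := fun u => by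
    rw [pt_add]
    exact (hZL2.2 q χ _ (by simpa using hσ1) (by simpa using hσ2)).2.1.symm
  simp only [he]
  have hd : ∀ s : ℂ, DifferentiableAt ℂ (ld χ) (s + (2 * π * t : ℝ) * Complex.I) →
      DifferentiableAt ℂ (fun z : ℂ => ld χ (z + (2 * π * t : ℝ) * Complex.I)) s :=
    fun s h => DifferentiableAt.comp (g := ld χ)
      (f := fun z : ℂ => z + (2 * π * t : ℝ) * Complex.I) s h (by fun_prop)
  have hre : ∀ s : ℂ, (s + (2 * π * t : ℝ) * Complex.I).re = s.re := fun s => by simp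
  have him : ∀ s : ℂ, (s + (2 * π * t : ℝ) * Complex.I).im = s.im + 2 * π * t := fun s => by simp
  refine h2 (fun z => ld χ (z + (2 * π * t : ℝ) * Complex.I)) w v hw1 hw2 hv1 hv2 ?_ ?_
  · intro s hs1 hs2 hs3
    have ht3 : 1 ≤ |t| := le_trans (by
      rw [le_div_iff₀ hw0]; linarith [Real.add_one_le_exp r]) ht1
    have hs4 : |s.im| ≤ π * |t| := by
      refine hs3.trans ?_
      calc 4 * π * r ^ 7 / w = π * (4 * r ^ 7 / w) := by ring
        _ ≤ π * (Real.exp r / w) := by gcongr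
        _ ≤ _ := by gcongr
    have habs : |2 * π * t| = 2 * (π * |t|) := by
      rw [abs_mul, abs_of_pos (by positivity : (0 : ℝ) < 2 * π)]; ring
    have hp3 : 3 * |t| ≤ π * |t| := by gcongr; exact Real.pi_gt_three.le
    have hp4 : π * |t| ≤ 3.15 * |t| := by gcongr; exact Real.pi_lt_d2.le
    have hlo : 3 ≤ |s.im + 2 * π * t| := by
      have := abs_sub_abs_le_abs_add (2 * π * t) s.im
      rw [add_comm]; linarith
    have hhi : |s.im + 2 * π * t| ≤ Real.exp (4 * r ^ 13) / 8 := by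
      have e1 := abs_add_le s.im (2 * π * t)
      have e2 : Real.exp r ≤ Real.exp (r ^ 13) :=
        Real.exp_le_exp.2 (le_self_pow₀ hr (by norm_num))
      have e3 : Real.exp (4 * r ^ 13) = Real.exp (r ^ 13) * Real.exp (3 * r ^ 13) := by
        rw [← Real.exp_add]; congr 1; ring
      have e4 : 80 * Real.exp (3 * r ^ 13) ≤ Real.exp (r ^ 13) * Real.exp (3 * r ^ 13) := by
        gcongr; simp only [pow_zero, mul_one] at h6; linarith
      have := abs_nonneg t
      rw [e3]; linarith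
    have h := h1 q χ (s + (2 * π * t : ℝ) * Complex.I) hq (by rw [hre]; exact hs1)
      (by rw [hre]; linarith) (by rw [him]; exact hlo) (by rw [him]; exact hhi)
    exact ⟨hd s h.1, h.2.trans hee⟩
  · intro s hs1
    have h := hZL2.2 q χ (s + (2 * π * t : ℝ) * Complex.I) (by rw [hre, hs1]; exact hσ1)
      (by rw [hre, hs1]; exact hσ2)
    refine ⟨(hd s h.2.2.2.1).continuousAt, h.2.2.1.trans ?_⟩
    rw [hre, hs1]
    refine (hC σ hσ1 hσ2).trans ?_
    have e : 1 / (σ - 1) = r ^ 11 := by rw [hσ, add_sub_cancel_left, one_div_one_div]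
    simp only [pow_zero, mul_one] at h5
    rw [e]; linarith

end Pool.Agent.P.E2
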