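import Pool.Agent.P.MP_e94e4b_nt.E2.IfD

/-! Step PH. -/

namespace Pool.Agent.P.E2

open Finset Real Filter Topology MeasureTheory
open Pool.Agent.P.MP_e86632_nt (ee nn ee_add norm_ee ee_neg ee_zero)
open Pool.Agent.P.MP_8be758_nt.Avg (gs Rough red ft en nsq vau_g gs_pos gs_le_one gs_neg gs_anti)
open Pool.Agent.P.MP_e94e4b_nt.PF (mN sgm)
open ArithmeticFunction (vonMangoldt moebius)
open DirichletCharacter (LFunction)

theorem p_PH (hWIN1 : S_WIN1) (hRNG : S_RNG) :
    S_PH := by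
  filter_upwards [hRNG, eventually_gt_atTop 0] with r hR r0 P h1 h2 n
  have l0 : 0 < r ^ 13 := by positivity
  obtain ⟨a1, a2, a3, a4, -⟩ := hWIN1 (1 / r ^ 13) (r ^ 13 - Real.log P - 3) (r ^ 13 - Real.log P + 3)
    (Real.log n) (r ^ 13) (by positivity) (by linarith) l0.le
  rw [mul_one_div_cancel l0.ne', ← pow_mul] at a3 a4
  refine ⟨a1, a2, fun h3 h4 => a4 ?_, fun h3 => a3 ?_ ?_⟩
  · rcases le_abs.1 ((hR P h1 h2).rn' n h3 h4) with h | h
    · right; linarith
    · left; linarith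
  · linarith [(abs_le.1 h3).1]
  · linarith [(abs_le.1 h3).2]

end Pool.Agent.P.E2
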