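import Pool.Agent.P.MP_e94e4b_nt.E2.IfC

/-! Step PIECE. -/

namespace Pool.Agent.P.E2

open Finset Real Filter Topology MeasureTheory
open Pool.Agent.P.MP_e86632_nt (ee nn ee_add norm_ee ee_neg ee_zero)
open Pool.Agent.P.MP_8be758_nt.Avg (gs Rough red ft en nsq vau_g gs_pos gs_le_one gs_neg gs_anti)
open Pool.Agent.P.MP_e94e4b_nt.PF (mN sgm)
open ArithmeticFunction (vonMangoldt moebius)
open DirichletCharacter (LFunction)

theorem p_PIECE (hSI2 : S_SI2) :
    S_PIECE := by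
  intro ε hε
  obtain ⟨C, hC, hRC⟩ := Pool.Agent.P.MP_e94e4b_nt.PF.a_RC
  obtain ⟨R0, h⟩ := hSI2 (ε / (800 * C)) (by positivity)
  refine ⟨R0, fun R hR => ?_⟩
  filter_upwards [ev_lin 2 20 (c := 1 / 5) (by norm_num) (show 2 ≤ 13 by omega),
    eventually_ge_atTop 1] with r e1 hr K x H A I γ hK hH hA hI
  generalize r ^ 13 = l at e1 hH hI
  have l0 : 0 < l := by linarith
  have z2 : 2 ≤ Real.exp (l / 20) := by linarith [Real.add_one_le_exp (l / 20)]
  have H1 : 1 ≤ H := (Real.one_le_exp (by linarith)).trans hH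
  have ro : ∀ a ∈ I, γ a ≠ 0 → Rough (Real.exp (l / 20)) a := fun a ha h0 =>
    (Pool.Agent.P.MP_8be758_nt.Avg.rough_prime ((hI a ha).2.2.2.2 h0)).2 (hI a ha).2.2.1
  have h1 := h R hR (Real.exp (l / 20)) H ⌈x⌉₊ K I γ z2 (by
    refine (mul_le_mul_of_nonneg_right (pow_le_pow_left₀ K.cast_nonneg hK 2)
      (sq_nonneg _)).trans (le_trans ?_ hH)
    rw [← Real.exp_nat_mul, ← Real.exp_nat_mul, ← Real.exp_add]
    exact Real.exp_le_exp.2 (by push_cast; linarith)) (fun a ha =>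
      ⟨Nat.ceil_le.2 (hI a ha).1, (hI a ha).2.1.trans (by linarith [Nat.le_ceil x])⟩) ro
  have h2 := hRC (Real.exp (l / 20)) (x - 1) (2 * H) (I.filter fun a => γ a ≠ 0) z2 (by
    rw [← Real.exp_nat_mul]
    exact (Real.exp_le_exp.2 (by push_cast; linarith)).trans (hH.trans (by linarith)))
    fun a ha => by
      obtain ⟨a1, a2⟩ := mem_filter.1 ha
      exact ⟨by linarith [(hI a a1).1], by linarith [(hI a a1).2.1], ro a a1 a2⟩
  have h3 : nsq I γ = nsq (I.filter fun a => γ a ≠ 0) γ :=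
    (sum_filter_of_ne (p := fun a => γ a ≠ 0) fun a _ e e' => e (by simp [e'])).symm
  rw [Real.log_exp] at h1 h2
  refine h1.trans ((mul_le_mul_of_nonneg_left (h3.trans_le ((nsq_le fun a ha =>
    (hI a (mem_filter.1 ha).1).2.2.2.1).trans (mul_le_mul_of_nonneg_right h2 (sq_nonneg _))))
      (by positivity)).trans_eq ?_)
  field_simp
  ring

end Pool.Agent.P.E2
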