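import Pool.Agent.P.MP_e94e4b_nt.E2.IfC

/-! Step PL. -/

namespace Pool.Agent.P.E2

open Finset Real Filter Topology MeasureTheory
open Pool.Agent.P.MP_e86632_nt (ee nn ee_add norm_ee ee_neg ee_zero)
open Pool.Agent.P.MP_8be758_nt.Avg (gs Rough red ft en nsq vau_g gs_pos gs_le_one gs_neg gs_anti)
open Pool.Agent.P.MP_e94e4b_nt.PF (mN sgm)
open ArithmeticFunction (vonMangoldt moebius)
open DirichletCharacter (LFunction)

namespace PLa

/-- two integrable functions with the same integral -/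
def R (f g : ℝ → ℂ) : Prop := Integrable f ∧ Integrable g ∧ ∫ v, f v = ∫ t, g t

theorem R.add {f g f' g' : ℝ → ℂ} (h : R f g) (h' : R f' g') :
    R (fun v => f v + f' v) fun t => g t + g' t :=
  ⟨h.1.add h'.1, h.2.1.add h'.2.1, by
    rw [integral_add h.1 h'.1, integral_add h.2.1 h'.2.1, h.2.2, h'.2.2]⟩

theorem R.mul {f g : ℝ → ℂ} (h : R f g) (c : ℂ) : R (fun v => c * f v) fun t => c * g t :=
  ⟨h.1.const_mul c, h.2.1.const_mul c, by rw [integral_const_mul, integral_const_mul, h.2.2]⟩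

theorem R.sum (S : Finset ℕ) {f g : ℕ → ℝ → ℂ} (h : ∀ j, R (f j) (g j)) :
    R (fun v => ∑ j ∈ S, f j v) fun t => ∑ j ∈ S, g j t :=
  ⟨integrable_finsetSum _ fun j _ => (h j).1, integrable_finsetSum _ fun j _ => (h j).2.1, by
    rw [integral_finsetSum _ fun j _ => (h j).1, integral_finsetSum _ fun j _ => (h j).2.1]
    exact sum_congr rfl fun j _ => (h j).2.2⟩

theorem pair {a a' : ℝ} (ha : 0 < a) (ha' : 0 < a') (x x' : ℝ) :
    R (fun v => (gk a (x - v) * gk a' (x' - v) : ℝ))
      fun t => (gs (a * t) * gs (a' * t) : ℝ) * ee (-(t * (x - x'))) := by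
  obtain ⟨c, hc, e⟩ : ∃ c : ℝ, 0 < c ∧ c ^ 2 = a ^ 2 + a' ^ 2 :=
    ⟨√(a ^ 2 + a' ^ 2), by positivity, sq_sqrt (by positivity)⟩
  have hd : 0 < a * a' / c := by positivity
  have e1 : ∀ v, gk a (x - v) * gk a' (x' - v) =
      gk c (x - x') * gk (a * a' / c) ((a' ^ 2 * x + a ^ 2 * x') / c ^ 2 - v) := fun v => by
    simp only [gk, gs, div_mul_div_comm, ← Real.exp_add, div_pow, mul_pow, e]
    congr 1
    · congr 1
      field_simp
      ring
    · field_simp
  have e2 : ∀ t, gs (a * t) * gs (a' * t) = gs (c * t) := fun t => by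
    simp only [gs, ← Real.exp_add, mul_pow, e]
    congr 1
    ring
  simp only [e1, e2]
  refine ⟨((gk_integrable' hd _).const_mul _).ofReal, gk_four_integrable hc _, ?_⟩
  rw [gk_four hc, integral_complex_ofReal, integral_const_mul, gk_integral' hd, mul_one]

end PLa

open PLa Pool.Agent.P.MP_e94e4b_nt.PF in
theorem p_PL :
    S_PL := by
  intro S b x a a' ε ha ha'
  have h := (R.sum S fun n => R.sum S fun m => ((((pair ha ha (x n) (x m)).add
    ((pair ha ha' (x n) (x m)).mul (-ε))).add ((pair ha' ha (x n) (x m)).mul (-ε))).add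
    ((pair ha' ha' (x n) (x m)).mul (ε ^ 2))).mul (b n * (starRingEnd ℂ) (b m))).2.2
  apply Complex.ofReal_injective
  rw [← integral_complex_ofReal, ← integral_complex_ofReal]
  refine (congrArg _ (funext fun v => ?_)).trans (h.trans (congrArg _ (funext fun t => Eq.symm ?_)))
  · rw [HG_sq]
    refine sum_congr rfl fun n _ => sum_congr rfl fun m _ => ?_
    rw [map_mul, Complex.conj_ofReal]
    push_cast
    ring
  · rw [Complex.ofReal_mul, HG_sq, sum_mul]
    refine sum_congr rfl fun n _ => ?_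
    rw [sum_mul]
    refine sum_congr rfl fun m _ => ?_
    rw [map_mul, ← ee_neg, show -(t * (x n - x m)) = -(t * x n) + - -(t * x m) by ring, ee_add]
    push_cast
    ring

end Pool.Agent.P.E2
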