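import Pool.Agent.P.MP_e94e4b_nt.E2.IfC

/-! Step POS. -/

namespace Pool.Agent.P.E2

open Finset Real Filter Topology MeasureTheory
open Pool.Agent.P.MP_e86632_nt (ee nn ee_add norm_ee ee_neg ee_zero)
open Pool.Agent.P.MP_8be758_nt.Avg (gs Rough red ft en nsq vau_g gs_pos gs_le_one gs_neg gs_anti)
open Pool.Agent.P.MP_e94e4b_nt.PF (mN sgm)
open ArithmeticFunction (vonMangoldt moebius)
open DirichletCharacter (LFunction)

namespace POSa

end POSa

theorem p_POS (hSM : S_SM) (hGEO : S_GEO) (hRHO : S_RHO) (hMAIN : S_MAIN) (hUB : S_UB) (hGD : S_GD) :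
    S_POS := by
  classical
  obtain ⟨b, h1⟩ := hMAIN
  obtain ⟨C, hC, h2⟩ := hUB
  obtain ⟨D, hD, h3⟩ := hSM
  refine ⟨max b 300, 1 / (32 * C ^ 2 * D), le_max_right _ _, by positivity, ?_⟩
  filter_upwards [hGEO, hRHO, h1, h2, hGD _ (le_max_right b 300), eventually_ge_atTop 1]
    with r k1 k2 k3 k4 k5 hr y K H hS
  have g := k1 _ y K H hS
  have k3 := k3 _ y K H hS (pow_le_pow_right₀ hr (le_max_left _ _))
  have k4 := k4 _ y K H hS
  have k5 := k5 y K H hS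
  have hρ := lt_of_lt_of_le (by positivity) (k2 _ hS.p1 hS.p2).1
  have hy : (0 : ℝ) < y := g.ye ▸ Real.exp_pos _
  have hK : (0 : ℝ) < K := by exact_mod_cast g.k0
  have hH : (0 : ℝ) < H := by exact_mod_cast (by have := g.k0; have := g.kh; omega : 0 < H)
  rw [← hS.hy, sum_sigma', ← sum_filter_ne_zero] at k3
  set T := ((range (y / (K * H))).sigma (JJ y (K * H))).filter
    fun x => Rc r (r ^ max b 300) y (K * H) x.1 x.2 ≠ 0
  have hT : ∀ x ∈ T, x.1 < y / (K * H) ∧ x.2 ∈ JJ y (K * H) x.1 := fun x hx =>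
    (mem_sigma.1 (mem_filter.1 hx).1).imp_left mem_range.1
  have inj : Set.InjOn (fun x : Σ _ : ℕ, ℕ => x.2) T := fun x hx z hz (e : x.2 = z.2) =>
    Sigma.ext (by rw [← (g.jj _ (hT x hx).1 _ (hT x hx).2).2.2.1,
      ← (g.jj _ (hT z hz).1 _ (hT z hz).2).2.2.1, e]) (heq_of_eq e)
  have mem : ∀ x ∈ T, x.2 ∈ Icc 1 (2 * y) := fun x hx => by
    obtain ⟨a, b, -⟩ := g.jj _ (hT x hx).1 _ (hT x hx).2
    have : 0 < y := by exact_mod_cast hy
    exact mem_Icc.2 ⟨by omega, b.le⟩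
  have e5 : (T.card : ℝ) ≤ ((Icc 1 (2 * y)).filter (Good (max b 300))).card := by
    exact_mod_cast card_le_card_of_injOn _ (fun x hx => mem_coe.2 (mem_filter.2
      ⟨mem x hx, k5 _ (hT x hx).1 _ (hT x hx).2 (mem_filter.1 hx).2⟩)) inj
  generalize rho (r ^ max b 300) = ρ at *
  have e2 : ∑ x ∈ T, Rc r (r ^ max b 300) y (K * H) x.1 x.2 ^ 2 ≤
      (C * (ρ * (K * H) * y / r ^ 13)) ^ 2 * (D * (2 * y : ℕ)) := by
    refine le_trans ?_ (mul_le_mul_of_nonneg_left ((sum_le_sum_of_subset_of_nonneg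
      (image_subset_iff.2 mem) fun _ _ _ => sq_nonneg _).trans (h3 (2 * y))) (sq_nonneg _))
    rw [sum_image inj, mul_sum]
    refine sum_le_sum fun x hx => ?_
    obtain ⟨a, b⟩ := k4 _ (hT x hx).1 _ (hT x hx).2
    exact (pow_le_pow_left₀ a b 2).trans_eq (by ring)
  have e3 := (pow_le_pow_left₀ (by positivity) k3 2).trans (sq_sum_le_card_mul_sum_sq.trans
    (mul_le_mul_of_nonneg_left e2 (Nat.cast_nonneg _)))
  refine le_trans (le_of_mul_le_mul_right (e3.trans_eq' ?_ |>.trans_eq ?_)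
    (by positivity : 0 < 2 * C ^ 2 * D * y * (ρ * (K * H) * y / r ^ 13) ^ 2)) e5
  · field_simp
    norm_num
  · push_cast
    ring

end Pool.Agent.P.E2
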