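import Pool.Agent.P.MP_e94e4b_nt.E2.IfZ

/-! Step PS. -/

namespace Pool.Agent.P.E2

open Finset Real Filter Topology MeasureTheory
open Pool.Agent.P.MP_e86632_nt (ee nn ee_add norm_ee ee_neg ee_zero)
open Pool.Agent.P.MP_8be758_nt.Avg (gs Rough red ft en nsq vau_g gs_pos gs_le_one gs_neg gs_anti)
open Pool.Agent.P.MP_e94e4b_nt.PF (mN sgm)
open ArithmeticFunction (vonMangoldt moebius)
open DirichletCharacter (LFunction)

namespace PSa

end PSa

theorem p_PS (hEXP : S_EXP) (hEL : S_EL) (hDY : S_DY) :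
    S_PS := by
  refine ⟨1 / 10 ^ 22, by positivity, ?_⟩
  filter_upwards [eventually_ge_atTop 1, ev_lin 16 (10 ^ 23) one_pos (show 2 ≤ 13 by omega)]
    with r h1 h2
  intro q M N a t ha hq hM ht
  generalize r ^ 13 = l at h2 hM ht ⊢
  have M1 : 1 ≤ M := by
    have : (0 : ℝ) < M := (Real.exp_pos _).trans_le hM
    exact_mod_cast this
  have ex : ∀ x : ℝ, x ≤ Real.exp x := fun x => by linarith [Real.add_one_le_exp x]
  refine ((hDY (fun n => a n * nit t n) (5 / (1 + |t|) + Real.exp (-(1 / 10 ^ 22 * l)) / 2) M N M1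
    (by positivity)).1 fun M' N' b1 b2 b3 _ => ?_).trans (le_of_eq (by ring))
  have hM' : Real.exp (l / 4) ≤ M' := hM.trans (by exact_mod_cast b1)
  have M0 : (0 : ℝ) ≤ M' := by positivity
  by_cases h : |t| ≤ Real.exp (l / 8)
  · refine (hEL q M' N' a t ha (M1.trans b1) b3).trans ?_
    have c1 : 1 ≤ Real.exp (l / 8) := Real.one_le_exp (by linarith)
    have c2 : 30 * (q : ℝ) * (1 + |t|) ≤ Real.exp (-(1 / 10 ^ 22 * l)) / 2 * M' := by
      calc 30 * (q : ℝ) * (1 + |t|) ≤ 30 * Real.exp r * (2 * Real.exp (l / 8)) := by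
            gcongr; linarith
        _ = 120 * Real.exp r * Real.exp (l / 8) / 2 := by ring
        _ ≤ Real.exp 120 * Real.exp r * Real.exp (l / 8) / 2 := by gcongr; exact ex _
        _ ≤ Real.exp (-(1 / 10 ^ 22 * l)) * Real.exp (l / 4) / 2 := by
            rw [← Real.exp_add, ← Real.exp_add, ← Real.exp_add]
            exact div_le_div_of_nonneg_right (Real.exp_le_exp.2 (by linarith)) zero_le_two
        _ ≤ Real.exp (-(1 / 10 ^ 22 * l)) * M' / 2 := by gcongr
        _ = _ := by ring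
    calc _ ≤ 5 * M' / (1 + |t|) + Real.exp (-(1 / 10 ^ 22 * l)) / 2 * M' := by gcongr
      _ = _ := by ring
  · have e1 : |2 * π * t| = 2 * π * |t| := by rw [abs_mul, abs_of_pos Real.two_pi_pos]
    have t0 : 0 < |t| := (Real.exp_pos _).trans (not_le.1 h)
    have T0 : 0 < |2 * π * t| := by rw [e1]; positivity
    have u1 : l / 8 ≤ Real.log |2 * π * t| := by
      rw [Real.le_log_iff_exp_le T0, e1]
      nlinarith [Real.pi_gt_three]
    have u2 : Real.log |2 * π * t| ≤ 8 + 3 * l := by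
      rw [Real.log_le_iff_le_exp T0, e1, Real.exp_add]
      gcongr
      linarith [Real.pi_lt_four, ex 8]
    have eT := Real.exp_log T0
    generalize Real.log |2 * π * t| = u at u1 u2 eT
    refine (hEXP (u / 1000) 1000 t q M' N' a le_rfl ?_ (by rw [← eT]; congr 1; ring) ha b2 b3
      ?_).trans ?_
    · linarith [Real.log_le_sub_one_of_pos (show (0 : ℝ) < 1000 by norm_num)]
    · calc (q : ℝ) * Real.exp (u / 1000) ≤ Real.exp r * Real.exp (u / 1000) := by gcongr
        _ ≤ Real.exp (l / 4) := by rw [← Real.exp_add]; exact Real.exp_le_exp.2 (by linarith)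
        _ ≤ M' := hM'
    · have c1 : 16 * Real.exp (-(u / 1000) / (10 ^ 11 * 1000 ^ 2)) ≤
          Real.exp (-(1 / 10 ^ 22 * l)) := by
        calc _ ≤ Real.exp 16 * Real.exp (-(u / 1000) / (10 ^ 11 * 1000 ^ 2)) := by
              gcongr; exact ex _
          _ ≤ _ := by rw [← Real.exp_add]; exact Real.exp_le_exp.2 (by linarith)
      have c2 : 0 ≤ 5 / (1 + |t|) := by positivity
      calc _ = 16 * Real.exp (-(u / 1000) / (10 ^ 11 * 1000 ^ 2)) / 2 * M' := by ring
        _ ≤ _ := by gcongr; linarith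

end Pool.Agent.P.E2
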