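import Pool.Agent.P.MP_e94e4b_nt.E2.IfC

/-! Step PT. -/

namespace Pool.Agent.P.E2

open Finset Real Filter Topology MeasureTheory
open Pool.Agent.P.MP_e86632_nt (ee nn ee_add norm_ee ee_neg ee_zero)
open Pool.Agent.P.MP_8be758_nt.Avg (gs Rough red ft en nsq vau_g gs_pos gs_le_one gs_neg gs_anti)
open Pool.Agent.P.MP_e94e4b_nt.PF (mN sgm)
open ArithmeticFunction (vonMangoldt moebius)
open DirichletCharacter (LFunction)

namespace PTa

theorem amgm {x y l : ℝ} (hl : 0 < l) : x * y ≤ (l * x ^ 2 + y ^ 2 / l) / 2 := by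
  have h : l * x ^ 2 + y ^ 2 / l - 2 * (x * y) = (l * x - y) ^ 2 / l := by field_simp; ring
  have := div_nonneg (sq_nonneg (l * x - y)) hl.le
  linarith

theorem wb (hGAU : S_GAU) {q a K H : ℕ} (N0 : ℕ) (hq : 1 ≤ q) (hqK : q ≤ K) (hKH : K ≤ H)
    (ha : a.Coprime q) :
    ‖Ws (Ico N0 (N0 + K * H)) mN ((a : ℝ) / q)‖ ≤ 4 * (K * H) * (1 / √(q : ℝ)) := by
  obtain ⟨h1, -, h2⟩ := hGAU q a hq
  have h3 := h1 ha
  have h4 := h2 N0 (K * H)
  have q1 : (1 : ℝ) ≤ q := by exact_mod_cast hq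
  have q2 : (q : ℝ) ≤ K := by exact_mod_cast hqK
  have q3 : (K : ℝ) ≤ H := by exact_mod_cast hKH
  have s0 : 0 < √(q : ℝ) := Real.sqrt_pos.2 (by linarith)
  have s1 : √(q : ℝ) ≤ q := by rw [Real.sqrt_le_left (by linarith)]; nlinarith
  have h5 : (q : ℝ) ≤ K * H * (1 / √(q : ℝ)) := by
    rw [mul_one_div, le_div_iff₀ s0]
    exact mul_le_mul q2 (by linarith) s0.le (by linarith)
  have h6 := norm_le_norm_add_norm_sub' (Ws (Ico N0 (N0 + K * H)) mN ((a : ℝ) / q))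
    (((K * H : ℕ) : ℂ) * gam q a)
  rw [norm_mul, Complex.norm_natCast, Nat.cast_mul] at h6
  have h7 : (K : ℝ) * H * ‖gam q a‖ ≤ K * H * (2 / √(q : ℝ)) := by gcongr
  have h8 : (K : ℝ) * H * (2 / √(q : ℝ)) = 2 * (K * H * (1 / √(q : ℝ))) := by ring
  linarith

end PTa

open PTa in
theorem p_PT (hGEO : S_GEO) (hRHO : S_RHO) (hGAU : S_GAU) (hPIECE : S_PIECE) (hTC : S_TC) :
    S_PT := by
  intro ε hε
  obtain ⟨R1, h1⟩ := hPIECE (ε / 4) (by positivity)
  obtain ⟨R2, h2⟩ := hTC (ε / 4) (by positivity)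
  refine ⟨max R1 R2, fun R hR => ?_⟩
  filter_upwards [h1 R (le_of_max_le_left hR), h2 R (le_of_max_le_right hR), hGEO, hRHO,
    eventually_ge_atTop 1] with r k1 k2 hG hρ r1
  intro P y K H hS i hi
  have G := hG P y K H hS
  obtain ⟨x1, x2, x3, -⟩ := G.x1 i hi
  obtain ⟨y1, -⟩ := G.y1 i hi
  have x3' : (xb y (K * H) i : ℝ) + Yb y (K * H) i = xb y (K * H) (i + 1) := by exact_mod_cast x3
  have hkh := G.kh
  have hk0 := G.k0
  have l0 : 0 < r ^ 13 := by positivity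
  have y2 : Real.exp (r ^ 13 / 3) ≤ Yb y (K * H) i := by
    have h3 : y ≤ Yb y (K * H) i := le_trans (by nlinarith [Nat.mul_pos hk0 (by omega : 0 < H)]) y1
    have h4 : (y : ℝ) ≤ Yb y (K * H) i := by exact_mod_cast h3
    rw [G.ye] at h4
    exact (Real.exp_le_exp.2 (by linarith)).trans h4
  have hY : (0 : ℝ) < Yb y (K * H) i := (Real.exp_pos _).trans_le y2
  have hρ0 : 0 < rho P := lt_of_lt_of_le (by positivity) (hρ P hS.p1 hS.p2).1
  have a1 := k1 K (xb y (K * H) i) (Yb y (K * H) i) 1 (Ip y (K * H) i) (fun p => (p1 p : ℂ)) G.ke y2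
    zero_le_one fun a ha => by
      obtain ⟨h3, h4⟩ := mem_Ico.1 ha
      have h5 : (xb y (K * H) i : ℝ) ≤ a := by exact_mod_cast h3
      have h6 : (a : ℝ) ≤ xb y (K * H) (i + 1) := by exact_mod_cast h4.le
      refine ⟨h5, by linarith, ?_, norm_p1_le a, fun h => prime_of_p1 fun h7 => h (by simp [h7])⟩
      exact (Real.exp_lt_exp.2 (by linarith)).trans_le (x1.trans h5)
  have a2 := k2 P (xb y (K * H) i) y K H hS x1 (by linarith)
  set lam := (Yb y (K * H) i : ℝ) / (rho P * r ^ 13) with hlam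
  have hl : 0 < lam := by positivity
  have a3 : ∑ q ∈ Ioc R K, ∑ a ∈ red q, ‖mt r P y (K * H) i ((a : ℝ) / q)‖ ≤
      2 * (K * H) * (lam * (tl R K fun q a => cb r P (xb y (K * H) i) ((a : ℝ) / q)) +
        (tl R K fun q a => ft (Ip y (K * H) i) (fun p => (p1 p : ℂ)) ((a : ℝ) / q)) / lam) := by
    simp only [tl, mul_sum, sum_div, ← sum_add_distrib]
    refine sum_le_sum fun q hq => sum_le_sum fun a ha => ?_
    obtain ⟨h3, h4⟩ := mem_Ioc.1 hq
    rw [mt, norm_mul, norm_mul, Complex.norm_conj]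
    refine (mul_le_mul (amgm hl) (wb hGAU _ (by omega) h4 (by omega) (mem_red.1 ha).2)
      (norm_nonneg _) (by positivity)).trans_eq ?_
    ring
  refine a3.trans ?_
  calc _ ≤ 2 * (K * H) * (lam * (ε / 4 * rho P ^ 2) +
        ε / 4 * (1 * Yb y (K * H) i / r ^ 13) ^ 2 / lam) := by gcongr
    _ = _ := by rw [hlam]; field_simp; ring

end Pool.Agent.P.E2
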