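import Pool.Agent.P.MP_e94e4b_nt.E2.IfD

/-! Step PU. -/

namespace Pool.Agent.P.E2

open Finset Real Filter Topology MeasureTheory
open Pool.Agent.P.MP_e86632_nt (ee nn ee_add norm_ee ee_neg ee_zero)
open Pool.Agent.P.MP_8be758_nt.Avg (gs Rough red ft en nsq vau_g gs_pos gs_le_one gs_neg gs_anti)
open Pool.Agent.P.MP_e94e4b_nt.PF (mN sgm)
open ArithmeticFunction (vonMangoldt moebius)
open DirichletCharacter (LFunction)

namespace PUa

end PUa

theorem p_PU (hRNG : S_RNG) (hPH : S_PH) (hRE1 : S_RE1) (hPU0 : S_PU0) (hPW : S_PW) :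
    S_PU := by
  obtain ⟨κ, k0, h0⟩ := hPU0
  refine ⟨min κ (1 / 2), by positivity, ?_⟩
  filter_upwards [h0, hRNG, hPH, hRE1, ev_pe1 13 13, ev_lin 5 8 (c := 1 / 2) (by norm_num)
    (show 2 ≤ 13 by norm_num), eventually_ge_atTop 36] with r h0 h1 h2 h3 h4 h5 h6 P q _ χ U p1 p2
    hq hU
  have g := h1 P p1 p2
  have l1 : 1 ≤ r ^ 13 := one_le_pow₀ (by linarith)
  have b0 := h0 P q χ U p1 p2 hq (hU.mono (Real.exp_le_exp.2 (by gcongr; exact min_le_left _ _)))
  have hU' := hU.mono (m' := Real.exp (1 / 2 * r ^ 13))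
    (Real.exp_le_exp.2 (by gcongr; exact min_le_right _ _))
  have a0 : (0 : ℝ) < A2 r P := ((Real.exp_pos _).trans_le g.a1).trans_le (Nat.cast_le.2 g.a12)
  have e1 : √(A2 r P : ℝ) ≤ Real.exp ((r ^ 13 + 5) / 2) := Real.exp_half _ ▸ Real.sqrt_le_sqrt g.a2u
  have e2 : Real.log (A2 r P) ≤ r ^ 13 + 5 := (Real.log_le_iff_le_exp a0).2 g.a2u
  have e3 : 2 * √(A2 r P : ℝ) * Real.log (A2 r P) + 1 ≤ Real.exp ((r ^ 13 + 5) / 2 + r) := by
    have := Real.one_le_exp (x := (r ^ 13 + 5) / 2) (by positivity)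
    have : √(A2 r P : ℝ) * Real.log (A2 r P) ≤ Real.exp ((r ^ 13 + 5) / 2) * (r ^ 13 + 5) :=
      mul_le_mul e1 e2 (Real.log_natCast_nonneg _) (by positivity)
    rw [Real.exp_add]
    nlinarith
  have c1 : Continuous fun t => ‖dq (RN r P) (fun n => (th n * ph r P n : ℝ) * ch χ n) t‖ ^ 2 := by
    fun_prop
  have c2 : Continuous fun t => 2 * ‖Lin r P fun n => ph r P n * (ch χ n * nit t n)‖ ^ 2 := by
    have := cont_Lin r P (G := fun t n => ph r P n * (ch χ n * nit t n)) fun n => by fun_prop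
    fun_prop
  have b1 := hU'.int_le (c1.sub c2) (B := 2 * Real.exp ((r ^ 13 + 5) / 2 + r) ^ 2)
    (by positivity) fun t _ => by
    have f1 : ∀ n, ‖ch χ n * nit t n‖ ≤ 1 := fun n => by
      rw [norm_mul, norm_nit, mul_one]; exact norm_ch_le χ n
    have f2 := h3 P _ p1 p2 f1
    have f3 : ‖dq (RN r P) (fun n => (th n * ph r P n : ℝ) * ch χ n) t -
        ∑ n ∈ RN r P, (vonMangoldt n : ℂ) * (ph r P n * (ch χ n * nit t n))‖ ≤
        2 * √(A2 r P : ℝ) * Real.log (A2 r P) := by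
      rw [dq, ← sum_sub_distrib]
      refine (norm_sum_le_of_le _ fun n _ => ?_).trans
        (hPW.2 _ (RN r P) fun n hn => (mem_Ioc.1 hn).2)
      obtain ⟨d1, d2, -⟩ := h2 P p1 p2 n
      have d3 := sub_nonneg.2 (hPW.1 n).2
      rw [norm_sub_rev, show (vonMangoldt n : ℂ) * (ph r P n * (ch χ n * nit t n)) -
        (th n * ph r P n : ℝ) * ch χ n * nit t n = ((vonMangoldt n - th n) * ph r P n : ℝ) *
          (ch χ n * nit t n) by push_cast; ring, norm_mul, Complex.norm_real,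
        Real.norm_of_nonneg (mul_nonneg d3 d1), mul_assoc]
      exact mul_le_of_le_one_right d3 (mul_le_one₀ d2 (norm_nonneg _) (f1 n))
    have f4 := pow_le_pow_left₀ (norm_nonneg _)
      ((norm_sub_le_norm_sub_add_norm_sub _ _ _).trans ((add_le_add f3 f2).trans e3)) 2
    have f5 := norm_add_sq_le (dq (RN r P) (fun n => (th n * ph r P n : ℝ) * ch χ n) t -
      Lin r P fun n => ph r P n * (ch χ n * nit t n)) (Lin r P fun n => ph r P n * (ch χ n * nit t n))
    rw [sub_add_cancel] at f5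
    simp only [Pi.sub_apply]
    linarith
  simp only [Pi.sub_apply] at b1
  rw [integral_sub (hU.intOn c1) (hU.intOn c2), integral_const_mul] at b1
  have x1 : Real.exp (r ^ 13 - r) ^ 2 ≤ X2 r P ^ 2 := pow_le_pow_left₀ (by positivity) g.x2l 2
  have x2 : 4 * Real.exp (-(r / 3)) ≤ Real.exp (-(r / 4)) := by
    rw [show -(r / 4) = r / 12 + -(r / 3) by ring, Real.exp_add]
    gcongr
    linarith [Real.add_one_le_exp (r / 12)]
  have x3 : 4 * (Real.exp (1 / 2 * r ^ 13) * Real.exp ((r ^ 13 + 5) / 2 + r) ^ 2) ≤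
      Real.exp (r ^ 13 - r) ^ 2 * Real.exp (-(r / 4)) := by
    refine le_trans (mul_le_mul_of_nonneg_right (show 4 ≤ Real.exp 3 by
      linarith [Real.add_one_le_exp 3]) (by positivity)) ?_
    simp only [pow_two, ← Real.exp_add]
    exact Real.exp_le_exp.2 (by linarith)
  have x4 := mul_le_mul_of_nonneg_right x1 (Real.exp_pos (-(r / 4))).le
  have x5 := mul_le_mul_of_nonneg_left x2 (sq_nonneg (X2 r P))
  linarith

end Pool.Agent.P.E2
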