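import Pool.Agent.P.MP_e94e4b_nt.E2.IfD

/-! Step PW. -/

namespace Pool.Agent.P.E2

open Finset Real Filter Topology MeasureTheory
open Pool.Agent.P.MP_e86632_nt (ee nn ee_add norm_ee ee_neg ee_zero)
open Pool.Agent.P.MP_8be758_nt.Avg (gs Rough red ft en nsq vau_g gs_pos gs_le_one gs_neg gs_anti)
open Pool.Agent.P.MP_e94e4b_nt.PF (mN sgm)
open ArithmeticFunction (vonMangoldt moebius)
open DirichletCharacter (LFunction)

namespace PWa

end PWa

theorem p_PW :
    S_PW := by
  have h : ∀ n : ℕ, 0 ≤ th n ∧ th n ≤ vonMangoldt n := fun n => by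
    unfold th
    split_ifs with hp
    · exact ⟨Real.log_natCast_nonneg n, (ArithmeticFunction.vonMangoldt_apply_prime hp).ge⟩
    · exact ⟨le_rfl, ArithmeticFunction.vonMangoldt_nonneg⟩
  refine ⟨h, fun N S hS => ?_⟩
  refine (sum_le_sum_of_subset_of_nonneg (t := Icc 0 N) (fun n hn => mem_Icc.2 ⟨n.zero_le, hS n hn⟩)
    fun n _ _ => sub_nonneg.2 (h n).2).trans ?_
  rcases N.eq_zero_or_pos with rfl | hN
  · simp [th, Nat.not_prime_zero]
  · have := Chebyshev.psi_sub_theta_le (x := N) (Nat.one_le_cast.2 hN)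
    rwa [Chebyshev.psi_eq_sum_Icc, Chebyshev.theta_eq_sum_Icc, Nat.floor_natCast, sum_filter,
      ← sum_sub_distrib] at this

end Pool.Agent.P.E2
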