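import Pool.Agent.P.MP_e94e4b_nt.E2.IfD

/-! Step QB. -/

namespace Pool.Agent.P.E2

open Finset Real Filter Topology MeasureTheory
open Pool.Agent.P.MP_e86632_nt (ee nn ee_add norm_ee ee_neg ee_zero)
open Pool.Agent.P.MP_8be758_nt.Avg (gs Rough red ft en nsq vau_g gs_pos gs_le_one gs_neg gs_anti)
open Pool.Agent.P.MP_e94e4b_nt.PF (mN sgm)
open ArithmeticFunction (vonMangoldt moebius)
open DirichletCharacter (LFunction)

namespace QBa

theorem dbl {S : Finset ℕ} {T : ℕ → Finset ℕ} {c : ℕ → ℕ → ℝ} {F : ℕ → ℂ} {t : ℕ} {C : ℝ}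
    (hF : ∀ n, ‖F n‖ ≤ 1) (hC : 0 ≤ C) (ht : ∀ d ∈ S, (T d).card ≤ t)
    (hc : ∀ d ∈ S, ∀ k ∈ T d, |c d k| ≤ C) :
    ‖∑ d ∈ S, ∑ k ∈ T d, (c d k : ℂ) * F (d * k)‖ ≤ (S.card * t : ℕ) * C := by
  refine (norm_sum_le_of_le _ (n := fun _ => t * C) fun d hd => ?_).trans (by simp [mul_assoc])
  refine (norm_sum_le_of_le _ (n := fun _ => C) fun k hk => ?_).trans ?_
  · rw [norm_mul, Complex.norm_real, Real.norm_eq_abs]
    exact (mul_le_of_le_one_right (abs_nonneg _) (hF _)).trans (hc d hd k hk)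
  · rw [sum_const, nsmul_eq_mul]
    exact mul_le_mul_of_nonneg_right (by exact_mod_cast ht d hd) hC

theorem li (Y A B : ℕ) {F : ℕ → ℂ} (hF : ∀ n, ‖F n‖ ≤ 1) :
    ‖LI Y A B F‖ ≤ Y * B * B + Y * Y * B * (Y * Y) := by
  have ht : ∀ d, (Ioc (A / d) (B / d)).card ≤ B := fun d => by
    rw [Nat.card_Ioc]; exact (Nat.sub_le _ _).trans (Nat.div_le_self _ _)
  refine (norm_sub_le _ _).trans (add_le_add ?_ ?_)
  · refine (dbl (C := B) hF (by positivity) (fun d _ => ht d) fun d _ k hk => ?_).trans (by simp)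
    rw [abs_mul, abs_of_nonneg (Real.log_natCast_nonneg k)]
    refine (mul_le_of_le_one_left (Real.log_natCast_nonneg k)
      (Pool.Agent.P.MP_8be758_nt.Avg.vau_mu d)).trans ((log_le_nat k).trans ?_)
    exact_mod_cast (mem_Ioc.1 hk).2.trans (Nat.div_le_self _ _)
  · refine (dbl (c := fun d _ => vau_g Y d) (C := Y * Y) hF (by positivity) (fun d _ => ht d)
      fun d hd k _ => ?_).trans (by simp)
    refine (Pool.Agent.P.MP_8be758_nt.Avg.vau_g_le Y d).trans ((log_le_nat d).trans ?_)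
    exact_mod_cast (mem_Icc.1 hd).2

theorem lj (hVAU : S_VAU) (Y A B j : ℕ) {F : ℕ → ℂ} (hF : ∀ n, ‖F n‖ ≤ 1) :
    ‖LJ Y A B j F‖ ≤ B * (2 * B) := by
  have h1 : Y * 2 ^ j * (B / (Y * 2 ^ j)) ≤ B := Nat.mul_div_le _ _
  refine (dbl (t := B / (Y * 2 ^ j)) (C := 2 * B) hF (by positivity)
    (fun d _ => by rw [Nat.card_Ioc]; exact Nat.sub_le _ _) fun m hm k hk => ?_).trans ?_
  · rw [abs_mul, abs_of_nonneg ArithmeticFunction.vonMangoldt_nonneg]
    have h2 : |bt Y k| ≤ k :=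
      ((hVAU Y).1 k).1.trans (by exact_mod_cast Nat.card_divisors_le_self k)
    refine (mul_le_mul (lam_le m) h2 (abs_nonneg _) (by positivity)).trans ?_
    have h3 := Nat.mul_le_mul (mem_Ioc.1 hm).2 (mem_Ioc.1 hk).2
    rw [pow_succ] at h3
    exact_mod_cast (by nlinarith : m * k ≤ 2 * B)
  · rw [Nat.card_Ioc, show Y * 2 ^ (j + 1) - Y * 2 ^ j = Y * 2 ^ j by rw [pow_succ, ← mul_assoc]; omega]
    exact mul_le_mul_of_nonneg_right (by exact_mod_cast h1) (by positivity)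

end QBa

open QBa in
theorem p_QB (hRNG : S_RNG) (hVAU : S_VAU) :
    S_QB := by
  filter_upwards [hRNG, ev_lin 0 9 one_pos (k := 13) (by norm_num)] with r hr r1 P F hP1 hP2 hF
  have g := hr P hP1 hP2
  have h1 := li (Yv r) (A1 r P) (A2 r P) hF
  have h2 : ‖∑ j ∈ range (Jv r), LJ (Yv r) (A1 r P) (A2 r P) j F‖ ≤
      Jv r * (A2 r P * (2 * A2 r P)) :=
    (norm_sum_le_of_le _ fun j _ => lj hVAU _ _ _ j hF).trans (by simp)
  refine (norm_add_le _ _).trans ((add_le_add h1 h2).trans ?_)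
  have a1 := g.a2u
  have a2 := g.ju
  have a3 : (Yv r : ℝ) ≤ A2 r P := by exact_mod_cast g.ya.trans g.a12
  have a4 : (Yv r : ℝ) * Yv r ≤ Real.exp (r ^ 13 + 5) := by
    refine (mul_self_le_mul_self (by positivity) g.yu).trans ?_
    rw [← Real.exp_add]; exact Real.exp_le_exp.2 (by linarith)
  have a5 : 6 * r ^ 13 ≤ Real.exp (r ^ 13 + 5) := by
    rw [Real.exp_add]
    nlinarith [Real.add_one_le_exp (r ^ 13), Real.add_one_le_exp 5]
  have a6 : 3 * Real.exp (r ^ 13 + 5) ^ 3 ≤ Real.exp (5 * r ^ 13) := by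
    rw [← Real.exp_nat_mul]
    refine (mul_le_mul_of_nonneg_right (show (3 : ℝ) ≤ Real.exp 2 by
      linarith [Real.add_one_le_exp 2]) (Real.exp_pos _).le).trans ?_
    rw [← Real.exp_add]; exact Real.exp_le_exp.2 (by push_cast; linarith)
  generalize Real.exp (r ^ 13 + 5) = b at a1 a4 a5 a6
  have b0 : 0 ≤ b := (Nat.cast_nonneg _).trans a1
  have c1 : (Yv r : ℝ) * A2 r P * A2 r P ≤ b * b * b := by gcongr; exact a3.trans a1
  have c2 : (Yv r : ℝ) * Yv r * A2 r P * (Yv r * Yv r) ≤ b * b * b := by gcongr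
  have c3 : (2 * Jv r : ℝ) * A2 r P * A2 r P ≤ b * b * b := by gcongr; linarith
  linarith

end Pool.Agent.P.E2
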