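import Pool.Agent.P.MP_e94e4b_nt.E2.IfD

/-! Step QU. -/

namespace Pool.Agent.P.E2

open Finset Real Filter Topology MeasureTheory
open Pool.Agent.P.MP_e86632_nt (ee nn ee_add norm_ee ee_neg ee_zero)
open Pool.Agent.P.MP_8be758_nt.Avg (gs Rough red ft en nsq vau_g gs_pos gs_le_one gs_neg gs_anti)
open Pool.Agent.P.MP_e94e4b_nt.PF (mN sgm)
open ArithmeticFunction (vonMangoldt moebius)
open DirichletCharacter (LFunction)

theorem p_QU (hRNG : S_RNG) (hT1U : S_T1U) (hT2 : S_T2) :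
    S_QU := by
  obtain ⟨κ1, hκ1, h1⟩ := hT1U
  obtain ⟨κ2, hκ2, h2⟩ := hT2
  refine ⟨min κ1 κ2, lt_min hκ1 hκ2, ?_⟩
  filter_upwards [hRNG, h1, h2, ev_pe 60500 26 (c := 1 / 2) (by norm_num), eventually_ge_atTop 1]
    with r hR h1 h2 h3 hr P q _ χ U hP1 hP2 hq hU
  have hg := hR P hP1 hP2
  have hr13 : 0 ≤ r ^ 13 := by positivity
  have a1 := h1 P q χ U hP1 hP2 hq (hU.mono (Real.exp_le_exp.2
    (mul_le_mul_of_nonneg_right (min_le_left _ _) hr13)))
  have a2 := fun j => h2 P q χ j U hP1 hP2 hq (hU.mono (Real.exp_le_exp.2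
    (mul_le_mul_of_nonneg_right (min_le_right _ _) hr13)))
  have hc : ∀ n, Continuous fun t => ch χ n * nit t n := fun n => by fun_prop
  have i1 := hU.intOn ((cont_LI (Yv r) (A1 r P) (A2 r P) hc).norm.fun_pow 2)
  have i2 := fun j => hU.intOn ((cont_LJ (Yv r) (A1 r P) (A2 r P) j hc).norm.fun_pow 2)
  have i3 := integrable_finsetSum (range (Jv r)) fun j _ => i2 j
  have hJ : (Jv r : ℝ) ^ 2 ≤ 9 * r ^ 26 :=
    (pow_le_pow_left₀ (Nat.cast_nonneg _) hg.ju 2).trans_eq (by ring)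
  have hA : (A2 r P : ℝ) ^ 2 ≤ 3025 * X2 r P ^ 2 :=
    (pow_le_pow_left₀ (Nat.cast_nonneg _) hg.a2 2).trans_eq (by ring)
  have h26 : 1 ≤ r ^ 26 := one_le_pow₀ hr
  calc _ ≤ ∫ t in U, (2 * ‖LI (Yv r) (A1 r P) (A2 r P) fun n => ch χ n * nit t n‖ ^ 2 +
        2 * (Jv r * ∑ j ∈ range (Jv r),
          ‖LJ (Yv r) (A1 r P) (A2 r P) j fun n => ch χ n * nit t n‖ ^ 2)) := by
        refine setIntegral_mono_on (hU.intOn ((cont_Lin r P hc).norm.pow 2))
          ((i1.const_mul 2).add ((i3.const_mul _).const_mul 2)) hU.1 fun t _ => ?_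
        refine (norm_add_sq_le _ _).trans ?_
        have h4 := norm_sum_sq_le (range (Jv r))
          fun j => LJ (Yv r) (A1 r P) (A2 r P) j fun n => ch χ n * nit t n
        rw [card_range] at h4
        linarith
    _ ≤ 2 * ((A2 r P : ℝ) ^ 2 * Real.exp (-r)) +
        2 * (Jv r * (Jv r * ((A2 r P : ℝ) ^ 2 * Real.exp (-r)))) := by
        rw [integral_add (i1.const_mul 2) ((i3.const_mul _).const_mul 2), integral_const_mul,
          integral_const_mul, integral_const_mul, integral_finsetSum _ fun j _ => i2 j]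
        gcongr
        exact (sum_le_sum fun j _ => a2 j).trans (by simp)
    _ = (2 + 2 * (Jv r : ℝ) ^ 2) * (A2 r P : ℝ) ^ 2 * Real.exp (-r) := by ring
    _ ≤ (20 * r ^ 26) * (3025 * X2 r P ^ 2) * Real.exp (-r) := by
        gcongr
        linarith
    _ = X2 r P ^ 2 * (60500 * r ^ 26 * Real.exp (-r)) := by ring
    _ ≤ X2 r P ^ 2 * (Real.exp (1 / 2 * r) * Real.exp (-r)) := by gcongr
    _ = _ := by rw [← Real.exp_add]; congr 2; ring

end Pool.Agent.P.E2
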