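import Pool.Agent.P.MP_e94e4b_nt.E2.IfD

/-! Step RE0. -/

namespace Pool.Agent.P.E2

open Finset Real Filter Topology MeasureTheory
open Pool.Agent.P.MP_e86632_nt (ee nn ee_add norm_ee ee_neg ee_zero)
open Pool.Agent.P.MP_8be758_nt.Avg (gs Rough red ft en nsq vau_g gs_pos gs_le_one gs_neg gs_anti)
open Pool.Agent.P.MP_e94e4b_nt.PF (mN sgm)
open ArithmeticFunction (vonMangoldt moebius)
open DirichletCharacter (LFunction)

namespace RE0a

theorem swap (A B : ℕ) (G : ℕ → ℕ → ℂ) :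
    ∑ n ∈ Ioc A B, ∑ x ∈ n.divisorsAntidiagonal, G x.1 x.2 =
      ∑ d ∈ Icc 1 B, ∑ k ∈ Ioc (A / d) (B / d), G d k := by
  rw [sum_sigma', sum_sigma']
  refine sum_bij' (fun x _ => ⟨x.2.1, x.2.2⟩) (fun x _ => ⟨x.1 * x.2, (x.1, x.2)⟩) ?_ ?_ ?_ ?_ ?_
  · rintro ⟨n, d, k⟩ h
    simp only [mem_sigma, mem_Ioc, Nat.mem_divisorsAntidiagonal, mem_Icc] at h ⊢
    obtain ⟨⟨h1, h2⟩, rfl, h3⟩ := h
    have hd : 0 < d := Nat.pos_of_ne_zero (left_ne_zero_of_mul h3)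
    have hk : 0 < k := Nat.pos_of_ne_zero (right_ne_zero_of_mul h3)
    refine ⟨⟨hd, (Nat.le_mul_of_pos_right d hk).trans h2⟩, ?_, ?_⟩
    · rw [Nat.div_lt_iff_lt_mul hd, mul_comm]; exact h1
    · rw [Nat.le_div_iff_mul_le hd, mul_comm]; exact h2
  · rintro ⟨d, k⟩ h
    simp only [mem_sigma, mem_Ioc, Nat.mem_divisorsAntidiagonal, mem_Icc] at h ⊢
    obtain ⟨⟨h1, -⟩, h3, h4⟩ := h
    rw [Nat.div_lt_iff_lt_mul h1, mul_comm] at h3
    rw [Nat.le_div_iff_mul_le h1, mul_comm] at h4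
    exact ⟨⟨h3, h4⟩, trivial, by omega⟩
  · rintro ⟨n, d, k⟩ h
    simp only [mem_sigma, Nat.mem_divisorsAntidiagonal] at h
    obtain ⟨-, rfl, -⟩ := h
    rfl
  · rintro ⟨d, k⟩ -; rfl
  · rintro ⟨n, d, k⟩ -; rfl

theorem rng (A B Z : ℕ) (G : ℕ → ℕ → ℂ) (h : ∀ d k, Z < d → G d k = 0) :
    ∑ d ∈ Icc 1 B, ∑ k ∈ Ioc (A / d) (B / d), G d k =
      ∑ d ∈ Icc 1 Z, ∑ k ∈ Ioc (A / d) (B / d), G d k := by
  have h1 : ∀ d ∈ Icc 1 (max B Z), d ∉ Icc 1 B → ∑ k ∈ Ioc (A / d) (B / d), G d k = 0 := by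
    intro d h1 h2
    simp only [mem_Icc] at h1 h2
    rw [Nat.div_eq_of_lt (show B < d by omega), Ioc_eq_empty (Nat.not_lt_zero _), sum_empty]
  have h2 : ∀ d ∈ Icc 1 (max B Z), d ∉ Icc 1 Z → ∑ k ∈ Ioc (A / d) (B / d), G d k = 0 := by
    intro d h1 h2
    simp only [mem_Icc] at h1 h2
    exact sum_eq_zero fun k _ => h d k (by omega)
  rw [sum_subset (Icc_subset_Icc_right (le_max_left B Z)) h1,
    sum_subset (Icc_subset_Icc_right (le_max_right B Z)) h2]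

end RE0a

open RE0a in
theorem p_RE0 (hVAU : S_VAU) :
    S_RE0 := by
  intro Y A B F hY hA
  obtain ⟨h1, h2⟩ := hVAU Y
  have e : ∀ n ∈ Ioc A B, (vonMangoldt n : ℂ) * F n = ∑ x ∈ n.divisorsAntidiagonal,
      ((((if x.1 ≤ Y then moebius x.1 * Real.log x.2 else 0 : ℝ) : ℂ) * F (x.1 * x.2) -
        ((vau_g Y x.1 : ℝ) : ℂ) * F (x.1 * x.2)) +
        ((if Y < x.1 then vonMangoldt x.1 * bt Y x.2 else 0 : ℝ) : ℂ) * F (x.1 * x.2)) := by
    intro n hn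
    rw [h2 n (hA.trans_lt (mem_Ioc.1 hn).1), Complex.ofReal_sum, sum_mul]
    refine sum_congr rfl fun x hx => ?_
    rw [(Nat.mem_divisorsAntidiagonal.1 hx).1, Complex.ofReal_add, Complex.ofReal_sub]; ring
  rw [sum_congr rfl e]
  simp only [sum_add_distrib, sum_sub_distrib]
  rw [swap A B fun d k => ((if d ≤ Y then moebius d * Real.log k else 0 : ℝ) : ℂ) * F (d * k),
    swap A B fun d k => ((vau_g Y d : ℝ) : ℂ) * F (d * k),
    swap A B fun d k => ((if Y < d then vonMangoldt d * bt Y k else 0 : ℝ) : ℂ) * F (d * k),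
    rng A B Y _ fun d k h => by rw [if_neg (by omega)]; simp,
    rng A B (Y * Y) (fun d k => ((vau_g Y d : ℝ) : ℂ) * F (d * k)) fun d k h => by
      have : vau_g Y d = 0 := by
        by_contra h3
        have := Pool.Agent.P.MP_8be758_nt.Avg.vau_g_ne h3
        omega
      simp [this], LI]
  congr 1
  · congr 1
    exact sum_congr rfl fun d hd => sum_congr rfl fun k _ => by rw [if_pos (mem_Icc.1 hd).2]
  · symm
    refine (sum_congr rfl fun m hm => ?_).trans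
      (sum_subset (fun m hm => ?_) fun m h3 h4 => sum_eq_zero fun k _ => ?_)
    · refine (sum_subset (Ioc_subset_Ioc_left (le_max_right _ _)) fun k h3 h4 => ?_).trans
        (sum_congr rfl fun k _ => by rw [if_pos (mem_Ioc.1 hm).1])
      simp only [mem_Ioc, max_lt_iff] at h3 h4
      rw [(h1 k).2 (by omega)]; simp
    · simp only [mem_Ioc, mem_Icc] at hm ⊢; omega
    · simp only [mem_Ioc, mem_Icc] at h3 h4
      rw [if_neg (by omega)]; simp

end Pool.Agent.P.E2
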