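import Pool.Agent.P.MP_e94e4b_nt.E2.IfD

/-! Step RE1. -/

namespace Pool.Agent.P.E2

open Finset Real Filter Topology MeasureTheory
open Pool.Agent.P.MP_e86632_nt (ee nn ee_add norm_ee ee_neg ee_zero)
open Pool.Agent.P.MP_8be758_nt.Avg (gs Rough red ft en nsq vau_g gs_pos gs_le_one gs_neg gs_anti)
open Pool.Agent.P.MP_e94e4b_nt.PF (mN sgm)
open ArithmeticFunction (vonMangoldt moebius)
open DirichletCharacter (LFunction)

namespace RE1a

theorem dy (Y J : ℕ) (f : ℕ → ℂ) : ∑ m ∈ Ioc Y (Y * 2 ^ J), f m =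
    ∑ j ∈ range J, ∑ m ∈ Ioc (Y * 2 ^ j) (Y * 2 ^ (j + 1)), f m := by
  induction J with
  | zero => simp
  | succ J ih =>
    rw [sum_range_succ, ← ih, sum_Ioc_consecutive _ (Nat.le_mul_of_pos_right _ (by positivity))
      (Nat.mul_le_mul_left _ (Nat.pow_le_pow_right two_pos (Nat.le_succ J)))]

theorem blk {Y A B M : ℕ} {ε : ℝ} {c : ℕ → ℕ → ℂ} {G : ℕ → ℂ} (hM : 0 < M) (hε : 0 ≤ ε)
    (hc : ∀ m k, ‖c m k‖ ≤ m * k) (hG : ∀ n, 1 ≤ n → n ∉ Ioc A B → ‖G n‖ ≤ ε) :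
    ‖∑ m ∈ Ioc M (M * 2), ∑ k ∈ Ioc (max Y (A / m)) (B / m), c m k * G (m * k) -
      ∑ m ∈ Ioc M (M * 2), ∑ k ∈ Ioc (max Y (A / (M * 2))) (B / M), c m k * G (m * k)‖ ≤
      B * (2 * B * ε) := by
  have hB : (M : ℝ) * (B / M : ℕ) ≤ B := by exact_mod_cast Nat.mul_div_le B M
  rw [norm_sub_rev, ← sum_sub_distrib]
  refine (norm_sum_le_of_le _ (n := fun _ => (B / M : ℕ) * (2 * B * ε)) fun m hm => ?_).trans ?_
  · obtain ⟨m1, m2⟩ := mem_Ioc.1 hm
    have m0 : 0 < m := hM.trans m1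
    rw [← sum_sdiff_eq_sub (Ioc_subset_Ioc (max_le_max le_rfl (Nat.div_le_div_left m2 m0))
      (Nat.div_le_div_left m1.le hM))]
    refine (norm_sum_le_of_le _ (n := fun _ => 2 * B * ε) fun k hk => ?_).trans ?_
    · obtain ⟨k1, k2⟩ := mem_sdiff.1 hk
      obtain ⟨k3, k4⟩ := mem_Ioc.1 k1
      have k5 := (max_lt_iff.1 k3).1
      have h1 : m * k ≤ 2 * B := by
        calc m * k ≤ M * 2 * (B / M) := Nat.mul_le_mul m2 k4
          _ = 2 * (M * (B / M)) := by ring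
          _ ≤ _ := Nat.mul_le_mul_left _ (Nat.mul_div_le B M)
      rw [norm_mul]
      refine mul_le_mul ((hc m k).trans (by exact_mod_cast h1)) (hG _ (Nat.mul_pos m0 (by omega))
        fun h => k2 ?_) (norm_nonneg _) (by positivity)
      rw [mem_Ioc, mul_comm] at h
      exact mem_Ioc.2 ⟨max_lt k5 ((Nat.div_lt_iff_lt_mul m0).2 h.1),
        (Nat.le_div_iff_mul_le m0).2 h.2⟩
    · rw [sum_const, nsmul_eq_mul]
      gcongr
      exact (card_le_card sdiff_subset).trans (by simp)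
  · rw [sum_const, nsmul_eq_mul, Nat.card_Ioc, show M * 2 - M = M by omega, ← mul_assoc]
    gcongr

end RE1a

theorem p_RE1 (hRNG : S_RNG) (hPH : S_PH) (hVAU : S_VAU) (hRE0 : S_RE0) :
    S_RE1 := by
  filter_upwards [hRNG, hPH, ev_pe1 12 13, ev_lin 1 10 one_half_pos (show 2 ≤ 26 by omega),
    ev_pp 2 one_half_pos (show 13 < 26 by omega)] with r h1 h2 h3 h4 h5 P F p1 p2 hF
  have R := h1 P p1 p2
  have Y0 : 0 < Yv r := by exact_mod_cast (Real.exp_pos _).trans_le R.yl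
  rw [RN, hRE0 (Yv r) _ _ _ Y0 R.ya, Lin, add_sub_add_left_eq_sub,
    sum_subset (Ioc_subset_Ioc_right R.jl) fun m hm hm' => by
      rw [Nat.div_eq_of_lt (a := A2 r P) (not_le.1 fun h => hm' (mem_Ioc.2 ⟨(mem_Ioc.1 hm).1, h⟩))]
      simp, RE1a.dy, ← sum_sub_distrib]
  refine (norm_sum_le_of_le _ (n := fun _ => A2 r P * (2 * A2 r P * (2 * Real.exp (-r ^ 26))))
    fun j _ => ?_).trans ?_
  · rw [LJ, pow_succ, ← mul_assoc]
    refine RE1a.blk (G := fun n => ph r P n * F n) (by positivity) (by positivity)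
      (fun m k => ?_) fun n n1 n2 => ?_
    · rw [Complex.norm_real, Real.norm_eq_abs, abs_mul,
        abs_of_nonneg ArithmeticFunction.vonMangoldt_nonneg]
      exact mul_le_mul (lam_le m) (((hVAU _).1 k).1.trans
        (by exact_mod_cast Nat.card_divisors_le_self k)) (abs_nonneg _) (Nat.cast_nonneg _)
    · obtain ⟨a, -, b, -⟩ := h2 P p1 p2 n
      rw [norm_mul, Complex.norm_real, Real.norm_of_nonneg a]
      exact (mul_le_of_le_one_right a (hF n)).trans (b n1 n2)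
  · rw [sum_const, card_range, nsmul_eq_mul]
    calc _ ≤ 3 * r ^ 13 * (Real.exp (r ^ 13 + 5) *
          (2 * Real.exp (r ^ 13 + 5) * (2 * Real.exp (-r ^ 26)))) := by
          have := R.ju
          have := R.a2u
          have := (Nat.cast_nonneg (α := ℝ) _).trans R.ju
          gcongr
      _ = 12 * r ^ 13 * Real.exp (r ^ 13 + 5 + (r ^ 13 + 5) + -r ^ 26) := by
          simp only [Real.exp_add]; ring
      _ ≤ Real.exp r * Real.exp (r ^ 13 + 5 + (r ^ 13 + 5) + -r ^ 26) := by gcongr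
      _ ≤ 1 := by rw [← Real.exp_add, Real.exp_le_one_iff]; linarith

end Pool.Agent.P.E2
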