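import Pool.Agent.P.MP_e94e4b_nt.E2.IfD

/-! Step RE2. -/

namespace Pool.Agent.P.E2

open Finset Real Filter Topology MeasureTheory
open Pool.Agent.P.MP_e86632_nt (ee nn ee_add norm_ee ee_neg ee_zero)
open Pool.Agent.P.MP_8be758_nt.Avg (gs Rough red ft en nsq vau_g gs_pos gs_le_one gs_neg gs_anti)
open Pool.Agent.P.MP_e94e4b_nt.PF (mN sgm)
open ArithmeticFunction (vonMangoldt moebius)
open DirichletCharacter (LFunction)

namespace RE2a

end RE2a

theorem p_RE2 (hWF : S_WF) :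
    S_RE2 := by
  intro r P hr
  have hl : (0 : ℝ) < r ^ 13 := by positivity
  obtain ⟨Φ, h1, h2, h3⟩ := hWF (1 / r ^ 13) (r ^ 13 - Real.log P - 3) (r ^ 13 - Real.log P + 3)
    (by positivity) (by linarith)
  have h4 : ∀ s, ‖Φ s‖ ≤ 6 * gs (s / r ^ 13) := fun s => (h2 s).trans_eq (by
    rw [one_div, inv_mul_eq_div]; ring)
  refine ⟨Φ, h1, h4, fun c t => ?_⟩
  simp only [lin_smul]
  rw [lin_integral r P fun n => int_of_le_gs (B := 6 * ‖c n‖) hl (by fun_prop) fun s => by
    rw [norm_mul, norm_mul, norm_nit, mul_one, mul_right_comm]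
    exact mul_le_mul_of_nonneg_right (h4 s) (norm_nonneg _)]
  congr 1
  funext n
  rw [ph, h3, ← integral_mul_const]
  congr 1
  funext s
  rw [← nit_mul_ee]
  ring

end Pool.Agent.P.E2
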