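import Pool.Agent.P.MP_e94e4b_nt.E2.IfC

/-! Step RHO. -/

namespace Pool.Agent.P.E2

open Finset Real Filter Topology MeasureTheory
open Pool.Agent.P.MP_e86632_nt (ee nn ee_add norm_ee ee_neg ee_zero)
open Pool.Agent.P.MP_8be758_nt.Avg (gs Rough red ft en nsq vau_g gs_pos gs_le_one gs_neg gs_anti)
open Pool.Agent.P.MP_e94e4b_nt.PF (mN sgm)
open ArithmeticFunction (vonMangoldt moebius)
open DirichletCharacter (LFunction)

theorem p_RHO (hPNT : S_PNT) :
    S_RHO := by
  obtain ⟨u, hu⟩ := eventually_atTop.1 (hPNT 1 (1 / 2) le_rfl one_half_pos)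
  filter_upwards [eventually_ge_atTop u, eventually_ge_atTop 2] with r h1 h2 P p1 p2
  have r1 : r ≤ P := (le_self_pow₀ (by linarith) (by norm_num)).trans p1
  have P0 : 0 < P := by linarith
  have l0 : 0 < Real.log P := Real.log_pos (by linarith)
  have l1 : Real.log P ≤ r := (Real.log_le_iff_le_exp P0).2 p2
  have h := (abs_le.1 (hu P (h1.trans r1) (2 * P) 0 (by linarith) (by linarith) (by simp))).1
  simp only [Nat.modEq_one, and_true, Nat.totient_one, Nat.cast_one, one_mul] at h
  have hp : ∀ p ∈ PP P, P < p ∧ (p : ℝ) ≤ 2 * P := fun p hp => by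
    obtain ⟨a, b⟩ := mem_Ioc.1 (mem_filter.1 hp).1
    exact ⟨Nat.lt_of_floor_lt a, (Nat.le_floor_iff (by positivity)).1 b⟩
  constructor
  · have c1 : P / (2 * r) ≤ (PP P).card := by
      refine le_trans ?_ (sub_le_iff_le_add'.2 (neg_le_sub_iff_le_add'.1 h))
      rw [← sub_div, show 2 * P - P - 1 / 2 * P = P / 2 by ring, div_div]
      gcongr
    calc 1 / (4 * r) = P / (2 * r) * (1 / (2 * P)) := by field_simp; norm_num
      _ ≤ (PP P).card * (1 / (2 * P)) := by gcongr
      _ ≤ rho P := by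
        rw [← nsmul_eq_mul]
        exact card_nsmul_le_sum _ _ _ fun p h =>
          one_div_le_one_div_of_le (P0.trans (hp p h).1) (hp p h).2
  · have c1 : ((PP P).card : ℝ) ≤ 2 * P := by
      refine le_trans (Nat.cast_le.2 ((card_filter_le _ _).trans ?_)) (Nat.floor_le (by positivity))
      simp
    calc rho P ≤ (PP P).card * (1 / P) := by
          rw [← nsmul_eq_mul]
          exact sum_le_card_nsmul _ _ _ fun p h => one_div_le_one_div_of_le P0 (hp p h).1.le
      _ ≤ 2 * P * (1 / P) := by gcongr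
      _ = 2 := by field_simp

end Pool.Agent.P.E2
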