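import Pool.Agent.P.MP_e94e4b_nt.E2.IfD

/-! Step RNG. -/

namespace Pool.Agent.P.E2

open Finset Real Filter Topology MeasureTheory
open Pool.Agent.P.MP_e86632_nt (ee nn ee_add norm_ee ee_neg ee_zero)
open Pool.Agent.P.MP_8be758_nt.Avg (gs Rough red ft en nsq vau_g gs_pos gs_le_one gs_neg gs_anti)
open Pool.Agent.P.MP_e94e4b_nt.PF (mN sgm)
open ArithmeticFunction (vonMangoldt moebius)
open DirichletCharacter (LFunction)

namespace RNGa

theorem e4 : Real.exp 4 ≤ 55 := by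
  have h := Real.exp_one_lt_d9
  have h2 : Real.exp 4 = Real.exp 1 ^ 4 := by rw [← Real.exp_nat_mul]; norm_num
  rw [h2]
  exact (pow_le_pow_left₀ (Real.exp_pos 1).le h.le 4).trans (by norm_num)

theorem e5 : 110 ≤ Real.exp 5 := by
  have h := Real.exp_one_gt_d9
  have h2 : Real.exp 5 = Real.exp 1 ^ 5 := by rw [← Real.exp_nat_mul]; norm_num
  rw [h2]
  exact le_trans (by norm_num) (pow_le_pow_left₀ (by norm_num) h.le 5)

theorem l55 : 4 ≤ Real.log 55 := (Real.le_log_iff_exp_le (by norm_num)).2 e4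

end RNGa

theorem p_RNG :
    S_RNG := by
  filter_upwards [ev_lin 4 30 one_pos (show 2 ≤ 13 by norm_num), eventually_ge_atTop 0]
    with r hr hr0 P hP1 hP2
  rw [one_mul] at hr
  have hP0 : 0 < P := by linarith
  have hX0 : 0 < X2 r P := div_pos (XX_pos r) hP0
  have x2 : Real.log (X2 r P) = r ^ 13 - Real.log P := by
    rw [X2, Real.log_div (XX_pos r).ne' hP0.ne', log_XX]
  have x2l : Real.exp (r ^ 13 - r) ≤ X2 r P := by
    rw [Real.exp_sub, X2, XX]; gcongr
  have x2u : X2 r P ≤ Real.exp (r ^ 13) := div_le_self (XX_pos r).le hP1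
  have a1 : Real.exp (r ^ 13 - r - 5) ≤ A1 r P := by
    have h1 := Nat.lt_floor_add_one (X2 r P / 55)
    have h2 : Real.exp (r ^ 13 - r) = Real.exp (r ^ 13 - r - 5) * Real.exp 5 := by
      rw [← Real.exp_add]; congr 1; ring
    have h3 : 1 ≤ Real.exp (r ^ 13 - r - 5) := Real.one_le_exp (by linarith)
    have h4 := mul_le_mul_of_nonneg_left RNGa.e5 (Real.exp_pos (r ^ 13 - r - 5)).le
    unfold A1; linarith
  have a2 : (A2 r P : ℝ) ≤ 55 * X2 r P := Nat.floor_le (by positivity)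
  have a2u : (A2 r P : ℝ) ≤ Real.exp (r ^ 13 + 5) := by
    rw [Real.exp_add]
    nlinarith [mul_le_mul_of_nonneg_left RNGa.e5 (Real.exp_pos (r ^ 13)).le]
  have yl : Real.exp (3 / 10 * r ^ 13) ≤ Yv r := by
    have h1 := Nat.lt_floor_add_one (Real.exp (r ^ 13 / 3))
    have h2 : Real.exp (r ^ 13 / 3) = Real.exp (3 / 10 * r ^ 13) * Real.exp (r ^ 13 / 30) := by
      rw [← Real.exp_add]; congr 1; ring
    have h3 : 1 ≤ Real.exp (3 / 10 * r ^ 13) := Real.one_le_exp (by linarith)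
    have h4 : 2 ≤ Real.exp (r ^ 13 / 30) := by linarith [Real.add_one_le_exp (r ^ 13 / 30)]
    have h5 := mul_le_mul_of_nonneg_left h4 (Real.exp_pos (3 / 10 * r ^ 13)).le
    unfold Yv; linarith
  have yu : (Yv r : ℝ) ≤ Real.exp (r ^ 13 / 3) := Nat.floor_le (Real.exp_pos _).le
  have pp : ∀ p ∈ PP P, p.Prime ∧ P < p ∧ (p : ℝ) ≤ 2 * P := fun p hp => by
    rw [PP, mem_filter, mem_Ioc] at hp
    exact ⟨hp.2, (Nat.floor_lt hP0.le).1 hp.1.1, (Nat.le_floor_iff (by positivity)).1 hp.1.2⟩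
  have rn : ∀ n ∈ RN r P,
      Real.exp (r ^ 13 / 2) ≤ n ∧ 2 * P < n ∧ Real.log n ≤ 2 * r ^ 13 := fun n hn => by
    rw [RN, mem_Ioc] at hn
    have h1 : (A1 r P : ℝ) < n := by exact_mod_cast hn.1
    have h2 : (n : ℝ) ≤ A2 r P := by exact_mod_cast hn.2
    have h3 : Real.exp (r ^ 13 / 2) ≤ Real.exp (r ^ 13 - r - 5) := Real.exp_le_exp.2 (by linarith)
    have h4 : Real.exp (r + 1) ≤ Real.exp (r ^ 13 - r - 5) := Real.exp_le_exp.2 (by linarith)
    have h5 : 2 * Real.exp r ≤ Real.exp (r + 1) := by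
      rw [Real.exp_add]; nlinarith [Real.add_one_le_exp 1, Real.exp_pos r]
    have h6 : (0 : ℝ) < n := by linarith
    refine ⟨by linarith, by linarith, ?_⟩
    have h7 := (Real.log_le_iff_le_exp h6).2 (h2.trans a2u)
    linarith
  refine ⟨x2, x2l, x2u, a1, Nat.floor_mono (by linarith), a2, a2u, yl, yu, ?_, ?_, ?_, rn, ?_, pp,
    ?_, ?_, ?_⟩
  · have h3 : Real.exp (r ^ 13 / 3) ≤ Real.exp (r ^ 13 - r - 5) := Real.exp_le_exp.2 (by linarith)
    exact_mod_cast (yu.trans h3).trans a1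
  · have h1 : (1 : ℝ) ≤ Yv r := (Real.one_le_exp (by linarith)).trans yl
    have h2 : 2 * r ^ 13 ≤ Jv r := Nat.le_ceil _
    have h3 : Real.exp (r ^ 13 + 5) ≤ 2 ^ Jv r := by
      rw [← Real.exp_log (show (0 : ℝ) < 2 by norm_num), ← Real.exp_nat_mul]
      refine Real.exp_le_exp.2 ?_
      nlinarith [Real.log_two_gt_d9]
    have h4 : (A2 r P : ℝ) ≤ Yv r * 2 ^ Jv r :=
      (a2u.trans h3).trans (le_mul_of_one_le_left (by positivity) h1)
    exact_mod_cast h4
  · have h1 := Nat.ceil_lt_add_one (show 0 ≤ 2 * r ^ 13 by linarith)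
    unfold Jv; linarith
  · intro n h1 hn
    have h0 : (0 : ℝ) < n := by exact_mod_cast h1
    rw [RN, mem_Ioc, not_and_or, not_lt, not_le] at hn
    rw [← x2, le_abs]
    rcases hn with hn | hn
    · have h2 : (n : ℝ) ≤ X2 r P / 55 := (Nat.le_floor_iff (by positivity)).1 hn
      have h3 := Real.log_le_log h0 h2
      rw [Real.log_div hX0.ne' (by norm_num)] at h3
      right; linarith [RNGa.l55]
    · have h2 : 55 * X2 r P < n := (Nat.floor_lt (by positivity)).1 hn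
      have h3 := Real.log_le_log (by positivity) h2.le
      rw [Real.log_mul (by norm_num) hX0.ne'] at h3
      left; linarith [RNGa.l55]
  · have h1 : (PP P).card ≤ ⌊2 * P⌋₊ :=
      (card_filter_le _ _).trans (by rw [Nat.card_Ioc]; omega)
    exact (Nat.cast_le.2 h1).trans (Nat.floor_le (by positivity))
  · intro p hp n hn
    obtain ⟨h1, -, h2⟩ := pp p hp
    rw [RN, mem_Ioc] at hn
    have h3 : (n : ℝ) ≤ 55 * X2 r P := (Nat.cast_le.2 hn.2).trans a2
    rw [Mr, mem_Icc]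
    refine ⟨Nat.mul_pos h1.pos (by omega), Nat.le_floor ?_⟩
    have h4 : P * X2 r P = XX r := by rw [X2]; field_simp
    push_cast
    calc (p : ℝ) * n ≤ 2 * P * (55 * X2 r P) := by gcongr
      _ = 110 * XX r := by rw [← h4]; ring
  · rw [Mr, Nat.card_Icc, Nat.add_sub_cancel]
    exact Nat.floor_le (by have := XX_pos r; positivity)

end Pool.Agent.P.E2
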