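import Pool.Agent.P.MP_e94e4b_nt.E2.IfZ

/-! Step RS. -/

namespace Pool.Agent.P.E2

open Finset Real Filter Topology MeasureTheory
open Pool.Agent.P.MP_e86632_nt (ee nn ee_add norm_ee ee_neg ee_zero)
open Pool.Agent.P.MP_8be758_nt.Avg (gs Rough red ft en nsq vau_g gs_pos gs_le_one gs_neg gs_anti)
open Pool.Agent.P.MP_e94e4b_nt.PF (mN sgm)
open ArithmeticFunction (vonMangoldt moebius)
open DirichletCharacter (LFunction)

namespace RSa

open Pool.Agent.P.MP_8be758_nt.Avg (gs_sum_le gs_summable gs_range_le t_GS1 gs_zero)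

theorem half {a : ℝ} (ha : 0 < a) (f : ℕ → ℂ) (h : ∀ n, ‖f n‖ ≤ gs (a * (n + 1))) :
    Summable f ∧ ‖∑' n, f n‖ ≤ 2 / a := by
  have h1 : ∀ N, ∑ n ∈ range N, gs (a * (n + 1)) ≤ 2 / a := by
    intro N
    have := gs_range_le ha (N + 1)
    rw [sum_range_succ'] at this
    simp only [Nat.cast_zero, mul_zero, gs_zero, Nat.cast_add, Nat.cast_one] at this
    linarith
  have h2 : Summable fun n : ℕ => gs (a * (n + 1)) :=
    summable_of_sum_range_le (fun _ => (gs_pos _).le) h1
  exact ⟨h2.of_norm_bounded h, (tsum_of_norm_bounded h2.hasSum h).trans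
    (Real.tsum_le_of_sum_range_le (fun _ => (gs_pos _).le) h1)⟩

theorem full {a : ℝ} (ha : 0 < a) (u : ℝ) :
    |(∑' b : ℤ, gs (1 / a * (b - u))) / a - 1| ≤ 4 / a := by
  have h := (t_GS1 (1 / a) 0 u (by positivity)).2
  simp only [zero_mul, ee_zero, one_mul, sub_zero, zero_sub, div_div_eq_mul_div,
    div_one] at h
  set f : ℤ → ℂ := fun m => (gs (m * a) : ℂ) * ee (-m * u) with hf
  have hn : ∀ m : ℤ, ‖f m‖ = gs (m * a) := fun m => by
    rw [hf, norm_mul, norm_ee, mul_one, Complex.norm_real, Real.norm_of_nonneg (gs_pos _).le]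
  obtain ⟨a1, a2⟩ := half ha (fun n => f (n + 1)) fun n => by
    rw [hn, mul_comm]; push_cast; exact le_rfl
  obtain ⟨b1, b2⟩ := half ha (fun n => f (-(n + 1))) fun n => by
    rw [hn, ← gs_neg]; push_cast; exact le_of_eq (by congr 1; ring)
  have h0 : f 0 = 1 := by simp [hf, gs_zero]
  rw [tsum_of_add_one_of_neg_add_one a1 b1, h0, ← Complex.ofReal_tsum] at h
  have e : (((∑' b : ℤ, gs (1 / a * (b - u))) / a - 1 : ℝ) : ℂ) =
      ∑' n : ℕ, f (n + 1) + ∑' n : ℕ, f (-(n + 1)) := by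
    have h2 : (a : ℂ) ≠ 0 := Complex.ofReal_ne_zero.2 ha.ne'
    rw [Complex.ofReal_sub, Complex.ofReal_div, h]
    field_simp
    push_cast
    ring
  rw [← Real.norm_eq_abs, ← Complex.norm_real, e]
  refine (norm_add_le_of_le a2 b2).trans_eq (by ring)

theorem conv (a u : ℝ) (S : Finset ℕ) : ∑ m ∈ S, gk a (m - u) =
    (∑ b ∈ S.image (Nat.cast : ℕ → ℤ), gs (1 / a * (b - u))) / a := by
  rw [sum_image fun x _ y _ h => by exact_mod_cast h, sum_div]
  refine sum_congr rfl fun m _ => ?_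
  rw [gk, Int.cast_natCast, one_div_mul_eq_div]

end RSa

theorem p_RS :
    S_RS := by
  intro a u S h1
  have ha : 0 < a := by linarith
  have hr : 0 < 1 / a := by positivity
  rw [RSa.conv]
  refine ⟨?_, fun W hW hu hS => ?_⟩
  · have := MP_8be758_nt.Avg.gs_sum_le hr u (S.image (Nat.cast : ℕ → ℤ))
    rw [div_div_eq_mul_div, div_one] at this
    rw [div_le_iff₀ ha]
    linarith
  set S' := S.image (Nat.cast : ℕ → ℤ) with hS'
  have hs := MP_8be758_nt.Avg.gs_summable hr u
  have a1 := hs.sum_le_tsum S' fun _ _ => (gs_pos _).le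
  have a2 : ∑' b : ℤ, gs (1 / a * (b - u)) ≤
      ∑ b ∈ S', gs (1 / a * (b - u)) + Real.exp (-W ^ 2) * (12 * a) := by
    refine hs.tsum_le_of_sum_le fun s => ?_
    rw [← sum_inter_add_sum_sdiff s S']
    refine add_le_add (sum_le_sum_of_subset_of_nonneg inter_subset_right
      fun _ _ _ => (gs_pos _).le) ?_
    have b1 : ∀ b ∈ s \ S', gs (1 / a * (b - u)) ≤
        Real.exp (-W ^ 2) * gs (1 / (2 * a) * (b - u)) := by
      intro b hb
      rw [show 1 / (2 * a) * (b - u) = 1 / a * (b - u) / 2 by field_simp]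
      refine gs_split hW ?_
      rw [one_div_mul_eq_div, abs_div, abs_of_pos ha, le_div_iff₀ ha]
      rcases lt_or_ge b 0 with h0 | h0
      · have : (b : ℝ) < 0 := by exact_mod_cast h0
        linarith [neg_le_abs ((b : ℝ) - u)]
      · obtain ⟨m, rfl⟩ := Int.eq_ofNat_of_zero_le h0
        by_contra hc
        exact (mem_sdiff.1 hb).2 (mem_image_of_mem _ (hS m (by simpa using (not_le.1 hc).le)))
    refine (sum_le_sum b1).trans ?_
    rw [← mul_sum]
    refine mul_le_mul_of_nonneg_left ?_ (Real.exp_pos _).le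
    have := MP_8be758_nt.Avg.gs_sum_le (r := 1 / (2 * a)) (by positivity) u (s \ S')
    rw [div_div_eq_mul_div, div_one] at this
    linarith
  have a3 := abs_le.1 (RSa.full ha u)
  have a4 := div_le_div_of_nonneg_right a1 ha.le
  have a5 := div_le_div_of_nonneg_right a2 ha.le
  rw [add_div, show Real.exp (-W ^ 2) * (12 * a) / a = 12 * Real.exp (-W ^ 2) by field_simp] at a5
  have a6 := Real.exp_pos (-W ^ 2)
  rw [abs_le]
  constructor <;> linarith [a3.1, a3.2]

end Pool.Agent.P.E2
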