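import Pool.Agent.P.MP_e94e4b_nt.E2.IfC

/-! Step SB. -/

namespace Pool.Agent.P.E2

open Finset Real Filter Topology MeasureTheory
open Pool.Agent.P.MP_e86632_nt (ee nn ee_add norm_ee ee_neg ee_zero)
open Pool.Agent.P.MP_8be758_nt.Avg (gs Rough red ft en nsq vau_g gs_pos gs_le_one gs_neg gs_anti)
open Pool.Agent.P.MP_e94e4b_nt.PF (mN sgm)
open ArithmeticFunction (vonMangoldt moebius)
open DirichletCharacter (LFunction)

open Pool.Agent.P.MP_8be758_nt.Avg (t_LS t_FAR t_GT sift_cs sift_sep nsq_nonneg en_nonneg rough_mul)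

namespace SBa

/-- the large sieve on a shifted interval -/
theorem ls : ∃ C : ℝ, 0 < C ∧
    ∀ (ι : Type) (R : Finset ι) (θ : ι → ℝ) (δ H : ℝ) (x : ℕ) (I : Finset ℕ) (γ : ℕ → ℂ),
      0 < δ → δ ≤ 1 → 0 ≤ H → (∀ a ∈ I, x ≤ a ∧ (a : ℝ) ≤ x + H) →
      (∀ r ∈ R, ∀ s ∈ R, r ≠ s → ∀ k : ℤ, δ ≤ |θ r - θ s - k|) →
      ∑ r ∈ R, ‖ft I γ (θ r)‖ ^ 2 ≤ C * (H + 1 / δ) * nsq I γ := by
  obtain ⟨C, hC, h⟩ := t_LS
  refine ⟨C, hC, fun ι R θ δ H x I γ h0 h1 hH hI hs => ?_⟩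
  have inj : Set.InjOn (fun a => a - x) I := fun a ha b hb e => by
    have := (hI a ha).1
    have := (hI b hb).1
    simp only at e
    omega
  have e1 : nsq (I.image (· - x)) (fun a => γ (a + x)) = nsq I γ := by
    rw [nsq, sum_image inj]
    exact sum_congr rfl fun a ha => by rw [Nat.sub_add_cancel (hI a ha).1]
  have e2 : ∀ t, ‖ft (I.image (· - x)) (fun a => γ (a + x)) t‖ = ‖ft I γ t‖ := fun t => by
    rw [← mul_one ‖ft _ _ t‖, ← norm_ee (x * t), ← norm_mul, ft, sum_image inj, sum_mul]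
    refine congrArg _ (sum_congr rfl fun a ha => ?_)
    rw [Nat.sub_add_cancel (hI a ha).1, mul_assoc, ← ee_add, Nat.cast_sub (hI a ha).1, ← add_mul,
      sub_add_cancel]
  have := h ι R θ δ H (I.image (· - x)) (fun a => γ (a + x)) h0 h1 hH (fun b hb => by
    obtain ⟨a, ha, rfl⟩ := mem_image.1 hb
    rw [Nat.cast_sub (hI a ha).1]
    linarith [(hI a ha).2]) hs
  simpa only [e1, e2] using this

end SBa

theorem p_SB :
    S_SB := by
  obtain ⟨C, hC, hLS⟩ := SBa.ls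
  obtain ⟨c, hc, hGT⟩ := t_GT
  refine ⟨2 * C / c, by positivity, fun z H T x Q I S γ hz hT hH hI hγ hS => ?_⟩
  have lz : 0 < Real.log z := Real.log_pos (by linarith)
  have lT : 0 < Real.log T := Real.log_pos (by linarith)
  have hH0 : 0 ≤ H := le_trans (by positivity) hH
  have hn := nsq_nonneg I γ
  rcases S.eq_empty_or_nonempty with rfl | ⟨q0, hq0⟩
  · rw [sum_empty]; positivity
  have hQ : (1 : ℝ) ≤ Q := by
    have := hS q0 hq0
    exact_mod_cast (by omega : 1 ≤ Q)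
  have hQz : 1 ≤ (Q : ℝ) ^ 2 * z ^ 2 := one_le_mul_of_one_le_of_one_le (one_le_pow₀ hQ)
    (one_le_pow₀ (by linarith))
  set P := (Icc 1 ⌊z⌋₊).filter (fun q => Squarefree q ∧ Rough T q) with hP
  have hPm : ∀ p ∈ P, 0 < p ∧ (p : ℝ) ≤ z ∧ Squarefree p ∧ Rough T p := fun p hp => by
    obtain ⟨h1, h2⟩ := mem_filter.1 hp
    obtain ⟨h3, h4⟩ := mem_Icc.1 h1
    exact ⟨h3, (Nat.le_floor_iff (by linarith)).1 h4, h2⟩
  have h1 := hLS ((Σ _ : ℕ, ℕ) × (Σ _ : ℕ, ℕ)) (S.sigma red ×ˢ P.sigma red)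
    (fun y => (y.1.2 : ℝ) / y.1.1 + (y.2.2 : ℝ) / y.2.1) (1 / ((Q : ℝ) ^ 2 * z ^ 2)) H x I γ
    (by positivity) (by rw [div_le_one (by positivity)]; exact hQz) hH0 hI (by
      rintro ⟨⟨q1, r1⟩, ⟨p1, s1⟩⟩ hx ⟨⟨q2, r2⟩, ⟨p2, s2⟩⟩ hy hne k
      simp only [mem_product, mem_sigma] at hx hy
      obtain ⟨⟨x1, x2⟩, x3, x4⟩ := hx
      obtain ⟨⟨y1, y2⟩, y3, y4⟩ := hy
      obtain ⟨a1, a2, a3⟩ := hS q1 x1
      obtain ⟨b1, b2, b3⟩ := hS q2 y1
      obtain ⟨c1, c2, -, c3⟩ := hPm p1 x3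
      obtain ⟨d1, d2, -, d3⟩ := hPm p2 y3
      refine le_trans ?_ (sift_sep x2 y2 x4 y4 ?_ ?_ k)
      · have a2' : (q1 : ℝ) ≤ Q := by exact_mod_cast a2
        have b2' : (q2 : ℝ) ≤ Q := by exact_mod_cast b2
        refine one_div_le_one_div_of_le (by positivity) ?_
        rw [pow_two, pow_two]
        gcongr
      · exact Nat.Coprime.mul_left ((rough_mul.2 ⟨c3, d3⟩).coprime_of_le a1 a3).symm
          ((rough_mul.2 ⟨c3, d3⟩).coprime_of_le b1 b3).symm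
      · rintro ⟨rfl, rfl, rfl, rfl⟩
        exact hne rfl)
  rw [one_div_one_div, sum_product, sum_sigma] at h1
  have h2 : (∑ p ∈ P, 1 / (p : ℝ)) * ∑ q ∈ S, en I γ q ≤ C * (H + (Q : ℝ) ^ 2 * z ^ 2) * nsq I γ := by
    refine le_trans ?_ h1
    rw [mul_sum]
    refine sum_le_sum fun q _ => ?_
    rw [en, mul_sum]
    refine sum_le_sum fun r _ => ?_
    rw [sum_sigma, sum_mul]
    refine sum_le_sum fun p hp => ?_
    obtain ⟨c1, c2, c3, -⟩ := hPm p hp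
    exact sift_cs t_FAR hγ c1 c2 c3 _
  have h3 := hGT T z hT (by linarith)
  have h4 : 0 ≤ ∑ q ∈ S, en I γ q := sum_nonneg fun q _ => en_nonneg I γ q
  have h5 : c * Real.log z / Real.log T * ∑ q ∈ S, en I γ q ≤ C * (H + H) * nsq I γ :=
    ((mul_le_mul_of_nonneg_right h3 h4).trans h2).trans (by gcongr)
  rw [← le_div_iff₀' (by positivity)] at h5
  refine h5.trans (le_of_eq ?_)
  field_simp
  ring

end Pool.Agent.P.E2
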