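import Pool.Agent.P.MP_e94e4b_nt.E2.IfC

/-! Step SG. -/

namespace Pool.Agent.P.E2

open Finset Real Filter Topology MeasureTheory
open Pool.Agent.P.MP_e86632_nt (ee nn ee_add norm_ee ee_neg ee_zero)
open Pool.Agent.P.MP_8be758_nt.Avg (gs Rough red ft en nsq vau_g gs_pos gs_le_one gs_neg gs_anti)
open Pool.Agent.P.MP_e94e4b_nt.PF (mN sgm)
open ArithmeticFunction (vonMangoldt moebius)
open DirichletCharacter (LFunction)

namespace SGa

lemma exp_sub {s u : ℝ} (h : |s| ≤ u) : |Real.exp s - 1| ≤ u * Real.exp u := by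
  obtain ⟨h1, h2⟩ := abs_le.1 h
  have hu : 0 ≤ u := (abs_nonneg s).trans h
  have a1 := Real.add_one_le_exp s
  have a2 := Real.add_one_le_exp (-u)
  have a3 : Real.exp (-u) * Real.exp u = 1 := by rw [← Real.exp_add]; simp
  have a4 := Real.exp_le_exp.2 h2
  have a5 := Real.one_le_exp hu
  rw [abs_le]
  constructor <;> nlinarith

lemma decay (k : ℕ) : ((k : ℝ) + 1) * Real.exp (k + 1) * gs k ≤ 3 * (1 / 2) ^ k := by
  have h1 : (2 : ℝ) ^ k ≤ Real.exp k := by
    rw [← mul_one (k : ℝ), Real.exp_nat_mul]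
    exact pow_le_pow_left₀ zero_le_two (by linarith [Real.add_one_le_exp 1]) k
  have h2 : (k : ℝ) ≤ k ^ 2 := by exact_mod_cast Nat.le_self_pow two_ne_zero k
  have h3 : Real.exp k * Real.exp (k + 1) * gs k * Real.exp k ≤ Real.exp 1 := by
    rw [gs, ← Real.exp_add, ← Real.exp_add, ← Real.exp_add]
    exact Real.exp_le_exp.2 (by nlinarith [Real.pi_gt_three])
  rw [one_div_pow, mul_one_div, le_div_iff₀ (by positivity)]
  have := gs_pos (k : ℝ)
  calc _ ≤ Real.exp k * Real.exp (k + 1) * gs k * Real.exp k := by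
        gcongr; exact Real.add_one_le_exp _
    _ ≤ 3 := h3.trans (Real.exp_one_lt_d9.le.trans (by norm_num))

end SGa

open SGa in
theorem p_SG (hPIECE : S_PIECE) (hMK : S_MK) :
    S_SG := by
  intro ε hε
  obtain ⟨R0, h⟩ := hPIECE (ε / 576) (by positivity)
  refine ⟨R0, fun R hR => ?_⟩
  filter_upwards [h R hR, ev_lin 7 0 (show (0 : ℝ) < 1 / 6 by norm_num) (show 2 ≤ 13 by norm_num),
    eventually_ge_atTop 1] with r hr h7 h1 K v S b hK hv hS
  have hl : (1 : ℝ) ≤ r ^ 13 := one_le_pow₀ h1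
  have T0 := Th_pos r
  have T1 : Th r ≤ 1 := Real.exp_le_one_iff.2 (by linarith)
  have z0 := Real.exp_pos v
  set κ : ℕ → ℕ := fun n => ⌊|Real.log n - v| / Th r⌋₊ with hκ
  set γ : ℕ → ℂ := fun n => (b n * gk (Th r) (Real.log n - v) : ℝ) with hγ
  set s := √(ε / 576) with hs
  have s0 : 0 ≤ s := sqrt_nonneg _
  have s2 : s ^ 2 = ε / 576 := sq_sqrt (by positivity)
  have e1 : (fun q a : ℕ => ft S γ ((a : ℝ) / q)) = fun q a : ℕ => ∑ k ∈ range (S.sup κ + 1),
      ft (S.filter fun n => κ n = k) γ ((a : ℝ) / q) := by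
    funext q a
    exact (sum_fiberwise_of_maps_to (fun n hn => mem_range.2 (Nat.lt_succ_of_le (le_sup hn))) _).symm
  rw [e1]
  refine (hMK R K _ _ (fun k => s * (12 * Real.exp v) * (1 / 2) ^ k) fun k _ =>
    ⟨by positivity, ?_⟩).trans ?_
  · have k0 : (0 : ℝ) ≤ k := k.cast_nonneg
    have g0 := gs_pos (k : ℝ)
    have x1 : 1 ≤ Real.exp (k + 1) := Real.one_le_exp (by positivity)
    set W : ℝ := Real.exp v * ((k + 1) * Th r * Real.exp (k + 1)) with hW
    refine (hr K (Real.exp v - W) (2 * W) (2 * r ^ 13 * (gs k / Th r)) _ γ hK ?_ (by positivity)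
      fun n hn => ?_).trans ?_
    · have a1 : Real.exp (r ^ 13 / 3) ≤ Real.exp v * Th r := by
        rw [Th, ← Real.exp_add]; exact Real.exp_le_exp.2 (by linarith)
      have a2 : 1 * Th r * 1 ≤ (k + 1) * Th r * Real.exp (k + 1) := by gcongr; linarith
      nlinarith [mul_le_mul_of_nonneg_left a2 z0.le, mul_pos z0 T0]
    · obtain ⟨hn, hk⟩ := mem_filter.1 hn
      obtain ⟨b1, -, b3, b4⟩ := hS n hn
      have n0 : (0 : ℝ) < n := (Real.exp_pos _).trans_le b1
      have c1 : |Real.log n - v| / Th r < k + 1 := hk ▸ Nat.lt_floor_add_one _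
      have c2 : (k : ℝ) ≤ |Real.log n - v| / Th r := hk ▸ Nat.floor_le (by positivity)
      rw [div_lt_iff₀ T0] at c1
      have c3 : |(n : ℝ) - Real.exp v| ≤ W := by
        have c4 : (n : ℝ) - Real.exp v = Real.exp v * (Real.exp (Real.log n - v) - 1) := by
          rw [mul_sub, ← Real.exp_add, add_sub_cancel, Real.exp_log n0, mul_one]
        rw [c4, abs_mul, abs_of_pos z0, hW]
        refine mul_le_mul_of_nonneg_left ((exp_sub c1.le).trans ?_) z0.le
        gcongr
        nlinarith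
      obtain ⟨c5, c6⟩ := abs_le.1 c3
      refine ⟨by linarith, by linarith, (Real.exp_lt_exp.2 (by linarith)).trans_le b1, ?_,
        fun e => b4 fun e' => e (by simp [hγ, e'])⟩
      rw [hγ, Complex.norm_real, Real.norm_eq_abs, abs_mul, abs_of_nonneg (gk_nonneg T0 _)]
      refine mul_le_mul b3 (div_le_div_of_nonneg_right (gs_anti ?_) T0.le) (gk_nonneg T0 _)
        (by positivity)
      rwa [abs_div, abs_of_pos T0, abs_of_nonneg k0]
    · have d1 : 2 * r ^ 13 * (gs k / Th r) * (2 * W) / r ^ 13 =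
          4 * Real.exp v * ((k + 1) * Real.exp (k + 1) * gs k) := by rw [hW]; field_simp; norm_num
      rw [d1, ← s2, ← mul_pow]
      refine pow_le_pow_left₀ (by positivity) ?_ 2
      nlinarith [mul_le_mul_of_nonneg_left (decay k) (mul_nonneg s0 z0.le)]
  · rw [← mul_sum]
    have d2 := sum_geometric_two_le (S.sup κ + 1)
    calc _ ≤ (s * (12 * Real.exp v) * 2) ^ 2 := by gcongr
      _ = _ := by rw [mul_pow, mul_pow, s2]; ring

end Pool.Agent.P.E2
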