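import Pool.Agent.P.MP_e94e4b_nt.E2.IfC

/-! Step SI2. -/

namespace Pool.Agent.P.E2

open Finset Real Filter Topology MeasureTheory
open Pool.Agent.P.MP_e86632_nt (ee nn ee_add norm_ee ee_neg ee_zero)
open Pool.Agent.P.MP_8be758_nt.Avg (gs Rough red ft en nsq vau_g gs_pos gs_le_one gs_neg gs_anti)
open Pool.Agent.P.MP_e94e4b_nt.PF (mN sgm)
open ArithmeticFunction (vonMangoldt moebius)
open DirichletCharacter (LFunction)

namespace SI2a

theorem rt4 {x : ℝ} (hx : 0 ≤ x) : √(√x) ^ 4 = x := by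
  rw [show 4 = 2 * 2 from rfl, pow_mul, Real.sq_sqrt (Real.sqrt_nonneg _), Real.sq_sqrt hx]

theorem dy (f : ℕ → ℝ) (K : ℝ) (Q : ℕ) (hK : 0 ≤ K) (hf : ∀ q, 0 ≤ f q)
    (h : ∀ (T : ℝ) (S : Finset ℕ), 2 ≤ T → (∀ q ∈ S, 0 < q ∧ q ≤ Q ∧ (q : ℝ) ≤ T) →
      ∑ q ∈ S, f q ≤ K * Real.log T) (n : ℕ) : ∀ R : ℕ, 1 ≤ R → Q ≤ R * 2 ^ n →
    ∑ q ∈ Ioc R Q, 1 / √(q : ℝ) * f q ≤ 56 * K / √(√(R : ℝ)) := by
  induction n with
  | zero =>
    intro R _ h2
    rw [Ioc_eq_empty (by omega), sum_empty]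
    positivity
  | succ n ih =>
    intro R h1 h2
    have R1 : (1 : ℝ) ≤ R := by exact_mod_cast h1
    have a1 := ih (2 * R) (by omega) (by rw [pow_succ] at h2; nlinarith)
    push_cast at a1
    have g1 := rt4 (show (0 : ℝ) ≤ R by linarith)
    have g2 := rt4 (show (0 : ℝ) ≤ 2 * R by linarith)
    have g3 : √(√(R : ℝ)) ^ 2 = √(R : ℝ) := Real.sq_sqrt (Real.sqrt_nonneg _)
    have s0 : 0 < √(√(R : ℝ)) := by positivity
    have t0 : 0 < √(√(2 * (R : ℝ))) := by positivity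
    generalize √(√(R : ℝ)) = s at *
    generalize √(√(2 * (R : ℝ))) = t at *
    have b1 : 7 / 6 * s ≤ t := le_of_pow_le_pow_left₀ (n := 4) (by norm_num) t0.le (by
      rw [mul_pow, g1, g2]; nlinarith)
    have b2 : t ≤ 2 * s := le_of_pow_le_pow_left₀ (n := 4) (by norm_num) (by positivity) (by
      rw [mul_pow, g1, g2]; nlinarith)
    have b3 : Real.log (2 * R) ≤ 8 * s := by
      rw [← g2, Real.log_pow]
      have := Real.log_le_self t0.le
      push_cast
      linarith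
    have a2 := h (2 * R) ((Ioc R Q).filter (· ≤ 2 * R)) (by linarith) fun q hq => by
      obtain ⟨c1, c2⟩ := mem_filter.1 hq
      obtain ⟨c3, c4⟩ := mem_Ioc.1 c1
      exact ⟨by omega, c4, by exact_mod_cast c2⟩
    have a3 : ∑ q ∈ (Ioc R Q).filter (· ≤ 2 * R), 1 / √(q : ℝ) * f q ≤ 8 * K / s := by
      calc _ ≤ ∑ q ∈ (Ioc R Q).filter (· ≤ 2 * R), 1 / s ^ 2 * f q := by
            refine sum_le_sum fun q hq => mul_le_mul_of_nonneg_right ?_ (hf q)
            rw [g3]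
            refine one_div_le_one_div_of_le (by positivity) (Real.sqrt_le_sqrt ?_)
            exact_mod_cast (mem_Ioc.1 (mem_filter.1 hq).1).1.le
        _ ≤ 1 / s ^ 2 * (K * (8 * s)) := by
            rw [← mul_sum]
            exact mul_le_mul_of_nonneg_left (a2.trans (mul_le_mul_of_nonneg_left b3 hK))
              (by positivity)
        _ = _ := by field_simp
    have e : (Ioc R Q).filter (fun q => ¬ q ≤ 2 * R) = Ioc (2 * R) Q := by
      ext q; simp only [mem_filter, mem_Ioc]; omega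
    rw [← sum_filter_add_sum_filter_not (Ioc R Q) (· ≤ 2 * R), e]
    refine (add_le_add a3 (a1.trans (div_le_div_of_nonneg_left (by positivity)
      (by positivity) b1))).trans (le_of_eq ?_)
    field_simp
    ring

end SI2a

open SI2a in
theorem p_SI2 (hSB : S_SB) :
    S_SI2 := by
  intro ε hε
  obtain ⟨C, hC, h⟩ := hSB
  refine ⟨⌈(56 * C / ε) ^ 4⌉₊ + 1, fun R hR z H x Q I γ hz hH hI hγ => ?_⟩
  have lz : 0 < Real.log z := Real.log_pos (by linarith)
  have H0 : 0 ≤ H := le_trans (by positivity) hH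
  have n0 := Pool.Agent.P.MP_8be758_nt.Avg.nsq_nonneg I γ
  have R0 : (0 : ℝ) < R := by exact_mod_cast (by omega : 0 < R)
  have a1 := dy (en I γ) (C * H / Real.log z * nsq I γ) Q (by positivity)
    (Pool.Agent.P.MP_8be758_nt.Avg.en_nonneg I γ)
    (fun T S hT hS => h z H T x Q I S γ hz hT hH hI hγ hS) Q R (by omega)
    (Nat.lt_two_pow_self.le.trans (Nat.le_mul_of_pos_left _ (by omega)))
  have a2 : 56 * C / ε ≤ √(√(R : ℝ)) :=
    le_of_pow_le_pow_left₀ (n := 4) (by norm_num) (by positivity) (by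
      rw [rt4 R0.le]
      exact (Nat.le_ceil _).trans (by exact_mod_cast (by omega : _ ≤ R)))
  refine a1.trans ((div_le_div_of_nonneg_left (by positivity) (by positivity) a2).trans
    (le_of_eq ?_))
  field_simp

end Pool.Agent.P.E2
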