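import Pool.Agent.P.MP_e94e4b_nt.E2.IfC

/-! Step SQ1. -/

namespace Pool.Agent.P.E2

open Finset Real Filter Topology MeasureTheory
open Pool.Agent.P.MP_e86632_nt (ee nn ee_add norm_ee ee_neg ee_zero)
open Pool.Agent.P.MP_8be758_nt.Avg (gs Rough red ft en nsq vau_g gs_pos gs_le_one gs_neg gs_anti)
open Pool.Agent.P.MP_e94e4b_nt.PF (mN sgm)
open ArithmeticFunction (vonMangoldt moebius)
open DirichletCharacter (LFunction)

namespace SQ1a

open Pool.Agent.P.MP_e94e4b_nt.PF (rh rts mem_rts)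
open Pool.Agent.P.MP_8be758_nt.Avg (t_FAR)

theorem per (g : ℕ → ℂ) (d : ℕ) (h : ∀ k n, g (d * k + n) = g n) (k : ℕ) :
    ∑ n ∈ range (d * k), g n = k * ∑ n ∈ range d, g n := by
  induction k with
  | zero => simp
  | succ k ih =>
    rw [Nat.mul_succ, sum_range_add, ih]
    simp only [h]
    push_cast
    ring

theorem gam_eq {d k : ℕ} (hd : 0 < d) (hk : 0 < k) (a : ℕ) :
    (∑ ν ∈ range (d * k), ee (mN ν * ((a : ℝ) / d))) / ((d * k : ℕ) : ℂ) = gam d a := by
  have h1 : (d : ℝ) ≠ 0 := by exact_mod_cast hd.ne'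
  have h3 : (k : ℂ) ≠ 0 := by exact_mod_cast hk.ne'
  rw [per (fun ν => ee (mN ν * ((a : ℝ) / d))) d, gam]
  · rw [Nat.cast_mul, mul_comm (d : ℂ), mul_div_mul_left _ _ h3]
  · intro j n
    rw [← MP_e86632_nt.ee_add_int (mN n * ((a : ℝ) / d)) (2 * j * (d * j + 2 * n + 1) * a)]
    congr 1
    simp only [mN]
    push_cast
    field_simp
    ring

/-- the complete sum over the reduced fractions -/
noncomputable def ss (q : ℕ) : ℂ := ∑ a ∈ red q, gam q a

theorem sum_ss (q : ℕ) (hq : 0 < q) : ∑ d ∈ q.divisors, ss d = rh q 0 := by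
  have h0 : (q : ℂ) ≠ 0 := by exact_mod_cast hq.ne'
  have h1 := t_FAR.1 (fun x => (∑ ν ∈ range q, ee (mN ν * x)) / q) q hq
  have h2 : ∑ d ∈ q.divisors, ss d =
      ∑ d ∈ q.divisors, ∑ r ∈ red d, (∑ ν ∈ range q, ee (mN ν * ((r : ℝ) / d))) / q := by
    refine sum_congr rfl fun d hd => sum_congr rfl fun a _ => ?_
    obtain ⟨k, rfl⟩ := Nat.dvd_of_mem_divisors hd
    exact (gam_eq (Nat.pos_of_mul_pos_right hq) (Nat.pos_of_mul_pos_left hq) a).symm
  have h3 : rts q 0 = (range q).filter fun ν => (q : ℤ) ∣ (mN ν : ℤ) := by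
    ext ν
    rw [mem_rts, mem_filter, mem_range, Nat.modEq_zero_iff_dvd, Int.natCast_dvd_natCast]
  rw [h2, ← h1, ← sum_div, sum_comm, div_eq_iff h0, rh, h3, card_filter]
  push_cast
  rw [sum_mul]
  refine sum_congr rfl fun ν _ => ?_
  have h4 := t_FAR.2.1 q (mN ν) hq
  simp only [Int.cast_natCast, mul_comm _ (mN ν : ℝ)] at h4
  rw [h4]
  split_ifs <;> simp

theorem rh_one : rh 1 0 = 1 := by
  rw [rh, show rts 1 0 = range 1 from filter_true_of_mem fun _ _ => by simp, card_range]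

theorem rh_two : rh 2 0 = 2 := by
  rw [rh, show rts 2 0 = range 2 from filter_true_of_mem fun _ _ => by simp, card_range]

theorem ss_one : ss 1 = 1 := by simpa [rh_one] using sum_ss 1 one_pos

theorem ss_prime {p : ℕ} (hp : p.Prime) : ss p = rh p 0 - 1 := by
  rw [← sum_ss p hp.pos, hp.sum_divisors, ss_one, add_sub_cancel_right]

theorem norm_ss (hRT : S_RT) {q : ℕ} (hq : Squarefree q) : ‖ss q‖ ≤ 1 := by
  let G : ArithmeticFunction ℂ := ⟨fun n => rh n 0, by simp [rh, rts]⟩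
  have hG : G.IsMultiplicative := ⟨by simp [G, rh_one], fun h => by simp [G, hRT.1 _ _ 0 h]⟩
  have h1 : ∀ n > 0, ((moebius : ArithmeticFunction ℂ) * G) n = ss n := fun n hn => by
    rw [← (ArithmeticFunction.sum_eq_iff_sum_mul_moebius_eq (f := ss)
      (g := fun n => (rh n 0 : ℂ))).1 sum_ss n hn, ArithmeticFunction.mul_apply]
    rfl
  rw [← h1 q (Nat.pos_of_ne_zero hq.ne_zero),
    ← (ArithmeticFunction.isMultiplicative_moebius.intCast.mul hG).prod_primeFactors hq, norm_prod]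
  refine prod_le_one (fun _ _ => norm_nonneg _) fun p hp => ?_
  have hp' := Nat.prime_of_mem_primeFactors hp
  have h2 := hRT.2.2.1 p 0 hp'.squarefree
  rw [hp'.divisors, card_pair hp'.one_lt.ne] at h2
  rw [h1 p hp'.pos, ss_prime hp']
  generalize rh p 0 = m at h2
  interval_cases m <;> norm_num

end SQ1a

open SQ1a in
theorem p_SQ1 (hRT : S_RT) :
    S_SQ1 := by
  have h0 : ∀ q, sq q = mf q ^ 2 * (ss q).re := fun _ => rfl
  refine ⟨fun q _ => ?_, ?_, ?_⟩
  · by_cases hq : Squarefree q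
    · rw [h0, abs_mul, abs_of_nonneg (sq_nonneg _)]
      exact mul_le_of_le_one_right (sq_nonneg _)
        ((Complex.abs_re_le_norm _).trans (norm_ss hRT hq))
    · simp [h0, mf, ArithmeticFunction.moebius_eq_zero_of_not_squarefree hq]
  · simp [h0, mf, ss_one]
  · rw [h0, ss_prime Nat.prime_two, rh_two, mf, ArithmeticFunction.moebius_apply_prime Nat.prime_two]
    norm_num

end Pool.Agent.P.E2
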