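import Pool.Agent.P.MP_e94e4b_nt.E2.IfC

/-! Step SQ2. -/

namespace Pool.Agent.P.E2

open Finset Real Filter Topology MeasureTheory
open Pool.Agent.P.MP_e86632_nt (ee nn ee_add norm_ee ee_neg ee_zero)
open Pool.Agent.P.MP_8be758_nt.Avg (gs Rough red ft en nsq vau_g gs_pos gs_le_one gs_neg gs_anti)
open Pool.Agent.P.MP_e94e4b_nt.PF (mN sgm)
open ArithmeticFunction (vonMangoldt moebius)
open DirichletCharacter (LFunction)

namespace SQ2a

theorem pr (M : ℕ) : ∏ p ∈ range (M + 5) with p.Prime, ((1 : ℝ) + 1 / ((p : ℝ) - 1) ^ 2) ≤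
    10 / 3 * (((M : ℝ) + 3) / (M + 4)) := by
  induction M with
  | zero => rw [show {p ∈ range (0 + 5) | p.Prime} = {2, 3} by decide]; norm_num
  | succ M ih =>
    have h0 : (0 : ℝ) ≤ M := Nat.cast_nonneg M
    rw [prod_filter] at ih ⊢
    rw [add_right_comm, prod_range_succ]
    refine (mul_le_mul ih (show _ ≤ 1 + 1 / ((M : ℝ) + 4) ^ 2 from ?_) ?_ (by positivity)).trans ?_
    · split_ifs
      · push_cast
        rw [show (M : ℝ) + 5 - 1 = M + 4 by ring]
      · exact le_add_of_nonneg_right (by positivity)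
    · split_ifs <;> positivity
    · push_cast
      field_simp
      nlinarith

theorem mf_sq {q : ℕ} (h : Squarefree q) :
    mf q ^ 2 = ∏ p ∈ q.primeFactors, 1 / ((p : ℝ) - 1) ^ 2 := by
  have h1 := Nat.totient_mul_prod_primeFactors q
  rw [Nat.prod_primeFactors_of_squarefree h, mul_comm] at h1
  have h2 : (moebius q : ℝ) ^ 2 = 1 := by
    exact_mod_cast ArithmeticFunction.moebius_sq_eq_one_of_squarefree h
  rw [mf, div_pow, h2, Nat.eq_of_mul_eq_mul_left (Nat.pos_of_ne_zero h.ne_zero) h1,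
    prod_div_distrib, prod_const_one, prod_pow, Nat.cast_prod]
  congr 2
  exact prod_congr rfl fun p hp => Nat.cast_pred (Nat.prime_of_mem_primeFactors hp).pos

theorem sm (R : ℕ) : ∑ q ∈ Icc 1 R, mf q ^ 2 ≤ 10 / 3 := by
  have h0 : (0 : ℝ) ≤ R := Nat.cast_nonneg R
  refine le_trans ?_ ((pr R).trans (mul_le_of_le_one_right (by norm_num)
    ((div_le_one (by positivity)).2 (by linarith))))
  rw [prod_one_add, ← sum_filter_of_ne (p := Squarefree) fun q _ h => by_contra fun e => h (by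
      simp [mf, ArithmeticFunction.moebius_eq_zero_of_not_squarefree e]),
    sum_congr rfl fun q hq => mf_sq (mem_filter.1 hq).2,
    ← sum_image (f := fun t : Finset ℕ => ∏ p ∈ t, 1 / ((p : ℝ) - 1) ^ 2) fun q hq q' hq' e => by
      rw [← Nat.prod_primeFactors_of_squarefree (mem_filter.1 hq).2, e,
        Nat.prod_primeFactors_of_squarefree (mem_filter.1 hq').2]]
  refine sum_le_sum_of_subset_of_nonneg (image_subset_iff.2 fun q hq =>
    mem_powerset.2 fun p hp => mem_filter.2 ⟨mem_range.2 ?_, Nat.prime_of_mem_primeFactors hp⟩)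
    fun _ _ _ => by positivity
  have := Nat.le_of_mem_primeFactors hp
  have := (mem_Icc.1 (mem_filter.1 hq).1).2
  omega

end SQ2a

theorem p_SQ2 (hSQ1 : S_SQ1) :
    S_SQ2 := by
  intro R hR
  have h1 := sum_le_sum_of_subset_of_nonneg (s := {1, 2}) (t := Icc 1 R)
    (f := fun q => sq q + mf q ^ 2) (by simp [insert_subset_iff]; omega) fun q hq _ => by
      linarith [neg_le_of_abs_le (hSQ1.1 q (mem_Icc.1 hq).1)]
  have h2 := hSQ1.1 1 le_rfl
  have h3 := hSQ1.1 2 one_le_two
  rw [sum_pair (by decide), sum_add_distrib, hSQ1.2.1, hSQ1.2.2] at h1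
  rw [hSQ1.2.1, abs_one] at h2
  rw [hSQ1.2.2, abs_one] at h3
  linarith [SQ2a.sm R]

end Pool.Agent.P.E2
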