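import Pool.Agent.P.MP_e94e4b_nt.E2.IfC
import Pool.Agent.P.MP_e94e4b_nt.PF.SV

/-! Step SV2. -/

namespace Pool.Agent.P.E2

open Finset Real Filter Topology MeasureTheory
open Pool.Agent.P.MP_e86632_nt (ee nn ee_add norm_ee ee_neg ee_zero)
open Pool.Agent.P.MP_8be758_nt.Avg (gs Rough red ft en nsq vau_g gs_pos gs_le_one gs_neg gs_anti)
open Pool.Agent.P.MP_e94e4b_nt.PF (mN sgm)
open ArithmeticFunction (vonMangoldt moebius)
open DirichletCharacter (LFunction)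

namespace SV2a

theorem sgm_mul {M q : ℕ} (hM : 0 < M) (hq : q.Prime) : sgm (M * q) ≤ 2 * sgm M := by
  have h1 := MP_e94e4b_nt.PF.SV_one_le M
  rw [sgm, Nat.primeFactors_mul hM.ne' hq.ne_zero, hq.primeFactors, union_comm, ← insert_eq,
    filter_insert]
  split_ifs with h
  · by_cases h2 : q ∈ M.primeFactors.filter (5 ≤ ·)
    · rw [insert_eq_of_mem h2, ← sgm]
      linarith
    · rw [prod_insert h2, ← sgm]
      refine mul_le_mul_of_nonneg_right ?_ (by linarith)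
      have h5 : (5 : ℝ) ≤ q := by exact_mod_cast h
      have h6 : 2 / (q : ℝ) ≤ 1 / 2 := by
        rw [div_le_iff₀ (by linarith)]
        linarith
      exact inv_le_of_inv_le₀ two_pos (by linarith)
  · rw [← sgm]
    linarith

theorem ex_q {a : ℕ} (ha : a.Prime) (N : ℕ) : ∃ q : ℕ, q.Prime ∧
    ∀ p : ℕ, p.Prime → p ≤ N → p ≠ a → (p : ℤ) ∣ q * a ^ 2 - 1 := by
  set T := (range (N + 1)).filter fun p => p.Prime ∧ p ≠ a
  have h0 : ∏ p ∈ T, p ≠ 0 := prod_ne_zero_iff.2 fun p hp => (mem_filter.1 hp).2.1.ne_zero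
  have : NeZero (∏ p ∈ T, p) := ⟨h0⟩
  have h1 : (a ^ 2).Coprime (∏ p ∈ T, p) := (Nat.Coprime.prod_right fun p hp =>
    (Nat.coprime_primes ha (mem_filter.1 hp).2.1).2 (mem_filter.1 hp).2.2.symm).pow_left 2
  obtain ⟨q, -, hq, e⟩ := Nat.forall_exists_prime_gt_and_eq_mod
    (ZMod.unitOfCoprime _ h1)⁻¹.isUnit 0
  refine ⟨q, hq, fun p hp h2 h3 => ?_⟩
  have h4 : ((q * a ^ 2 - 1 : ℤ) : ZMod (∏ p ∈ T, p)) = 0 := by
    have := (ZMod.unitOfCoprime _ h1).inv_mul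
    rw [← e, ZMod.coe_unitOfCoprime] at this
    push_cast at this ⊢
    rw [this, sub_self]
  exact (Int.natCast_dvd_natCast.2 (dvd_prod_of_mem _ (mem_filter.2
    ⟨mem_range.2 (by omega), hp, h3⟩))).trans ((ZMod.intCast_zmod_eq_zero_iff_dvd _ _).1 h4)

end SV2a

theorem p_SV2 (hFL : S_FL) :
    S_SV2 := by
  obtain ⟨C, hC, h⟩ := MP_e94e4b_nt.PF.t_SV hFL
  refine ⟨C * 4, by positivity, ?_⟩
  filter_upwards [h, eventually_gt_atTop 0] with H h h0 x M a S hx hM ha _ hS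
  obtain ⟨q, hq, h1⟩ := SV2a.ex_q ha ⌊H ^ (1 / 10 : ℝ)⌋₊
  have h2 := Nat.mul_pos hM ha.pos
  refine (h x (M * a * q) S hx (Nat.mul_pos h2 hq.pos) fun n hn => ⟨(hS n hn).1, (hS n hn).2.1,
    fun p hp h3 => ⟨((hS n hn).2.2 p hp h3).1, fun h4 => ?_⟩⟩).trans ?_
  · obtain ⟨h5, h6⟩ := (hS n hn).2.2 p hp h3
    push_cast at h4
    by_cases e : p = a
    · subst e
      refine h5 (Int.natCast_dvd_natCast.1 ?_)
      have := dvd_sub (Dvd.intro (2 * M * q : ℤ) rfl : (p : ℤ) ∣ _) h4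
      rwa [show (p * (2 * M * q) - (2 * (M * p * q) - n) : ℤ) = n by ring] at this
    · have := dvd_sub (h4.mul_left a) ((h1 p hp (Nat.le_floor h3) e).mul_left (2 * M))
      exact h6 (by rwa [show (a * (2 * (M * a * q) - n) - 2 * M * (q * a ^ 2 - 1) : ℤ) =
        2 * M - a * n by ring] at this)
  · have h3 := SV2a.sgm_mul h2 hq
    have h4 := SV2a.sgm_mul hM ha
    have h5 : C * sgm (M * a * q) ≤ C * 4 * sgm M := by nlinarith
    gcongr

end Pool.Agent.P.E2
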