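import Pool.Agent.P.MP_e94e4b_nt.E2.IfD

/-! Step T1. -/

namespace Pool.Agent.P.E2

open Finset Real Filter Topology MeasureTheory
open Pool.Agent.P.MP_e86632_nt (ee nn ee_add norm_ee ee_neg ee_zero)
open Pool.Agent.P.MP_8be758_nt.Avg (gs Rough red ft en nsq vau_g gs_pos gs_le_one gs_neg gs_anti)
open Pool.Agent.P.MP_e94e4b_nt.PF (mN sgm)
open ArithmeticFunction (vonMangoldt moebius)
open DirichletCharacter (LFunction)

namespace T1a

theorem core (F : ℕ → ℂ) (Y A B : ℕ) (l E : ℝ) (hE : 0 ≤ E) (hY : 1 ≤ Y) (hF : ∀ n, ‖F n‖ ≤ 1)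
    (hm : ∀ d k, d ≠ 0 → k ≠ 0 → F (d * k) = F d * F k)
    (hl : 1 + Real.log (Y * Y : ℕ) ≤ l) (hB : ∀ i ≤ B, Real.log i ≤ 2 * l)
    (hS : ∀ d ∈ Icc 1 (Y * Y), ∀ n, ‖∑ k ∈ Ioc (A / d) n, F k‖ ≤ n * E) :
    ‖LI Y A B F‖ ≤ 5 * l ^ 2 * B * E := by
  have hl0 : 0 ≤ l := le_trans (by linarith [Real.log_natCast_nonneg (Y * Y)]) hl
  have hS' : ∀ d ∈ Icc 1 (Y * Y), ∀ n ≤ B / d, ‖∑ k ∈ Ioc (A / d) n, F k‖ ≤ B / d * E :=
    fun d hd n hn => (hS d hd n).trans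
      (mul_le_mul_of_nonneg_right ((Nat.cast_le.2 hn).trans Nat.cast_div_le) hE)
  have hsum : ∑ d ∈ Icc 1 (Y * Y), 1 / (d : ℝ) ≤ l := by
    have h := Pool.Agent.P.MP_e86632_nt.sum_inv_le (Y * Y)
    rw [show Ioc 0 (Y * Y) = Icc 1 (Y * Y) from by ext; simp; omega] at h
    exact h.trans hl
  have hsub : Icc 1 Y ⊆ Icc 1 (Y * Y) := Icc_subset_Icc_right (Nat.le_mul_self Y)
  have h1 : ∀ d ∈ Icc 1 Y, ‖∑ k ∈ Ioc (A / d) (B / d),
      ((moebius d * Real.log k : ℝ) : ℂ) * F (d * k)‖ ≤ 4 * l * B * E * (1 / d) := fun d hd => by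
    have hd0 : d ≠ 0 := by have := (mem_Icc.1 hd).1; omega
    have h2 := Pool.Agent.P.MP_e86632_nt.abel_mono F (fun k => Real.log k) 0 (A / d) (B / d)
      (B / d * E) (2 * l) (by positivity) (by positivity) (hS' d (hsub hd))
      (fun i => Real.log_natCast_nonneg i)
      (fun i hi _ => Real.log_le_log (by exact_mod_cast (Nat.zero_le _).trans_lt hi) (by simp))
      (fun i hi => hB i (hi.trans (Nat.div_le_self _ _)))
    have h3 : ∑ k ∈ Ioc (A / d) (B / d), ((moebius d * Real.log k : ℝ) : ℂ) * F (d * k) =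
        (((moebius d : ℝ) : ℂ) * F d) *
          ∑ k ∈ Ioc (A / d) (B / d), F k * ((Real.log k : ℝ) * ee (k * (0 : ℝ))) := by
      rw [mul_sum]
      refine sum_congr rfl fun k hk => ?_
      rw [hm d k hd0 (Nat.ne_zero_of_lt (mem_Ioc.1 hk).1), mul_zero, ee_zero, Complex.ofReal_mul]
      ring
    have h4 : ‖((moebius d : ℝ) : ℂ) * F d‖ ≤ 1 := by
      rw [norm_mul, Complex.norm_real, Real.norm_eq_abs]
      exact mul_le_one₀ (Pool.Agent.P.MP_8be758_nt.Avg.vau_mu d) (norm_nonneg _) (hF d)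
    rw [h3, norm_mul]
    refine (mul_le_of_le_one_left (norm_nonneg _) h4).trans (h2.trans_eq ?_)
    rw [abs_zero]; ring
  have h2 : ∀ d ∈ Icc 1 (Y * Y), ‖∑ k ∈ Ioc (A / d) (B / d),
      ((vau_g Y d : ℝ) : ℂ) * F (d * k)‖ ≤ l * B * E * (1 / d) := fun d hd => by
    obtain ⟨hd1, hd2⟩ := mem_Icc.1 hd
    have h3 : ∑ k ∈ Ioc (A / d) (B / d), ((vau_g Y d : ℝ) : ℂ) * F (d * k) =
        (((vau_g Y d : ℝ) : ℂ) * F d) * ∑ k ∈ Ioc (A / d) (B / d), F k := by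
      rw [mul_sum]
      refine sum_congr rfl fun k hk => ?_
      rw [hm d k (by omega) (Nat.ne_zero_of_lt (mem_Ioc.1 hk).1)]
      ring
    have h5 : Real.log d ≤ Real.log (Y * Y : ℕ) :=
      Real.log_le_log (by exact_mod_cast hd1) (by exact_mod_cast hd2)
    have h4 : ‖((vau_g Y d : ℝ) : ℂ) * F d‖ ≤ l := by
      rw [norm_mul, Complex.norm_real, Real.norm_eq_abs]
      refine (mul_le_of_le_one_right (abs_nonneg _) (hF d)).trans ?_
      linarith [Pool.Agent.P.MP_8be758_nt.Avg.vau_g_le Y d]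
    rw [h3, norm_mul]
    refine (mul_le_mul h4 (hS' d hd _ le_rfl) (norm_nonneg _) hl0).trans_eq (by ring)
  have h3 : ∑ d ∈ Icc 1 Y, 1 / (d : ℝ) ≤ l :=
    (sum_le_sum_of_subset_of_nonneg hsub fun _ _ _ => by positivity).trans hsum
  refine (norm_sub_le _ _).trans ((add_le_add (norm_sum_le_of_le _ h1)
    (norm_sum_le_of_le _ h2)).trans ?_)
  rw [← mul_sum, ← mul_sum]
  calc _ ≤ 4 * l * B * E * l + l * B * E * l := by gcongr
    _ = _ := by ring

end T1a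

theorem p_T1 (hPS : S_PS) (hRNG : S_RNG) :
    S_T1 := by
  obtain ⟨c, hc, hPS⟩ := hPS
  refine ⟨c, hc, ?_⟩
  filter_upwards [hPS, hRNG, ev_lin 12 72 one_pos (show 2 ≤ 13 by norm_num), eventually_ge_atTop 0]
    with r hPS hR hr hr0 P q _ χ t hP1 hP2 hq ht
  rw [one_mul] at hr
  have hR := hR P hP1 hP2
  have hY1 : (1 : ℝ) ≤ Yv r := (Real.one_le_exp (by linarith)).trans hR.yl
  have hYY : ((Yv r * Yv r : ℕ) : ℝ) ≤ Real.exp (2 / 3 * r ^ 13) := by
    rw [show 2 / 3 * r ^ 13 = r ^ 13 / 3 + r ^ 13 / 3 by ring, Real.exp_add, Nat.cast_mul]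
    exact mul_le_mul hR.yu hR.yu (by positivity) (by positivity)
  have h := T1a.core (fun n => ch χ n * nit t n) (Yv r) (A1 r P) (A2 r P) (r ^ 13)
    (10 / (1 + |t|) + Real.exp (-(c * r ^ 13))) (by positivity) (by exact_mod_cast hY1)
    (fun n => by rw [norm_mul, norm_nit, mul_one]; exact norm_ch_le χ n)
    (fun d k hd hk => by rw [ch_mul, nit_mul t hd hk]; ring) ?_ ?_ ?_
  · refine h.trans ?_
    rw [show r ^ 26 = (r ^ 13) ^ 2 by ring]
    gcongr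
    norm_num
  · have h1 := (Real.log_le_iff_le_exp (by push_cast; positivity)).2 hYY
    linarith
  · intro i hi
    rcases Nat.eq_zero_or_pos i with rfl | h0
    · simp only [Nat.cast_zero, Real.log_zero]; linarith
    have h1 := (Real.log_le_iff_le_exp (by exact_mod_cast h0)).2 ((Nat.cast_le.2 hi).trans hR.a2u)
    linarith
  · intro d hd n
    obtain ⟨hd1, hd2⟩ := mem_Icc.1 hd
    refine hPS q _ n (ch χ) t (per_ch χ) hq ?_ ht
    have h1 : (A1 r P : ℝ) < d * ((A1 r P / d : ℕ) + 1) := by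
      exact_mod_cast Nat.lt_mul_div_succ (A1 r P) hd1
    have h2 : (d : ℝ) ≤ Real.exp (2 / 3 * r ^ 13) := (Nat.cast_le.2 hd2).trans hYY
    have h3 : Real.exp (2 / 3 * r ^ 13) * (Real.exp (r ^ 13 / 4) * Real.exp 1) ≤
        Real.exp (r ^ 13 - r - 5) := by
      rw [← Real.exp_add, ← Real.exp_add]; exact Real.exp_le_exp.2 (by linarith)
    have h4 : Real.exp (2 / 3 * r ^ 13) * (Real.exp (r ^ 13 / 4) * Real.exp 1) <
        Real.exp (2 / 3 * r ^ 13) * ((A1 r P / d : ℕ) + 1) :=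
      ((h3.trans hR.a1).trans_lt h1).trans_le (by gcongr)
    have h5 := lt_of_mul_lt_mul_left h4 (Real.exp_pos _).le
    have h6 : 1 ≤ Real.exp (r ^ 13 / 4) := Real.one_le_exp (by linarith)
    nlinarith [Real.add_one_le_exp 1]

end Pool.Agent.P.E2
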