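import Pool.Agent.P.MP_e94e4b_nt.E2.IfD

/-! Step T1U. -/

namespace Pool.Agent.P.E2

open Finset Real Filter Topology MeasureTheory
open Pool.Agent.P.MP_e86632_nt (ee nn ee_add norm_ee ee_neg ee_zero)
open Pool.Agent.P.MP_8be758_nt.Avg (gs Rough red ft en nsq vau_g gs_pos gs_le_one gs_neg gs_anti)
open Pool.Agent.P.MP_e94e4b_nt.PF (mN sgm)
open ArithmeticFunction (vonMangoldt moebius)
open DirichletCharacter (LFunction)

namespace T1Ua

theorem pw {x u e E : ℝ} (hu : 0 < u) (hE : 0 < E) (h : E ≤ u) :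
    (x * (10 / u + e)) ^ 2 ≤ x ^ 2 * (200 / E) * (1 / u) + x ^ 2 * (2 * e ^ 2) := by
  have h1 : (10 / u) ^ 2 ≤ 100 / E * (1 / u) := by
    calc (10 / u) ^ 2 = 100 / u * (1 / u) := by ring
      _ ≤ _ := by gcongr
  have h2 : (10 / u + e) ^ 2 ≤ 200 / E * (1 / u) + 2 * e ^ 2 := by
    have : 200 / E * (1 / u) = 2 * (100 / E * (1 / u)) := by ring
    nlinarith [sq_nonneg (10 / u - e)]
  calc (x * (10 / u + e)) ^ 2 = x ^ 2 * (10 / u + e) ^ 2 := mul_pow _ _ _
    _ ≤ x ^ 2 * (200 / E * (1 / u) + 2 * e ^ 2) := by gcongr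
    _ = _ := by ring

end T1Ua

theorem p_T1U (hT1 : S_T1) (hIL : S_IL) :
    S_T1U := by
  obtain ⟨c, hc, h⟩ := hT1
  refine ⟨c, hc, ?_⟩
  filter_upwards [h, ev_pe1 960000 65, ev_pe1 1600 52, ev_lin 2 0 hc (k := 13) (by norm_num),
    ev_lin 0 2 one_pos (k := 13) (by norm_num), eventually_ge_atTop 0]
    with r h e1 e2 e3 e4 e5 P q _ χ U a1 a2 a3 hU
  set l := r ^ 13 with hl
  set A : ℝ := (A2 r P : ℝ)
  have b1 : 1 + 2 * Real.exp (2 * l) ≤ Real.exp (3 * l) := by
    have k1 := Real.add_one_le_exp l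
    have k2 := Real.add_one_le_exp (2 * l)
    rw [show 3 * l = l + 2 * l by ring, Real.exp_add]
    nlinarith
  have hc1 : Continuous fun t : ℝ => 1 / (1 + |0 - t|) :=
    continuous_const.div (by fun_prop) fun t => by positivity
  have b2 : ∫ t in U, 1 / (1 + |0 - t|) ≤ 6 * l := by
    refine (hIL U 0 (2 * Real.exp (2 * l)) hU.1 (by positivity) fun t ht => by
      simpa using (hU.2.1 t ht).2).trans ?_
    have := (Real.log_le_log (by positivity) b1).trans_eq (Real.log_exp _)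
    linarith
  have b3 := hU.int_le (f := fun _ => (20 * r ^ 26 * A) ^ 2 * (2 * Real.exp (-(c * l)) ^ 2))
    continuous_const (by positivity) fun _ _ => le_rfl
  calc _ ≤ ∫ t in U, ((20 * r ^ 26 * A) ^ 2 * (200 / Real.exp (4 * r)) * (1 / (1 + |0 - t|)) +
        (20 * r ^ 26 * A) ^ 2 * (2 * Real.exp (-(c * l)) ^ 2)) := by
        refine setIntegral_mono_on (hU.intOn ((cont_LI _ _ _ fun n => by fun_prop).norm.pow 2))
          (hU.intOn ((continuous_const.mul hc1).add continuous_const)) hU.1 fun t ht => ?_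
        obtain ⟨k1, k2⟩ := hU.2.1 t ht
        refine (pow_le_pow_left₀ (norm_nonneg _) (h P q χ t a1 a2 a3 (by linarith)) 2).trans ?_
        rw [zero_sub, abs_neg]
        exact T1Ua.pw (by positivity) (Real.exp_pos _) (by linarith)
    _ ≤ (20 * r ^ 26 * A) ^ 2 * (200 / Real.exp (4 * r)) * (6 * l) +
        Real.exp (c * l) * ((20 * r ^ 26 * A) ^ 2 * (2 * Real.exp (-(c * l)) ^ 2)) := by
        rw [integral_add ((hU.intOn hc1).const_mul _) (hU.intOn continuous_const),
          integral_const_mul]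
        gcongr
    _ = A ^ 2 * ((960000 * r ^ 65 * Real.exp (-(4 * r)) +
        1600 * r ^ 52 * Real.exp (-(c * l))) / 2) := by
        rw [Real.exp_neg, Real.exp_neg, hl]
        field_simp
        ring
    _ ≤ A ^ 2 * ((Real.exp r * Real.exp (-(2 * r)) + Real.exp r * Real.exp (-(2 * r))) / 2) := by
        have k1 : Real.exp (-(4 * r)) ≤ Real.exp (-(2 * r)) := Real.exp_le_exp.2 (by linarith)
        have k2 : Real.exp (-(c * l)) ≤ Real.exp (-(2 * r)) := Real.exp_le_exp.2 (by linarith)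
        gcongr
    _ = _ := by
        rw [← Real.exp_add, show r + -(2 * r) = -r by ring]
        ring

end Pool.Agent.P.E2
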