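import Pool.Agent.P.MP_e94e4b_nt.E2.IfD

/-! Step T2. -/

namespace Pool.Agent.P.E2

open Finset Real Filter Topology MeasureTheory
open Pool.Agent.P.MP_e86632_nt (ee nn ee_add norm_ee ee_neg ee_zero)
open Pool.Agent.P.MP_8be758_nt.Avg (gs Rough red ft en nsq vau_g gs_pos gs_le_one gs_neg gs_anti)
open Pool.Agent.P.MP_e94e4b_nt.PF (mN sgm)
open ArithmeticFunction (vonMangoldt moebius)
open DirichletCharacter (LFunction)

namespace T2a

theorem fac (Y A B j : ℕ) {q : ℕ} (χ : DirichletCharacter ℂ q) (t : ℝ) :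
    (LJ Y A B j fun n => ch χ n * nit t n) =
      dq (Ioc (Y * 2 ^ j) (Y * 2 ^ (j + 1))) (fun n => ch χ n * vonMangoldt n) t *
        dq (Ioc (max Y (A / (Y * 2 ^ (j + 1)))) (B / (Y * 2 ^ j)))
          (fun k => (bt Y k : ℂ) * ch χ k) t := by
  rw [LJ, dq, dq, sum_mul_sum]
  refine sum_congr rfl fun m hm => sum_congr rfl fun k hk => ?_
  rw [ch_mul, nit_mul t (Nat.ne_zero_of_lt (mem_Ioc.1 hm).1) (Nat.ne_zero_of_lt (mem_Ioc.1 hk).1)]
  push_cast
  ring

theorem nsq_bt (hT : S_TAU2) (hV : S_VAU) (Y M N : ℕ) {q : ℕ} (χ : DirichletCharacter ℂ q) :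
    nsq (Ioc M N) (fun k => (bt Y k : ℂ) * ch χ k) ≤ N * (1 + Real.log N) ^ 3 := by
  refine le_trans ?_ (hT N)
  refine (sum_le_sum fun k _ => ?_).trans (sum_le_sum_of_subset_of_nonneg
    (fun k hk => mem_Icc.2 ⟨Nat.one_le_of_lt (mem_Ioc.1 hk).1, (mem_Ioc.1 hk).2⟩)
    fun _ _ _ => sq_nonneg _)
  refine pow_le_pow_left₀ (norm_nonneg _) ?_ 2
  rw [norm_mul, Complex.norm_real, Real.norm_eq_abs]
  exact (mul_le_of_le_one_right (abs_nonneg _) (norm_ch_le χ k)).trans ((hV Y).1 k).1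

end T2a

theorem p_T2 (hSHARP : S_SHARP) (hRNG : S_RNG) (hHB : S_HB) (hTAU2 : S_TAU2) (hVAU : S_VAU) :
    S_T2 := by
  obtain ⟨κ, hκ, hH⟩ := hHB
  refine ⟨κ, hκ, ?_⟩
  filter_upwards [hSHARP, hRNG, hH, ev_pe1 400 52, ev_pp 6 one_pos (show 0 < 13 by omega)]
    with r hS hR hH h1 h2 P q _ χ j U hP hP' hq hU
  have g := hR P hP hP'
  simp only [T2a.fac]
  rw [pow_zero, mul_one, one_mul] at h2
  have yl := g.yl
  generalize Yv r = Y at yl ⊢
  have a2 := g.a2u
  generalize A2 r P = B at a2 ⊢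
  generalize eM' : max Y (A1 r P / (Y * 2 ^ (j + 1))) = M'
  have hM' : Y ≤ M' := eM' ▸ le_max_left _ _
  rw [pow_succ, ← mul_assoc]
  have hM : Y ≤ Y * 2 ^ j := Nat.le_mul_of_pos_right _ (by positivity)
  generalize Y * 2 ^ j = M at hM ⊢
  have hN : M * (B / M) ≤ B := Nat.mul_div_le _ _
  generalize B / M = N at hN ⊢
  rcases le_or_gt N Y with h | h
  · rw [Ioc_eq_empty_of_le (h.trans hM')]
    simp only [dq, sum_empty, mul_zero, norm_zero, ne_eq, OfNat.ofNat_ne_zero, not_false_eq_true,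
      zero_pow, integral_zero]
    positivity
  have hY : 0 < Y := Nat.cast_pos.1 ((Real.exp_pos _).trans_le yl)
  have e2 : ∀ x y : ℝ, x + 1 ≤ y → 2 * Real.exp x ≤ Real.exp y := fun x y h => by
    refine le_trans ?_ (Real.exp_le_exp.2 h)
    rw [Real.exp_add, mul_comm]
    exact mul_le_mul_of_nonneg_left (by linarith [Real.add_one_le_exp 1]) (Real.exp_pos _).le
  have hMB : (M : ℝ) ≤ B := by
    exact_mod_cast (Nat.le_mul_of_pos_right M (by omega)).trans hN
  have hNB : (N : ℝ) ≤ B := by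
    exact_mod_cast (Nat.le_mul_of_pos_left N (by omega)).trans hN
  have hN0 : (0 : ℝ) < N := Nat.cast_pos.2 (by omega)
  have hl : 1 + Real.log N ≤ 2 * r ^ 13 := by
    have := (Real.log_le_iff_le_exp hN0).2 (hNB.trans a2)
    linarith
  have hl0 : 0 ≤ 1 + Real.log N := by positivity
  have k1 := (hH M' N _ U (le_trans (Real.exp_le_exp.2 (by linarith)) (yl.trans
    (by exact_mod_cast hM'))) hU).trans (mul_le_mul_of_nonneg_left
      ((T2a.nsq_bt hTAU2 hVAU Y M' N χ).trans (mul_le_mul_of_nonneg_left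
        (pow_le_pow_left₀ hl0 hl 3) hN0.le)) (by positivity))
  have k2 : ∀ t ∈ U, ‖dq (Ioc M (M * 2)) (fun n => ch χ n * vonMangoldt n) t‖ ≤
      M * Real.exp (-r) := fun t ht => hS q χ M _ t hq (yl.trans (by exact_mod_cast hM))
    (by omega) (by omega) (by
      push_cast
      linarith [e2 (r ^ 13 + 5) (2 * r ^ 13) (by linarith)]) (hU.2.1 t ht).1
    ((hU.2.1 t ht).2.trans (e2 _ _ (by linarith)))
  have k3 : (M : ℝ) * N ≤ B := by exact_mod_cast hN
  calc _ ≤ ∫ t in U, (M * Real.exp (-r)) ^ 2 *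
        ‖dq (Ioc M' N) (fun k => (bt Y k : ℂ) * ch χ k) t‖ ^ 2 := by
        refine setIntegral_mono_on (hU.intOn (by fun_prop)) (hU.intOn (by fun_prop)) hU.1
          fun t ht => ?_
        rw [norm_mul, mul_pow]
        exact mul_le_mul_of_nonneg_right (pow_le_pow_left₀ (norm_nonneg _) (k2 t ht) 2)
          (sq_nonneg _)
    _ ≤ (M * Real.exp (-r)) ^ 2 * (50 * r ^ 13 * N * (N * (2 * r ^ 13) ^ 3)) := by
        rw [integral_const_mul]
        exact mul_le_mul_of_nonneg_left k1 (sq_nonneg _)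
    _ = (M * N) ^ 2 * (Real.exp (-r) * (Real.exp (-r) * (400 * r ^ 52))) := by ring
    _ ≤ B ^ 2 * (Real.exp (-r) * (Real.exp (-r) * Real.exp r)) := by gcongr
    _ = _ := by rw [← Real.exp_add (-r) r, neg_add_cancel, Real.exp_zero, mul_one]

end Pool.Agent.P.E2
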