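import Pool.Agent.P.MP_e94e4b_nt.E2.IfZ

/-! Step T341. -/

namespace Pool.Agent.P.E2

open Finset Real Filter Topology MeasureTheory
open Pool.Agent.P.MP_e86632_nt (ee nn ee_add norm_ee ee_neg ee_zero)
open Pool.Agent.P.MP_8be758_nt.Avg (gs Rough red ft en nsq vau_g gs_pos gs_le_one gs_neg gs_anti)
open Pool.Agent.P.MP_e94e4b_nt.PF (mN sgm)
open ArithmeticFunction (vonMangoldt moebius)
open DirichletCharacter (LFunction)

namespace T341a

theorem term (c : ℕ → ℂ) (s : ℂ) (n : ℕ) :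
    (LSeries.term (fun n => c n * vonMangoldt n) s n).re =
      vonMangoldt n / (n : ℝ) ^ s.re * (c n * nit (s.im / (2 * π)) n).re := by
  rcases eq_or_ne n 0 with rfl | hn
  · simp
  rw [LSeries.term_of_ne_zero hn, div_eq_mul_inv, ← Complex.cpow_neg, cpow_nit s hn,
    ← Complex.re_ofReal_mul, div_eq_mul_inv (vonMangoldt n),
    ← Real.rpow_neg (Nat.cast_nonneg n)]
  congr 1
  push_cast
  ring

theorem hs {c : ℕ → ℂ} {s : ℂ} (h : LSeriesSummable (fun n => c n * vonMangoldt n) s) :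
    HasSum (fun n : ℕ => vonMangoldt n / (n : ℝ) ^ s.re * (c n * nit (s.im / (2 * π)) n).re)
      (LSeries (fun n => c n * vonMangoldt n) s).re := by
  simpa only [term, LSeries] using Complex.hasSum_re h.hasSum

theorem poly {z : ℂ} (h : ‖z‖ ≤ 1) : 0 ≤ 3 + 4 * z.re + (z * z).re := by
  have h1 : z.re * z.re + z.im * z.im ≤ 1 := by
    rw [← Complex.normSq_apply, Complex.normSq_eq_norm_sq]
    exact pow_le_one₀ (norm_nonneg _) h
  rw [Complex.mul_re]
  nlinarith [sq_nonneg (1 + z.re)]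

end T341a

theorem p_T341 (hZL2 : S_ZL2) :
    S_T341 := by
  intro q _ χ σ t h1 h2
  have r1 : ((σ : ℂ) + t * Complex.I).re = σ := by simp
  have r2 : ((σ : ℂ) + 2 * t * Complex.I).re = σ := by simp
  have i1 : ((σ : ℂ) + t * Complex.I).im = t := by simp
  have i2 : ((σ : ℂ) + 2 * t * Complex.I).im / (2 * π) = t / (2 * π) + t / (2 * π) := by
    simp; ring
  obtain ⟨a1, a2, -⟩ := hZL2.2 q χ (σ + t * Complex.I) (by rwa [r1]) (by rwa [r1])
  obtain ⟨b1, b2, -⟩ := hZL2.2 q (χ ^ 2) (σ + 2 * t * Complex.I) (by rwa [r2]) (by rwa [r2])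
  have a3 := T341a.hs a1
  have b3 := T341a.hs b1
  rw [← a2, r1, i1] at a3
  rw [← b2, r2, i2] at b3
  refine ((((hZL2.1 σ h1).hasSum.mul_left 3).add (a3.mul_left 4)).add b3).nonneg fun n => ?_
  have e : ch (χ ^ 2) n * nit (t / (2 * π) + t / (2 * π)) n =
      ch χ n * nit (t / (2 * π)) n * (ch χ n * nit (t / (2 * π)) n) := by
    rw [nit_add, ch, MulChar.pow_apply' _ two_ne_zero, ch]; ring
  have h3 := T341a.poly (z := ch χ n * nit (t / (2 * π)) n)
    (by rw [norm_mul, norm_nit, mul_one]; exact norm_ch_le χ n)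
  have h4 : 0 ≤ vonMangoldt n / (n : ℝ) ^ σ :=
    div_nonneg ArithmeticFunction.vonMangoldt_nonneg (by positivity)
  rw [e]
  exact (mul_nonneg h4 h3).trans_eq (by ring)

end Pool.Agent.P.E2
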