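import Pool.Agent.P.MP_e94e4b_nt.E2.IfZ

/-! Step TAIL. -/

namespace Pool.Agent.P.E2

open Finset Real Filter Topology MeasureTheory
open Pool.Agent.P.MP_e86632_nt (ee nn ee_add norm_ee ee_neg ee_zero)
open Pool.Agent.P.MP_8be758_nt.Avg (gs Rough red ft en nsq vau_g gs_pos gs_le_one gs_neg gs_anti)
open Pool.Agent.P.MP_e94e4b_nt.PF (mN sgm)
open ArithmeticFunction (vonMangoldt moebius)
open DirichletCharacter (LFunction)

namespace TAILa

theorem sq_sum (S : Finset ℕ) : ∑ n ∈ S, 1 / (n : ℝ) ^ 2 ≤ 2 := by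
  have h := hasSum_zeta_two
  refine (sum_le_hasSum S (fun _ _ => by positivity) h).trans ?_
  nlinarith [Real.pi_lt_d2, Real.pi_pos]

theorem pt_le {w v A x : ℝ} (hw : 0 < w) (hw1 : w ≤ 1) (hA : 0 ≤ A) {n : ℕ} (hx : 0 ≤ x ∧ x ≤ n)
    (h : A ≤ |Real.log n - v|) :
    x * gk w (Real.log n - v) ≤ 8 * Real.exp (4 * v - (A / w) ^ 2) / w * (1 / (n : ℝ) ^ 2) := by
  rcases Nat.eq_zero_or_pos n with rfl | hn
  · have : x = 0 := le_antisymm (by simpa using hx.2) hx.1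
    simp [this]
  have h0 : (0 : ℝ) < n := by exact_mod_cast hn
  have hn1 : (1 : ℝ) ≤ n := by exact_mod_cast hn
  set z := Real.log n - v with hz
  have h1 : z ^ 2 ≤ (z / w) ^ 2 := by
    rw [div_pow, le_div_iff₀ (by positivity)]
    exact mul_le_of_le_one_right (sq_nonneg z) (pow_le_one₀ hw.le hw1)
  have h1' : (A / w) ^ 2 ≤ (z / w) ^ 2 := by
    rw [div_pow, div_pow, ← sq_abs z]
    gcongr
  have h2 : gs (z / w) ≤ Real.exp 2 * Real.exp (4 * v - (A / w) ^ 2) / (n : ℝ) ^ 4 := by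
    rw [le_div_iff₀ (by positivity), ← Real.exp_log h0, ← Real.exp_nat_mul, gs, ← Real.exp_add,
      ← Real.exp_add]
    refine Real.exp_le_exp.2 ?_
    push_cast
    nlinarith [Real.pi_gt_three, sq_nonneg (z - 1), sq_nonneg (z / w)]
  have h3 : Real.exp 2 ≤ 8 := by
    have := Real.exp_one_lt_d9
    have h4 : Real.exp 2 = Real.exp 1 * Real.exp 1 := by rw [← Real.exp_add]; norm_num
    nlinarith [Real.exp_pos 1]
  have h4 : x ≤ (n : ℝ) ^ 2 := by nlinarith [hx.2]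
  calc x * gk w z ≤ (n : ℝ) ^ 2 * (8 * Real.exp (4 * v - (A / w) ^ 2) / (n : ℝ) ^ 4 / w) := by
        refine mul_le_mul h4 (div_le_div_of_nonneg_right (h2.trans ?_) hw.le) (gk_nonneg hw _)
          (by positivity)
        gcongr
    _ = _ := by field_simp

theorem fin_le {b : ℕ → ℝ} {w v A : ℝ} (hw : 0 < w) (hw1 : w ≤ 1) (hA : 0 ≤ A)
    (hb : ∀ n, 0 ≤ b n ∧ b n ≤ n) (S : Finset ℕ) (h : ∀ n ∈ S, A ≤ |Real.log n - v|) :
    ∑ n ∈ S, b n * gk w (Real.log n - v) ≤ 30 * Real.exp (4 * v - (A / w) ^ 2) / w := by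
  refine (sum_le_sum fun n hn => pt_le hw hw1 hA (hb n) (h n hn)).trans ?_
  rw [← mul_sum]
  refine (mul_le_mul_of_nonneg_left (sq_sum S) (by positivity)).trans ?_
  have : 0 < Real.exp (4 * v - (A / w) ^ 2) / w := by positivity
  rw [mul_div_assoc, mul_div_assoc]
  linarith

end TAILa

open TAILa in
theorem p_TAIL :
    S_TAIL := by
  intro b w v A hw hw1 hA hb
  have h0 : ∀ n, 0 ≤ b n * gk w (Real.log n - v) := fun n => mul_nonneg (hb n).1 (gk_nonneg hw _)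
  refine ⟨summable_of_sum_le h0 fun S => fin_le hw hw1 le_rfl hb S fun _ _ => abs_nonneg _, ?_,
    fin_le hw hw1 hA hb⟩
  refine Real.tsum_le_of_sum_le (fun n => ?_) fun S => ?_
  · dsimp only
    split_ifs
    exacts [h0 n, le_rfl]
  · rw [← sum_filter]
    exact fin_le hw hw1 hA hb _ fun n hn => (mem_filter.1 hn).2

end Pool.Agent.P.E2
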