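import Pool.Agent.P.MP_e94e4b_nt.E2.IfD

/-! Step TAU2. -/

namespace Pool.Agent.P.E2

open Finset Real Filter Topology MeasureTheory
open Pool.Agent.P.MP_e86632_nt (ee nn ee_add norm_ee ee_neg ee_zero)
open Pool.Agent.P.MP_8be758_nt.Avg (gs Rough red ft en nsq vau_g gs_pos gs_le_one gs_neg gs_anti)
open Pool.Agent.P.MP_e94e4b_nt.PF (mN sgm)
open ArithmeticFunction (vonMangoldt moebius)
open DirichletCharacter (LFunction)

namespace TAU2a

theorem sq_le {N k : ℕ} (hk : k ∈ Icc 1 N) : k.divisors.card ^ 2 ≤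
    ((Icc 1 N ×ˢ Icc 1 N ×ˢ Icc 1 N).filter fun x => x.1 * x.2.1 * x.2.2 ∣ k).card := by
  obtain ⟨k1, k2⟩ := mem_Icc.1 hk
  rw [pow_two, ← card_product]
  refine card_le_card_of_injOn (fun y => (y.1.gcd y.2, y.1 / y.1.gcd y.2, y.2 / y.1.gcd y.2))
    (fun y hy => ?_) fun y _ z _ h => ?_
  · obtain ⟨h1, h2⟩ := mem_product.1 (mem_coe.1 hy)
    have d : y.1.gcd y.2 * (y.1 / y.1.gcd y.2) * (y.2 / y.1.gcd y.2) ∣ k := by
      rw [Nat.mul_div_cancel' (Nat.gcd_dvd_left _ _),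
        ← Nat.mul_div_assoc _ (Nat.gcd_dvd_right _ _)]
      exact Nat.lcm_dvd (Nat.dvd_of_mem_divisors h1) (Nat.dvd_of_mem_divisors h2)
    have m : ∀ a, a ∣ k → a ∈ Icc 1 N := fun a ha =>
      mem_Icc.2 ⟨Nat.pos_of_dvd_of_pos ha k1, (Nat.le_of_dvd k1 ha).trans k2⟩
    exact mem_coe.2 (mem_filter.2 ⟨mem_product.2 ⟨m _ (dvd_of_mul_right_dvd
      (dvd_of_mul_right_dvd d)), mem_product.2 ⟨m _ (dvd_of_mul_left_dvd
      (dvd_of_mul_right_dvd d)), m _ (dvd_of_mul_left_dvd d)⟩⟩, d⟩)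
  · simp only [Prod.mk.injEq] at h
    refine Prod.ext ?_ ?_
    · rw [← Nat.mul_div_cancel' (Nat.gcd_dvd_left y.1 y.2), h.2.1, h.1,
        Nat.mul_div_cancel' (Nat.gcd_dvd_left _ _)]
    · rw [← Nat.mul_div_cancel' (Nat.gcd_dvd_right y.1 y.2), h.2.2, h.1,
        Nat.mul_div_cancel' (Nat.gcd_dvd_right _ _)]

theorem har (N : ℕ) : ∑ n ∈ Icc 1 N, (1 / n : ℝ) ≤ 1 + Real.log N := by
  have := harmonic_le_one_add_log N
  rw [harmonic_eq_sum_Icc] at this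
  simpa using this

end TAU2a

theorem p_TAU2 :
    S_TAU2 := by
  intro N
  calc ∑ k ∈ Icc 1 N, (k.divisors.card : ℝ) ^ 2
      ≤ ∑ k ∈ Icc 1 N, ∑ x ∈ Icc 1 N ×ˢ Icc 1 N ×ˢ Icc 1 N,
          if x.1 * x.2.1 * x.2.2 ∣ k then (1 : ℝ) else 0 :=
        sum_le_sum fun k hk => by
          rw [sum_boole]
          exact_mod_cast TAU2a.sq_le hk
    _ ≤ ∑ x ∈ Icc 1 N ×ˢ Icc 1 N ×ˢ Icc 1 N,
          (N : ℝ) * ((1 / x.1 : ℝ) * ((1 / x.2.1 : ℝ) * (1 / x.2.2 : ℝ))) := by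
        rw [sum_comm]
        refine sum_le_sum fun x _ => ?_
        rw [sum_boole, show Icc 1 N = Ioc 0 N from rfl, Nat.Ioc_filter_dvd_card_eq_div]
        refine Nat.cast_div_le.trans (le_of_eq ?_)
        push_cast
        ring
    _ = N * (∑ n ∈ Icc 1 N, (1 / n : ℝ)) ^ 3 := by
        rw [← mul_sum, pow_three, sum_mul_sum (Icc 1 N) (Icc 1 N), ← sum_product', sum_mul_sum,
          ← sum_product']
    _ ≤ _ := by
        have := TAU2a.har N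
        gcongr

end Pool.Agent.P.E2
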