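import Pool.Agent.P.MP_e94e4b_nt.E2.IfC

/-! Step TC. -/

namespace Pool.Agent.P.E2

open Finset Real Filter Topology MeasureTheory
open Pool.Agent.P.MP_e86632_nt (ee nn ee_add norm_ee ee_neg ee_zero)
open Pool.Agent.P.MP_8be758_nt.Avg (gs Rough red ft en nsq vau_g gs_pos gs_le_one gs_neg gs_anti)
open Pool.Agent.P.MP_e94e4b_nt.PF (mN sgm)
open ArithmeticFunction (vonMangoldt moebius)
open DirichletCharacter (LFunction)

namespace TCa

theorem tl_div (R K : ℕ) (F : ℕ → ℕ → ℂ) {x : ℝ} (hx : 0 < x) :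
    (tl R K fun q a => F q a / x) = tl R K F / x ^ 2 := by
  unfold tl
  rw [sum_div]
  refine sum_congr rfl fun q _ => ?_
  rw [mul_div_assoc, sum_div]
  congr 1
  refine sum_congr rfl fun a _ => ?_
  rw [norm_div, Complex.norm_real, Real.norm_of_nonneg hx.le, div_pow]

theorem tl_perm (hPERM : S_PERM) (R K p : ℕ) (hp : p.Prime) (hK : K < p) (S : Finset ℕ)
    (γ : ℕ → ℂ) :
    (tl R K fun q a => ft S γ (p * ((a : ℝ) / q))) = tl R K fun q a => ft S γ ((a : ℝ) / q) := by
  unfold tl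
  refine sum_congr rfl fun q hq => ?_
  rw [mem_Ioc] at hq
  rw [hPERM q p S γ (Nat.coprime_of_lt_prime (by omega) (by omega) hp)]

end TCa

theorem p_TC (hRNG : S_RNG) (hPH : S_PH) (hGEO : S_GEO) (hGS : S_GS) (hMK : S_MK) (hSG : S_SG) (hPERM : S_PERM) :
    S_TC := by
  intro ε hε
  obtain ⟨R0, hR0⟩ := hSG ε hε
  refine ⟨R0, fun R hR => ?_⟩
  filter_upwards [hR0 R hR, hRNG, hPH, hGEO, hGS,
    ev_lin 1 1 (c := 1 / 2) (by norm_num) (show 2 ≤ 13 by norm_num)] with r h1 h2 h3 h4 h5 h6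
  intro P x y K H hS hx1 hx2
  have hG := h4 P y K H hS
  have hR' := h2 P hG.p1 hS.p2
  have hx : 0 < x := (XX_pos r).trans_le hx1
  have hlx : r ^ 13 ≤ Real.log x := by
    rw [← log_XX r]; exact Real.log_le_log (XX_pos r) hx1
  set F : ℕ → ℕ → ℕ → ℂ := fun p q a => ft (RN r P) (fun n => ((th n * ph r P n) *
    gk (Th r) (Real.log n - (Real.log x - Real.log p)) : ℝ)) (p * ((a : ℝ) / q)) / x with hF
  have hcb : (fun q a : ℕ => cb r P x ((a : ℝ) / q)) = fun q a => ∑ p ∈ PP P, F p q a := by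
    funext q a
    have h7 := (h5 P hG.p1 hS.p2).2.2.2
      (fun m => ee (m * ((a : ℝ) / q)) * (gk (Th r) (Real.log m - Real.log x) : ℂ))
    unfold cb
    simp only [mul_assoc]
    rw [h7, sum_div]
    refine sum_congr rfl fun p hp => ?_
    simp only [hF, ft]
    congr 1
    refine sum_congr rfl fun n hn => ?_
    have hp0 : (p : ℝ) ≠ 0 := by exact_mod_cast (hR'.pp p hp).1.ne_zero
    have hn0 : (n : ℝ) ≠ 0 := ((Real.exp_pos _).trans_le (hR'.rn n hn).1).ne'
    have e1 : Real.log ((p * n : ℕ) : ℝ) - Real.log x =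
        Real.log n - (Real.log x - Real.log p) := by
      rw [Nat.cast_mul, Real.log_mul hp0 hn0]; ring
    have e2 : ((p * n : ℕ) : ℝ) * ((a : ℝ) / q) = n * (p * ((a : ℝ) / q)) := by
      push_cast; ring
    rw [e1, e2]
    push_cast
    ring
  rw [hcb]
  refine (hMK R K (PP P) F (fun p => √ε * (1 / (p : ℝ))) fun p hp => ⟨by positivity, ?_⟩).trans ?_
  · obtain ⟨hp1, hp2, hp3⟩ := hR'.pp p hp
    have hp0 : (0 : ℝ) < p := by exact_mod_cast hp1.pos
    have hKp : K < p := by exact_mod_cast hG.kp.trans hp2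
    have hlp : Real.log p ≤ r + 1 := by
      rw [Real.log_le_iff_le_exp hp0, Real.exp_add]
      have := Real.add_one_le_exp (1 : ℝ)
      have := hS.p2
      have := Real.exp_pos r
      nlinarith
    have h8 := h1 K (Real.log x - Real.log p) (RN r P) (fun n => th n * ph r P n) hG.ke
      (by linarith) fun n hn => by
        obtain ⟨hn1, -, hn3⟩ := hR'.rn n hn
        have hn0 : (0 : ℝ) < n := (Real.exp_pos _).trans_le hn1
        obtain ⟨hp4, hp5, -⟩ := h3 P hG.p1 hS.p2 n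
        refine ⟨hn1, (Real.log_le_iff_le_exp hn0).1 hn3, ?_, fun h => prime_of_th
          (left_ne_zero_of_mul h)⟩
        rw [abs_of_nonneg (mul_nonneg (th_nonneg n) hp4)]
        exact (mul_le_of_le_one_right (th_nonneg n) hp5).trans ((th_le_log n).trans hn3)
    simp only [hF]
    rw [TCa.tl_div R K _ hx, TCa.tl_perm hPERM R K p hp1 hKp, div_le_iff₀ (by positivity)]
    refine h8.trans (le_of_eq ?_)
    rw [Real.exp_sub, Real.exp_log hx, Real.exp_log hp0, mul_pow, Real.sq_sqrt hε.le]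
    field_simp
  · rw [← mul_sum, mul_pow, Real.sq_sqrt hε.le, rho]

end Pool.Agent.P.E2
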