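import Pool.Agent.P.MP_e94e4b_nt.E2.IfC

/-! Step UB. -/

namespace Pool.Agent.P.E2

open Finset Real Filter Topology MeasureTheory
open Pool.Agent.P.MP_e86632_nt (ee nn ee_add norm_ee ee_neg ee_zero)
open Pool.Agent.P.MP_8be758_nt.Avg (gs Rough red ft en nsq vau_g gs_pos gs_le_one gs_neg gs_anti)
open Pool.Agent.P.MP_e94e4b_nt.PF (mN sgm)
open ArithmeticFunction (vonMangoldt moebius)
open DirichletCharacter (LFunction)

namespace UBa

theorem sgm_nonneg (M : ℕ) : 0 ≤ sgm M := prod_nonneg fun p hp => by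
  have : (5 : ℝ) ≤ p := by exact_mod_cast (mem_filter.1 hp).2
  rw [inv_nonneg, sub_nonneg, div_le_one (by linarith)]
  linarith

theorem rc_eq (g : ℕ → ℝ) {I T : Finset ℕ} {M : ℕ} (h : ∀ p ∈ I, p ≤ M ∧ M - p ∈ T) :
    ∑ p ∈ I, p1 p * g (M - p) = ∑ m ∈ T, g m * if m ≤ M ∧ M - m ∈ I then p1 (M - m) else 0 := by
  simp only [mul_ite, mul_zero, ← sum_filter]
  refine sum_nbij' (M - ·) (M - ·) (fun p hp => ?_) (fun m hm => (mem_filter.1 hm).2.2)
    (fun p hp => Nat.sub_sub_self (h p hp).1) (fun m hm => Nat.sub_sub_self (mem_filter.1 hm).2.1)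
    fun p hp => by rw [Nat.sub_sub_self (h p hp).1, mul_comm]
  exact mem_filter.2 ⟨(h p hp).2, Nat.sub_le _ _, by rwa [Nat.sub_sub_self (h p hp).1]⟩

end UBa

open UBa in
theorem p_UB (hRNG : S_RNG) (hPH : S_PH) (hGEO : S_GEO) (hGS : S_GS) (hSV2 : S_SV2) :
    S_UB := by
  obtain ⟨C, hC, hS⟩ := hSV2
  obtain ⟨H0, hS⟩ := eventually_atTop.1 hS
  refine ⟨120 * C, by positivity, ?_⟩
  filter_upwards [hRNG, hPH, hGEO, hGS, eventually_ge_atTop 5,
    ev_pp H0 one_half_pos (show 0 < 13 by omega)] with r h1 h2 h3 h4 hr h0 P y K H st i hi N hN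
  have g := h3 P y K H st
  have rg := h1 P g.p1 st.p2
  obtain ⟨e0, -, e1, -⟩ := h4 P g.p1 st.p2
  obtain ⟨-, -, -, -, -, j⟩ := g.jj i hi N hN
  obtain ⟨x1, x2, x3, x4⟩ := g.x1 i hi
  obtain ⟨y1, y2⟩ := g.y1 i hi
  refine ⟨sum_nonneg fun p _ => mul_nonneg (p1_nonneg _) (e0 _).1, ?_⟩
  rw [Rc, rc_eq _ fun p hp => ⟨(j p hp).1, (g.ig i hi).2.2 (j p hp).2⟩, e1, rho, sum_mul, sum_mul,
    sum_div, mul_sum]
  refine sum_le_sum fun p hp => ?_
  obtain ⟨pp, pl, pu⟩ := rg.pp p hp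
  have l5 : 5 ≤ r ^ 13 := hr.trans (le_self_pow₀ (by linarith) (by omega))
  have p5 : (5 : ℝ) ≤ p :=
    (hr.trans (le_self_pow₀ (by linarith) (by omega))).trans (st.p1.trans pl.le)
  have yl : r ^ 13 / 2 + 1 ≤ y := g.ye ▸ Real.add_one_le_exp _
  have hK : (1 : ℝ) ≤ K := by exact_mod_cast g.k0
  have hH : (0 : ℝ) < H := by linarith [st.h1, g.p1]
  generalize hY : Yb y (K * H) i = Y at *
  have Y1 : (2 * y * (K * H) : ℝ) ≤ Y := by exact_mod_cast y1
  have Y2 : (Y : ℝ) ≤ 5 * y * (K * H) := by exact_mod_cast y2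
  have Y3 : (Y : ℝ) ≤ 5 * y ^ 2 := by
    rw [st.hy]
    exact le_trans (by exact_mod_cast x3 ▸ Nat.le_add_left _ _) x2
  have H1 : (y : ℝ) ≤ 3 * Y / p := by
    rw [le_div_iff₀ (by linarith)]
    have : (y : ℝ) * p ≤ y * (2 * (K * H)) := by
      gcongr
      nlinarith [st.h1]
    nlinarith
  have H2 : (3 * Y / p : ℝ) ≤ 15 * y ^ 2 := (div_le_self (by positivity) (by linarith)).trans
    (by linarith)
  have key : ∀ l : ℕ, (l : ℝ) ≤ (3 * Y / p : ℝ) ^ (1 / 10 : ℝ) → (l : ℝ) < y := fun l hl => by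
    by_contra! c
    have a := pow_le_pow_left₀ (by positivity) (c.trans hl) 10
    rw [one_div, show (10 : ℝ) = (10 : ℕ) by norm_num,
      Real.rpow_inv_natCast_pow (by positivity) (by omega)] at a
    have b : (2 : ℝ) ^ 8 ≤ y ^ 8 := pow_le_pow_left₀ two_pos.le (by linarith) 8
    have d : (0 : ℝ) < y ^ 2 := pow_pos (by linarith) 2
    nlinarith
  have hc := hS (3 * Y / p) (by linarith) (((xb y (K * H) i : ℝ) - Y) / p) (Mn N) p
    ((RN r P).filter fun n => n.Prime ∧ (p * n ≤ mN N ∧ mN N - p * n ∈ Ip y (K * H) i) ∧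
      (mN N - p * n).Prime) (div_nonneg (sub_nonneg.2 (by exact_mod_cast x4)) (by linarith))
    (Nat.succ_pos _) pp (by exact_mod_cast p5) fun n hn => by
      obtain ⟨hn, n1, ⟨n2, n3⟩, n4⟩ := mem_filter.1 hn
      have n5 := (j _ n3).2
      rw [Nat.sub_sub_self n2, Ig, hY, mem_Ioc] at n5
      have n6 : (xb y (K * H) i : ℝ) - Y < p * n := by exact_mod_cast n5.1
      have n7 : (p * n : ℝ) ≤ xb y (K * H) i + 2 * Y := by exact_mod_cast n5.2
      refine ⟨by rw [div_lt_iff₀' (by linarith)]; exact n6, by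
        rw [← add_div, le_div_iff₀' (by linarith)]; linarith, fun l hl h => ⟨fun d => ?_, fun d => ?_⟩⟩
      · obtain rfl := (Nat.prime_dvd_prime_iff_eq hl n1).1 d
        exact (key _ h).not_ge (g.ye ▸ (rg.rn _ hn).1)
      · have e : (2 * Mn N - p * n : ℤ) = (mN N - p * n : ℕ) := by
          rw [Nat.cast_sub n2]
          simp [mN, Mn]
        rw [e, Int.natCast_dvd_natCast, Nat.prime_dvd_prime_iff_eq hl n4] at d
        have a : (xb y (K * H) i : ℝ) ≤ l := by exact_mod_cast d ▸ (mem_Ico.1 n3).1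
        have b := key _ h
        rw [← st.hy] at x1
        nlinarith
  have lg : r ^ 13 / 2 ≤ Real.log (3 * Y / p) := by
    rw [Real.le_log_iff_exp_le (by linarith), ← g.ye]
    exact H1
  have s0 := sgm_nonneg (Mn N)
  calc _ ≤ ∑ n ∈ RN r P, if n.Prime ∧ (p * n ≤ mN N ∧ mN N - p * n ∈ Ip y (K * H) i) ∧
          (mN N - p * n).Prime then 2 * r ^ 13 else 0 := sum_le_sum fun n hn => by
        obtain ⟨a, b, -⟩ := h2 P g.p1 st.p2 n
        have c := (th_le_log n).trans (rg.rn n hn).2.2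
        by_cases q1 : n.Prime
        · by_cases q2 : p * n ≤ mN N ∧ mN N - p * n ∈ Ip y (K * H) i
          · by_cases q3 : (mN N - p * n).Prime
            · rw [if_pos q2, if_pos ⟨q1, q2, q3⟩, p1, if_pos q3, mul_one]
              nlinarith [th_nonneg n]
            · simp [p1, q3]
          · simp [q2]
        · simp [th, q1]
    _ ≤ C * sgm (Mn N) * (3 * (5 * y * (K * H)) / p) / (r ^ 13 / 2) ^ 2 * (2 * r ^ 13) := by
        rw [← sum_filter, sum_const, nsmul_eq_mul]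
        refine mul_le_mul_of_nonneg_right (hc.trans ?_) (by positivity)
        gcongr
    _ = _ := by
        rw [Mn]
        field_simp
        ring

end Pool.Agent.P.E2
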