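import Pool.Agent.P.MP_e94e4b_nt.E2.IfD

/-! Step UM. -/

namespace Pool.Agent.P.E2

open Finset Real Filter Topology MeasureTheory
open Pool.Agent.P.MP_e86632_nt (ee nn ee_add norm_ee ee_neg ee_zero)
open Pool.Agent.P.MP_8be758_nt.Avg (gs Rough red ft en nsq vau_g gs_pos gs_le_one gs_neg gs_anti)
open Pool.Agent.P.MP_e94e4b_nt.PF (mN sgm)
open ArithmeticFunction (vonMangoldt moebius)
open DirichletCharacter (LFunction)

namespace UMa

theorem markov {U : Set ℝ} {f : ℝ → ℝ} {c : ℝ} (hU : MeasurableSet U) (hf : volume U ≠ ⊤)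
    (hi : Integrable f) (h0 : ∀ t, 0 ≤ f t) (hc : ∀ t ∈ U, c ≤ f t) :
    c * volume.real U ≤ ∫ t, f t :=
  (setIntegral_ge_of_const_le_real hU hf hc hi.integrableOn).trans
    (setIntegral_le_integral hi (ae_of_all _ h0))

end UMa

open UMa in
theorem p_UM (hMOM : S_MOM) :
    S_UM := by
  intro κ hκ
  obtain ⟨C, hC, hM⟩ := hMOM
  refine ⟨κ / 12, max 1 ⌈168 / κ⌉₊, by positivity, ?_⟩
  filter_upwards [eventually_ge_atTop 12, ev_lin 1 1 one_pos (show 2 ≤ 13 by norm_num),
    ev_pp (2 * C * Real.exp π) (show 0 < κ / 4 by positivity) (show 0 < 13 by norm_num)]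
    with r h12 h1 h2 P a hP1 hP2 ha
  set b := max 1 ⌈168 / κ⌉₊ with hb
  set l := r ^ 13 with hl
  have hb1 : (1 : ℝ) ≤ b := by exact_mod_cast le_max_left _ _
  have hb2 : 168 ≤ κ * b := by
    have : (⌈168 / κ⌉₊ : ℝ) ≤ b := by exact_mod_cast le_max_right _ _
    have := (Nat.le_ceil (168 / κ)).trans this
    rwa [div_le_iff₀' hκ] at this
  have r0 : 0 < r := by linarith
  have hlam : 1 ≤ Real.log r := by
    rw [Real.le_log_iff_exp_le r0]; linarith [Real.exp_one_lt_d9]
  have P0 : 0 < P := (pow_pos r0 _).trans_le hP1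
  have hLP : b * Real.log r ≤ Real.log P := by
    rw [← Real.log_pow]; exact Real.log_le_log (pow_pos r0 _) hP1
  have hLP1 : 1 ≤ Real.log P := le_trans (by nlinarith) hLP
  have hLP2 : Real.log P ≤ r := (Real.log_le_iff_le_exp P0).2 hP2
  have l2 := Real.log_two_gt_d9
  have l2' := Real.log_two_lt_d9
  have eY : 2 * P = Real.exp (Real.log 2 + Real.log P) := by
    rw [Real.exp_add, Real.exp_log two_pos, Real.exp_log P0]
  set Lp := Real.log 2 + Real.log P with hLp
  have Lp0 : 0 < Lp := by linarith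
  have l0 : 0 < l := by positivity
  set k := ⌈2 * l / Lp⌉₊ with hk
  have k1 : 1 ≤ k := Nat.ceil_pos.2 (by positivity)
  have k2 : 2 * l ≤ k * Lp := (div_le_iff₀ Lp0).1 (Nat.le_ceil _)
  have k3 : k * Lp ≤ 3 * l := by
    have := mul_le_mul_of_nonneg_right
      (Nat.ceil_lt_add_one (show 0 ≤ 2 * l / Lp by positivity)).le Lp0.le
    rw [add_mul, div_mul_cancel₀ _ Lp0.ne'] at this
    linarith
  have k0 : (0 : ℝ) ≤ k := Nat.cast_nonneg _
  have k4 : k * Real.log P ≤ 3 * l := by nlinarith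
  have k5 : 4 * (k : ℝ) ≤ r ^ 14 := by
    rw [pow_succ, ← hl]; nlinarith
  have k6 : 14 * (k * Real.log r) ≤ κ / 4 * l := by
    have a1 : b * (k * Real.log r) ≤ 3 * l := by nlinarith
    have a2 : 0 ≤ k * Real.log r := by positivity
    nlinarith [mul_le_mul_of_nonneg_left a1 hκ.le, mul_le_mul_of_nonneg_right hb2 a2]
  have eK : (2 * P) ^ k = Real.exp (k * Lp) := by rw [eY, Real.exp_nat_mul]
  have hZ : Real.exp (2 * l) ≤ (2 * P) ^ k := by rw [eK]; exact Real.exp_le_exp.2 k2
  have m1 := hM k (Real.exp (2 * l)) (2 * P) (PP P) a k1 (Real.one_le_exp (by positivity))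
    (by rw [eY]; exact Real.one_le_exp Lp0.le) (fun p hp => ⟨(mem_filter.1 hp).2,
      (Nat.le_floor_iff (by positivity)).1 (mem_Ioc.1 (mem_filter.1 hp).1).2⟩) ha
  have cq : Continuous (dq (PP P) a) := by fun_prop
  have m2 := markov (U := {t : ℝ | |t| ≤ Real.exp (2 * l) ∧ P ^ (1 - κ / 12) < ‖dq (PP P) a t‖})
    (f := fun t => gs (t / Real.exp (2 * l)) * ‖dq (PP P) a t‖ ^ (2 * k))
    (c := Real.exp (-π) * (P ^ (1 - κ / 12)) ^ (2 * k))
    (by
      rw [Set.ofPred_and]
      exact (measurableSet_le continuous_abs.measurable measurable_const).inter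
        (measurableSet_lt measurable_const cq.norm.measurable))
    ((measure_mono (t := Set.Icc (-Real.exp (2 * l)) (Real.exp (2 * l))) fun t ht =>
      abs_le.1 ht.1).trans_lt measure_Icc_lt_top).ne
    (int_gs_mul (B := ((PP P).card * 1) ^ (2 * k)) (Real.exp_pos _) (by fun_prop) fun t => by
      rw [abs_of_nonneg (by positivity)]
      exact pow_le_pow_left₀ (norm_nonneg _) (norm_dq_le (fun n _ => ha n) t) _)
    (fun t => mul_nonneg (gs_pos _).le (by positivity)) fun t ht => by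
      refine mul_le_mul ?_ (pow_le_pow_left₀ (by positivity) ht.2.le _) (by positivity)
        (gs_pos _).le
      have : gs 1 ≤ gs (t / Real.exp (2 * l)) := gs_anti (by
        rw [abs_one, abs_div, abs_of_pos (Real.exp_pos _), div_le_one (Real.exp_pos _)]
        exact ht.1)
      simpa [gs] using this
  refine le_of_mul_le_mul_left ((m2.trans m1).trans ?_) (by positivity)
  have a1 : (k : ℝ) ^ k * Real.exp (k * (2 * Real.log 2)) ≤ Real.exp (κ / 4 * l) := by
    rw [Real.exp_nat_mul, ← mul_pow, show 2 * Real.log 2 = Real.log 4 by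
      rw [show (4 : ℝ) = 2 ^ 2 by norm_num, Real.log_pow]; norm_num, Real.exp_log (by norm_num)]
    refine (pow_le_pow_left₀ (by positivity) ((mul_comm _ _).le.trans k5) k).trans ?_
    rw [← Real.exp_log (pow_pos r0 14), ← Real.exp_nat_mul, Real.log_pow]
    refine Real.exp_le_exp.2 (le_trans (le_of_eq ?_) k6)
    push_cast; ring
  have a2 : 2 * C * Real.exp π ≤ Real.exp (κ / 4 * l) := by
    rw [pow_zero, mul_one] at h2
    linarith [Real.add_one_le_exp (κ / 4 * l)]
  have a3 : Real.exp (k * Real.log P * (κ / 6)) ≤ Real.exp (κ / 2 * l) :=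
    Real.exp_le_exp.2 (by nlinarith)
  calc _ ≤ C * ((2 * P) ^ k + (2 * P) ^ k) * (k : ℝ) ^ k * (2 * P) ^ k := by gcongr
    _ = Real.exp (-π) * (P ^ (1 - κ / 12)) ^ (2 * k) * ((2 * C * Real.exp π) *
        ((k : ℝ) ^ k * Real.exp (k * (2 * Real.log 2))) *
          Real.exp (k * Real.log P * (κ / 6))) := by
      rw [eK, Real.rpow_def_of_pos P0, ← Real.exp_nat_mul]
      have : Real.exp (k * Lp) * Real.exp (k * Lp) = Real.exp (-π) *
          Real.exp (((2 * k : ℕ) : ℝ) * (Real.log P * (1 - κ / 12))) * Real.exp π *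
          Real.exp (k * (2 * Real.log 2)) * Real.exp (k * Real.log P * (κ / 6)) := by
        simp only [← Real.exp_add]
        congr 1
        rw [hLp]; push_cast; ring
      linear_combination 2 * C * (k : ℝ) ^ k * this
    _ ≤ Real.exp (-π) * (P ^ (1 - κ / 12)) ^ (2 * k) * (Real.exp (κ / 4 * l) *
        Real.exp (κ / 4 * l) * Real.exp (κ / 2 * l)) := by gcongr
    _ = _ := by
      simp only [← Real.exp_add]
      congr 2
      ring

end Pool.Agent.P.E2
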