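import Pool.Agent.P.MP_e94e4b_nt.E2.IfZ

/-! Step VB. -/

namespace Pool.Agent.P.E2

open Finset Real Filter Topology MeasureTheory
open Pool.Agent.P.MP_e86632_nt (ee nn ee_add norm_ee ee_neg ee_zero)
open Pool.Agent.P.MP_8be758_nt.Avg (gs Rough red ft en nsq vau_g gs_pos gs_le_one gs_neg gs_anti)
open Pool.Agent.P.MP_e94e4b_nt.PF (mN sgm)
open ArithmeticFunction (vonMangoldt moebius)
open DirichletCharacter (LFunction)

namespace VBa

end VBa

theorem p_VB (hEXP : S_EXP) :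
    S_VB := by
  filter_upwards [eventually_ge_atTop 125, ev_lin 8 0 one_pos (show 2 ≤ 9 by omega),
    ev_pp (4000 * 10 ^ 11 * 64) one_pos (show 8 < 9 by omega)] with r h1 h2 h3
  intro q M N c t hc hq hM hN hN2 ht ht2
  have r0 : 0 < r := by linarith
  have M0 : (0 : ℝ) < M := (Real.exp_pos _).trans_le hM
  have T0 : 0 < |2 * π * t| := by
    rw [abs_pos]
    intro h
    rw [h] at ht
    simp only [ne_eq, OfNat.ofNat_ne_zero, not_false_eq_true, zero_pow, mul_zero] at ht
    linarith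
  have m1 : r ^ 9 ≤ Real.log M := (Real.le_log_iff_exp_le M0).2 hM
  have u1 : Real.log |2 * π * t| ≤ 4 * r ^ 13 := (Real.log_le_iff_le_exp T0).2 ht2
  have u2 : Real.log M ≤ 4 * r + 2 * Real.log |2 * π * t| := by
    have := Real.log_le_log M0 ht
    rwa [← sq_abs, Real.log_mul (Real.exp_pos _).ne' (by positivity), Real.log_exp, Real.log_pow]
      at this
  have eT := Real.exp_log T0
  have eM := Real.exp_log M0
  generalize Real.log |2 * π * t| = u at u1 u2 eT
  generalize Real.log M = m at m1 u2 eM ⊢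
  have r9 : 0 < r ^ 9 := by positivity
  have r4 : r ≤ r ^ 4 := le_self_pow₀ (by linarith) (by omega)
  obtain ⟨Lg, τ, a1, a2, a3, a4, a5⟩ : ∃ Lg τ : ℝ, 1000 ≤ τ ∧ τ ≤ 8 * r ^ 4 ∧ τ * Lg = u ∧
      m / 4000 ≤ Lg ∧ Lg ≤ m / 2 := by
    have m0 : 0 < m := by linarith
    by_cases h : 500 * m ≤ u
    · refine ⟨m / 2, 2 * u / m, ?_, ?_, by field_simp, by linarith, le_rfl⟩
      · rw [le_div_iff₀ m0]; linarith
      · rw [div_le_iff₀ m0]
        calc 2 * u ≤ 8 * r ^ 13 := by linarith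
          _ = 8 * r ^ 4 * r ^ 9 := by ring
          _ ≤ _ := by gcongr
    · exact ⟨u / 1000, 1000, le_rfl, by linarith, by ring, by linarith, by linarith⟩
  have b1 : τ ^ 2 ≤ 64 * r ^ 8 := by
    calc τ ^ 2 ≤ (8 * r ^ 4) ^ 2 := by gcongr
      _ = _ := by ring
  have τ0 : 0 < τ := by linarith
  refine (hEXP Lg τ t q M N c a1 ?_ (by rw [a3, eT]) hc hN hN2 ?_).trans ?_
  · have := (Real.log_le_sub_one_of_pos τ0).trans (sub_le_self _ zero_le_one)
    have : τ * Real.log τ ≤ τ ^ 2 := by rw [pow_two]; gcongr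
    have : 0 < r ^ 8 := by positivity
    linarith
  · calc (q : ℝ) * Real.exp Lg ≤ Real.exp r * Real.exp Lg := by gcongr
      _ ≤ Real.exp m := by rw [← Real.exp_add]; exact Real.exp_le_exp.2 (by linarith)
      _ = M := eM
  · gcongr
    rw [neg_div, neg_le_neg_iff, div_le_div_iff₀ r9 (by positivity)]
    calc m * (10 ^ 11 * τ ^ 2) = m / 4000 * (4000 * 10 ^ 11 * τ ^ 2) := by ring
      _ ≤ Lg * r ^ 9 := by
        have : 0 ≤ Lg := by linarith
        gcongr
        linarith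

end Pool.Agent.P.E2
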