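import Pool.Agent.P.MP_e94e4b_nt.E2.IfC

/-! Step WEYL. -/

namespace Pool.Agent.P.E2

open Finset Real Filter Topology MeasureTheory
open Pool.Agent.P.MP_e86632_nt (ee nn ee_add norm_ee ee_neg ee_zero)
open Pool.Agent.P.MP_8be758_nt.Avg (gs Rough red ft en nsq vau_g gs_pos gs_le_one gs_neg gs_anti)
open Pool.Agent.P.MP_e94e4b_nt.PF (mN sgm)
open ArithmeticFunction (vonMangoldt moebius)
open DirichletCharacter (LFunction)

namespace WEYLa

theorem sq_exp (u : ℕ → ℂ) (h : ∀ n, ‖u n‖ = 1) (L : ℕ) :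
    ‖∑ n ∈ range L, u n‖ ^ 2 =
      L + 2 * (∑ m ∈ range L, ∑ n ∈ range m, u m * (starRingEnd ℂ) (u n)).re := by
  induction L with
  | zero => simp
  | succ L ih =>
    rw [sum_range_succ, sum_range_succ, ← mul_sum, ← map_sum, Complex.add_re,
      ← Complex.normSq_eq_norm_sq, add_comm (∑ n ∈ range L, u n), Complex.normSq_add,
      Complex.normSq_eq_norm_sq, Complex.normSq_eq_norm_sq, ih, h]
    push_cast
    ring

theorem tri (f : ℕ → ℕ → ℂ) (L : ℕ) :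
    ∑ m ∈ range L, ∑ n ∈ range m, f m n =
      ∑ d ∈ Icc 1 L, ∑ n ∈ range (L - d), f (n + d) n := by
  rw [sum_sigma', sum_sigma']
  refine sum_nbij' (fun x => ⟨x.1 - x.2, x.2⟩) (fun x => ⟨x.2 + x.1, x.2⟩) ?_ ?_ ?_ ?_ ?_
  · rintro ⟨a, b⟩ h
    simp only [mem_sigma, mem_range, mem_Icc] at h ⊢
    omega
  · rintro ⟨a, b⟩ h
    simp only [mem_sigma, mem_range, mem_Icc] at h ⊢
    omega
  · rintro ⟨a, b⟩ h
    simp only [mem_sigma, mem_range] at h
    have : b + (a - b) = a := by omega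
    simp only [this]
  · rintro ⟨a, b⟩ _
    simp only [Nat.add_sub_cancel_left]
  · rintro ⟨a, b⟩ h
    simp only [mem_sigma, mem_range] at h
    have : b + (a - b) = a := by omega
    simp only [this]

theorem shift (θ : ℝ) (k : ℕ) :
    ∑ n ∈ range k, ee ((n + 1) * θ) = ∑ m ∈ Ioc 0 k, ee (m * θ) := by
  induction k with
  | zero => simp
  | succ k ih => rw [sum_range_succ, ih, sum_Ioc_succ_top (Nat.zero_le k)]; push_cast; rfl

theorem inner (α : ℝ) (N0 d k : ℕ) :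
    ‖∑ n ∈ range k, ee (mN (N0 + (n + d)) * α) * (starRingEnd ℂ) (ee (mN (N0 + n) * α))‖ =
      ‖∑ m ∈ Ioc 0 k, ee (m * (((4 * d : ℕ) : ℝ) * α))‖ := by
  have : ∀ n : ℕ, ee (mN (N0 + (n + d)) * α) * (starRingEnd ℂ) (ee (mN (N0 + n) * α)) =
      ee ((4 * d * N0 - 2 * d + 2 * d ^ 2) * α) * ee ((n + 1) * (((4 * d : ℕ) : ℝ) * α)) := by
    intro n
    rw [← ee_neg, ← ee_add, ← ee_add, mN, mN]
    congr 1
    push_cast
    ring
  simp only [this]
  rw [← mul_sum, norm_mul, norm_ee, one_mul, shift]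

theorem inner_le {θ δ : ℝ} (hδ : 0 < δ) {k L : ℕ} (hk : k ≤ L) :
    ‖∑ m ∈ Ioc 0 k, ee (m * θ)‖ ≤ (if nn θ ≤ δ then (L : ℝ) else 0) + 1 / (2 * δ) := by
  split_ifs with h
  · have h1 : ‖∑ m ∈ Ioc 0 k, ee (m * θ)‖ ≤ k :=
      (norm_sum_le_of_le _ (n := fun _ => (1 : ℝ)) fun _ _ => (norm_ee _).le).trans (by simp)
    have h2 : (k : ℝ) ≤ L := by exact_mod_cast hk
    have h3 : 0 < 1 / (2 * δ) := by positivity
    linarith
  · rw [not_le] at h
    rw [zero_add]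
    refine (Pool.Agent.P.MP_e86632_nt.geom_bound (hδ.trans h) 0 k).trans ?_
    gcongr

end WEYLa

theorem p_WEYL (hCNT : S_CNT) :
    S_WEYL := by
  intro α δ a q N0 L hq ha hδ hα
  have h1 := hCNT α δ a q (4 * L) hq ha hδ.le hα
  have h2 : ((Icc 1 L).filter fun d : ℕ => nn (((4 * d : ℕ) : ℝ) * α) ≤ δ).card ≤
      ((Icc 1 (4 * L)).filter fun j : ℕ => nn (j * α) ≤ δ).card := by
    refine card_le_card_of_injOn (fun d => 4 * d) (fun d hd => ?_) fun d _ d' _ h => by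
      simpa using h
    simp only [coe_filter, mem_Icc, Set.mem_ofPred_eq] at hd ⊢
    exact ⟨by omega, hd.2⟩
  have h3 := (Nat.cast_le (α := ℝ).2 h2).trans h1
  rw [Ws, sum_Ico_eq_sum_range, Nat.add_sub_cancel_left,
    WEYLa.sq_exp (fun n => ee (mN (N0 + n) * α)) (fun _ => norm_ee _), WEYLa.tri]
  have h4 : ‖∑ d ∈ Icc 1 L, ∑ n ∈ range (L - d),
      ee (mN (N0 + (n + d)) * α) * (starRingEnd ℂ) (ee (mN (N0 + n) * α))‖ ≤
      ∑ d ∈ Icc 1 L, ((if nn (((4 * d : ℕ) : ℝ) * α) ≤ δ then (L : ℝ) else 0) + 1 / (2 * δ)) :=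
    norm_sum_le_of_le _ fun d _ => by
      rw [WEYLa.inner]
      exact WEYLa.inner_le hδ (Nat.sub_le _ _)
  rw [sum_add_distrib, ← sum_filter, sum_const, sum_const, nsmul_eq_mul, nsmul_eq_mul,
    Nat.card_Icc, Nat.add_sub_cancel] at h4
  have h5 := (Complex.re_le_norm _).trans h4
  have h6 := mul_le_mul_of_nonneg_right h3 (Nat.cast_nonneg (α := ℝ) L)
  have h7 : (L : ℝ) / δ = 2 * (L * (1 / (2 * δ))) := by field_simp
  rw [show ((4 * L : ℕ) : ℝ) = 4 * L by push_cast; rfl] at h6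
  linarith

end Pool.Agent.P.E2
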