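import Pool.Agent.P.MP_e94e4b_nt.E2.IfD

/-! Step WF. -/

namespace Pool.Agent.P.E2

open Finset Real Filter Topology MeasureTheory
open Pool.Agent.P.MP_e86632_nt (ee nn ee_add norm_ee ee_neg ee_zero)
open Pool.Agent.P.MP_8be758_nt.Avg (gs Rough red ft en nsq vau_g gs_pos gs_le_one gs_neg gs_anti)
open Pool.Agent.P.MP_e94e4b_nt.PF (mN sgm)
open ArithmeticFunction (vonMangoldt moebius)
open DirichletCharacter (LFunction)

namespace WFa

end WFa

theorem p_WF :
    S_WF := by
  intro w α β hw h
  refine ⟨fun s => (gs (w * s) : ℂ) * ∫ v in α..β, ee (-(s * v)), ?_, fun s => ?_, fun x => ?_⟩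
  · refine Continuous.mul (by fun_prop)
      (intervalIntegral.continuous_parametric_intervalIntegral_of_continuous' ?_ α β)
    unfold Function.uncurry
    fun_prop
  · rw [norm_mul, Complex.norm_real, Real.norm_of_nonneg (gs_pos _).le, mul_comm]
    refine mul_le_mul_of_nonneg_right ?_ (gs_pos _).le
    refine (intervalIntegral.norm_integral_le_of_norm_le_const (C := 1)
      fun v _ => (norm_ee _).le).trans_eq ?_
    rw [one_mul, abs_of_nonneg (sub_nonneg.2 h)]
  · have hi : Integrable (fun s : ℝ => gs (w * s)) := by
      simpa [mul_comm] using gs_integrable (inv_pos.2 hw)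
    have h1 : Integrable (Function.uncurry fun v s : ℝ => (gs (w * s) : ℂ) * ee (s * (x - v)))
        ((volume.restrict (Set.Ioc α β)).prod volume) := by
      refine ((integrable_const (1 : ℝ)).mul_prod hi).mono' (Continuous.aestronglyMeasurable ?_)
        (ae_of_all _ fun p => ?_)
      · unfold Function.uncurry
        fun_prop
      · simp only [Function.uncurry, norm_mul, norm_ee, Complex.norm_real, mul_one, one_mul]
        exact (Real.norm_of_nonneg (gs_pos _).le).le
    rw [win, ← intervalIntegral.integral_ofReal, intervalIntegral.integral_of_le h]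
    simp only [← gk_four' hw]
    rw [integral_integral_swap h1]
    refine integral_congr_ae (ae_of_all _ fun s => ?_)
    simp only
    rw [intervalIntegral.integral_of_le h, mul_assoc, ← integral_mul_const, ← integral_const_mul]
    refine integral_congr_ae (ae_of_all _ fun v => ?_)
    simp only
    rw [← ee_add]
    congr 2
    ring

end Pool.Agent.P.E2
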