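import Pool.Agent.P.MP_e94e4b_nt.E2.IfZ

/-! Step WIN1. -/

namespace Pool.Agent.P.E2

open Finset Real Filter Topology MeasureTheory
open Pool.Agent.P.MP_e86632_nt (ee nn ee_add norm_ee ee_neg ee_zero)
open Pool.Agent.P.MP_8be758_nt.Avg (gs Rough red ft en nsq vau_g gs_pos gs_le_one gs_neg gs_anti)
open Pool.Agent.P.MP_e94e4b_nt.PF (mN sgm)
open ArithmeticFunction (vonMangoldt moebius)
open DirichletCharacter (LFunction)

namespace WIN1a

theorem le_tail {w W : ℝ} (hw : 0 < w) (hW : 0 ≤ W) {S : Set ℝ} (h : ∀ u ∈ S, w * W ≤ |u|) :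
    ∫ u in S, gk w u ≤ 2 * Real.exp (-W ^ 2) :=
  (setIntegral_mono_set (gk_integrable hw).integrableOn (ae_of_all _ (gk_nonneg hw))
    (LE.le.eventuallyLE h)).trans (gk_tail hw hW)

end WIN1a

open WIN1a in
theorem p_WIN1 :
    S_WIN1 := by
  intro w α β x W hw hab hW
  have e : win w α β x = ∫ u in Set.Icc (x - β) (x - α), gk w u := by
    rw [win, intervalIntegral.integral_comp_sub_left (gk w) x,
      intervalIntegral.integral_of_le (by linarith), integral_Icc_eq_integral_Ioc]
  refine ⟨e ▸ integral_nonneg (gk_nonneg hw), ?_, fun a b => ?_, fun a => ?_, fun a => ?_⟩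
  · rw [e, ← gk_integral hw]
    exact setIntegral_le_integral (gk_integrable hw) (ae_of_all _ (gk_nonneg hw))
  · have h1 := integral_add_compl (measurableSet_Icc (a := x - β) (b := x - α)) (gk_integrable hw)
    have h2 := le_tail hw hW (S := (Set.Icc (x - β) (x - α))ᶜ) fun u hu => by
      rw [Set.mem_compl_iff, Set.mem_Icc, not_and_or, not_le, not_le] at hu
      rw [le_abs]
      exact hu.symm.imp (fun _ => by linarith) fun _ => by linarith
    rw [gk_integral hw] at h1
    linarith
  · rw [e]
    refine le_tail hw hW fun u hu => le_abs.2 ?_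
    exact a.symm.imp (fun _ => by linarith [hu.1]) fun _ => by linarith [hu.2]
  · have := intervalIntegral.integral_mono_on (μ := volume) hab
      (gk_integrable' hw x).intervalIntegrable
      (intervalIntegrable_const (c := gk w (x - β))) fun v hv => gk_anti hw (by
        rw [abs_of_nonneg (by linarith), abs_of_nonneg (by linarith [hv.2])]
        linarith [hv.2])
    rwa [intervalIntegral.integral_const, smul_eq_mul] at this

end Pool.Agent.P.E2
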