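import Pool.Agent.P.MP_e94e4b_nt.E2.IfZ

/-! Step WIN2. -/

namespace Pool.Agent.P.E2

open Finset Real Filter Topology MeasureTheory
open Pool.Agent.P.MP_e86632_nt (ee nn ee_add norm_ee ee_neg ee_zero)
open Pool.Agent.P.MP_8be758_nt.Avg (gs Rough red ft en nsq vau_g gs_pos gs_le_one gs_neg gs_anti)
open Pool.Agent.P.MP_e94e4b_nt.PF (mN sgm)
open ArithmeticFunction (vonMangoldt moebius)
open DirichletCharacter (LFunction)

namespace WIN2a

/-- indicator of the integers near `X` -/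
noncomputable def nr (δ : ℝ) (X n : ℕ) : ℝ := if |Real.log n - Real.log X| < δ ∧ n ≠ 0 then 1 else 0

theorem nr_nonneg (δ : ℝ) (X n : ℕ) : 0 ≤ nr δ X n := by unfold nr; split_ifs <;> norm_num

theorem nr_sum {δ : ℝ} (h0 : 0 ≤ δ) (h1 : δ ≤ 1) {X : ℕ} (hX : X ≠ 0) (S : Finset ℕ) :
    ∑ n ∈ S, nr δ X n ≤ 3 * δ * X + 1 := by
  have hX' : (0 : ℝ) < X := by exact_mod_cast Nat.pos_of_ne_zero hX
  have hs : S.filter (fun n : ℕ => |Real.log n - Real.log X| < δ ∧ n ≠ 0) ⊆
      Icc ⌈X * (1 - δ)⌉₊ ⌊X * (1 + 2 * δ)⌋₊ := by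
    intro n hn
    obtain ⟨-, h2, h3⟩ := mem_filter.1 hn
    have hn' : (0 : ℝ) < n := by exact_mod_cast Nat.pos_of_ne_zero h3
    obtain ⟨a, b⟩ := abs_lt.1 h2
    have e : (n : ℝ) = X * Real.exp (Real.log n - Real.log X) := by
      rw [Real.exp_sub, Real.exp_log hn', Real.exp_log hX']; field_simp
    refine mem_Icc.2 ⟨Nat.ceil_le.2 ?_, Nat.le_floor ?_⟩
    · rw [e]; gcongr; linarith [Real.add_one_le_exp (Real.log n - Real.log X)]
    · have h4 := abs_le.1 (Real.abs_exp_sub_one_le (x := δ) (by rwa [abs_of_nonneg h0]))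
      rw [abs_of_nonneg h0] at h4
      rw [e]; gcongr; linarith [Real.exp_le_exp.2 b.le]
  unfold nr
  rw [sum_boole]
  refine (Nat.cast_le.2 (card_le_card hs)).trans ?_
  have a := Nat.le_ceil (X * (1 - δ))
  have b := Nat.floor_le (a := X * (1 + 2 * δ)) (by positivity)
  rw [Nat.card_Icc]
  rcases le_total ⌈X * (1 - δ)⌉₊ (⌊X * (1 + 2 * δ)⌋₊ + 1) with h | h
  · rw [Nat.cast_sub h]; push_cast; linarith
  · rw [Nat.sub_eq_zero_of_le h, Nat.cast_zero]; positivity

theorem pw (hWIN1 : S_WIN1) {w W : ℝ} (hw : 0 < w) (hW : 0 ≤ W) {M N n : ℕ} (hM : M ≠ 0)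
    (hMN : M ≤ N) (hn : n ≠ 0) :
    |win w (Real.log M) (Real.log N) (Real.log n) - if n ∈ Ioc M N then 1 else 0| ≤
      2 * Real.exp (-W ^ 2) + nr (W * w) M n + nr (W * w) N n := by
  have lg : ∀ {a b : ℕ}, a ≠ 0 → a ≤ b → Real.log a ≤ Real.log b := fun ha h =>
    Real.log_le_log (by exact_mod_cast Nat.pos_of_ne_zero ha) (by exact_mod_cast h)
  obtain ⟨a1, a2, a3, a4, -⟩ := hWIN1 w _ _ (Real.log n) W hw (lg hM hMN) hW
  have e := Real.exp_pos (-W ^ 2)
  have n1 := nr_nonneg (W * w) M n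
  have n2 := nr_nonneg (W * w) N n
  have h1 : |win w (Real.log M) (Real.log N) (Real.log n) - if n ∈ Ioc M N then 1 else 0| ≤ 1 := by
    split_ifs <;> rw [abs_le] <;> constructor <;> linarith
  by_cases c1 : |Real.log n - Real.log M| < W * w
  · have : nr (W * w) M n = 1 := if_pos ⟨c1, hn⟩
    linarith
  by_cases c2 : |Real.log n - Real.log N| < W * w
  · have : nr (W * w) N n = 1 := if_pos ⟨c2, hn⟩
    linarith
  rw [not_lt] at c1 c2
  split_ifs with h
  · obtain ⟨b1, b2⟩ := mem_Ioc.1 h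
    rw [abs_of_nonneg (sub_nonneg.2 (lg hM b1.le))] at c1
    rw [abs_of_nonpos (sub_nonpos.2 (lg hn b2))] at c2
    have := a3 (by linarith) (by linarith)
    rw [abs_of_nonpos (by linarith)]; linarith
  · rw [sub_zero, abs_of_nonneg a1]
    refine (a4 ?_).trans (by linarith)
    rcases le_or_gt n M with b | b
    · rw [abs_of_nonpos (sub_nonpos.2 (lg hn b))] at c1
      exact Or.inl (by linarith)
    · have b2 : N ≤ n := by rw [mem_Ioc] at h; omega
      rw [abs_of_nonneg (sub_nonneg.2 (lg (by omega) b2))] at c2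
      exact Or.inr (by linarith)

theorem far (hTAIL : S_TAIL) (hWIN1 : S_WIN1) {w : ℝ} (hw : 0 < w) (hw1 : w ≤ 1) {M N : ℕ}
    (hM : M ≠ 0) (hMN : M ≤ N) (hN : N ≤ 2 * M) (S : Finset ℕ) (hS : ∀ n ∈ S, 4 * M < n) :
    ∑ n ∈ S, vonMangoldt n * |win w (Real.log M) (Real.log N) (Real.log n) -
      if n ∈ Ioc M N then 1 else 0| ≤ 30 * Real.exp (4 * Real.log N - (1 / 2 / w) ^ 2) / w := by
  have hM' : (0 : ℝ) < M := by exact_mod_cast Nat.pos_of_ne_zero hM
  have hMN' : (M : ℝ) ≤ N := by exact_mod_cast hMN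
  have l2 := Real.log_two_gt_d9
  have l3 := Real.log_two_lt_d9
  have h1 : Real.log N ≤ Real.log 2 + Real.log M := by
    rw [← Real.log_mul two_ne_zero hM'.ne']
    exact Real.log_le_log (by linarith) (by exact_mod_cast hN)
  have h2 : ∀ n ∈ S, Real.log 2 + Real.log N ≤ Real.log n := fun n hn => by
    have := hS n hn
    rw [← Real.log_mul two_ne_zero (by linarith)]
    exact Real.log_le_log (by linarith) (by exact_mod_cast (by omega : 2 * N ≤ n))
  refine le_trans (sum_le_sum fun n hn => ?_) ((hTAIL vonMangoldt w (Real.log N) (1 / 2) hw hw1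
    (by norm_num) fun n => ⟨ArithmeticFunction.vonMangoldt_nonneg, lam_le n⟩).2.2 S fun n hn =>
      le_trans (by linarith [h2 n hn]) (le_abs_self _))
  obtain ⟨a1, -, -, -, a5⟩ := hWIN1 w _ _ (Real.log n) 0 hw (Real.log_le_log hM' hMN') le_rfl
  have := hS n hn
  rw [if_neg (by rw [mem_Ioc]; omega), sub_zero, abs_of_nonneg a1]
  refine mul_le_mul_of_nonneg_left ((a5 (by linarith [h2 n hn])).trans ?_)
    ArithmeticFunction.vonMangoldt_nonneg
  exact mul_le_of_le_one_left (gk_nonneg hw _) (by linarith)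

theorem near (hWIN1 : S_WIN1) {w W l : ℝ} (hw : 0 < w) (hW : 0 ≤ W) (hd : W * w ≤ 1) {M N : ℕ}
    (hM : M ≠ 0) (hMN : M ≤ N) (hN : N ≤ 2 * M) (hl : Real.log (4 * M) ≤ l) (S : Finset ℕ)
    (hS : ∀ n ∈ S, n ≤ 4 * M) :
    ∑ n ∈ S, vonMangoldt n * |win w (Real.log M) (Real.log N) (Real.log n) -
      if n ∈ Ioc M N then 1 else 0| ≤ l * (10 * M * Real.exp (-W ^ 2) + 9 * (W * w) * M + 2) := by
  have hM' : (1 : ℝ) ≤ M := by exact_mod_cast Nat.pos_of_ne_zero hM
  have hN' : (N : ℝ) ≤ 2 * M := by exact_mod_cast hN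
  have hl0 : 0 ≤ l := (Real.log_nonneg (by linarith)).trans hl
  have hd0 : 0 ≤ W * w := by positivity
  have e := Real.exp_pos (-W ^ 2)
  have hc : (S.card : ℝ) ≤ 5 * M := by
    have : S.card ≤ 4 * M + 1 := by
      simpa using card_le_card fun n hn => mem_range.2 (Nat.lt_succ_of_le (hS n hn))
    exact_mod_cast (by omega : S.card ≤ 5 * M)
  calc _ ≤ ∑ n ∈ S, l * (2 * Real.exp (-W ^ 2) + nr (W * w) M n + nr (W * w) N n) := by
        refine sum_le_sum fun n hn => ?_
        rcases eq_or_ne n 0 with rfl | h0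
        · have := nr_nonneg (W * w) M 0
          have := nr_nonneg (W * w) N 0
          rw [ArithmeticFunction.map_zero, zero_mul]; positivity
        refine mul_le_mul (ArithmeticFunction.vonMangoldt_le_log.trans (le_trans ?_ hl))
          (pw hWIN1 hw hW hM hMN h0) (abs_nonneg _) hl0
        exact Real.log_le_log (by exact_mod_cast Nat.pos_of_ne_zero h0) (by exact_mod_cast hS n hn)
    _ ≤ _ := by
        rw [← mul_sum, sum_add_distrib, sum_add_distrib, sum_const, nsmul_eq_mul]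
        have h1 := nr_sum hd0 hd hM S
        have h2 := nr_sum hd0 hd (X := N) (by omega) S
        refine mul_le_mul_of_nonneg_left ?_ hl0
        nlinarith [mul_le_mul_of_nonneg_right hc e.le, mul_le_mul_of_nonneg_left hN' hd0]

end WIN2a

open WIN2a in
theorem p_WIN2 (hTAIL : S_TAIL) (hWIN1 : S_WIN1) :
    S_WIN2 := by
  filter_upwards [eventually_ge_atTop 1, ev_pe 72 13 (c := 6) (by norm_num), ev_pe1 180 13,
    ev_pe1 162 20, ev_lin 3 0 (c := 3 / 10) (by norm_num) (k := 13) (by norm_num),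
    ev_lin 0 2 one_pos (k := 13) (by norm_num)] with r r1 r2 r3 r4 r5 r6 M N hM hMN hN hN2
  have p1 : r ≤ r ^ 13 := le_self_pow₀ r1 (by norm_num)
  have p2 : r ^ 13 ≤ (r ^ 7) ^ 2 := by rw [← pow_mul]; exact pow_le_pow_right₀ r1 (by norm_num)
  have p3 : r ^ 7 ≤ r ^ 20 := pow_le_pow_right₀ r1 (by norm_num)
  have p4 : 0 ≤ r ^ 7 := by positivity
  have hM1 : (1 : ℝ) ≤ M := le_trans (Real.one_le_exp (by positivity)) hM
  have hM0 : M ≠ 0 := by rintro rfl; norm_num at hM1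
  have hMN' : (M : ℝ) ≤ N := by exact_mod_cast hMN
  have hlN : Real.log N ≤ 2 * r ^ 13 := (Real.log_le_iff_le_exp (by linarith)).2 hN2
  have hl : Real.log (4 * M) ≤ 3 * r ^ 13 := by
    rw [Real.log_mul (by norm_num) (by linarith), show (4 : ℝ) = 2 ^ 2 by norm_num, Real.log_pow]
    have := Real.log_le_log (by linarith) hMN'
    push_cast
    linarith [Real.log_two_lt_d9]
  set w := Real.exp (-(3 * r)) with hw
  set E := Real.exp (-(2 * r)) with hE
  have w0 : 0 < w := Real.exp_pos _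
  have E0 : 0 < E := Real.exp_pos _
  have E1 : E ≤ 1 := Real.exp_le_one_iff.2 (by linarith)
  have q0 : Real.exp r * w = E := by rw [← Real.exp_add]; congr 1; ring
  have q1 : 162 * (r ^ 20 * w) ≤ E := by nlinarith
  have q2 : 180 * (r ^ 13 * Real.exp (-(r ^ 7) ^ 2)) ≤ E := by
    have : Real.exp (-(r ^ 7) ^ 2) ≤ w := Real.exp_le_exp.2 (by linarith)
    nlinarith [Real.exp_pos (-(r ^ 7) ^ 2), Real.exp_pos r]
  have q3 : 180 * r ^ 13 ≤ M * E := by
    have : Real.exp r ≤ Real.exp (3 / 10 * r ^ 13) * E := by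
      rw [← Real.exp_add]; exact Real.exp_le_exp.2 (by linarith)
    nlinarith
  have q4 : 30 * Real.exp (4 * Real.log N - (1 / 2 / w) ^ 2) / w ≤ E / 3 := by
    have a : (1 / 2 / w) ^ 2 = Real.exp (6 * r) / 4 := by
      rw [show 6 * r = -(-(3 * r)) + -(-(3 * r)) by ring, Real.exp_add, Real.exp_neg (-(3 * r)),
        ← hw]
      field_simp; norm_num
    have b : Real.exp (4 * Real.log N - (1 / 2 / w) ^ 2) * Real.exp r ≤ E * w := by
      rw [← Real.exp_add, ← Real.exp_add, a]; exact Real.exp_le_exp.2 (by linarith)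
    rw [div_le_iff₀ w0]
    nlinarith [Real.exp_pos (4 * Real.log N - (1 / 2 / w) ^ 2)]
  have key : ∀ S : Finset ℕ, ∑ n ∈ S, vonMangoldt n *
      |win w (Real.log M) (Real.log N) (Real.log n) - if n ∈ Ioc M N then 1 else 0| ≤ M * E := by
    intro S
    have h1 := near hWIN1 w0 p4 (by nlinarith) hM0 hMN hN hl (S.filter (· ≤ 4 * M))
      fun n hn => (mem_filter.1 hn).2
    have h2 := far hTAIL hWIN1 w0 (Real.exp_le_one_iff.2 (by linarith)) hM0 hMN hN
      (S.filter fun n => ¬ n ≤ 4 * M) fun n hn => not_le.1 (mem_filter.1 hn).2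
    rw [← sum_filter_add_sum_filter_not S (· ≤ 4 * M)]
    have h3 := mul_le_mul_of_nonneg_left q1 (zero_le_one.trans hM1)
    have h4 := mul_le_mul_of_nonneg_left q2 (zero_le_one.trans hM1)
    have h5 := mul_le_mul_of_nonneg_right hM1 E0.le
    linarith
  have h0 := fun n : ℕ => mul_nonneg (ArithmeticFunction.vonMangoldt_nonneg (n := n)) (abs_nonneg
    (win w (Real.log M) (Real.log N) (Real.log n) - if n ∈ Ioc M N then 1 else 0))
  exact ⟨summable_of_sum_le h0 key, Real.tsum_le_of_sum_le h0 key⟩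

end Pool.Agent.P.E2
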