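import Pool.Agent.P.MP_e94e4b_nt.E2.IfZ

/-! Step ZF. -/

namespace Pool.Agent.P.E2

open Finset Real Filter Topology MeasureTheory
open Pool.Agent.P.MP_e86632_nt (ee nn ee_add norm_ee ee_neg ee_zero)
open Pool.Agent.P.MP_8be758_nt.Avg (gs Rough red ft en nsq vau_g gs_pos gs_le_one gs_neg gs_anti)
open Pool.Agent.P.MP_e94e4b_nt.PF (mN sgm)
open ArithmeticFunction (vonMangoldt moebius)
open DirichletCharacter (LFunction)

namespace ZFa

theorem lan (hLAN : S_LAN) (hZL2 : S_ZL2) {r : ℝ} (hr : 14 ≤ r)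
    (hLB : ∀ (q : ℕ) [NeZero q] (χ : DirichletCharacter ℂ q) (s : ℂ),
      (q : ℝ) ≤ Real.exp r → 1 - 1 / r ^ 9 ≤ s.re → s.re ≤ 2 → 1 ≤ |s.im| →
      |s.im| ≤ Real.exp (4 * r ^ 13) → ‖LFunction χ s‖ ≤ Real.exp r)
    (he : r ^ 11 ≤ Real.exp r) {q : ℕ} [NeZero q] (χ : DirichletCharacter ℂ q)
    (hq : (q : ℝ) ≤ Real.exp r) {s0 : ℂ} (h0 : s0.re = 1 + 40 / r ^ 11) (h1 : 2 ≤ |s0.im|)
    (h2 : |s0.im| ≤ Real.exp (4 * r ^ 13) / 2) :
    (ld χ s0).re ≤ 32 * (2 * r + 1) * r ^ 9 ∧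
      ∀ z, ‖z - s0‖ ≤ 48 / r ^ 11 → LFunction χ z = 0 →
        (ld χ s0).re ≤ 32 * (2 * r + 1) * r ^ 9 - (1 / (s0 - z)).re := by
  have r0 : 0 < r := by linarith
  have r2 : 192 ≤ r ^ 2 := by nlinarith
  have r9 : 2 ≤ r ^ 9 := le_trans (by linarith) (le_self_pow₀ (by linarith) (by norm_num))
  have d0 : 0 < 1 / r ^ 9 := by positivity
  have d1 : 1 / r ^ 9 ≤ 1 / 2 := one_div_le_one_div_of_le (by norm_num) r9
  have d2 : 0 < 1 / r ^ 11 := by positivity
  have d3 : 192 * (1 / r ^ 11) ≤ 1 / r ^ 9 := by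
    rw [mul_one_div, div_le_div_iff₀ (by positivity) (by positivity)]
    have : r ^ 11 = r ^ 2 * r ^ 9 := by ring
    nlinarith
  have e40 : 40 / r ^ 11 = 40 * (1 / r ^ 11) := by ring
  have e48 : 48 / r ^ 11 = 48 * (1 / r ^ 11) := by ring
  rw [e40] at h0
  have hb : ∀ s ∈ Metric.closedBall s0 (1 / r ^ 9), 1 - 1 / r ^ 9 ≤ s.re ∧ s.re ≤ 2 ∧
      1 ≤ |s.im| ∧ |s.im| ≤ Real.exp (4 * r ^ 13) := by
    intro s hs
    rw [Metric.mem_closedBall, dist_eq_norm] at hs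
    have a1 := abs_le.1 ((Complex.abs_re_le_norm (s - s0)).trans hs)
    have a2 := (Complex.abs_im_le_norm (s - s0)).trans hs
    rw [Complex.sub_re] at a1
    rw [Complex.sub_im] at a2
    have a3 := abs_le.1 ((abs_abs_sub_abs_le_abs_sub _ _).trans a2)
    refine ⟨?_, ?_, ?_, ?_⟩ <;> linarith [a1.1, a1.2, a3.1, a3.2]
  have hne : ∀ s ∈ Metric.closedBall s0 (1 / r ^ 9), s ≠ 1 := by
    rintro s hs rfl
    have := (hb 1 hs).2.2.1
    norm_num at this
  have hl := (hZL2.2 q χ s0 (by linarith) (by linarith)).2.2.2.2.1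
  have hl' : 1 / r ^ 11 ≤ ‖LFunction χ s0‖ := by linarith
  have key := hLAN (LFunction χ) s0 (1 / r ^ 9) (2 * r) d0
    (fun s hs => (DirichletCharacter.differentiableAt_LFunction χ s
      (Or.inl (hne s hs))).differentiableWithinAt)
    (norm_pos_iff.1 (d2.trans_le hl'))
    (fun s hs => by
      obtain ⟨a1, a2, a3, a4⟩ := hb s hs
      refine (hLB q χ s hq a1 a2 a3 a4).trans ?_
      have a5 : 1 ≤ Real.exp r * ‖LFunction χ s0‖ := by
        calc (1 : ℝ) = r ^ 11 * (1 / r ^ 11) := by field_simp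
          _ ≤ _ := by gcongr
      rw [two_mul, Real.exp_add, mul_assoc]
      exact le_mul_of_one_le_right (Real.exp_pos _).le a5)
    (fun s hs h => by
      by_contra hc
      exact DirichletCharacter.LFunction_ne_zero_of_one_le_re χ (Or.inr (hne s hs))
        (by linarith) h)
  rw [div_div_eq_mul_div, div_one] at key
  rw [ld, Complex.neg_re]
  exact ⟨key.1, fun z hz h => key.2 z (by linarith) h⟩

end ZFa

theorem p_ZF (hLB : S_LB) (hLAN : S_LAN) (hZL1 : S_ZL1) (hZL2 : S_ZL2) (hT341 : S_T341) :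
    S_ZF := by
  obtain ⟨C, -, hC⟩ := hZL1
  filter_upwards [hLB, eventually_ge_atTop 14, ev_pe1 1 11,
    ev_pp (3 * C) (c := 1 / 1000) (by norm_num) (show 0 < 11 by norm_num),
    ev_pp 320 (c := 1 / 1000) (by norm_num) (show 10 < 11 by norm_num),
    ev_pp 160 (c := 1 / 1000) (by norm_num) (show 9 < 11 by norm_num)]
    with r h1 hr he c0 c10 c9 q _ χ s hq hre hi1 hi2 hz
  rw [one_mul] at he
  rw [pow_zero, mul_one] at c0
  have r0 : 0 < r := by linarith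
  have r11 : 40 ≤ r ^ 11 :=
    le_trans (by nlinarith : (40 : ℝ) ≤ r ^ 2) (pow_le_pow_right₀ (by linarith) (by norm_num))
  have hs1 : s ≠ 1 := by
    rintro rfl
    norm_num at hi1
  have hb : s.re < 1 := by
    by_contra hc
    exact DirichletCharacter.LFunction_ne_zero_of_one_le_re χ (Or.inr hs1) (not_lt.1 hc) hz
  set σ : ℝ := 1 + 40 / r ^ 11 with hσ
  have d0 : 0 < 40 / r ^ 11 := by positivity
  have d1 : 40 / r ^ 11 ≤ 1 := (div_le_one (by positivity)).2 r11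
  have d2 : σ - s.re ≤ 48 / r ^ 11 := by
    have : 48 / r ^ 11 = 40 / r ^ 11 + 8 / r ^ 11 := by ring
    linarith
  have d3 : 0 < σ - s.re := by linarith
  have hE := Real.exp_pos (4 * r ^ 13)
  have e1 : (σ : ℂ) + s.im * Complex.I - s = ((σ - s.re : ℝ) : ℂ) := by
    apply Complex.ext <;> simp
  have a1 := (ZFa.lan hLAN hZL2 hr h1 he χ hq (s0 := σ + s.im * Complex.I) (by rw [← hσ]; simp)
    (by simpa using hi1) (by simp; linarith)).2 s
    (by rw [norm_sub_rev, e1, Complex.norm_real, Real.norm_of_nonneg d3.le]; exact d2) hz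
  have a2 := (ZFa.lan hLAN hZL2 hr h1 he (χ ^ 2) hq (s0 := σ + 2 * s.im * Complex.I)
    (by rw [← hσ]; simp) (by simp [abs_mul]; linarith) (by simp [abs_mul]; linarith)).1
  have a3 := hT341 q χ σ s.im (by linarith) (by linarith)
  have a4 := hC σ (by linarith) (by linarith)
  have a5 : 1 / (σ - 1) = r ^ 11 / 40 := by
    rw [hσ, add_sub_cancel_left, one_div_div]
  have a6 : r ^ 11 / 48 ≤ (1 / ((σ : ℂ) + s.im * Complex.I - s)).re := by
    rw [e1, ← Complex.ofReal_one, ← Complex.ofReal_div, Complex.ofReal_re, ← one_div_div]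
    exact one_div_le_one_div_of_le d3 d2
  have a7 : 32 * (2 * r + 1) * r ^ 9 = 64 * r ^ 10 + 32 * r ^ 9 := by ring
  linarith

end Pool.Agent.P.E2
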