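import Pool.Agent.P.MP_e94e4b_nt.E2.IfZ

/-! Step ZL1. -/

namespace Pool.Agent.P.E2

open Finset Real Filter Topology MeasureTheory
open Pool.Agent.P.MP_e86632_nt (ee nn ee_add norm_ee ee_neg ee_zero)
open Pool.Agent.P.MP_8be758_nt.Avg (gs Rough red ft en nsq vau_g gs_pos gs_le_one gs_neg gs_anti)
open Pool.Agent.P.MP_e94e4b_nt.PF (mN sgm)
open ArithmeticFunction (vonMangoldt moebius)
open DirichletCharacter (LFunction)

namespace ZL1a

theorem cast (σ : ℝ) : (zl σ : ℂ) = LSeries (fun n => vonMangoldt n) σ := by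
  rw [zl, Complex.ofReal_tsum]
  refine tsum_congr fun n => ?_
  rcases eq_or_ne n 0 with rfl | h
  · simp
  rw [LSeries.term_of_ne_zero h, Complex.ofReal_div, Complex.ofReal_cpow n.cast_nonneg,
    Complex.ofReal_natCast]

end ZL1a

open DirichletCharacter in
theorem p_ZL1 :
    S_ZL1 := by
  have e : LFunctionTrivChar 1 = riemannZeta := LFunction_modOne_eq
  obtain ⟨C, hC⟩ := isCompact_Icc.exists_bound_of_continuousOn (s := Set.Icc (1 : ℝ) 2)
    ((continuousOn_neg_logDeriv_LFunctionTrivChar₁ 1).comp Complex.continuous_ofReal.continuousOn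
      fun x hx => .inr (e ▸ riemannZeta_ne_zero_of_one_le_re (by simpa using hx.1)))
  refine ⟨|C| + 1, by positivity, fun σ h1 h2 => ?_⟩
  have n1 : (σ : ℂ) ≠ 1 := by exact_mod_cast h1.ne'
  have n2 := riemannZeta_ne_zero_of_one_le_re (s := σ) (by simpa using h1.le)
  have n3 := sub_ne_zero.2 n1
  have h := hC σ ⟨h1.le, h2⟩
  rw [Function.comp_apply, deriv_LFunctionTrivChar₁_apply_of_ne_one 1 n1, LFunctionTrivChar₁,
    Function.update_of_ne n1, e, show -((σ - 1 : ℂ) * deriv riemannZeta σ + riemannZeta σ) /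
      ((σ - 1) * riemannZeta σ) = ((zl σ - 1 / (σ - 1) : ℝ) : ℂ) by
        push_cast
        rw [ZL1a.cast, ArithmeticFunction.LSeries_vonMangoldt_eq_deriv_riemannZeta_div
          (by simpa using h1)]
        field_simp
        ring, Complex.norm_real] at h
  linarith [le_abs_self C, (abs_le.1 h).2]

end Pool.Agent.P.E2
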