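import Pool.Agent.P.MP_e94e4b_nt.E2.IfZ

/-! Step ZL2. -/

namespace Pool.Agent.P.E2

open Finset Real Filter Topology MeasureTheory
open Pool.Agent.P.MP_e86632_nt (ee nn ee_add norm_ee ee_neg ee_zero)
open Pool.Agent.P.MP_8be758_nt.Avg (gs Rough red ft en nsq vau_g gs_pos gs_le_one gs_neg gs_anti)
open Pool.Agent.P.MP_e94e4b_nt.PF (mN sgm)
open ArithmeticFunction (vonMangoldt moebius)
open DirichletCharacter (LFunction)

namespace ZL2a

theorem norm_le {f : ℕ → ℂ} {s : ℂ} {g : ℕ → ℝ} (hg : Summable fun n : ℕ => g n / (n : ℝ) ^ s.re)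
    (h0 : ∀ n, 0 ≤ g n) (h : ∀ n, ‖f n‖ ≤ g n) :
    ‖LSeries f s‖ ≤ ∑' n : ℕ, g n / (n : ℝ) ^ s.re := by
  refine tsum_of_norm_bounded hg.hasSum fun n => ?_
  rw [LSeries.norm_term_eq]
  split_ifs
  · exact div_nonneg (h0 n) (by positivity)
  · exact div_le_div_of_nonneg_right (h n) (by positivity)

theorem zeta_le {σ : ℝ} (h1 : 1 < σ) (h2 : σ ≤ 2) :
    ∑' n : ℕ, 1 / (n : ℝ) ^ σ ≤ 2 / (σ - 1) := by
  have hs : Summable fun n : ℕ => 1 / (n : ℝ) ^ σ := Real.summable_one_div_nat_rpow.2 h1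
  have h3 := ZetaAsymptotics.zeta_limit_aux1 h1
  have h4 : 0 ≤ ZetaAsymptotics.termTSum σ := tsum_nonneg fun n => ZetaAsymptotics.term_nonneg _ _
  rw [hs.tsum_eq_zero_add]
  have h5 : (0 : ℝ) < σ - 1 := by linarith
  have h6 : (1 : ℝ) ≤ 1 / (σ - 1) := by rw [le_div_iff₀ h5]; linarith
  have h7 : 0 ≤ σ * ZetaAsymptotics.termTSum σ := mul_nonneg (by linarith) h4
  have h8 : 2 / (σ - 1) = 1 / (σ - 1) + 1 / (σ - 1) := by ring
  simp only [Nat.cast_zero, Real.zero_rpow (show σ ≠ 0 by linarith), div_zero, zero_add,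
    Nat.cast_add, Nat.cast_one]
  linarith

theorem bdd_le {f : ℕ → ℂ} {s : ℂ} (h1 : 1 < s.re) (h2 : s.re ≤ 2) (h : ∀ n, ‖f n‖ ≤ 1) :
    ‖LSeries f s‖ ≤ 2 / (s.re - 1) :=
  (norm_le (g := fun _ => 1) (Real.summable_one_div_nat_rpow.2 h1) (fun _ => zero_le_one) h).trans
    (zeta_le h1 h2)

theorem lam_summable {σ : ℝ} (h : 1 < σ) :
    Summable fun n : ℕ => vonMangoldt n / (n : ℝ) ^ σ := by
  have h1 := (ArithmeticFunction.LSeriesSummable_vonMangoldt (s := (σ : ℂ)) (by simpa using h)).norm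
  refine h1.congr fun n => ?_
  rw [LSeries.norm_term_eq]
  split_ifs with h0
  · simp [h0]
  · rw [Complex.norm_real, Real.norm_of_nonneg ArithmeticFunction.vonMangoldt_nonneg,
      Complex.ofReal_re]

end ZL2a

theorem p_ZL2 :
    S_ZL2 := by
  refine ⟨fun σ h => ZL2a.lam_summable h, fun q _ χ s h1 h2 => ?_⟩
  have e1 : ld χ s = LSeries (fun n => ch χ n * vonMangoldt n) s := by
    have := DirichletCharacter.LSeries_twist_vonMangoldt_eq χ h1
    rw [ld, DirichletCharacter.deriv_LFunction_eq_deriv_LSeries χ h1,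
      DirichletCharacter.LFunction_eq_LSeries χ h1, ← neg_div]
    exact this.symm
  have h3 : (0 : ℝ) < s.re - 1 := by linarith
  refine ⟨DirichletCharacter.LSeriesSummable_twist_vonMangoldt χ h1, e1, ?_, ?_, ?_, ?_⟩
  · rw [e1]
    refine ZL2a.norm_le (ZL2a.lam_summable h1) (fun _ => ArithmeticFunction.vonMangoldt_nonneg)
      fun n => ?_
    rw [norm_mul, Complex.norm_real, Real.norm_of_nonneg ArithmeticFunction.vonMangoldt_nonneg]
    exact mul_le_of_le_one_left ArithmeticFunction.vonMangoldt_nonneg (norm_ch_le χ n)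
  · have hs : s ≠ 1 := by
      rintro rfl
      simp at h1
    have ha : AnalyticAt ℂ (LFunction χ) s :=
      DifferentiableOn.analyticAt (s := {1}ᶜ)
        (fun z hz => (DirichletCharacter.differentiableAt_LFunction χ z
          (Or.inl hz)).differentiableWithinAt) (isOpen_compl_singleton.mem_nhds hs)
    exact (ha.deriv.differentiableAt.div ha.differentiableAt
      (DirichletCharacter.LFunction_ne_zero_of_one_le_re χ (Or.inr hs) h1.le)).neg
  · have a1 := congrArg norm (DirichletCharacter.LSeries.mul_mu_eq_one χ h1)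
    rw [norm_mul, norm_one, ← DirichletCharacter.LFunction_eq_LSeries χ h1] at a1
    have a2 := ZL2a.bdd_le (f := (fun n : ℕ => χ n) * fun n : ℕ => (moebius n : ℂ)) h1 h2
      fun n => by
        rw [Pi.mul_apply, norm_mul]
        refine mul_le_one₀ (norm_ch_le χ n) (norm_nonneg _) ?_
        rw [Complex.norm_intCast]
        exact_mod_cast ArithmeticFunction.abs_moebius_le_one
    have a3 := mul_le_mul_of_nonneg_left a2 (norm_nonneg (LFunction χ s))
    rw [a1, ← mul_div_assoc, le_div_iff₀ h3] at a3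
    linarith
  · rw [DirichletCharacter.LFunction_eq_LSeries χ h1]
    exact ZL2a.bdd_le h1 h2 fun n => norm_ch_le χ n

end Pool.Agent.P.E2
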