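import Pool.Agent.P.MP_e94e4b_nt.E2.TSH
import Pool.Agent.P.MP_e94e4b_nt.E2.TEXP
import Pool.Agent.P.MP_e94e4b_nt.E2.TEL
import Pool.Agent.P.MP_e94e4b_nt.E2.TDY
import Pool.Agent.P.MP_e94e4b_nt.E2.TPS
import Pool.Agent.P.MP_e94e4b_nt.E2.TVB
import Pool.Agent.P.MP_e94e4b_nt.E2.TBL
import Pool.Agent.P.MP_e94e4b_nt.E2.TAP1
import Pool.Agent.P.MP_e94e4b_nt.E2.TAP2
import Pool.Agent.P.MP_e94e4b_nt.E2.TAPX
import Pool.Agent.P.MP_e94e4b_nt.E2.TLB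
import Pool.Agent.P.MP_e94e4b_nt.E2.TBC
import Pool.Agent.P.MP_e94e4b_nt.E2.TLA1
import Pool.Agent.P.MP_e94e4b_nt.E2.TLAN
import Pool.Agent.P.MP_e94e4b_nt.E2.TZL1
import Pool.Agent.P.MP_e94e4b_nt.E2.TZL2
import Pool.Agent.P.MP_e94e4b_nt.E2.TT341
import Pool.Agent.P.MP_e94e4b_nt.E2.TZF
import Pool.Agent.P.MP_e94e4b_nt.E2.TLD
import Pool.Agent.P.MP_e94e4b_nt.E2.THF
import Pool.Agent.P.MP_e94e4b_nt.E2.TGF
import Pool.Agent.P.MP_e94e4b_nt.E2.TMEL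
import Pool.Agent.P.MP_e94e4b_nt.E2.TCS
import Pool.Agent.P.MP_e94e4b_nt.E2.TCSN
import Pool.Agent.P.MP_e94e4b_nt.E2.TTAIL
import Pool.Agent.P.MP_e94e4b_nt.E2.TRS
import Pool.Agent.P.MP_e94e4b_nt.E2.TCMP
import Pool.Agent.P.MP_e94e4b_nt.E2.TMS
import Pool.Agent.P.MP_e94e4b_nt.E2.TPB
import Pool.Agent.P.MP_e94e4b_nt.E2.TP0
import Pool.Agent.P.MP_e94e4b_nt.E2.TWIN1
import Pool.Agent.P.MP_e94e4b_nt.E2.TWIN2
import Pool.Agent.P.MP_e94e4b_nt.E2.TSWP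
import Pool.Agent.P.MP_e94e4b_nt.E2.TSHARP
import Pool.Agent.P.MP_e94e4b_nt.E2.TRNG
import Pool.Agent.P.MP_e94e4b_nt.E2.TPH
import Pool.Agent.P.MP_e94e4b_nt.E2.TMV
import Pool.Agent.P.MP_e94e4b_nt.E2.TMOM
import Pool.Agent.P.MP_e94e4b_nt.E2.TUM
import Pool.Agent.P.MP_e94e4b_nt.E2.THALC
import Pool.Agent.P.MP_e94e4b_nt.E2.TIL
import Pool.Agent.P.MP_e94e4b_nt.E2.THB
import Pool.Agent.P.MP_e94e4b_nt.E2.TTAU2
import Pool.Agent.P.MP_e94e4b_nt.E2.TVAU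
import Pool.Agent.P.MP_e94e4b_nt.E2.TRE0
import Pool.Agent.P.MP_e94e4b_nt.E2.TRE1
import Pool.Agent.P.MP_e94e4b_nt.E2.TWF
import Pool.Agent.P.MP_e94e4b_nt.E2.TRE2
import Pool.Agent.P.MP_e94e4b_nt.E2.TQB
import Pool.Agent.P.MP_e94e4b_nt.E2.TCONV
import Pool.Agent.P.MP_e94e4b_nt.E2.TT1
import Pool.Agent.P.MP_e94e4b_nt.E2.TT1U
import Pool.Agent.P.MP_e94e4b_nt.E2.TT2
import Pool.Agent.P.MP_e94e4b_nt.E2.TQU
import Pool.Agent.P.MP_e94e4b_nt.E2.TPU0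
import Pool.Agent.P.MP_e94e4b_nt.E2.TPW
import Pool.Agent.P.MP_e94e4b_nt.E2.TPU
import Pool.Agent.P.MP_e94e4b_nt.E2.TDPA
import Pool.Agent.P.MP_e94e4b_nt.E2.TDP
import Pool.Agent.P.MP_e94e4b_nt.E2.TGEO
import Pool.Agent.P.MP_e94e4b_nt.E2.TGS
import Pool.Agent.P.MP_e94e4b_nt.E2.TRHO
import Pool.Agent.P.MP_e94e4b_nt.E2.TPL
import Pool.Agent.P.MP_e94e4b_nt.E2.TGAL
import Pool.Agent.P.MP_e94e4b_nt.E2.TCB
import Pool.Agent.P.MP_e94e4b_nt.E2.TLOC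
import Pool.Agent.P.MP_e94e4b_nt.E2.TEXT
import Pool.Agent.P.MP_e94e4b_nt.E2.TARC1
import Pool.Agent.P.MP_e94e4b_nt.E2.TOV
import Pool.Agent.P.MP_e94e4b_nt.E2.TARC
import Pool.Agent.P.MP_e94e4b_nt.E2.TCH1
import Pool.Agent.P.MP_e94e4b_nt.E2.TCHX
import Pool.Agent.P.MP_e94e4b_nt.E2.TCHR
import Pool.Agent.P.MP_e94e4b_nt.E2.TCI1
import Pool.Agent.P.MP_e94e4b_nt.E2.TCI2
import Pool.Agent.P.MP_e94e4b_nt.E2.TCP
import Pool.Agent.P.MP_e94e4b_nt.E2.TCIRC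
import Pool.Agent.P.MP_e94e4b_nt.E2.TCNT
import Pool.Agent.P.MP_e94e4b_nt.E2.TWEYL
import Pool.Agent.P.MP_e94e4b_nt.E2.TMIN
import Pool.Agent.P.MP_e94e4b_nt.E2.TGAU
import Pool.Agent.P.MP_e94e4b_nt.E2.TBLK
import Pool.Agent.P.MP_e94e4b_nt.E2.TSB
import Pool.Agent.P.MP_e94e4b_nt.E2.TSI2
import Pool.Agent.P.MP_e94e4b_nt.E2.TPIECE
import Pool.Agent.P.MP_e94e4b_nt.E2.TMK
import Pool.Agent.P.MP_e94e4b_nt.E2.TSG
import Pool.Agent.P.MP_e94e4b_nt.E2.TPERM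
import Pool.Agent.P.MP_e94e4b_nt.E2.TTC
import Pool.Agent.P.MP_e94e4b_nt.E2.TPT
import Pool.Agent.P.MP_e94e4b_nt.E2.TC1
import Pool.Agent.P.MP_e94e4b_nt.E2.TC0
import Pool.Agent.P.MP_e94e4b_nt.E2.TCI
import Pool.Agent.P.MP_e94e4b_nt.E2.TFQ
import Pool.Agent.P.MP_e94e4b_nt.E2.TLOW1
import Pool.Agent.P.MP_e94e4b_nt.E2.TSQ1
import Pool.Agent.P.MP_e94e4b_nt.E2.TSQ2
import Pool.Agent.P.MP_e94e4b_nt.E2.TLOW2
import Pool.Agent.P.MP_e94e4b_nt.E2.TMAIN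
import Pool.Agent.P.MP_e94e4b_nt.E2.TSV2
import Pool.Agent.P.MP_e94e4b_nt.E2.TUB
import Pool.Agent.P.MP_e94e4b_nt.E2.TGD
import Pool.Agent.P.MP_e94e4b_nt.E2.TPOS
import Pool.Agent.P.MP_e94e4b_nt.E2.TFIN
import Pool.Agent.P.MP_b60056_nt.AA.Wb
import Pool.Agent.P.MP_b60056_nt.AA.Vmvt
import Pool.Agent.P.MP_b60056_nt.AA.Tree
import Pool.Agent.P.MP_b60056_nt.AA.Coll
import Pool.Agent.P.MP_b60056_nt.AA.Linnik
import Pool.Agent.P.MP_b60056_nt.AA.Bilin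
import Pool.Agent.P.MP_b60056_nt.AA.Sj
import Pool.Agent.P.MP_b60056_nt.AA.Rep
import Pool.Agent.P.MP_e94e4b_nt.PF.WLS
import Pool.Agent.P.MP_e94e4b_nt.PF.MLS
import Pool.Agent.P.MP_e94e4b_nt.PF.PNT
import Pool.Agent.P.MP_e94e4b_nt.PF.RT
import Pool.Agent.P.MP_e94e4b_nt.PF.SM
import Pool.Agent.P.MP_e94e4b_nt.PF.FL
import Pool.Agent.P.MP_e94e4b_nt.PF.MR1
import Pool.Agent.P.MP_e94e4b_nt.PF.TEN

/-! Assembly of all steps. -/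

namespace Pool.Agent.P.E2

open Pool.Agent.P.MP_b60056_nt.AA in
theorem a_WB : S_WB := wb (vmvt tree (coll linnik)) bilin sj

theorem a_REP : S_REP := Pool.Agent.P.MP_b60056_nt.AA.rep

open Pool.Agent.P.MP_e94e4b_nt.PF in
theorem a_HG : S_HG := t_HG (t_WLS t_MLS)

theorem a_PNT : S_PNT := Pool.Agent.P.MP_e94e4b_nt.PF.t_PNT

theorem a_RT : S_RT := Pool.Agent.P.MP_e94e4b_nt.PF.t_RT

theorem a_SM : S_SM := Pool.Agent.P.MP_e94e4b_nt.PF.t_SM a_RT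

open Pool.Agent.P.MP_e94e4b_nt.PF in
theorem a_FL : S_FL := t_FL t_MR1 t_TEN t_BLK

theorem a_SH : S_SH := p_SH a_WB

theorem a_EXP : S_EXP := p_EXP a_SH

theorem a_EL : S_EL := p_EL

theorem a_DY : S_DY := p_DY

theorem a_PS : S_PS := p_PS a_EXP a_EL a_DY

theorem a_VB : S_VB := p_VB a_EXP

theorem a_BL : S_BL := p_BL a_VB

theorem a_AP1 : S_AP1 := p_AP1

theorem a_AP2 : S_AP2 := p_AP2

theorem a_APX : S_APX := p_APX a_AP1 a_AP2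

theorem a_LB : S_LB := p_LB a_APX a_BL a_DY

theorem a_BC : S_BC := p_BC

theorem a_LA1 : S_LA1 := p_LA1

theorem a_LAN : S_LAN := p_LAN a_BC a_LA1

theorem a_ZL1 : S_ZL1 := p_ZL1

theorem a_ZL2 : S_ZL2 := p_ZL2

theorem a_T341 : S_T341 := p_T341 a_ZL2

theorem a_ZF : S_ZF := p_ZF a_LB a_LAN a_ZL1 a_ZL2 a_T341

theorem a_LD : S_LD := p_LD a_LB a_BC a_ZL1 a_ZL2 a_ZF

theorem a_HF : S_HF := p_HF

theorem a_GF : S_GF := p_GF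

theorem a_MEL : S_MEL := p_MEL a_GF

theorem a_CS : S_CS := p_CS a_GF

theorem a_CSN : S_CSN := p_CSN a_CS

theorem a_TAIL : S_TAIL := p_TAIL

theorem a_RS : S_RS := p_RS

theorem a_CMP : S_CMP := p_CMP

theorem a_MS : S_MS := p_MS a_TAIL a_RS a_CMP

theorem a_PB : S_PB := p_PB a_ZL1 a_ZL2 a_LD a_MEL a_CSN

theorem a_P0 : S_P0 := p_P0 a_LB a_ZL1 a_ZL2 a_LD a_HF a_MEL a_CSN a_TAIL a_MS

theorem a_WIN1 : S_WIN1 := p_WIN1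

theorem a_WIN2 : S_WIN2 := p_WIN2 a_TAIL a_WIN1

theorem a_SWP : S_SWP := p_SWP

theorem a_SHARP : S_SHARP := p_SHARP a_PB a_WIN2 a_SWP

theorem a_RNG : S_RNG := p_RNG

theorem a_PH : S_PH := p_PH a_WIN1 a_RNG

theorem a_MV : S_MV := p_MV a_HG

theorem a_MOM : S_MOM := p_MOM a_MV a_REP

theorem a_UM : S_UM := p_UM a_MOM

theorem a_HALC : S_HALC := p_HALC

theorem a_IL : S_IL := p_IL

theorem a_HB : S_HB := p_HB a_PS a_HALC a_IL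

theorem a_TAU2 : S_TAU2 := p_TAU2

theorem a_VAU : S_VAU := p_VAU

theorem a_RE0 : S_RE0 := p_RE0 a_VAU

theorem a_RE1 : S_RE1 := p_RE1 a_RNG a_PH a_VAU a_RE0

theorem a_WF : S_WF := p_WF

theorem a_RE2 : S_RE2 := p_RE2 a_WF

theorem a_QB : S_QB := p_QB a_RNG a_VAU

theorem a_CONV : S_CONV := p_CONV

theorem a_T1 : S_T1 := p_T1 a_PS a_RNG

theorem a_T1U : S_T1U := p_T1U a_T1 a_IL

theorem a_T2 : S_T2 := p_T2 a_SHARP a_RNG a_HB a_TAU2 a_VAU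

theorem a_QU : S_QU := p_QU a_RNG a_T1U a_T2

theorem a_PU0 : S_PU0 := p_PU0 a_RNG a_RE2 a_QB a_CONV a_QU

theorem a_PW : S_PW := p_PW

theorem a_PU : S_PU := p_PU a_RNG a_PH a_RE1 a_PU0 a_PW

theorem a_DPA : S_DPA := p_DPA

theorem a_DP : S_DP := p_DP a_RNG a_PH a_MV a_UM a_PU a_DPA

theorem a_GEO : S_GEO := p_GEO

theorem a_GS : S_GS := p_GS a_RNG a_PH

theorem a_RHO : S_RHO := p_RHO a_PNT

theorem a_PL : S_PL := p_PL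

theorem a_GAL : S_GAL := p_GAL a_PL

theorem a_CB : S_CB := p_CB a_MS a_RNG a_GS

theorem a_LOC : S_LOC := p_LOC a_RS a_CMP a_RNG a_GEO a_GS a_CB

theorem a_EXT : S_EXT := p_EXT a_RS

theorem a_ARC1 : S_ARC1 := p_ARC1 a_GEO a_GS a_GAL a_CB a_LOC a_EXT

theorem a_OV : S_OV := p_OV

theorem a_ARC : S_ARC := p_ARC a_GEO a_ARC1 a_OV

theorem a_CH1 : S_CH1 := p_CH1

theorem a_CHX : S_CHX := p_CHX a_RNG a_DP a_GS a_PL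

theorem a_CHR : S_CHR := p_CHR a_RNG a_GEO a_GS a_CH1 a_CHX

theorem a_CI1 : S_CI1 := p_CI1

theorem a_CI2 : S_CI2 := p_CI2

theorem a_CP : S_CP := p_CP

theorem a_CIRC : S_CIRC := p_CIRC a_CI1 a_CI2 a_CP

theorem a_CNT : S_CNT := p_CNT

theorem a_WEYL : S_WEYL := p_WEYL a_CNT

theorem a_MIN : S_MIN := p_MIN a_WEYL

theorem a_GAU : S_GAU := p_GAU

theorem a_BLK : S_BLK := p_BLK a_GEO a_GS a_CB a_CIRC a_MIN

theorem a_SB : S_SB := p_SB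

theorem a_SI2 : S_SI2 := p_SI2 a_SB

theorem a_PIECE : S_PIECE := p_PIECE a_SI2

theorem a_MK : S_MK := p_MK

theorem a_SG : S_SG := p_SG a_PIECE a_MK

theorem a_PERM : S_PERM := p_PERM

theorem a_TC : S_TC := p_TC a_RNG a_PH a_GEO a_GS a_MK a_SG a_PERM

theorem a_PT : S_PT := p_PT a_GEO a_RHO a_GAU a_PIECE a_TC

theorem a_C1 : S_C1 := p_C1 a_TAIL a_RNG a_PH a_PW

theorem a_C0 : S_C0 := p_C0 a_P0 a_RNG a_CH1 a_C1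

theorem a_CI : S_CI := p_CI a_RNG a_GS a_C0

theorem a_FQ : S_FQ := p_FQ a_PNT a_GEO

theorem a_LOW1 : S_LOW1 := p_LOW1 a_GEO a_RHO a_GAU a_CI a_FQ

theorem a_SQ1 : S_SQ1 := p_SQ1 a_RT

theorem a_SQ2 : S_SQ2 := p_SQ2 a_SQ1

theorem a_LOW2 : S_LOW2 := p_LOW2 a_GEO a_RHO a_LOW1 a_SQ2

theorem a_MAIN : S_MAIN := p_MAIN a_GEO a_RHO a_ARC a_CHR a_BLK a_PT a_LOW2

theorem a_SV2 : S_SV2 := p_SV2 a_FL

theorem a_UB : S_UB := p_UB a_RNG a_PH a_GEO a_GS a_SV2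

theorem a_GD : S_GD := p_GD a_RNG a_GEO a_GS

theorem a_POS : S_POS := p_POS a_SM a_GEO a_RHO a_MAIN a_UB a_GD

theorem a_FIN : S_FIN := p_FIN a_POS

end Pool.Agent.P.E2
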