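import Pool.Agent.P.MP_e94e4b_nt.E2.Defs
import Pool.Agent.P.MP_e94e4b_nt.PF.HG

/-! Small facts about the definitions, shared by all steps. -/

namespace Pool.Agent.P.E2

open Finset Real Filter Topology MeasureTheory
open Pool.Agent.P.MP_e86632_nt (ee nn ee_add norm_ee ee_neg ee_zero)
open Pool.Agent.P.MP_8be758_nt.Avg (gs Rough red ft en nsq vau_g gs_pos gs_le_one gs_neg gs_anti)
open Pool.Agent.P.MP_e94e4b_nt.PF (mN HG_integrable HG_integral HG_four HG_four_integrable)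
open ArithmeticFunction (vonMangoldt moebius)
open DirichletCharacter (LFunction)

/-! ### Growth -/

/-- a lower power is beaten by a higher one -/
theorem ev_pp (C : ℝ) {c : ℝ} (hc : 0 < c) {j k : ℕ} (h : j < k) :
    ∀ᶠ r : ℝ in atTop, C * r ^ j ≤ c * r ^ k := by
  filter_upwards [eventually_ge_atTop (|C| / c), eventually_ge_atTop 1] with r h1 h2
  obtain ⟨d, rfl⟩ := Nat.exists_eq_add_of_lt h
  have h3 : r ≤ r ^ (d + 1) := le_self_pow₀ h2 (by omega)
  rw [div_le_iff₀ hc] at h1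
  have h4 : C ≤ c * r ^ (d + 1) := by nlinarith [le_abs_self C]
  calc C * r ^ j ≤ c * r ^ (d + 1) * r ^ j := by gcongr
    _ = _ := by ring

/-- a power is beaten by an exponential -/
theorem ev_pe (C : ℝ) (k : ℕ) {c : ℝ} (hc : 0 < c) :
    ∀ᶠ r : ℝ in atTop, C * r ^ k ≤ Real.exp (c * r) := by
  filter_upwards [ev_pp C (c := c ^ (k + 1) / (k + 1).factorial) (by positivity) (Nat.lt_add_one k),
    eventually_ge_atTop 0] with r h1 h2
  refine h1.trans (le_trans (le_of_eq ?_) (Real.pow_div_factorial_le_exp (c * r) (by positivity) (k + 1)))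
  rw [mul_pow]; ring

/-- a power is beaten by `exp r` -/
theorem ev_pe1 (C : ℝ) (k : ℕ) : ∀ᶠ r : ℝ in atTop, C * r ^ k ≤ Real.exp r := by
  simpa using ev_pe C k one_pos

/-- `a r + b` is beaten by `c r ^ k` -/
theorem ev_lin (a b : ℝ) {c : ℝ} (hc : 0 < c) {k : ℕ} (h : 2 ≤ k) :
    ∀ᶠ r : ℝ in atTop, a * r + b ≤ c * r ^ k := by
  filter_upwards [ev_pp a (half_pos hc) (show 1 < k by omega),
    ev_pp b (half_pos hc) (show 0 < k by omega)] with r h1 h2
  simp only [pow_one, pow_zero, mul_one] at h1 h2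
  linarith

theorem XX_pos (r : ℝ) : 0 < XX r := Real.exp_pos _

theorem Th_pos (r : ℝ) : 0 < Th r := Real.exp_pos _

theorem log_XX (r : ℝ) : Real.log (XX r) = r ^ 13 := Real.log_exp _

theorem rho_nonneg (P : ℝ) : 0 ≤ rho P := sum_nonneg fun _ _ => by positivity

/-! ### Exponentials -/

theorem aa_ee (x : ℝ) : ee x = Pool.Agent.P.MP_b60056_nt.AA.ee (2 * π * x) := by
  rw [ee, Pool.Agent.P.MP_b60056_nt.AA.ee, mul_comm]

@[fun_prop] theorem cont_ee : Continuous ee := by unfold ee; fun_prop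

@[simp] theorem norm_nit (t : ℝ) (n : ℕ) : ‖nit t n‖ = 1 := norm_ee _

@[simp] theorem nit_zero (n : ℕ) : nit 0 n = 1 := by simp [nit]

theorem nit_add (t s : ℝ) (n : ℕ) : nit (t + s) n = nit t n * nit s n := by
  rw [nit, nit, nit, ← ee_add]; congr 1; ring

theorem nit_sub (t s : ℝ) (n : ℕ) : nit (t - s) n * ee (-(s * Real.log n)) = nit t n := by
  rw [nit, nit, ← ee_add]; congr 1; ring

theorem nit_mul_ee (t s : ℝ) (n : ℕ) : nit t n * ee (s * Real.log n) = nit (t - s) n := by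
  rw [nit, nit, ← ee_add]; congr 1; ring

theorem nit_mul_conj (t s : ℝ) (n : ℕ) :
    nit t n * (starRingEnd ℂ) (nit s n) = nit (t - s) n := by
  rw [nit, nit, nit, ← ee_neg, ← ee_add]; congr 1; ring

theorem conj_nit (t : ℝ) (n : ℕ) : (starRingEnd ℂ) (nit t n) = nit (-t) n := by
  rw [nit, nit, ← ee_neg]; congr 1; ring

theorem nit_mul (t : ℝ) {m k : ℕ} (hm : m ≠ 0) (hk : k ≠ 0) :
    nit t (m * k) = nit t m * nit t k := by
  rw [nit, nit, nit, ← ee_add, Nat.cast_mul, Real.log_mul (by exact_mod_cast hm) (by exact_mod_cast hk)]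
  congr 1; ring

theorem nit_one (t : ℝ) : nit t 1 = 1 := by simp [nit]

theorem nit_prod {ι : Type*} (t : ℝ) (s : Finset ι) (f : ι → ℕ) (h : ∀ i ∈ s, f i ≠ 0) :
    nit t (∏ i ∈ s, f i) = ∏ i ∈ s, nit t (f i) := by
  classical
  induction s using Finset.induction_on with
  | empty => simp [nit_one]
  | insert a s ha ih =>
    rw [prod_insert ha, prod_insert ha, nit_mul t (h a (mem_insert_self _ _))
      (prod_ne_zero_iff.2 fun i hi => h i (mem_insert_of_mem hi)),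
      ih fun i hi => h i (mem_insert_of_mem hi)]

@[fun_prop] theorem cont_nit (n : ℕ) : Continuous fun t => nit t n := by unfold nit; fun_prop

theorem cpow_nit (s : ℂ) {n : ℕ} (hn : n ≠ 0) :
    (n : ℂ) ^ (-s) = (((n : ℝ) ^ (-s.re) : ℝ) : ℂ) * nit (s.im / (2 * π)) n := by
  have h0 : (0 : ℝ) < n := by exact_mod_cast Nat.pos_of_ne_zero hn
  have hp : (π : ℂ) ≠ 0 := Complex.ofReal_ne_zero.2 Real.pi_ne_zero
  rw [Complex.cpow_def_of_ne_zero (by exact_mod_cast hn), Real.rpow_def_of_pos h0, nit, ee,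
    Complex.ofReal_exp, ← Complex.exp_add, ← Complex.ofReal_natCast, ← Complex.ofReal_log h0.le]
  congr 1
  conv_lhs => rw [← Complex.re_add_im s]
  push_cast
  field_simp
  ring

@[fun_prop] theorem cont_dq (I : Finset ℕ) (a : ℕ → ℂ) : Continuous (dq I a) := by
  unfold dq; fun_prop

theorem norm_dq_le {I : Finset ℕ} {a : ℕ → ℂ} {B : ℝ} (h : ∀ n ∈ I, ‖a n‖ ≤ B) (t : ℝ) :
    ‖dq I a t‖ ≤ I.card * B := by
  refine (norm_sum_le_of_le _ (n := fun _ => B) fun n hn => ?_).trans (by simp)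
  rw [norm_mul, norm_nit, mul_one]; exact h n hn

theorem norm_dq_le_sum (I : Finset ℕ) (a : ℕ → ℂ) (t : ℝ) : ‖dq I a t‖ ≤ ∑ n ∈ I, ‖a n‖ :=
  norm_sum_le_of_le _ fun n _ => by rw [norm_mul, norm_nit, mul_one]

@[fun_prop] theorem cont_ft (I : Finset ℕ) (a : ℕ → ℂ) : Continuous (ft I a) := by
  unfold ft; fun_prop

theorem norm_ft_le_sum (I : Finset ℕ) (a : ℕ → ℂ) (t : ℝ) : ‖ft I a t‖ ≤ ∑ n ∈ I, ‖a n‖ :=
  norm_sum_le_of_le _ fun n _ => by rw [norm_mul, norm_ee, mul_one]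

theorem nsq_le {I : Finset ℕ} {a : ℕ → ℂ} {B : ℝ} (h : ∀ n ∈ I, ‖a n‖ ≤ B) :
    nsq I a ≤ I.card * B ^ 2 :=
  (sum_le_sum fun n hn => pow_le_pow_left₀ (norm_nonneg _) (h n hn) 2).trans (by simp)

@[fun_prop] theorem cont_Ws (J : Finset ℕ) (s : ℕ → ℕ) : Continuous (Ws J s) := by
  unfold Ws; fun_prop

theorem norm_Ws_le (J : Finset ℕ) (s : ℕ → ℕ) (α : ℝ) : ‖Ws J s α‖ ≤ J.card :=
  (norm_sum_le_of_le _ (n := fun _ => (1 : ℝ)) fun _ _ => (norm_ee _).le).trans (by simp)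

theorem norm_sum_sq_le {ι : Type*} (s : Finset ι) (f : ι → ℂ) :
    ‖∑ i ∈ s, f i‖ ^ 2 ≤ s.card * ∑ i ∈ s, ‖f i‖ ^ 2 :=
  (pow_le_pow_left₀ (norm_nonneg _) (norm_sum_le _ _) 2).trans sq_sum_le_card_mul_sum_sq

theorem norm_add_sq_le (a b : ℂ) : ‖a + b‖ ^ 2 ≤ 2 * ‖a‖ ^ 2 + 2 * ‖b‖ ^ 2 := by
  have h := pow_le_pow_left₀ (norm_nonneg _) (norm_add_le a b) 2
  nlinarith [sq_nonneg (‖a‖ - ‖b‖)]

/-! ### Periodic coefficients, characters, weights -/

theorem Per.add_mul {q : ℕ} {c : ℕ → ℂ} (h : Per q c) (n k : ℕ) : c (n + q * k) = c n := by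
  induction k with
  | zero => simp
  | succ k ih => rw [Nat.mul_succ, ← add_assoc, h.2.2, ih]

theorem Per.mod {q Q : ℕ} {c : ℕ → ℂ} (h : Per q c) (hQ : q ∣ Q) (n : ℕ) : c (n % Q) = c n := by
  obtain ⟨k, rfl⟩ := hQ
  conv_rhs => rw [← Nat.mod_add_div n (q * k), mul_assoc, h.add_mul]

theorem per_one : Per 1 fun _ => 1 := ⟨le_rfl, fun _ => by simp, fun _ => rfl⟩

theorem norm_ch_le {q : ℕ} (χ : DirichletCharacter ℂ q) (n : ℕ) : ‖ch χ n‖ ≤ 1 :=
  DirichletCharacter.norm_le_one χ _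

theorem ch_mul {q : ℕ} (χ : DirichletCharacter ℂ q) (m n : ℕ) :
    ch χ (m * n) = ch χ m * ch χ n := by simp [ch]

theorem per_ch {q : ℕ} [NeZero q] (χ : DirichletCharacter ℂ q) : Per q (ch χ) :=
  ⟨Nat.pos_of_ne_zero (NeZero.ne q), norm_ch_le χ, fun n => by simp [ch]⟩

theorem norm_kap_le {q : ℕ} {c : ℕ → ℂ} (h : Per q c) : ‖kap q c‖ ≤ 1 := by
  have h0 : (0 : ℝ) < q := by exact_mod_cast h.1
  rw [kap, norm_div, Complex.norm_natCast, div_le_one h0]
  exact (norm_sum_le_of_le _ (n := fun _ => (1 : ℝ)) fun n _ => h.2.1 n).trans (by simp)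

theorem norm_kp_le {q : ℕ} (χ : DirichletCharacter ℂ q) : ‖kp χ‖ ≤ 1 := by
  unfold kp; split_ifs <;> simp

theorem th_nonneg (n : ℕ) : 0 ≤ th n := by
  unfold th; split_ifs
  exacts [Real.log_natCast_nonneg n, le_rfl]

theorem th_le_log (n : ℕ) : th n ≤ Real.log n := by
  unfold th; split_ifs
  exacts [le_rfl, Real.log_natCast_nonneg n]

theorem prime_of_th {n : ℕ} (h : th n ≠ 0) : n.Prime := by
  by_contra h1; exact h (if_neg h1)

theorem log_le_nat (n : ℕ) : Real.log n ≤ n := Real.log_le_self (Nat.cast_nonneg n)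

theorem th_le (n : ℕ) : th n ≤ n := (th_le_log n).trans (log_le_nat n)

theorem lam_le (n : ℕ) : vonMangoldt n ≤ n :=
  ArithmeticFunction.vonMangoldt_le_log.trans (log_le_nat n)

theorem p1_nonneg (n : ℕ) : 0 ≤ p1 n := by unfold p1; split_ifs <;> norm_num

theorem p1_le (n : ℕ) : p1 n ≤ 1 := by unfold p1; split_ifs <;> norm_num

theorem norm_p1_le (n : ℕ) : ‖(p1 n : ℂ)‖ ≤ 1 := by
  rw [Complex.norm_real, Real.norm_of_nonneg (p1_nonneg n)]; exact p1_le n

theorem prime_of_p1 {n : ℕ} (h : p1 n ≠ 0) : n.Prime := by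
  by_contra h1; exact h (if_neg h1)

theorem on_bd (n : ℕ) : 0 ≤ on n ∧ on n ≤ n := by
  unfold on; split_ifs with h
  · simp
  · exact ⟨zero_le_one, by exact_mod_cast Nat.pos_of_ne_zero h⟩

theorem abs_mf_le (q : ℕ) : |mf q| ≤ 1 := by
  rcases Nat.eq_zero_or_pos q with rfl | h
  · simp [mf]
  have h1 : (1 : ℝ) ≤ q.totient := by exact_mod_cast Nat.totient_pos.2 h
  rw [mf, abs_div, Nat.abs_cast, div_le_one (by linarith)]
  exact (Pool.Agent.P.MP_8be758_nt.Avg.vau_mu q).trans h1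

theorem mem_red {q a : ℕ} : a ∈ red q ↔ a < q ∧ a.Coprime q := by simp [red]

@[simp] theorem pt_re (σ u : ℝ) : (pt σ u).re = σ := by simp [pt]

@[simp] theorem pt_im (σ u : ℝ) : (pt σ u).im = 2 * π * u := by simp [pt]

theorem pt_add (σ u t : ℝ) : pt σ u + (2 * π * t : ℝ) * Complex.I = pt σ (u + t) := by
  simp only [pt]; push_cast; ring

@[fun_prop] theorem cont_pt (σ : ℝ) : Continuous (pt σ) := by unfold pt; fun_prop

/-! ### Gaussians -/

@[fun_prop] theorem cont_gs : Continuous gs := by unfold gs; fun_prop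

@[fun_prop] theorem cont_gk (a : ℝ) : Continuous (gk a) := by unfold gk; fun_prop

theorem gk_pos {a : ℝ} (ha : 0 < a) (x : ℝ) : 0 < gk a x := div_pos (gs_pos _) ha

theorem gk_nonneg {a : ℝ} (ha : 0 < a) (x : ℝ) : 0 ≤ gk a x := (gk_pos ha x).le

theorem gk_le {a : ℝ} (ha : 0 < a) (x : ℝ) : gk a x ≤ 1 / a :=
  div_le_div_of_nonneg_right (gs_le_one _) ha.le

theorem gk_neg (a x : ℝ) : gk a (-x) = gk a x := by rw [gk, gk, neg_div, gs_neg]

theorem gk_anti {a x y : ℝ} (ha : 0 < a) (h : |x| ≤ |y|) : gk a y ≤ gk a x := by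
  refine div_le_div_of_nonneg_right (gs_anti ?_) ha.le
  rw [abs_div, abs_div]; gcongr

theorem gs_le_exp {x W : ℝ} (hW : 0 ≤ W) (h : W ≤ |x|) : gs x ≤ Real.exp (-W ^ 2) := by
  have h1 : W ^ 2 ≤ x ^ 2 := by rw [← sq_abs x]; gcongr
  exact Real.exp_le_exp.2 (by nlinarith [Real.pi_gt_three, sq_nonneg x])

theorem gk_le_exp {a x W : ℝ} (ha : 0 < a) (hW : 0 ≤ W) (h : W * a ≤ |x|) :
    gk a x ≤ Real.exp (-W ^ 2) / a := by
  refine div_le_div_of_nonneg_right (gs_le_exp hW ?_) ha.le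
  rwa [abs_div, abs_of_pos ha, le_div_iff₀ ha]

/-- outside `[-W, W]` the Gaussian is at most `exp (-W ^ 2)` times a wider one -/
theorem gs_split {x W : ℝ} (hW : 0 ≤ W) (h : W ≤ |x|) :
    gs x ≤ Real.exp (-W ^ 2) * gs (x / 2) := by
  have h1 : W ^ 2 ≤ x ^ 2 := by rw [← sq_abs x]; gcongr
  rw [gs, gs, ← Real.exp_add]
  exact Real.exp_le_exp.2 (by nlinarith [Real.pi_gt_three, sq_nonneg x])

theorem gs_integrable {a : ℝ} (ha : 0 < a) : Integrable fun x : ℝ => gs (x / a) := by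
  simpa [div_eq_inv_mul] using HG_integrable (inv_pos.2 ha) 0

theorem gs_integral {a : ℝ} (ha : 0 < a) : ∫ x : ℝ, gs (x / a) = a := by
  simpa [div_eq_inv_mul] using HG_integral (inv_pos.2 ha) 0

theorem gk_integrable {a : ℝ} (ha : 0 < a) : Integrable (gk a) := (gs_integrable ha).div_const a

theorem gk_integral {a : ℝ} (ha : 0 < a) : ∫ x : ℝ, gk a x = 1 := by
  unfold gk; rw [integral_div, gs_integral ha, div_self ha.ne']

theorem gk_integrable' {a : ℝ} (ha : 0 < a) (x : ℝ) : Integrable fun v => gk a (x - v) :=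
  (gk_integrable ha).comp_sub_left x

theorem gk_integral' {a : ℝ} (ha : 0 < a) (x : ℝ) : ∫ v : ℝ, gk a (x - v) = 1 := by
  rw [integral_sub_left_eq_self (gk a) volume x, gk_integral ha]

theorem meas_abs_ge (c : ℝ) : MeasurableSet {t : ℝ | c ≤ |t|} :=
  measurableSet_le measurable_const (by fun_prop)

theorem gs_tail {a W : ℝ} (ha : 0 < a) (hW : 0 ≤ W) :
    ∫ x in {x : ℝ | a * W ≤ |x|}, gs (x / a) ≤ 2 * a * Real.exp (-W ^ 2) := by
  have hi := (gs_integrable (a := 2 * a) (by positivity)).const_mul (Real.exp (-W ^ 2))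
  calc _ ≤ ∫ x in {x : ℝ | a * W ≤ |x|}, Real.exp (-W ^ 2) * gs (x / (2 * a)) := by
        refine setIntegral_mono_on (gs_integrable ha).integrableOn hi.integrableOn (meas_abs_ge _)
          fun x hx => ?_
        rw [show x / (2 * a) = x / a / 2 by ring]
        refine gs_split hW ?_
        rw [abs_div, abs_of_pos ha, le_div_iff₀' ha]; exact hx
    _ ≤ ∫ x, Real.exp (-W ^ 2) * gs (x / (2 * a)) :=
        setIntegral_le_integral hi (ae_of_all _ fun x => (mul_pos (Real.exp_pos _) (gs_pos _)).le)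
    _ = _ := by rw [integral_const_mul, gs_integral (by positivity)]; ring

theorem gk_tail {a W : ℝ} (ha : 0 < a) (hW : 0 ≤ W) :
    ∫ x in {x : ℝ | a * W ≤ |x|}, gk a x ≤ 2 * Real.exp (-W ^ 2) := by
  unfold gk
  rw [integral_div, div_le_iff₀ ha]
  exact (gs_tail ha hW).trans_eq (by ring)

/-- Fourier transform of the Gaussian -/
theorem gk_four {a : ℝ} (ha : 0 < a) (x : ℝ) :
    ∫ t : ℝ, (gs (a * t) : ℂ) * ee (-(t * x)) = gk a x := by
  have h := HG_four (inv_pos.2 ha) x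
  simp only [div_inv_eq_mul, mul_comm _ a] at h
  rw [h, gk, div_eq_inv_mul x]; push_cast; ring

theorem gk_four' {a : ℝ} (ha : 0 < a) (x : ℝ) :
    ∫ t : ℝ, (gs (a * t) : ℂ) * ee (t * x) = gk a x := by
  simpa [gk_neg] using gk_four ha (-x)

theorem gk_four_integrable {a : ℝ} (ha : 0 < a) (x : ℝ) :
    Integrable fun t : ℝ => (gs (a * t) : ℂ) * ee (-(t * x)) := by
  have h := HG_four_integrable (inv_pos.2 ha) x
  simpa only [div_inv_eq_mul, mul_comm _ a] using h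

theorem gs_sub_le (x y : ℝ) : |gs x - gs y| ≤ π * |x ^ 2 - y ^ 2| := by
  have key : ∀ u v : ℝ, 0 ≤ u → u ≤ v → |Real.exp (-u) - Real.exp (-v)| ≤ |u - v| := by
    intro u v hu huv
    have h1 := Real.add_one_le_exp (-(v - u))
    have h2 : Real.exp (-v) = Real.exp (-u) * Real.exp (-(v - u)) := by
      rw [← Real.exp_add]; congr 1; ring
    have h3 : Real.exp (-u) ≤ 1 := Real.exp_le_one_iff.2 (by linarith)
    have h4 := Real.exp_pos (-u)
    have h5 : Real.exp (-(v - u)) ≤ 1 := Real.exp_le_one_iff.2 (by linarith)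
    rw [abs_of_nonneg (by nlinarith), abs_of_nonpos (by linarith)]
    nlinarith
  have hp := Real.pi_pos
  rw [show π * |x ^ 2 - y ^ 2| = |π * x ^ 2 - π * y ^ 2| by
    rw [← mul_sub, abs_mul, abs_of_pos hp], gs, gs]
  rcases le_total (π * x ^ 2) (π * y ^ 2) with h | h
  · exact key _ _ (by positivity) h
  · rw [abs_sub_comm, abs_sub_comm (π * x ^ 2)]; exact key _ _ (by positivity) h

theorem gs_lip (x y : ℝ) : |gs x - gs y| ≤ 2 * |x - y| := by
  have hd : ∀ u : ℝ, HasDerivAt gs (Real.exp (-(π * u ^ 2)) * -(π * (2 * u))) u := fun u => by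
    have h := (((hasDerivAt_pow 2 u).const_mul π).neg).exp
    unfold gs
    simpa using h
  have hb : ∀ u : ℝ, ‖Real.exp (-(π * u ^ 2)) * -(π * (2 * u))‖ ≤ 2 := fun u => by
    have h1 := Real.add_one_le_exp (π * u ^ 2)
    have h2 : Real.exp (-(π * u ^ 2)) * Real.exp (π * u ^ 2) = 1 := by
      rw [← Real.exp_add]; simp
    have h3 := Real.exp_pos (-(π * u ^ 2))
    have hp := Real.pi_pos
    have h4 : π * |u| ≤ π * u ^ 2 + 1 := by
      rw [← sq_abs u]
      nlinarith [Real.pi_lt_four, sq_nonneg (2 * |u| - 1)]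
    rw [Real.norm_eq_abs, abs_mul, abs_neg, abs_mul, abs_mul, abs_of_pos h3, abs_of_pos hp, abs_two]
    nlinarith
  simpa using Convex.norm_image_sub_le_of_norm_hasDerivWithin_le (s := Set.univ)
    (fun u _ => (hd u).hasDerivWithinAt) (fun u _ => hb u) convex_univ (Set.mem_univ y)
    (Set.mem_univ x)

theorem gk_lip {a : ℝ} (ha : 0 < a) (x y : ℝ) : |gk a x - gk a y| ≤ 2 * |x - y| / a ^ 2 := by
  rw [gk, gk, ← sub_div, abs_div, abs_of_pos ha, div_le_iff₀ ha]
  refine (gs_lip _ _).trans_eq ?_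
  rw [← sub_div, abs_div, abs_of_pos ha]; field_simp

theorem gk_log_le {w : ℝ} (hw : 0 < w) (hw1 : w ≤ 1) (v : ℝ) {n : ℕ} (hn : n ≠ 0) :
    gk w (Real.log n - v) ≤ 8 * Real.exp (4 * v) / (w * (n : ℝ) ^ 4) := by
  have h0 : (0 : ℝ) < n := by exact_mod_cast Nat.pos_of_ne_zero hn
  set x := Real.log n - v with hx
  have h1 : x ^ 2 ≤ (x / w) ^ 2 := by
    rw [div_pow, le_div_iff₀ (by positivity)]
    exact mul_le_of_le_one_right (sq_nonneg x) (pow_le_one₀ hw.le hw1)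
  have h2 : gs (x / w) ≤ Real.exp 2 * Real.exp (4 * v) / (n : ℝ) ^ 4 := by
    rw [le_div_iff₀ (by positivity), ← Real.exp_log h0, ← Real.exp_nat_mul, gs, ← Real.exp_add,
      ← Real.exp_add]
    refine Real.exp_le_exp.2 ?_
    push_cast
    nlinarith [Real.pi_gt_three, sq_nonneg (x - 1), sq_nonneg (x / w)]
  have h3 : Real.exp 2 ≤ 8 := by
    have := Real.exp_one_lt_d9
    have h4 : Real.exp 2 = Real.exp 1 * Real.exp 1 := by rw [← Real.exp_add]; norm_num
    nlinarith [Real.exp_pos 1]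
  rw [gk, mul_comm w, ← div_div]
  refine div_le_div_of_nonneg_right (h2.trans ?_) hw.le
  gcongr

/-- a bounded continuous function is integrable against a Gaussian -/
theorem int_gs_mul {a B : ℝ} (ha : 0 < a) {F : ℝ → ℝ} (hF : Continuous F) (hB : ∀ t, |F t| ≤ B) :
    Integrable fun t => gs (t / a) * F t :=
  (gs_integrable ha).mul_bdd (c := B) hF.aestronglyMeasurable (ae_of_all _ hB)

/-- a continuous function dominated by a Gaussian is integrable -/
theorem int_of_le_gs {E : Type*} [NormedAddCommGroup E] [SecondCountableTopology E] {a B : ℝ}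
    (ha : 0 < a) {F : ℝ → E} (hF : Continuous F) (hB : ∀ t, ‖F t‖ ≤ B * gs (t / a)) :
    Integrable F :=
  ((gs_integrable ha).const_mul B).mono' hF.aestronglyMeasurable (ae_of_all _ hB)

/-- a finite combination of integrable bounded continuous functions is square integrable -/
theorem int_sum_sq (S : Finset ℕ) (b : ℕ → ℂ) {g : ℕ → ℝ → ℝ} {B : ℝ} (hc : ∀ j, Continuous (g j))
    (hi : ∀ j, Integrable (g j)) (hB : ∀ j v, |g j v| ≤ B) :
    Integrable fun v => ‖∑ j ∈ S, b j * (g j v : ℂ)‖ ^ 2 := by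
  have h1 : Integrable fun v => ‖∑ j ∈ S, b j * (g j v : ℂ)‖ :=
    (integrable_finsetSum S fun j _ => (hi j).ofReal.const_mul (b j)).norm
  simp only [pow_two]
  refine h1.mul_bdd (c := ∑ j ∈ S, ‖b j‖ * B) (Continuous.aestronglyMeasurable (by fun_prop))
    (ae_of_all _ fun v => ?_)
  rw [norm_norm]
  refine norm_sum_le_of_le _ fun j _ => ?_
  rw [norm_mul, Complex.norm_real, Real.norm_eq_abs]
  exact mul_le_mul_of_nonneg_left (hB j v) (norm_nonneg _)

theorem int_gk_sq (S : Finset ℕ) (b : ℕ → ℂ) (x : ℕ → ℝ) {a : ℝ} (ha : 0 < a) :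
    Integrable fun v => ‖∑ j ∈ S, b j * (gk a (x j - v) : ℂ)‖ ^ 2 :=
  int_sum_sq S b (B := 1 / a) (fun _ => by fun_prop) (fun _ => gk_integrable' ha _) fun _ _ => by
    rw [abs_of_nonneg (gk_nonneg ha _)]; exact gk_le ha _

@[fun_prop] theorem cont_Dl (r P θ : ℝ) (F : ℕ → ℂ) : Continuous (Dl r P θ F) := by
  unfold Dl; fun_prop

theorem int_Dl_sq (r P : ℝ) {θ : ℝ} (hθ : 0 < θ) (F : ℕ → ℂ) :
    Integrable fun v => ‖Dl r P θ F v‖ ^ 2 :=
  int_sum_sq (Mr r) (fun m => (gE r P m : ℂ) * F m) (B := 1 / θ + 1 / Th r) (fun _ => by fun_prop)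
    (fun _ => (gk_integrable' hθ _).sub (gk_integrable' (Th_pos r) _)) fun _ _ =>
    (abs_sub _ _).trans (add_le_add
      (by rw [abs_of_nonneg (gk_nonneg hθ _)]; exact gk_le hθ _)
      (by rw [abs_of_nonneg (gk_nonneg (Th_pos r) _)]; exact gk_le (Th_pos r) _))

/-! ### Sets of frequencies -/

theorem Us.subset {lo hi m : ℝ} {U : Set ℝ} (h : Us lo hi m U) : U ⊆ Set.Icc (-hi) hi :=
  fun t ht => abs_le.1 (h.2.1 t ht).2

theorem Us.fin {lo hi m : ℝ} {U : Set ℝ} (h : Us lo hi m U) : volume U ≠ ⊤ :=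
  ((measure_mono h.subset).trans_lt measure_Icc_lt_top).ne

theorem Us.mono {lo hi m m' : ℝ} {U : Set ℝ} (h : Us lo hi m U) (hm : m ≤ m') : Us lo hi m' U :=
  ⟨h.1, h.2.1, h.2.2.trans hm⟩

theorem Us.intOn {E : Type*} [NormedAddCommGroup E] {lo hi m : ℝ} {U : Set ℝ} (h : Us lo hi m U)
    {f : ℝ → E} (hf : Continuous f) : IntegrableOn f U :=
  hf.integrableOn_Icc.mono_set h.subset

theorem Us.int_le {lo hi m B : ℝ} {U : Set ℝ} (h : Us lo hi m U) {f : ℝ → ℝ} (hf : Continuous f)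
    (hB0 : 0 ≤ B) (hB : ∀ t ∈ U, f t ≤ B) : ∫ t in U, f t ≤ m * B := by
  refine (setIntegral_mono_on (h.intOn hf) (h.intOn continuous_const) h.1 hB).trans ?_
  rw [setIntegral_const, smul_eq_mul]
  exact mul_le_mul_of_nonneg_right h.2.2 hB0

/-- translation of a set of frequencies -/
theorem Us.shift {lo hi lo' hi' m s : ℝ} {U : Set ℝ} (h : Us lo hi m U) (h1 : lo' + |s| ≤ lo)
    (h2 : hi + |s| ≤ hi') : Us lo' hi' m ((· + s) ⁻¹' U) ∧
      ∀ f : ℝ → ℝ, ∫ t in U, f (t - s) = ∫ t in (· + s) ⁻¹' U, f t := by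
  refine ⟨⟨measurable_add_const s h.1, fun t ht => ?_, ?_⟩, fun f => ?_⟩
  · obtain ⟨a, b⟩ := h.2.1 _ ht
    have c := abs_add_le t s
    have d := abs_add_le (t + s) (-s)
    rw [add_neg_cancel_right, abs_neg] at d
    constructor <;> linarith
  · rw [Measure.real, measure_preimage_add_right]; exact h.2.2
  · have := (measurePreserving_add_right volume s).setIntegral_preimage_emb
      (measurableEmbedding_addRight s) (fun t => f (t - s)) U
    simpa using this.symm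

/-! ### The linear forms of the Vaughan identity -/

theorem cont_LI (Y A B : ℕ) {G : ℝ → ℕ → ℂ} (h : ∀ n, Continuous fun t => G t n) :
    Continuous fun t => LI Y A B (G t) := by unfold LI; fun_prop

theorem cont_LJ (Y A B j : ℕ) {G : ℝ → ℕ → ℂ} (h : ∀ n, Continuous fun t => G t n) :
    Continuous fun t => LJ Y A B j (G t) := by unfold LJ; fun_prop

theorem cont_Lin (r P : ℝ) {G : ℝ → ℕ → ℂ} (h : ∀ n, Continuous fun t => G t n) :
    Continuous fun t => Lin r P (G t) :=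
  (cont_LI _ _ _ h).add (continuous_finsetSum _ fun j _ => cont_LJ _ _ _ j h)

theorem lin_smul (r P : ℝ) (c : ℂ) (F : ℕ → ℂ) : c * Lin r P F = Lin r P fun n => c * F n := by
  simp only [Lin, LI, LJ, mul_add, mul_sub, mul_sum, mul_left_comm c]

theorem sum2_integral (S : Finset ℕ) (T : ℕ → Finset ℕ) (c : ℕ → ℕ → ℂ) {G : ℝ → ℕ → ℂ}
    (h : ∀ n, Integrable fun s => G s n) :
    Integrable (fun s => ∑ d ∈ S, ∑ k ∈ T d, c d k * G s (d * k)) ∧
      ∫ s, ∑ d ∈ S, ∑ k ∈ T d, c d k * G s (d * k) =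
        ∑ d ∈ S, ∑ k ∈ T d, c d k * ∫ s, G s (d * k) := by
  have h1 : ∀ d, Integrable fun s => ∑ k ∈ T d, c d k * G s (d * k) := fun d =>
    integrable_finsetSum _ fun k _ => (h _).const_mul _
  refine ⟨integrable_finsetSum _ fun d _ => h1 d, ?_⟩
  rw [integral_finsetSum _ fun d _ => h1 d]
  refine sum_congr rfl fun d _ => ?_
  rw [integral_finsetSum _ fun k _ => (h _).const_mul _]
  exact sum_congr rfl fun k _ => integral_const_mul _ _

theorem lin_integral (r P : ℝ) {G : ℝ → ℕ → ℂ} (h : ∀ n, Integrable fun s => G s n) :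
    ∫ s, Lin r P (G s) = Lin r P fun n => ∫ s, G s n := by
  have h1 := fun S T c => sum2_integral S T c h
  have h2 : ∀ Y A B, Integrable (fun s => LI Y A B (G s)) ∧
      ∫ s, LI Y A B (G s) = LI Y A B fun n => ∫ s, G s n := fun Y A B => by
    unfold LI
    refine ⟨(h1 _ _ _).1.sub (h1 _ _ _).1, ?_⟩
    rw [integral_sub (h1 _ _ _).1 (h1 _ _ _).1, (h1 _ _ _).2, (h1 _ _ _).2]
  have h3 : ∀ Y A B j, Integrable (fun s => LJ Y A B j (G s)) ∧
      ∫ s, LJ Y A B j (G s) = LJ Y A B j fun n => ∫ s, G s n := fun Y A B j => h1 _ _ _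
  unfold Lin
  rw [integral_add (h2 _ _ _).1 (integrable_finsetSum _ fun j _ => (h3 _ _ _ j).1), (h2 _ _ _).2,
    integral_finsetSum _ fun j _ => (h3 _ _ _ j).1]
  simp only [fun Y A B j => (h3 Y A B j).2]

end Pool.Agent.P.E2
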