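import Pool.Agent.P.MP_e94e4b_nt.PF.Basic
import Pool.Agent.P.MP_8be758_nt.Avg.VAU
import Pool.Agent.P.MP_b60056_nt.AA.If

/-! Definitions for the theorem on a prime and a product of two primes with fixed sum. -/

namespace Pool.Agent.P.E2

open Finset Real Filter Topology MeasureTheory
open Pool.Agent.P.MP_e86632_nt (ee nn)
open Pool.Agent.P.MP_8be758_nt.Avg (gs Rough red ft en nsq vau_g)
open Pool.Agent.P.MP_e94e4b_nt.PF (mN)
open ArithmeticFunction (vonMangoldt moebius)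
open DirichletCharacter (LFunction)

noncomputable section

/-! ### Dirichlet polynomials and Gaussian windows -/

/-- `n ^ (-2 π i t)` -/
def nit (t : ℝ) (n : ℕ) : ℂ := ee (-(t * Real.log n))

/-- Dirichlet polynomial -/
def dq (I : Finset ℕ) (a : ℕ → ℂ) (t : ℝ) : ℂ := ∑ n ∈ I, a n * nit t n

/-- Gaussian of width `a` and mass one -/
def gk (a x : ℝ) : ℝ := gs (x / a) / a

/-- smoothed indicator of the interval from `α` to `β` -/
def win (w α β x : ℝ) : ℝ := ∫ v in α..β, gk w (x - v)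

/-- bounded coefficients of period `q` -/
def Per (q : ℕ) (c : ℕ → ℂ) : Prop := 1 ≤ q ∧ (∀ n, ‖c n‖ ≤ 1) ∧ ∀ n, c (n + q) = c n

/-- a character as a function on the natural numbers -/
def ch {q : ℕ} (χ : DirichletCharacter ℂ q) (n : ℕ) : ℂ := χ (n : ZMod q)

/-- logarithmic weight on the primes -/
def th (n : ℕ) : ℝ := if n.Prime then Real.log n else 0

/-- indicator of the primes -/
def p1 (n : ℕ) : ℝ := if n.Prime then 1 else 0

/-- indicator of the positive integers -/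
def on (n : ℕ) : ℝ := if n = 0 then 0 else 1

/-! ### L-functions -/

/-- minus the logarithmic derivative -/
def ld {q : ℕ} [NeZero q] (χ : DirichletCharacter ℂ q) (s : ℂ) : ℂ :=
  -(deriv (LFunction χ) s / LFunction χ s)

/-- the majorant of the logarithmic derivatives -/
def zl (σ : ℝ) : ℝ := ∑' n : ℕ, vonMangoldt n / (n : ℝ) ^ σ

open Classical in
/-- one for the principal character -/
def kp {q : ℕ} (χ : DirichletCharacter ℂ q) : ℂ := if χ = 1 then 1 else 0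

/-- mean value of a periodic function -/
def kap (q : ℕ) (c : ℕ → ℂ) : ℂ := (∑ n ∈ range q, c n) / q

/-- one period of the Dirichlet series minus the corresponding integral -/
def Bk (q : ℕ) (c : ℕ → ℂ) (s : ℂ) (k : ℕ) : ℂ :=
  ∑ n ∈ Ioc (k * q) ((k + 1) * q), c n * (n : ℂ) ^ (-s) -
    kap q c * (((((k + 1) * q : ℕ) : ℂ) ^ (1 - s) - ((k * q : ℕ) : ℂ) ^ (1 - s)) / (1 - s))

/-- Mellin kernel of the Gaussian window -/
def km (w v : ℝ) (z : ℂ) : ℂ := Complex.exp ((w : ℂ) ^ 2 * z ^ 2 / (4 * π) + z * v)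

/-- the point `σ + 2 π i u` -/
def pt (σ u : ℝ) : ℂ := σ + (2 * π * u : ℝ) * Complex.I

/-! ### The sequence of products of two primes -/

/-- the main scale -/
def XX (r : ℝ) : ℝ := Real.exp (r ^ 13)

/-- size of the large prime -/
def X2 (r P : ℝ) : ℝ := XX r / P

/-- the small primes -/
def PP (P : ℝ) : Finset ℕ := (Ioc ⌊P⌋₊ ⌊2 * P⌋₊).filter Nat.Prime

/-- sum of the reciprocals of the small primes -/
def rho (P : ℝ) : ℝ := ∑ p ∈ PP P, 1 / (p : ℝ)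

/-- lower end of the range of the large prime -/
def A1 (r P : ℝ) : ℕ := ⌊X2 r P / 55⌋₊

/-- upper end of the range of the large prime -/
def A2 (r P : ℝ) : ℕ := ⌊55 * X2 r P⌋₊

/-- range of the large prime -/
def RN (r P : ℝ) : Finset ℕ := Ioc (A1 r P) (A2 r P)

/-- smooth cut-off for the large prime -/
def ph (r P : ℝ) (n : ℕ) : ℝ :=
  win (1 / r ^ 13) (r ^ 13 - Real.log P - 3) (r ^ 13 - Real.log P + 3) (Real.log n)

/-- the weight on products of a small and a large prime -/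
def gE (r P : ℝ) (m : ℕ) : ℝ :=
  ∑ p ∈ (PP P).filter (fun p => p ∣ m ∧ m / p ∈ RN r P), th (m / p) * ph r P (m / p)

/-- range of the products -/
def Mr (r : ℝ) : Finset ℕ := Icc 1 ⌊110 * XX r⌋₊

/-- cut in the Vaughan identity -/
def Yv (r : ℝ) : ℕ := ⌊Real.exp (r ^ 13 / 3)⌋₊

/-- number of dyadic blocks -/
def Jv (r : ℝ) : ℕ := ⌈2 * r ^ 13⌉₊

/-- second coefficient of the type II sums -/
def bt (Y k : ℕ) : ℝ := ∑ d ∈ k.divisors.filter (Y < ·), (moebius d : ℝ)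

/-- type I sums -/
def LI (Y A B : ℕ) (F : ℕ → ℂ) : ℂ :=
  ∑ d ∈ Icc 1 Y, ∑ k ∈ Ioc (A / d) (B / d), ((moebius d * Real.log k : ℝ) : ℂ) * F (d * k) -
    ∑ d ∈ Icc 1 (Y * Y), ∑ k ∈ Ioc (A / d) (B / d), ((vau_g Y d : ℝ) : ℂ) * F (d * k)

/-- one box of the type II sums -/
def LJ (Y A B j : ℕ) (F : ℕ → ℂ) : ℂ :=
  ∑ m ∈ Ioc (Y * 2 ^ j) (Y * 2 ^ (j + 1)),
    ∑ k ∈ Ioc (max Y (A / (Y * 2 ^ (j + 1)))) (B / (Y * 2 ^ j)),
      ((vonMangoldt m * bt Y k : ℝ) : ℂ) * F (m * k)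

/-- the Vaughan identity with full boxes -/
def Lin (r P : ℝ) (F : ℕ → ℂ) : ℂ :=
  LI (Yv r) (A1 r P) (A2 r P) F + ∑ j ∈ range (Jv r), LJ (Yv r) (A1 r P) (A2 r P) j F

/-- a measurable set of frequencies between `lo` and `hi` of measure at most `m` -/
def Us (lo hi m : ℝ) (U : Set ℝ) : Prop :=
  MeasurableSet U ∧ (∀ t ∈ U, lo ≤ |t| ∧ |t| ≤ hi) ∧ volume.real U ≤ m

/-- size facts for the ranges -/
structure Rg (r P : ℝ) : Prop where
  x2 : Real.log (X2 r P) = r ^ 13 - Real.log P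
  x2l : Real.exp (r ^ 13 - r) ≤ X2 r P
  x2u : X2 r P ≤ Real.exp (r ^ 13)
  a1 : Real.exp (r ^ 13 - r - 5) ≤ A1 r P
  a12 : A1 r P ≤ A2 r P
  a2 : (A2 r P : ℝ) ≤ 55 * X2 r P
  a2u : (A2 r P : ℝ) ≤ Real.exp (r ^ 13 + 5)
  yl : Real.exp (3 / 10 * r ^ 13) ≤ Yv r
  yu : (Yv r : ℝ) ≤ Real.exp (r ^ 13 / 3)
  ya : Yv r ≤ A1 r P
  jl : A2 r P ≤ Yv r * 2 ^ Jv r
  ju : (Jv r : ℝ) ≤ 3 * r ^ 13
  rn : ∀ n ∈ RN r P, Real.exp (r ^ 13 / 2) ≤ n ∧ 2 * P < n ∧ Real.log n ≤ 2 * r ^ 13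
  rn' : ∀ n : ℕ, 1 ≤ n → n ∉ RN r P → 4 ≤ |Real.log n - (r ^ 13 - Real.log P)|
  pp : ∀ p ∈ PP P, p.Prime ∧ P < p ∧ (p : ℝ) ≤ 2 * P
  ppc : ((PP P).card : ℝ) ≤ 2 * P
  mr : ∀ p ∈ PP P, ∀ n ∈ RN r P, p * n ∈ Mr r
  mrc : ((Mr r).card : ℝ) ≤ 110 * XX r

/-! ### Blocks and arcs -/

/-- width of the long windows -/
def Th (r : ℝ) : ℝ := Real.exp (-(7 * r))

/-- half of the common sum -/
def Mn (N : ℕ) : ℕ := N ^ 2 + N + 1

/-- the indices in block `i` -/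
def JJ (y L i : ℕ) : Finset ℕ := Ico (y + i * L) (y + i * L + L)

/-- left end of block `i` -/
def xb (y L i : ℕ) : ℕ := Mn (y + i * L)

/-- length of block `i` -/
def Yb (y L i : ℕ) : ℕ := xb y L (i + 1) - xb y L i

/-- range of the prime -/
def Ip (y L i : ℕ) : Finset ℕ := Ico (xb y L i) (xb y L (i + 1))

/-- range of the partner -/
def Ig (y L i : ℕ) : Finset ℕ := Ioc (xb y L i - Yb y L i) (xb y L i + 2 * Yb y L i)

/-- total length of the blocks -/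
def Xt (y L : ℕ) : ℕ := xb y L (y / L) - xb y L 0

/-- the standing size conditions -/
structure St (r P : ℝ) (y K H : ℕ) : Prop where
  hy : (y : ℝ) ^ 2 = XX r
  k1 : r ^ 110 ≤ K
  k2 : (K : ℝ) ≤ 2 * r ^ 110
  h1 : P ≤ H
  h2 : (H : ℝ) ≤ 2 * P
  p1 : r ^ 300 ≤ P
  p2 : P ≤ Real.exp r

/-- size facts for the blocks -/
structure Geo (r P : ℝ) (y K H : ℕ) : Prop where
  ye : (y : ℝ) = Real.exp (r ^ 13 / 2)
  p1 : 1 ≤ P
  k0 : 1 ≤ K
  kh : 2 * K ≤ H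
  kp : (K : ℝ) < P
  ke : (K : ℝ) ≤ Real.exp r
  hl : r ^ 600 ≤ (H : ℝ) ^ 2
  hu : (H : ℝ) ^ 2 ≤ 4 * Real.exp (2 * r)
  lu : (K : ℝ) * H ≤ Real.exp (2 * r)
  x1 : ∀ i < y / (K * H), XX r ≤ xb y (K * H) i ∧ (xb y (K * H) (i + 1) : ℝ) ≤ 5 * XX r ∧
    xb y (K * H) i + Yb y (K * H) i = xb y (K * H) (i + 1) ∧ Yb y (K * H) i ≤ xb y (K * H) i
  y1 : ∀ i < y / (K * H), 2 * y * (K * H) ≤ Yb y (K * H) i ∧ Yb y (K * H) i ≤ 5 * y * (K * H)
  ig : ∀ i < y / (K * H), XX r / 2 ≤ (xb y (K * H) i : ℝ) - Yb y (K * H) i ∧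
    (xb y (K * H) i : ℝ) + 2 * Yb y (K * H) i ≤ 6 * XX r ∧ Ig y (K * H) i ⊆ Mr r
  jj : ∀ i < y / (K * H), ∀ N ∈ JJ y (K * H) i, y ≤ N ∧ N < 2 * y ∧ (N - y) / (K * H) = i ∧
    xb y (K * H) i ≤ Mn N ∧ Mn N < xb y (K * H) (i + 1) ∧
    ∀ p ∈ Ip y (K * H) i, p ≤ mN N ∧ mN N - p ∈ Ig y (K * H) i
  xt : ∑ i ∈ range (y / (K * H)), Yb y (K * H) i = Xt y (K * H) ∧
    xb y (K * H) 0 + Xt y (K * H) = xb y (K * H) (y / (K * H)) ∧
    2 * XX r ≤ Xt y (K * H) ∧ (Xt y (K * H) : ℝ) ≤ 4 * XX r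

/-- exponential sum over the targets -/
def Ws (J : Finset ℕ) (s : ℕ → ℕ) (α : ℝ) : ℂ := ∑ N ∈ J, ee (s N * α)

/-- normalized complete sum -/
def gam (q a : ℕ) : ℂ := (∑ ν ∈ range q, ee (mN ν * ((a : ℝ) / q))) / q

/-- the reduced fractions with denominator up to `K` -/
def RR (K : ℕ) : Finset (Σ _ : ℕ, ℕ) := (Icc 1 K).sigma red

/-- the value of a fraction -/
def fr (x : Σ _ : ℕ, ℕ) : ℝ := (x.2 : ℝ) / x.1

/-- the Ramanujan mean -/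
def mf (q : ℕ) : ℝ := (moebius q : ℝ) / q.totient

/-- term of the singular series -/
def sq (q : ℕ) : ℝ := mf q ^ 2 * (∑ a ∈ red q, gam q a).re

/-- mean of the twisted weight over a long window -/
def cb (r P x α : ℝ) : ℂ :=
  (∑ m ∈ Mr r, (gE r P m : ℂ) * ee (m * α) * (gk (Th r) (Real.log m - Real.log x) : ℂ)) / x

/-- difference between the short and the long window -/
def Dl (r P θ : ℝ) (F : ℕ → ℂ) (v : ℝ) : ℂ :=
  ∑ m ∈ Mr r, (gE r P m : ℂ) * F m *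
    ((gk θ (Real.log m - v) - gk (Th r) (Real.log m - v) : ℝ) : ℂ)

/-- the coefficients on an arc -/
def ba (r P : ℝ) (y L i : ℕ) (α : ℝ) (m : ℕ) : ℂ :=
  (gE r P m : ℂ) * ee (m * α) - cb r P (xb y L i) α

/-- the error on an arc -/
def arcE (r P : ℝ) (y L i : ℕ) (η α : ℝ) : ℝ :=
  ∫ β in (-η)..η, ‖ft (Ig y L i) (ba r P y L i α) β‖ ^ 2

/-- the main term of an arc -/
def mt (r P : ℝ) (y L i : ℕ) (α : ℝ) : ℂ :=
  cb r P (xb y L i) α * ft (Ip y L i) (fun p => (p1 p : ℂ)) α *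
    (starRingEnd ℂ) (Ws (JJ y L i) mN α)

/-- weighted number of representations -/
def Rc (r P : ℝ) (y L i N : ℕ) : ℝ := ∑ p ∈ Ip y L i, p1 p * gE r P (mN N - p)

/-- weighted energy at the denominators between `R` and `K` -/
def tl (R K : ℕ) (F : ℕ → ℕ → ℂ) : ℝ :=
  ∑ q ∈ Ioc R K, 1 / √(q : ℝ) * ∑ a ∈ red q, ‖F q a‖ ^ 2

/-- the property in the theorem -/
def Good (C N : ℕ) : Prop :=
  ∃ p p₁ p₂ : ℕ, p.Prime ∧ p₁.Prime ∧ p₂.Prime ∧ p + p₁ * p₂ = 2 * N ^ 2 + 2 * N + 2 ∧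
    (p₁ : ℝ) ≤ Real.log N ^ C ∧ |(p : ℝ) - (N ^ 2 + N + 1)| ≤ N * Real.log N ^ C

end

end Pool.Agent.P.E2
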