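import Pool.Agent.P.MP_e94e4b_nt.E2.IfD

/-! Statements of the steps, part C: the circle method in blocks. -/

namespace Pool.Agent.P.E2

open Finset Real Filter Topology MeasureTheory
open Pool.Agent.P.MP_e86632_nt (ee nn)
open Pool.Agent.P.MP_8be758_nt.Avg (gs Rough red ft en nsq vau_g)
open Pool.Agent.P.MP_e94e4b_nt.PF (mN sgm)
open ArithmeticFunction (vonMangoldt moebius)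
open DirichletCharacter (LFunction)

-- deps:
def S_GEO : Prop := ∀ᶠ r : ℝ in atTop, ∀ (P : ℝ) (y K H : ℕ), St r P y K H → Geo r P y K H

-- deps: RNG PH
def S_GS : Prop := ∀ᶠ r : ℝ in atTop, ∀ P : ℝ, 1 ≤ P → P ≤ Real.exp r →
  (∀ m, 0 ≤ gE r P m ∧ gE r P m ≤ 2 * r ^ 13) ∧
  (∀ m, gE r P m ≠ 0 → ∃ p ∈ PP P, ∃ n ∈ RN r P, n.Prime ∧ m = p * n) ∧
  (∀ F : ℕ → ℝ, ∑ m ∈ Mr r, gE r P m * F m =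
    ∑ p ∈ PP P, ∑ n ∈ RN r P, th n * ph r P n * F (p * n)) ∧
  ∀ F : ℕ → ℂ, ∑ m ∈ Mr r, (gE r P m : ℂ) * F m =
    ∑ p ∈ PP P, ∑ n ∈ RN r P, ((th n * ph r P n : ℝ) : ℂ) * F (p * n)

-- deps: PNT
def S_RHO : Prop := ∀ᶠ r : ℝ in atTop, ∀ P : ℝ, r ^ 300 ≤ P → P ≤ Real.exp r →
  1 / (4 * r) ≤ rho P ∧ rho P ≤ 2

/-! ### The error on the arcs -/

-- deps:
def S_PL : Prop := ∀ (S : Finset ℕ) (b : ℕ → ℂ) (x : ℕ → ℝ) (a a' ε : ℝ), 0 < a → 0 < a' →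
  ∫ v : ℝ, ‖∑ j ∈ S, b j * ((gk a (x j - v) - ε * gk a' (x j - v) : ℝ) : ℂ)‖ ^ 2 =
    ∫ t : ℝ, ‖∑ j ∈ S, b j * ee (-(t * x j))‖ ^ 2 * (gs (a * t) - ε * gs (a' * t)) ^ 2

-- deps: PL
def S_GAL : Prop := ∃ C : ℝ, 0 < C ∧ ∀ (I : Finset ℕ) (b : ℕ → ℂ) (a η : ℝ), 0 < a → 0 ≤ η →
  a * η ≤ 5 → ∫ β in (-η)..η, ‖ft I b β‖ ^ 2 ≤
    C * ∫ u : ℝ, ‖∑ m ∈ I, b m * (gk a (m - u) : ℂ)‖ ^ 2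

-- deps: MS RNG GS
def S_CB : Prop := ∀ᶠ r : ℝ in atTop, ∀ P x α : ℝ, 1 ≤ P → P ≤ Real.exp r → XX r ≤ x →
  x ≤ 5 * XX r → ‖cb r P x α‖ ≤ 4 * r ^ 13

-- deps: RS CMP RNG GEO GS CB
def S_LOC : Prop := ∀ᶠ r : ℝ in atTop, ∀ (P : ℝ) (y K H : ℕ), St r P y K H →
  ∀ i < y / (K * H), ∀ α u a : ℝ, a = (H : ℝ) ^ 2 / XX r * xb y (K * H) i →
    (xb y (K * H) i : ℝ) - Yb y (K * H) i + 3 * r ^ 7 * a ≤ u →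
    u ≤ (xb y (K * H) i : ℝ) + 2 * Yb y (K * H) i - 3 * r ^ 7 * a →
    ‖∑ m ∈ Ig y (K * H) i, ba r P y (K * H) i α m * (gk a (m - u) : ℂ)‖ ≤
      ‖Dl r P ((H : ℝ) ^ 2 / XX r) (fun m => ee (m * α)) (Real.log u)‖ / XX r + 1 / r ^ 400

-- deps: RS
def S_EXT : Prop := ∀ (A A' : ℕ) (b : ℕ → ℂ) (φ : ℝ → ℝ) (a W B δ : ℝ), A ≤ A' → 1 ≤ a → 0 ≤ W →
  0 ≤ B → (∀ m, ‖b m‖ ≤ B) → ContinuousOn φ (Set.Icc A A') →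
  (∀ u : ℝ, A + W * a ≤ u → u ≤ A' - W * a →
    ‖∑ m ∈ Ioc A A', b m * (gk a (m - u) : ℂ)‖ ≤ φ u + δ) →
  ∫ u : ℝ, ‖∑ m ∈ Ioc A A', b m * (gk a (m - u) : ℂ)‖ ^ 2 ≤
    2 * (∫ u in (A : ℝ)..A', φ u ^ 2) + 2 * δ ^ 2 * (A' - A) + 256 * B ^ 2 * (W * a) +
      B ^ 2 * ((A' : ℝ) - A) ^ 2 * Real.exp (-W ^ 2)

-- deps: GEO GS GAL CB LOC EXT
def S_ARC1 : Prop := ∃ C : ℝ, 0 < C ∧ ∀ᶠ r : ℝ in atTop, ∀ (P : ℝ) (y K H : ℕ), St r P y K H →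
  ∀ i < y / (K * H), ∀ α : ℝ, arcE r P y (K * H) i (1 / (H : ℝ) ^ 2) α ≤
    C * ((∫ u in ((xb y (K * H) i : ℝ) - Yb y (K * H) i)..(xb y (K * H) i + 2 * Yb y (K * H) i),
      ‖Dl r P ((H : ℝ) ^ 2 / XX r) (fun m => ee (m * α)) (Real.log u)‖ ^ 2) / XX r ^ 2 +
      Yb y (K * H) i / r ^ 700)

-- deps:
def S_OV : Prop := ∀ (r P : ℝ) (y K H : ℕ) (φ : ℝ → ℝ), Geo r P y K H → Continuous φ →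
  Integrable φ → (∀ v, 0 ≤ φ v) →
  ∑ i ∈ range (y / (K * H)),
      ∫ u in ((xb y (K * H) i : ℝ) - Yb y (K * H) i)..(xb y (K * H) i + 2 * Yb y (K * H) i),
        φ (Real.log u) ≤ 60 * XX r * ∫ v : ℝ, φ v

-- deps: GEO ARC1 OV
def S_ARC : Prop := ∃ C : ℝ, 0 < C ∧ ∀ᶠ r : ℝ in atTop, ∀ (P : ℝ) (y K H : ℕ), St r P y K H →
  ∀ α : ℝ, ∑ i ∈ range (y / (K * H)), arcE r P y (K * H) i (1 / (H : ℝ) ^ 2) α ≤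
    C * ((∫ v : ℝ, ‖Dl r P ((H : ℝ) ^ 2 / XX r) (fun m => ee (m * α)) v‖ ^ 2) / XX r +
      XX r / r ^ 600)

-- deps:
def S_CH1 : Prop := ∀ (q : ℕ) [NeZero q], Fintype.card (DirichletCharacter ℂ q) ≤ q ∧
  ∀ a : ℕ, a.Coprime q → ∃ κ : DirichletCharacter ℂ q → ℂ, (∀ χ, ‖κ χ‖ ≤ 1) ∧ κ 1 = mf q ∧
    ∀ m : ℕ, m.Coprime q → ee (m * ((a : ℝ) / q)) = ∑ χ, κ χ * ch χ m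

-- deps: RNG DP GS PL
def S_CHX : Prop := ∃ b : ℕ, ∀ᶠ r : ℝ in atTop,
  ∀ (P θ : ℝ) (q : ℕ) [NeZero q] (χ : DirichletCharacter ℂ q), r ^ b ≤ P → P ≤ Real.exp r →
    P / XX r ≤ θ → θ ≤ Th r → (q : ℝ) ≤ Real.exp r →
    ∫ v : ℝ, ‖Dl r P θ (ch χ) v‖ ^ 2 ≤ 2 * XX r ^ 2 / r ^ 600

-- deps: RNG GEO GS CH1 CHX
def S_CHR : Prop := ∃ b : ℕ, ∀ᶠ r : ℝ in atTop, ∀ (P : ℝ) (y K H : ℕ), St r P y K H →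
  r ^ b ≤ P → ∀ q ∈ Icc 1 K, ∀ a ∈ red q,
    ∫ v : ℝ, ‖Dl r P ((H : ℝ) ^ 2 / XX r) (fun m => ee (m * ((a : ℝ) / q))) v‖ ^ 2 ≤
      XX r ^ 2 / r ^ 350

/-! ### The circle method -/

-- deps:
def S_CI1 : Prop := ∀ (I I' J : Finset ℕ) (f g : ℕ → ℂ) (s : ℕ → ℕ) (α0 : ℝ),
  (∫ α in α0..(α0 + 1), ‖ft I f α‖ ^ 2 = nsq I f) ∧
  ((∀ N ∈ J, ∀ p ∈ I, p ≤ s N ∧ s N - p ∈ I') →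
    ∫ α in α0..(α0 + 1), ft I f α * ft I' g α * (starRingEnd ℂ) (Ws J s α) =
      ∑ N ∈ J, ∑ p ∈ I, f p * g (s N - p))

-- deps:
def S_CI2 : Prop := ∀ (A B : ℕ) (η θ : ℝ), 0 < η → 0 ≤ θ → θ ≤ 1 - 2 * η →
  ∫ α in (-η)..(-η + 1),
    Set.indicator {α : ℝ | η ≤ |α - θ|} (fun α => ‖ft (Ioc A B) (fun _ => 1) (α - θ)‖ ^ 2) α ≤ 1 / η

-- deps:
def S_CP : Prop := ∀ (ι : Type) (R : Finset ι) (θ : ι → ℝ) (c D : ι → ℂ) (F G W : ℂ)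
  (α η w0 Jc μ ν : ℝ), 0 < μ → 0 < ν → 0 ≤ w0 → ‖W‖ ≤ Jc →
  (∀ j ∈ R, ∀ k ∈ R, j ≠ k → 2 * η ≤ |θ j - θ k|) → ((∀ j ∈ R, η ≤ |α - θ j|) → ‖W‖ ≤ w0) →
  ‖F * G * W - ∑ j ∈ R, c j * (F * D j * W)‖ ≤ w0 * (‖F‖ ^ 2 + ‖G‖ ^ 2) +
    Jc * (μ * ‖F‖ ^ 2 + (∑ j ∈ R, if |α - θ j| < η then ‖G - c j * D j‖ ^ 2 else 0) / μ) +
    Jc * ∑ j ∈ R, ‖c j‖ * (ν * ‖F‖ ^ 2 + (if η ≤ |α - θ j| then ‖D j‖ ^ 2 else 0) / ν)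

-- deps: CI1 CI2 CP
def S_CIRC : Prop := ∀ (ι : Type) (R : Finset ι) (θ : ι → ℝ) (c : ι → ℂ) (I J : Finset ℕ)
  (A B : ℕ) (f g : ℕ → ℂ) (s : ℕ → ℕ) (η w0 μ ν : ℝ), 0 < η → 0 < μ → 0 < ν → 0 ≤ w0 →
  (∀ j ∈ R, 0 ≤ θ j ∧ θ j ≤ 1 - 2 * η) → (∀ j ∈ R, ∀ k ∈ R, j ≠ k → 2 * η ≤ |θ j - θ k|) →
  (∀ N ∈ J, ∀ p ∈ I, p ≤ s N ∧ s N - p ∈ Ioc A B) →
  (∀ α, -η ≤ α → α ≤ 1 - η → (∀ j ∈ R, η ≤ |α - θ j|) → ‖Ws J s α‖ ≤ w0) →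
  ‖∑ N ∈ J, ∑ p ∈ I, f p * g (s N - p) -
      ∑ j ∈ R, c j * ft I f (θ j) * (starRingEnd ℂ) (Ws J s (θ j))‖ ≤
    w0 * (nsq I f + nsq (Ioc A B) g) +
    J.card * (μ * nsq I f + (∑ j ∈ R, ∫ β in (-η)..η,
      ‖ft (Ioc A B) (fun m => g m * ee (m * θ j) - c j) β‖ ^ 2) / μ) +
    J.card * ∑ j ∈ R, ‖c j‖ * (ν * nsq I f + 1 / (ν * η))

-- deps:
def S_CNT : Prop := ∀ (α δ : ℝ) (a : ℤ) (q J : ℕ), 1 ≤ q → IsCoprime a q → 0 ≤ δ →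
  |α - a / q| ≤ 1 / (q : ℝ) ^ 2 →
  (((Icc 1 J).filter fun j : ℕ => nn (j * α) ≤ δ).card : ℝ) ≤ (J / q + 1) * (2 * δ * q + 3)

-- deps: CNT
def S_WEYL : Prop := ∀ (α δ : ℝ) (a : ℤ) (q N0 L : ℕ), 1 ≤ q → IsCoprime a q → 0 < δ →
  |α - a / q| ≤ 1 / (q : ℝ) ^ 2 →
  ‖Ws (Ico N0 (N0 + L)) mN α‖ ^ 2 ≤ L + 2 * L * ((4 * L / q + 1) * (2 * δ * q + 3)) + L / δ

-- deps: WEYL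
def S_MIN : Prop := ∀ K H N0 : ℕ, 1 ≤ K → 2 * K ≤ H →
  (∀ x ∈ RR K, 0 ≤ fr x ∧ fr x ≤ 1 - 2 * (1 / (H : ℝ) ^ 2)) ∧
  (∀ x ∈ RR K, ∀ x' ∈ RR K, x ≠ x' → 2 * (1 / (H : ℝ) ^ 2) ≤ |fr x - fr x'|) ∧
  ∀ α : ℝ, -(1 / (H : ℝ) ^ 2) ≤ α → α ≤ 1 - 1 / (H : ℝ) ^ 2 →
    (∀ x ∈ RR K, 1 / (H : ℝ) ^ 2 ≤ |α - fr x|) →
    ‖Ws (Ico N0 (N0 + K * H)) mN α‖ ≤ 8 * (K * H) / √(K : ℝ)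

-- deps:
def S_GAU : Prop := ∀ q a : ℕ, 1 ≤ q → (a.Coprime q → ‖gam q a‖ ≤ 2 / √(q : ℝ)) ∧
  ‖gam q a‖ ≤ 1 ∧ ∀ N0 L : ℕ, ‖Ws (Ico N0 (N0 + L)) mN ((a : ℝ) / q) - L * gam q a‖ ≤ 2 * q

-- deps: GEO GS CB CIRC MIN
def S_BLK : Prop := ∀ᶠ r : ℝ in atTop, ∀ (P : ℝ) (y K H : ℕ), St r P y K H →
  ∀ i < y / (K * H),
    ‖((∑ N ∈ JJ y (K * H) i, Rc r P y (K * H) i N : ℝ) : ℂ) -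
        ∑ q ∈ Icc 1 K, ∑ a ∈ red q, mt r P y (K * H) i ((a : ℝ) / q)‖ ≤
      K * H * (Yb y (K * H) i / r ^ 20 + r ^ 30 *
        ∑ q ∈ Icc 1 K, ∑ a ∈ red q, arcE r P y (K * H) i (1 / (H : ℝ) ^ 2) ((a : ℝ) / q))

/-! ### The denominators between `R` and `K` -/

-- deps:
def S_SB : Prop := ∃ C : ℝ, 0 < C ∧ ∀ (z H T : ℝ) (x Q : ℕ) (I S : Finset ℕ) (γ : ℕ → ℂ), 2 ≤ z →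
  2 ≤ T → (Q : ℝ) ^ 2 * z ^ 2 ≤ H → (∀ a ∈ I, x ≤ a ∧ (a : ℝ) ≤ x + H) →
  (∀ a ∈ I, γ a ≠ 0 → Rough z a) → (∀ q ∈ S, 0 < q ∧ q ≤ Q ∧ (q : ℝ) ≤ T) →
  ∑ q ∈ S, en I γ q ≤ C * H / Real.log z * nsq I γ * Real.log T

-- deps: SB
def S_SI2 : Prop := ∀ ε : ℝ, 0 < ε → ∃ R0 : ℕ, ∀ R : ℕ, R0 ≤ R →
  ∀ (z H : ℝ) (x Q : ℕ) (I : Finset ℕ) (γ : ℕ → ℂ), 2 ≤ z → (Q : ℝ) ^ 2 * z ^ 2 ≤ H →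
    (∀ a ∈ I, x ≤ a ∧ (a : ℝ) ≤ x + H) → (∀ a ∈ I, γ a ≠ 0 → Rough z a) →
    (tl R Q fun q a => ft I γ ((a : ℝ) / q)) ≤ ε * H / Real.log z * nsq I γ

-- deps: SI2
def S_PIECE : Prop := ∀ ε : ℝ, 0 < ε → ∃ R0 : ℕ, ∀ R : ℕ, R0 ≤ R → ∀ᶠ r : ℝ in atTop,
  ∀ (K : ℕ) (x H A : ℝ) (I : Finset ℕ) (γ : ℕ → ℂ), (K : ℝ) ≤ Real.exp r →
    Real.exp (r ^ 13 / 3) ≤ H → 0 ≤ A →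
    (∀ a ∈ I, x ≤ a ∧ (a : ℝ) ≤ x + H ∧ Real.exp (r ^ 13 / 20) < a ∧ ‖γ a‖ ≤ A ∧
      (γ a ≠ 0 → a.Prime)) →
    (tl R K fun q a => ft I γ ((a : ℝ) / q)) ≤ ε * (A * H / r ^ 13) ^ 2

-- deps:
def S_MK : Prop := ∀ (R K : ℕ) (T : Finset ℕ) (F : ℕ → ℕ → ℕ → ℂ) (lam : ℕ → ℝ),
  (∀ k ∈ T, 0 ≤ lam k ∧ tl R K (F k) ≤ lam k ^ 2) →
  (tl R K fun q a => ∑ k ∈ T, F k q a) ≤ (∑ k ∈ T, lam k) ^ 2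

-- deps: PIECE MK
def S_SG : Prop := ∀ ε : ℝ, 0 < ε → ∃ R0 : ℕ, ∀ R : ℕ, R0 ≤ R → ∀ᶠ r : ℝ in atTop,
  ∀ (K : ℕ) (v : ℝ) (S : Finset ℕ) (b : ℕ → ℝ), (K : ℝ) ≤ Real.exp r → r ^ 13 / 2 ≤ v →
    (∀ n ∈ S, Real.exp (r ^ 13 / 2) ≤ n ∧ (n : ℝ) ≤ Real.exp (2 * r ^ 13) ∧ |b n| ≤ 2 * r ^ 13 ∧
      (b n ≠ 0 → n.Prime)) →
    (tl R K fun q a => ft S (fun n => (b n * gk (Th r) (Real.log n - v) : ℝ)) ((a : ℝ) / q)) ≤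
      ε * Real.exp v ^ 2

-- deps:
def S_PERM : Prop := ∀ (q p : ℕ) (S : Finset ℕ) (γ : ℕ → ℂ), p.Coprime q →
  ∑ a ∈ red q, ‖ft S γ (p * ((a : ℝ) / q))‖ ^ 2 = ∑ a ∈ red q, ‖ft S γ ((a : ℝ) / q)‖ ^ 2

-- deps: RNG PH GEO GS MK SG PERM
def S_TC : Prop := ∀ ε : ℝ, 0 < ε → ∃ R0 : ℕ, ∀ R : ℕ, R0 ≤ R → ∀ᶠ r : ℝ in atTop,
  ∀ (P x : ℝ) (y K H : ℕ), St r P y K H → XX r ≤ x → x ≤ 5 * XX r →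
    (tl R K fun q a => cb r P x ((a : ℝ) / q)) ≤ ε * rho P ^ 2

-- deps: GEO RHO GAU PIECE TC
def S_PT : Prop := ∀ ε : ℝ, 0 < ε → ∃ R0 : ℕ, ∀ R : ℕ, R0 ≤ R → ∀ᶠ r : ℝ in atTop,
  ∀ (P : ℝ) (y K H : ℕ), St r P y K H → ∀ i < y / (K * H),
    ∑ q ∈ Ioc R K, ∑ a ∈ red q, ‖mt r P y (K * H) i ((a : ℝ) / q)‖ ≤
      ε * rho P * (K * H) * Yb y (K * H) i / r ^ 13

/-! ### The bounded denominators -/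

-- deps: TAIL RNG PH PW
def S_C1 : Prop := ∀ᶠ r : ℝ in atTop, ∀ (P v : ℝ) (F : ℕ → ℂ), 1 ≤ P → P ≤ Real.exp r →
  |v - (r ^ 13 - Real.log P)| ≤ 7 / 4 → (∀ n, ‖F n‖ ≤ 1) →
  ‖∑ n ∈ RN r P, ((th n * ph r P n : ℝ) : ℂ) * F n * (gk (Th r) (Real.log n - v) : ℂ) -
      ∑' n : ℕ, F n * vonMangoldt n * (gk (Th r) (Real.log n - v) : ℂ)‖ ≤ Real.exp (v - r)

-- deps: P0 RNG CH1 C1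
def S_C0 : Prop := ∀ (q : ℕ) (ε : ℝ), 1 ≤ q → 0 < ε → ∀ᶠ r : ℝ in atTop,
  ∀ (P v : ℝ) (a : ℕ), 1 ≤ P → P ≤ Real.exp r → |v - (r ^ 13 - Real.log P)| ≤ 7 / 4 →
    a.Coprime q →
    ‖∑ n ∈ RN r P, ((th n * ph r P n : ℝ) : ℂ) * ee (n * ((a : ℝ) / q)) *
        (gk (Th r) (Real.log n - v) : ℂ) - (Real.exp v * mf q : ℝ)‖ ≤ ε * Real.exp v

-- deps: RNG GS C0
def S_CI : Prop := ∀ (q : ℕ) (ε : ℝ), 1 ≤ q → 0 < ε → ∀ᶠ r : ℝ in atTop,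
  ∀ (P x : ℝ) (a : ℕ), r ^ 300 ≤ P → P ≤ Real.exp r → XX r ≤ x → x ≤ 5 * XX r → a.Coprime q →
    ‖cb r P x ((a : ℝ) / q) - (rho P * mf q : ℝ)‖ ≤ ε * rho P

-- deps: PNT GEO
def S_FQ : Prop := ∀ (q : ℕ) (ε : ℝ), 1 ≤ q → 0 < ε → ∀ᶠ r : ℝ in atTop,
  ∀ (P : ℝ) (y K H a : ℕ), St r P y K H → a.Coprime q →
    ‖ft (Ico (xb y (K * H) 0) (xb y (K * H) (y / (K * H)))) (fun p => (p1 p : ℂ)) ((a : ℝ) / q) -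
      (mf q * Xt y (K * H) / r ^ 13 : ℝ)‖ ≤ ε * XX r / r ^ 13

-- deps: GEO RHO GAU CI FQ
def S_LOW1 : Prop := ∀ (q : ℕ) (ε : ℝ), 1 ≤ q → 0 < ε → ∀ᶠ r : ℝ in atTop,
  ∀ (P : ℝ) (y K H a : ℕ), St r P y K H → a.Coprime q →
    ‖∑ i ∈ range (y / (K * H)), mt r P y (K * H) i ((a : ℝ) / q) -
      (rho P * (K * H) * Xt y (K * H) / r ^ 13 * mf q ^ 2 : ℝ) * (starRingEnd ℂ) (gam q a)‖ ≤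
      ε * (rho P * (K * H) * XX r / r ^ 13)

-- deps: RT
def S_SQ1 : Prop := (∀ q : ℕ, 1 ≤ q → |sq q| ≤ mf q ^ 2) ∧ sq 1 = 1 ∧ sq 2 = 1

-- deps: SQ1
def S_SQ2 : Prop := ∀ R : ℕ, 2 ≤ R → 1 / 2 ≤ ∑ q ∈ Icc 1 R, sq q

-- deps: GEO RHO LOW1 SQ2
def S_LOW2 : Prop := ∀ R : ℕ, 2 ≤ R → ∀ᶠ r : ℝ in atTop, ∀ (P : ℝ) (y K H : ℕ), St r P y K H →
  3 / 4 * (rho P * (K * H) * XX r / r ^ 13) ≤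
    (∑ i ∈ range (y / (K * H)), ∑ q ∈ Icc 1 R, ∑ a ∈ red q, mt r P y (K * H) i ((a : ℝ) / q)).re

/-! ### Assembly -/

-- deps: GEO RHO ARC CHR BLK PT LOW2
def S_MAIN : Prop := ∃ b : ℕ, ∀ᶠ r : ℝ in atTop, ∀ (P : ℝ) (y K H : ℕ), St r P y K H →
  r ^ b ≤ P → 1 / 4 * (rho P * (K * H) * XX r / r ^ 13) ≤
    ∑ i ∈ range (y / (K * H)), ∑ N ∈ JJ y (K * H) i, Rc r P y (K * H) i N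

-- deps: FL
def S_SV2 : Prop := ∃ C : ℝ, 0 < C ∧ ∀ᶠ H : ℝ in atTop, ∀ (x : ℝ) (M a : ℕ) (S : Finset ℕ),
  0 ≤ x → 0 < M → a.Prime → 5 ≤ a →
  (∀ n ∈ S, x < n ∧ (n : ℝ) ≤ x + H ∧ ∀ p : ℕ, p.Prime → (p : ℝ) ≤ H ^ (1 / 10 : ℝ) →
    ¬ p ∣ n ∧ ¬ (p : ℤ) ∣ 2 * M - a * n) →
  (S.card : ℝ) ≤ C * sgm M * H / Real.log H ^ 2

-- deps: RNG PH GEO GS SV2
def S_UB : Prop := ∃ C : ℝ, 0 < C ∧ ∀ᶠ r : ℝ in atTop, ∀ (P : ℝ) (y K H : ℕ), St r P y K H →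
  ∀ i < y / (K * H), ∀ N ∈ JJ y (K * H) i, 0 ≤ Rc r P y (K * H) i N ∧
    Rc r P y (K * H) i N ≤ C * sgm (N ^ 2 + N + 1) * (rho P * (K * H) * y / r ^ 13)

-- deps: RNG GEO GS
def S_GD : Prop := ∀ B : ℕ, 300 ≤ B → ∀ᶠ r : ℝ in atTop, ∀ y K H : ℕ, St r (r ^ B) y K H →
  ∀ i < y / (K * H), ∀ N ∈ JJ y (K * H) i, Rc r (r ^ B) y (K * H) i N ≠ 0 → Good B N

open Classical in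
-- deps: SM GEO RHO MAIN UB GD
def S_POS : Prop := ∃ (B : ℕ) (c : ℝ), 300 ≤ B ∧ 0 < c ∧ ∀ᶠ r : ℝ in atTop, ∀ y K H : ℕ,
  St r (r ^ B) y K H → c * y ≤ (((Icc 1 (2 * y)).filter (Good B)).card : ℝ)

open Classical in
-- deps: POS
def S_FIN : Prop := ∃ (C : ℕ) (c : ℝ) (Y0 : ℕ), 0 < c ∧ ∀ Y : ℕ, Y0 ≤ Y →
  c * Y ≤ (((Icc 1 Y).filter (Good C)).card : ℝ)

end Pool.Agent.P.E2
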