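import Pool.Agent.P.MP_e94e4b_nt.E2.IfZ

/-! Statements of the steps, part D: mean values of Dirichlet polynomials. -/

namespace Pool.Agent.P.E2

open Finset Real Filter Topology MeasureTheory
open Pool.Agent.P.MP_e86632_nt (ee nn)
open Pool.Agent.P.MP_8be758_nt.Avg (gs Rough red ft en nsq vau_g)
open Pool.Agent.P.MP_e94e4b_nt.PF (mN)
open ArithmeticFunction (vonMangoldt moebius)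
open DirichletCharacter (LFunction)

-- deps:
def S_RNG : Prop := ∀ᶠ r : ℝ in atTop, ∀ P : ℝ, 1 ≤ P → P ≤ Real.exp r → Rg r P

-- deps: WIN1 RNG
def S_PH : Prop := ∀ᶠ r : ℝ in atTop, ∀ P : ℝ, 1 ≤ P → P ≤ Real.exp r → ∀ n : ℕ,
  0 ≤ ph r P n ∧ ph r P n ≤ 1 ∧
  (1 ≤ n → n ∉ RN r P → ph r P n ≤ 2 * Real.exp (-r ^ 26)) ∧
  (|Real.log n - (r ^ 13 - Real.log P)| ≤ 2 → 1 - 2 * Real.exp (-r ^ 26) ≤ ph r P n)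

/-! ### Mean value theorems and large values -/

-- deps: HG
def S_MV : Prop := ∃ C : ℝ, 0 < C ∧ ∀ (Z X : ℝ) (I : Finset ℕ) (a : ℕ → ℂ), 1 ≤ Z →
  (∀ n ∈ I, 1 ≤ n ∧ (n : ℝ) ≤ X) →
  ∫ t : ℝ, gs (t / Z) * ‖dq I a t‖ ^ 2 ≤ C * (Z + X) * nsq I a

-- deps: MV REP
def S_MOM : Prop := ∃ C : ℝ, 0 < C ∧ ∀ (k : ℕ) (Z Y : ℝ) (S : Finset ℕ) (a : ℕ → ℂ), 1 ≤ k →
  1 ≤ Z → 1 ≤ Y → (∀ p ∈ S, p.Prime ∧ (p : ℝ) ≤ Y) → (∀ p, ‖a p‖ ≤ 1) →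
  ∫ t : ℝ, gs (t / Z) * ‖dq S a t‖ ^ (2 * k) ≤ C * (Z + Y ^ k) * (k : ℝ) ^ k * Y ^ k

-- deps: MOM
def S_UM : Prop := ∀ κ : ℝ, 0 < κ → ∃ (α : ℝ) (b : ℕ), 0 < α ∧ ∀ᶠ r : ℝ in atTop,
  ∀ (P : ℝ) (a : ℕ → ℂ), r ^ b ≤ P → P ≤ Real.exp r → (∀ p, ‖a p‖ ≤ 1) →
    volume.real {t : ℝ | |t| ≤ Real.exp (2 * r ^ 13) ∧ P ^ (1 - α) < ‖dq (PP P) a t‖} ≤
      Real.exp (κ * r ^ 13)

-- deps: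
def S_HALC : Prop := ∀ (I : Finset ℕ) (b : ℕ → ℂ) (U : Set ℝ) (B : ℝ), MeasurableSet U →
  volume U ≠ ⊤ → 0 ≤ B → (∀ t ∈ U, ∫ t' in U, ‖dq I (fun _ => 1) (t - t')‖ ≤ B) →
  ∫ t in U, ‖dq I b t‖ ^ 2 ≤ B * nsq I b

-- deps:
def S_IL : Prop := ∀ (U : Set ℝ) (t0 T : ℝ), MeasurableSet U → 0 ≤ T → (∀ t ∈ U, |t0 - t| ≤ T) →
  ∫ t in U, 1 / (1 + |t0 - t|) ≤ 2 * Real.log (1 + T)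

-- deps: PS HALC IL
def S_HB : Prop := ∃ κ : ℝ, 0 < κ ∧ ∀ᶠ r : ℝ in atTop, ∀ (M N : ℕ) (b : ℕ → ℂ) (U : Set ℝ),
  Real.exp (r ^ 13 / 4) ≤ M →
  Us (Real.exp (4 * r)) (2 * Real.exp (2 * r ^ 13)) (Real.exp (κ * r ^ 13)) U →
  ∫ t in U, ‖dq (Ioc M N) b t‖ ^ 2 ≤ 50 * r ^ 13 * N * nsq (Ioc M N) b

-- deps:
def S_TAU2 : Prop := ∀ N : ℕ,
  ∑ k ∈ Icc 1 N, (k.divisors.card : ℝ) ^ 2 ≤ N * (1 + Real.log N) ^ 3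

/-! ### The Vaughan identity -/

-- deps:
def S_VAU : Prop := ∀ Y : ℕ,
  (∀ k : ℕ, |bt Y k| ≤ k.divisors.card ∧ (k ≤ Y → bt Y k = 0)) ∧
  ∀ n : ℕ, Y < n → vonMangoldt n = ∑ x ∈ n.divisorsAntidiagonal,
    ((if x.1 ≤ Y then moebius x.1 * Real.log x.2 else 0) - vau_g Y x.1 +
      if Y < x.1 then vonMangoldt x.1 * bt Y x.2 else 0)

-- deps: VAU
def S_RE0 : Prop := ∀ (Y A B : ℕ) (F : ℕ → ℂ), 1 ≤ Y → Y ≤ A →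
  ∑ n ∈ Ioc A B, (vonMangoldt n : ℂ) * F n = LI Y A B F +
    ∑ m ∈ Ioc Y B, ∑ k ∈ Ioc (max Y (A / m)) (B / m),
      ((vonMangoldt m * bt Y k : ℝ) : ℂ) * F (m * k)

-- deps: RNG PH VAU RE0
def S_RE1 : Prop := ∀ᶠ r : ℝ in atTop, ∀ (P : ℝ) (F : ℕ → ℂ), 1 ≤ P → P ≤ Real.exp r →
  (∀ n, ‖F n‖ ≤ 1) →
  ‖∑ n ∈ RN r P, (vonMangoldt n : ℂ) * (ph r P n * F n) - Lin r P fun n => ph r P n * F n‖ ≤ 1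

-- deps:
def S_WF : Prop := ∀ w α β : ℝ, 0 < w → α ≤ β → ∃ Φ : ℝ → ℂ, Continuous Φ ∧
  (∀ s, ‖Φ s‖ ≤ (β - α) * gs (w * s)) ∧ ∀ x : ℝ, (win w α β x : ℂ) = ∫ s : ℝ, Φ s * ee (s * x)

-- deps: WF
def S_RE2 : Prop := ∀ r P : ℝ, 0 < r → ∃ Φ : ℝ → ℂ, Continuous Φ ∧
  (∀ s, ‖Φ s‖ ≤ 6 * gs (s / r ^ 13)) ∧ ∀ (c : ℕ → ℂ) (t : ℝ),
    (Lin r P fun n => ph r P n * (c n * nit t n)) =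
      ∫ s : ℝ, Φ s * Lin r P fun n => c n * nit (t - s) n

-- deps: RNG VAU
def S_QB : Prop := ∀ᶠ r : ℝ in atTop, ∀ (P : ℝ) (F : ℕ → ℂ), 1 ≤ P → P ≤ Real.exp r →
  (∀ n, ‖F n‖ ≤ 1) → ‖Lin r P F‖ ≤ Real.exp (5 * r ^ 13)

-- deps:
def S_CONV : Prop := ∀ (Q Φ : ℝ → ℂ) (U : Set ℝ) (a w E Bq m : ℝ), 0 < a → 0 ≤ w → 0 ≤ E →
  Continuous Q → Continuous Φ → (∀ t, ‖Q t‖ ≤ Bq) → (∀ s, ‖Φ s‖ ≤ 6 * gs (s / a)) →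
  MeasurableSet U → volume U ≠ ⊤ → volume.real U ≤ m →
  (∀ s, |s| ≤ a * w → ∫ t in U, ‖Q (t - s)‖ ^ 2 ≤ E) →
  ∫ t in U, ‖∫ s : ℝ, Φ s * Q (t - s)‖ ^ 2 ≤
    36 * a ^ 2 * (E + 2 * Bq ^ 2 * m * Real.exp (-w ^ 2))

-- deps: PS RNG
def S_T1 : Prop := ∃ c : ℝ, 0 < c ∧ ∀ᶠ r : ℝ in atTop,
  ∀ (P : ℝ) (q : ℕ) [NeZero q] (χ : DirichletCharacter ℂ q) (t : ℝ), 1 ≤ P → P ≤ Real.exp r →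
    (q : ℝ) ≤ Real.exp r → |t| ≤ Real.exp (3 * r ^ 13) →
    ‖LI (Yv r) (A1 r P) (A2 r P) fun n => ch χ n * nit t n‖ ≤
      20 * r ^ 26 * A2 r P * (10 / (1 + |t|) + Real.exp (-(c * r ^ 13)))

-- deps: T1 IL
def S_T1U : Prop := ∃ κ : ℝ, 0 < κ ∧ ∀ᶠ r : ℝ in atTop,
  ∀ (P : ℝ) (q : ℕ) [NeZero q] (χ : DirichletCharacter ℂ q) (U : Set ℝ), 1 ≤ P → P ≤ Real.exp r →
    (q : ℝ) ≤ Real.exp r →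
    Us (Real.exp (4 * r)) (2 * Real.exp (2 * r ^ 13)) (Real.exp (κ * r ^ 13)) U →
    ∫ t in U, ‖LI (Yv r) (A1 r P) (A2 r P) fun n => ch χ n * nit t n‖ ^ 2 ≤
      (A2 r P : ℝ) ^ 2 * Real.exp (-r)

-- deps: SHARP RNG HB TAU2 VAU
def S_T2 : Prop := ∃ κ : ℝ, 0 < κ ∧ ∀ᶠ r : ℝ in atTop,
  ∀ (P : ℝ) (q : ℕ) [NeZero q] (χ : DirichletCharacter ℂ q) (j : ℕ) (U : Set ℝ), 1 ≤ P →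
    P ≤ Real.exp r → (q : ℝ) ≤ Real.exp r →
    Us (Real.exp (4 * r)) (2 * Real.exp (2 * r ^ 13)) (Real.exp (κ * r ^ 13)) U →
    ∫ t in U, ‖LJ (Yv r) (A1 r P) (A2 r P) j fun n => ch χ n * nit t n‖ ^ 2 ≤
      (A2 r P : ℝ) ^ 2 * Real.exp (-r)

-- deps: RNG T1U T2
def S_QU : Prop := ∃ κ : ℝ, 0 < κ ∧ ∀ᶠ r : ℝ in atTop,
  ∀ (P : ℝ) (q : ℕ) [NeZero q] (χ : DirichletCharacter ℂ q) (U : Set ℝ), 1 ≤ P → P ≤ Real.exp r →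
    (q : ℝ) ≤ Real.exp r →
    Us (Real.exp (4 * r)) (2 * Real.exp (2 * r ^ 13)) (Real.exp (κ * r ^ 13)) U →
    ∫ t in U, ‖Lin r P fun n => ch χ n * nit t n‖ ^ 2 ≤ X2 r P ^ 2 * Real.exp (-(r / 2))

-- deps: RNG RE2 QB CONV QU
def S_PU0 : Prop := ∃ κ : ℝ, 0 < κ ∧ ∀ᶠ r : ℝ in atTop,
  ∀ (P : ℝ) (q : ℕ) [NeZero q] (χ : DirichletCharacter ℂ q) (U : Set ℝ), 1 ≤ P → P ≤ Real.exp r →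
    (q : ℝ) ≤ Real.exp r →
    Us (2 * Real.exp (4 * r)) (Real.exp (2 * r ^ 13)) (Real.exp (κ * r ^ 13)) U →
    ∫ t in U, ‖Lin r P fun n => ph r P n * (ch χ n * nit t n)‖ ^ 2 ≤
      X2 r P ^ 2 * Real.exp (-(r / 3))

-- deps:
def S_PW : Prop := (∀ n : ℕ, 0 ≤ th n ∧ th n ≤ vonMangoldt n) ∧
  ∀ (N : ℕ) (S : Finset ℕ), (∀ n ∈ S, n ≤ N) →
    ∑ n ∈ S, (vonMangoldt n - th n) ≤ 2 * √(N : ℝ) * Real.log N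

-- deps: RNG PH RE1 PU0 PW
def S_PU : Prop := ∃ κ : ℝ, 0 < κ ∧ ∀ᶠ r : ℝ in atTop,
  ∀ (P : ℝ) (q : ℕ) [NeZero q] (χ : DirichletCharacter ℂ q) (U : Set ℝ), 1 ≤ P → P ≤ Real.exp r →
    (q : ℝ) ≤ Real.exp r →
    Us (2 * Real.exp (4 * r)) (Real.exp (2 * r ^ 13)) (Real.exp (κ * r ^ 13)) U →
    ∫ t in U, ‖dq (RN r P) (fun n => (th n * ph r P n : ℝ) * ch χ n) t‖ ^ 2 ≤
      X2 r P ^ 2 * Real.exp (-(r / 4))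

-- deps:
def S_DPA : Prop := ∀ (F1 F2 : ℝ → ℂ) (B1 B2 V Z T0 T : ℝ), Continuous F1 → Continuous F2 →
  (∀ t, ‖F1 t‖ ≤ B1) → (∀ t, ‖F2 t‖ ≤ B2) → 0 ≤ V → 0 < Z → 0 ≤ T →
  ∫ t in {t : ℝ | T0 ≤ |t|}, gs (t / Z) * (‖F1 t‖ ^ 2 * ‖F2 t‖ ^ 2) ≤
    V ^ 2 * (∫ t : ℝ, gs (t / Z) * ‖F2 t‖ ^ 2) +
      B1 ^ 2 * (∫ t in {t : ℝ | (T0 ≤ |t| ∧ |t| ≤ T) ∧ V < ‖F1 t‖}, ‖F2 t‖ ^ 2) +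
      (B1 * B2) ^ 2 * (2 * Z * Real.exp (-(T / Z) ^ 2))

-- deps: RNG PH MV UM PU DPA
def S_DP : Prop := ∃ b : ℕ, ∀ᶠ r : ℝ in atTop,
  ∀ (P Z : ℝ) (q : ℕ) [NeZero q] (χ : DirichletCharacter ℂ q), r ^ b ≤ P → P ≤ Real.exp r →
    1 ≤ Z → Z ≤ X2 r P → (q : ℝ) ≤ Real.exp r →
    ∫ t in {t : ℝ | 2 * Real.exp (4 * r) ≤ |t|}, gs (t / Z) * (‖dq (PP P) (ch χ) t‖ ^ 2 *
      ‖dq (RN r P) (fun n => (th n * ph r P n : ℝ) * ch χ n) t‖ ^ 2) ≤ XX r ^ 2 / r ^ 600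

end Pool.Agent.P.E2
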