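import Pool.Agent.P.MP_e94e4b_nt.E2.Basic

/-! Statements of the steps, part Z: exponential sums, zero-free region, prime sums. -/

namespace Pool.Agent.P.E2

open Finset Real Filter Topology MeasureTheory
open Pool.Agent.P.MP_e86632_nt (ee nn)
open Pool.Agent.P.MP_8be758_nt.Avg (gs Rough red ft en nsq vau_g)
open Pool.Agent.P.MP_e94e4b_nt.PF (mN)
open ArithmeticFunction (vonMangoldt moebius)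
open DirichletCharacter (LFunction)

/-! ### Facts proved elsewhere -/

abbrev S_WB : Prop := Pool.Agent.P.MP_b60056_nt.AA.S_WB
abbrev S_REP : Prop := Pool.Agent.P.MP_b60056_nt.AA.S_REP
abbrev S_HG : Prop := MP_e94e4b_nt.PF.S_HG
abbrev S_PNT : Prop := MP_e94e4b_nt.PF.S_PNT
abbrev S_RT : Prop := MP_e94e4b_nt.PF.S_RT
abbrev S_SM : Prop := MP_e94e4b_nt.PF.S_SM
abbrev S_FL : Prop := MP_e94e4b_nt.PF.S_FL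

/-! ### Exponential sums -/

-- deps: WB
def S_SH : Prop := ∀ (Lg τ t θ : ℝ) (M N : ℕ), 1000 ≤ τ → 10 ^ 6 * τ * Real.log τ ≤ Lg →
  |2 * π * t| = Real.exp (τ * Lg) → 0 ≤ θ → θ ≤ 1 → M ≤ N → Real.exp (99 / 100 * Lg) ≤ M →
  (N : ℝ) + 1 ≤ Real.exp Lg →
  ‖∑ a ∈ Ioc M N, ee (-(t * Real.log (a + θ)))‖ ≤
    ((N : ℝ) - M) * (Real.exp (-Lg / (10 ^ 11 * τ ^ 2)) + 2 * Real.exp (-(1 / 3 * Lg))) +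
      2 * Real.exp (2 / 3 * Lg)

-- deps: SH
def S_EXP : Prop := ∀ (Lg τ t : ℝ) (q M N : ℕ) (c : ℕ → ℂ), 1000 ≤ τ →
  10 ^ 6 * τ * Real.log τ ≤ Lg → |2 * π * t| = Real.exp (τ * Lg) → Per q c → M ≤ N → N ≤ 2 * M →
  q * Real.exp Lg ≤ M → ‖dq (Ioc M N) c t‖ ≤ 8 * M * Real.exp (-Lg / (10 ^ 11 * τ ^ 2))

-- deps:
def S_EL : Prop := ∀ (q M N : ℕ) (c : ℕ → ℂ) (t : ℝ), Per q c → 1 ≤ M → N ≤ 2 * M →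
  ‖dq (Ioc M N) c t‖ ≤ 5 * M / (1 + |t|) + 30 * q * (1 + |t|)

-- deps:
def S_DY : Prop := ∀ (F : ℕ → ℂ) (E : ℝ) (M N : ℕ), 1 ≤ M → 0 ≤ E →
  ((∀ M' N' : ℕ, M ≤ M' → M' ≤ N' → N' ≤ 2 * M' → N' ≤ N → ‖∑ n ∈ Ioc M' N', F n‖ ≤ E * M') →
    ‖∑ n ∈ Ioc M N, F n‖ ≤ 2 * E * N) ∧
  ∀ J : ℕ, N ≤ M * 2 ^ J →
    (∀ M' N' : ℕ, M ≤ M' → M' ≤ N' → N' ≤ 2 * M' → N' ≤ N → ‖∑ n ∈ Ioc M' N', F n‖ ≤ E) →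
    ‖∑ n ∈ Ioc M N, F n‖ ≤ E * J

-- deps: EXP EL DY
def S_PS : Prop := ∃ c : ℝ, 0 < c ∧ ∀ᶠ r : ℝ in atTop, ∀ (q M N : ℕ) (a : ℕ → ℂ) (t : ℝ),
  Per q a → (q : ℝ) ≤ Real.exp r → Real.exp (r ^ 13 / 4) ≤ M → |t| ≤ Real.exp (3 * r ^ 13) →
  ‖dq (Ioc M N) a t‖ ≤ N * (10 / (1 + |t|) + Real.exp (-(c * r ^ 13)))

-- deps: EXP
def S_VB : Prop := ∀ᶠ r : ℝ in atTop, ∀ (q M N : ℕ) (c : ℕ → ℂ) (t : ℝ),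
  Per q c → (q : ℝ) ≤ Real.exp r → Real.exp (r ^ 9) ≤ M → M ≤ N → N ≤ 2 * M →
  (M : ℝ) ≤ Real.exp (4 * r) * (2 * π * t) ^ 2 → |2 * π * t| ≤ Real.exp (4 * r ^ 13) →
  ‖dq (Ioc M N) c t‖ ≤ 8 * M * Real.exp (-(Real.log M / r ^ 9))

-- deps: VB
def S_BL : Prop := ∀ᶠ r : ℝ in atTop, ∀ (q M N : ℕ) (c : ℕ → ℂ) (s : ℂ),
  Per q c → (q : ℝ) ≤ Real.exp r → Real.exp (r ^ 9) ≤ M → M ≤ N → N ≤ 2 * M →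
  (M : ℝ) ≤ Real.exp (4 * r) * s.im ^ 2 → |s.im| ≤ Real.exp (4 * r ^ 13) → 1 - 1 / r ^ 9 ≤ s.re →
  ‖∑ n ∈ Ioc M N, c n * (n : ℂ) ^ (-s)‖ ≤ 30

/-! ### Size of the L-function -/

-- deps:
def S_AP1 : Prop := ∀ (q k : ℕ) (c : ℕ → ℂ) (s : ℂ), Per q c → 1 / 2 ≤ s.re → s ≠ 1 → 1 ≤ k →
  ‖Bk q c s k‖ ≤ 2 * q * ‖s‖ / (k * √(k : ℝ))

-- deps:
def S_AP2 : Prop := ∀ (q k0 : ℕ) (c : ℕ → ℂ) (s : ℂ), Per q c → 1 < s.re → 1 ≤ k0 →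
  Tendsto (fun J : ℕ => ∑ j ∈ range J, Bk q c s (k0 + j)) atTop
    (𝓝 (LSeries c s - ∑ n ∈ Icc 1 (k0 * q), c n * (n : ℂ) ^ (-s) +
      kap q c * (((k0 * q : ℕ) : ℂ) ^ (1 - s) / (1 - s))))

-- deps: AP1 AP2
def S_APX : Prop := ∀ (q : ℕ) [NeZero q] (χ : DirichletCharacter ℂ q) (s : ℂ) (k0 : ℕ),
  1 / 2 < s.re → 1 ≤ |s.im| → 1 ≤ k0 →
  ‖LFunction χ s - ∑ n ∈ Icc 1 (k0 * q), ch χ n * (n : ℂ) ^ (-s)‖ ≤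
    ((k0 * q : ℕ) : ℝ) ^ (1 - s.re) / |s.im| + 6 * q * ‖s‖ / √(k0 : ℝ)

-- deps: APX BL DY
def S_LB : Prop := ∀ᶠ r : ℝ in atTop, ∀ (q : ℕ) [NeZero q] (χ : DirichletCharacter ℂ q) (s : ℂ),
  (q : ℝ) ≤ Real.exp r → 1 - 1 / r ^ 9 ≤ s.re → s.re ≤ 2 → 1 ≤ |s.im| →
  |s.im| ≤ Real.exp (4 * r ^ 13) → ‖LFunction χ s‖ ≤ Real.exp r

/-! ### The zero-free region -/

-- deps:
def S_BC : Prop := ∀ (f : ℂ → ℂ) (s0 : ℂ) (ρ B : ℝ), 0 < ρ → 0 < B →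
  DifferentiableOn ℂ f (Metric.ball s0 ρ) →
  (∀ s ∈ Metric.ball s0 ρ, f s ≠ 0 ∧ ‖f s‖ ≤ Real.exp B * ‖f s0‖) →
  ∀ s, ‖s - s0‖ ≤ ρ / 4 → ‖deriv f s / f s‖ ≤ 8 * B / ρ

-- deps:
def S_LA1 : Prop := ∀ (f : ℂ → ℂ) (s0 z : ℂ) (ρ B : ℝ), 0 < ρ →
  DifferentiableOn ℂ f (Metric.closedBall s0 ρ) → f s0 ≠ 0 →
  (∀ s ∈ Metric.closedBall s0 ρ, ‖f s‖ ≤ Real.exp B * ‖f s0‖) → ‖z - s0‖ ≤ ρ / 4 → f z = 0 →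
  ∃ g : ℂ → ℂ, DifferentiableOn ℂ g (Metric.closedBall s0 ρ) ∧ g s0 ≠ 0 ∧
    (∀ s ∈ Metric.closedBall s0 ρ, ‖g s‖ ≤ Real.exp (B - 1) * ‖g s0‖) ∧
    (∀ s, g s = 0 → s = z ∨ f s = 0) ∧ deriv f s0 / f s0 = deriv g s0 / g s0 + 1 / (s0 - z)

-- deps: BC LA1
def S_LAN : Prop := ∀ (f : ℂ → ℂ) (s0 : ℂ) (ρ B : ℝ), 0 < ρ →
  DifferentiableOn ℂ f (Metric.closedBall s0 ρ) → f s0 ≠ 0 →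
  (∀ s ∈ Metric.closedBall s0 ρ, ‖f s‖ ≤ Real.exp B * ‖f s0‖) →
  (∀ s ∈ Metric.closedBall s0 ρ, f s = 0 → s.re ≤ s0.re) →
  -(deriv f s0 / f s0).re ≤ 32 * (B + 1) / ρ ∧
    ∀ z, ‖z - s0‖ ≤ ρ / 4 → f z = 0 →
      -(deriv f s0 / f s0).re ≤ 32 * (B + 1) / ρ - (1 / (s0 - z)).re

-- deps:
def S_ZL1 : Prop := ∃ C : ℝ, 0 < C ∧ ∀ σ : ℝ, 1 < σ → σ ≤ 2 → zl σ ≤ 1 / (σ - 1) + C

-- deps: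
def S_ZL2 : Prop := (∀ σ : ℝ, 1 < σ → Summable fun n : ℕ => vonMangoldt n / (n : ℝ) ^ σ) ∧
  ∀ (q : ℕ) [NeZero q] (χ : DirichletCharacter ℂ q) (s : ℂ), 1 < s.re → s.re ≤ 2 →
    LSeriesSummable (fun n => ch χ n * vonMangoldt n) s ∧
    ld χ s = LSeries (fun n => ch χ n * vonMangoldt n) s ∧ ‖ld χ s‖ ≤ zl s.re ∧
    DifferentiableAt ℂ (ld χ) s ∧
    (s.re - 1) / 2 ≤ ‖LFunction χ s‖ ∧ ‖LFunction χ s‖ ≤ 2 / (s.re - 1)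

-- deps: ZL2
def S_T341 : Prop := ∀ (q : ℕ) [NeZero q] (χ : DirichletCharacter ℂ q) (σ t : ℝ), 1 < σ → σ ≤ 2 →
  0 ≤ 3 * zl σ + 4 * (ld χ (σ + t * Complex.I)).re + (ld (χ ^ 2) (σ + 2 * t * Complex.I)).re

-- deps: LB LAN ZL1 ZL2 T341
def S_ZF : Prop := ∀ᶠ r : ℝ in atTop, ∀ (q : ℕ) [NeZero q] (χ : DirichletCharacter ℂ q) (s : ℂ),
  (q : ℝ) ≤ Real.exp r → 1 - 8 / r ^ 11 ≤ s.re → 2 ≤ |s.im| →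
  |s.im| ≤ Real.exp (4 * r ^ 13) / 4 → LFunction χ s ≠ 0

-- deps: LB BC ZL1 ZL2 ZF
def S_LD : Prop := ∀ᶠ r : ℝ in atTop, ∀ (q : ℕ) [NeZero q] (χ : DirichletCharacter ℂ q) (s : ℂ),
  (q : ℝ) ≤ Real.exp r → 1 - 1 / r ^ 11 ≤ s.re → s.re ≤ 2 → 3 ≤ |s.im| →
  |s.im| ≤ Real.exp (4 * r ^ 13) / 8 → DifferentiableAt ℂ (ld χ) s ∧ ‖ld χ s‖ ≤ Real.exp r

-- deps:
def S_HF : Prop := ∀ (q : ℕ) [NeZero q] (χ : DirichletCharacter ℂ q),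
  ∃ (δ B : ℝ) (G : ℂ → ℂ), 0 < δ ∧ (∀ s, s ≠ 1 → G s = ld χ s - kp χ * riemannZeta s) ∧
    ∀ s : ℂ, 1 - δ ≤ s.re → s.re ≤ 2 → |s.im| ≤ 3 → DifferentiableAt ℂ G s ∧ ‖G s‖ ≤ B

/-! ### Smoothed prime sums -/

-- deps:
def S_GF : Prop := ∀ w v σ : ℝ, 0 < w →
  (∀ u : ℝ, ‖km w v (pt σ u)‖ = Real.exp (w ^ 2 * σ ^ 2 / (4 * π) + σ * v) * gs (w * u)) ∧
  Integrable (fun u : ℝ => km w v (pt σ u)) ∧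
  ∀ x : ℝ, ∫ u : ℝ, km w v (pt σ u) * Complex.exp (-(pt σ u * x)) = gk w (x - v)

-- deps: GF
def S_MEL : Prop := ∀ (a : ℕ → ℂ) (w v σ t : ℝ), 0 < w → a 0 = 0 → LSeriesSummable a σ →
  Summable (fun n : ℕ => a n * nit t n * (gk w (Real.log n - v) : ℂ)) ∧
  ∑' n : ℕ, a n * nit t n * (gk w (Real.log n - v) : ℂ) =
    ∫ u : ℝ, LSeries a (pt σ (u + t)) * km w v (pt σ u)

-- deps: GF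
def S_CS : Prop := ∀ (G : ℂ → ℂ) (w v δ V B : ℝ), 0 < w → w ≤ 1 → 0 ≤ v → 0 < δ → δ ≤ 1 →
  0 ≤ V → 0 ≤ B →
  (∀ s : ℂ, 1 - δ ≤ s.re → s.re ≤ 1 + δ → |s.im| ≤ 2 * π * V →
    DifferentiableAt ℂ G s ∧ ‖G s‖ ≤ B) →
  (∀ s : ℂ, s.re = 1 + δ → ContinuousAt G s ∧ ‖G s‖ ≤ B) →
  ‖∫ u : ℝ, G (pt (1 + δ) u) * km w v (pt (1 + δ) u)‖ ≤
    B / w * (2 * Real.exp ((1 - δ) * v) + 8 * Real.exp ((1 + δ) * v) * gs (w * V / 2))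

-- deps: CS
def S_CSN : Prop := ∀ᶠ r : ℝ in atTop, ∀ (G : ℂ → ℂ) (w v : ℝ), Real.exp (-(8 * r)) ≤ w →
  w ≤ Real.exp (-(2 * r)) → r ^ 13 / 4 ≤ v → v ≤ 2 * r ^ 13 →
  (∀ s : ℂ, 1 - 1 / r ^ 11 ≤ s.re → s.re ≤ 1 + 1 / r ^ 11 → |s.im| ≤ 4 * π * r ^ 7 / w →
    DifferentiableAt ℂ G s ∧ ‖G s‖ ≤ Real.exp (2 * r)) →
  (∀ s : ℂ, s.re = 1 + 1 / r ^ 11 → ContinuousAt G s ∧ ‖G s‖ ≤ Real.exp (2 * r)) →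
  ‖∫ u : ℝ, G (pt (1 + 1 / r ^ 11) u) * km w v (pt (1 + 1 / r ^ 11) u)‖ ≤ Real.exp (v - 9 * r)

-- deps:
def S_TAIL : Prop := ∀ (b : ℕ → ℝ) (w v A : ℝ), 0 < w → w ≤ 1 → 0 ≤ A → (∀ n, 0 ≤ b n ∧ b n ≤ n) →
  Summable (fun n : ℕ => b n * gk w (Real.log n - v)) ∧
  ∑' n : ℕ, (if A ≤ |Real.log n - v| then b n * gk w (Real.log n - v) else 0) ≤
    30 * Real.exp (4 * v - (A / w) ^ 2) / w ∧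
  ∀ S : Finset ℕ, (∀ n ∈ S, A ≤ |Real.log n - v|) →
    ∑ n ∈ S, b n * gk w (Real.log n - v) ≤ 30 * Real.exp (4 * v - (A / w) ^ 2) / w

-- deps:
def S_RS : Prop := ∀ (a u : ℝ) (S : Finset ℕ), 1 ≤ a →
  ∑ m ∈ S, gk a (m - u) ≤ 8 ∧
  ∀ W : ℝ, 0 ≤ W → W * a ≤ u → (∀ m : ℕ, |m - u| ≤ W * a → m ∈ S) →
    |∑ m ∈ S, gk a (m - u) - 1| ≤ 4 / a + 12 * Real.exp (-W ^ 2)

-- deps:
def S_CMP : Prop := ∀ (u x w W ε B : ℝ) (I S : Finset ℕ) (b : ℕ → ℂ), 0 < u → 0 < w → 1 ≤ W →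
  1 ≤ w * x → |x - u| ≤ ε * u → W * w ≤ ε → ε ≤ 1 / 10 → 0 ≤ B → (∀ m, ‖b m‖ ≤ B) →
  (∀ m ∈ S, 1 ≤ m) → (∀ m : ℕ, |m - u| ≤ 2 * W * (w * x) → (m ∈ I ↔ m ∈ S)) →
  ‖∑ m ∈ I, b m * (gk (w * x) (m - u) : ℂ) -
      (∑ m ∈ S, b m * (gk w (Real.log m - Real.log u) : ℂ)) / x‖ ≤
    B * (100 * W ^ 2 * ε + (I.card + S.card) * Real.exp (-W ^ 2))

-- deps: TAIL RS CMP
def S_MS : Prop := ∀ᶠ r : ℝ in atTop, ∀ w v : ℝ, Real.exp (-(8 * r)) ≤ w →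
  w ≤ Real.exp (-(2 * r)) → r ^ 13 / 4 ≤ v → v ≤ 2 * r ^ 13 →
  |∑' n : ℕ, on n * gk w (Real.log n - v) - Real.exp v| ≤ Real.exp (v - r) ∧
  ∀ S : Finset ℕ, (∀ n ∈ S, 1 ≤ n) → ∑ n ∈ S, gk w (Real.log n - v) ≤ 2 * Real.exp v

-- deps: ZL1 ZL2 LD MEL CSN
def S_PB : Prop := ∀ᶠ r : ℝ in atTop,
  ∀ (q : ℕ) [NeZero q] (χ : DirichletCharacter ℂ q) (w v t : ℝ), (q : ℝ) ≤ Real.exp r →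
    Real.exp (-(8 * r)) ≤ w → w ≤ Real.exp (-(2 * r)) → r ^ 13 / 4 ≤ v → v ≤ 2 * r ^ 13 →
    Real.exp r / w ≤ |t| → |t| ≤ Real.exp (3 * r ^ 13) →
    ‖∑' n : ℕ, ch χ n * vonMangoldt n * nit t n * (gk w (Real.log n - v) : ℂ)‖ ≤
      Real.exp (v - 9 * r)

-- deps: LB ZL1 ZL2 LD HF MEL CSN TAIL MS
def S_P0 : Prop := ∀ (q : ℕ) [NeZero q] (χ : DirichletCharacter ℂ q), ∀ᶠ r : ℝ in atTop,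
  ∀ w v : ℝ, Real.exp (-(8 * r)) ≤ w → w ≤ Real.exp (-(2 * r)) → r ^ 13 / 4 ≤ v → v ≤ 2 * r ^ 13 →
    ‖∑' n : ℕ, ch χ n * vonMangoldt n * (gk w (Real.log n - v) : ℂ) - kp χ * Real.exp v‖ ≤
      2 * Real.exp (v - r)

-- deps:
def S_WIN1 : Prop := ∀ w α β x W : ℝ, 0 < w → α ≤ β → 0 ≤ W →
  0 ≤ win w α β x ∧ win w α β x ≤ 1 ∧
  (α + W * w ≤ x → x ≤ β - W * w → 1 - 2 * Real.exp (-W ^ 2) ≤ win w α β x) ∧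
  (x ≤ α - W * w ∨ β + W * w ≤ x → win w α β x ≤ 2 * Real.exp (-W ^ 2)) ∧
  (β ≤ x → win w α β x ≤ (β - α) * gk w (x - β))

-- deps: TAIL WIN1
def S_WIN2 : Prop := ∀ᶠ r : ℝ in atTop, ∀ M N : ℕ, Real.exp (3 / 10 * r ^ 13) ≤ M → M ≤ N →
  N ≤ 2 * M → (N : ℝ) ≤ Real.exp (2 * r ^ 13) →
  Summable (fun n : ℕ => vonMangoldt n *
    |win (Real.exp (-(3 * r))) (Real.log M) (Real.log N) (Real.log n) -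
      if n ∈ Ioc M N then 1 else 0|) ∧
  ∑' n : ℕ, vonMangoldt n * |win (Real.exp (-(3 * r))) (Real.log M) (Real.log N) (Real.log n) -
      if n ∈ Ioc M N then 1 else 0| ≤ M * Real.exp (-(2 * r))

-- deps:
def S_SWP : Prop := ∀ (a : ℕ → ℂ) (w α β E : ℝ), 0 < w → w ≤ 1 → α ≤ β → (∀ n, ‖a n‖ ≤ n) →
  (∀ v, α ≤ v → v ≤ β → ‖∑' n : ℕ, a n * (gk w (Real.log n - v) : ℂ)‖ ≤ E) →
  Summable (fun n : ℕ => a n * (win w α β (Real.log n) : ℂ)) ∧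
    ‖∑' n : ℕ, a n * (win w α β (Real.log n) : ℂ)‖ ≤ (β - α) * E

-- deps: PB WIN2 SWP
def S_SHARP : Prop := ∀ᶠ r : ℝ in atTop,
  ∀ (q : ℕ) [NeZero q] (χ : DirichletCharacter ℂ q) (M N : ℕ) (t : ℝ), (q : ℝ) ≤ Real.exp r →
    Real.exp (3 / 10 * r ^ 13) ≤ M → M ≤ N → N ≤ 2 * M → (N : ℝ) ≤ Real.exp (2 * r ^ 13) →
    Real.exp (4 * r) ≤ |t| → |t| ≤ Real.exp (3 * r ^ 13) →
    ‖dq (Ioc M N) (fun n => ch χ n * vonMangoldt n) t‖ ≤ M * Real.exp (-r)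

end Pool.Agent.P.E2
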