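import Pool.Agent.P.MP_e94e4b_nt.E2.IfC

/-! Step CIRC. -/

namespace Pool.Agent.P.E2

open Finset Real Filter Topology MeasureTheory
open Pool.Agent.P.MP_e86632_nt (ee nn ee_add norm_ee ee_neg ee_zero)
open Pool.Agent.P.MP_8be758_nt.Avg (gs Rough red ft en nsq vau_g gs_pos gs_le_one gs_neg gs_anti)
open Pool.Agent.P.MP_e94e4b_nt.PF (mN sgm)
open ArithmeticFunction (vonMangoldt moebius)
open DirichletCharacter (LFunction)

namespace CIRCa

theorem ii_ind {h : ℝ → ℝ} (hh : Continuous h) {S : Set ℝ} (hS : MeasurableSet S) (a b : ℝ) :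
    IntervalIntegrable (S.indicator h) volume a b :=
  ⟨(hh.intervalIntegrable a b).1.indicator hS, (hh.intervalIntegrable a b).2.indicator hS⟩

theorem ii_sum {ι E : Type*} [NormedAddCommGroup E] {R : Finset ι} {F : ι → ℝ → E} {a b : ℝ}
    (h : ∀ j ∈ R, IntervalIntegrable (F j) volume a b) :
    IntervalIntegrable (fun α => ∑ j ∈ R, F j α) volume a b :=
  ⟨integrable_finsetSum R fun j hj => (h j hj).1, integrable_finsetSum R fun j hj => (h j hj).2⟩

theorem arc {h : ℝ → ℝ} {η θ : ℝ} (hη : 0 < η) (h0 : 0 ≤ θ) (h1 : θ ≤ 1 - 2 * η) :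
    ∫ α in (-η)..(-η + 1), (Set.Ioo (θ - η) (θ + η)).indicator (fun α => h (α - θ)) α =
      ∫ β in (-η)..η, h β := by
  have e : Set.Ioc (-η) (-η + 1) ∩ Set.Ioo (θ - η) (θ + η) = Set.Ioo (θ - η) (θ + η) :=
    Set.inter_eq_right.2 fun x hx => ⟨by linarith [hx.1], by linarith [hx.2]⟩
  rw [intervalIntegral.integral_of_le (by linarith), setIntegral_indicator measurableSet_Ioo, e,
    ← integral_Ioc_eq_integral_Ioo, ← intervalIntegral.integral_of_le (by linarith),
    intervalIntegral.integral_comp_sub_right]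
  congr 1 <;> ring

theorem ft_shift (I : Finset ℕ) (θ α : ℝ) :
    ft I (fun m => ee (-(m * θ))) α = ft I (fun _ => 1) (α - θ) :=
  sum_congr rfl fun m _ => by rw [one_mul, ← ee_add]; congr 1; ring

theorem ft_arc (I : Finset ℕ) (g : ℕ → ℂ) (c : ℂ) (θ α : ℝ) :
    ft I g α - c * ft I (fun _ => 1) (α - θ) = ft I (fun m => g m * ee (m * θ) - c) (α - θ) := by
  simp only [ft, mul_sum, ← sum_sub_distrib]
  refine sum_congr rfl fun m _ => ?_
  rw [sub_mul, mul_assoc (g m), ← ee_add, one_mul]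
  congr 3
  ring

theorem model (I J : Finset ℕ) (f : ℕ → ℂ) (s : ℕ → ℕ) (θ : ℝ) (h : ∀ N ∈ J, ∀ p ∈ I, p ≤ s N) :
    ∑ N ∈ J, ∑ p ∈ I, f p * ee (-(((s N - p : ℕ) : ℝ) * θ)) =
      ft I f θ * (starRingEnd ℂ) (Ws J s θ) := by
  rw [Ws, map_sum, mul_sum]
  refine sum_congr rfl fun N hN => ?_
  rw [ft, sum_mul]
  refine sum_congr rfl fun p hp => ?_
  rw [← ee_neg, mul_assoc, ← ee_add, Nat.cast_sub (h N hN p hp)]
  congr 2
  ring

end CIRCa

open CIRCa in
theorem p_CIRC (hCI1 : S_CI1) (hCI2 : S_CI2) (hCP : S_CP) :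
    S_CIRC := by
  intro ι R θ c I J A B f g s η w0 μ ν hη hμ hν hw hθ hsep hs hmin
  have cW : Continuous fun α => (starRingEnd ℂ) (Ws J s α) :=
    Complex.continuous_conj.comp (cont_Ws J s)
  have cD : ∀ j, Continuous fun α => ft (Ioc A B) (fun _ => 1) (α - θ j) := fun j => by fun_prop
  have i1 : IntervalIntegrable (fun α => ft I f α * ft (Ioc A B) g α * (starRingEnd ℂ) (Ws J s α))
      volume (-η) (-η + 1) :=
    (((cont_ft _ _).mul (cont_ft _ _)).mul cW).intervalIntegrable _ _
  have i2 : ∀ j ∈ R, IntervalIntegrable (fun α => c j * (ft I f α *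
      ft (Ioc A B) (fun _ => 1) (α - θ j) * (starRingEnd ℂ) (Ws J s α))) volume (-η) (-η + 1) :=
    fun j _ => (continuous_const.mul (((cont_ft _ _).mul (cD j)).mul cW)).intervalIntegrable _ _
  have e1 : ∑ N ∈ J, ∑ p ∈ I, f p * g (s N - p) -
      ∑ j ∈ R, c j * ft I f (θ j) * (starRingEnd ℂ) (Ws J s (θ j)) =
      ∫ α in (-η)..(-η + 1), (ft I f α * ft (Ioc A B) g α * (starRingEnd ℂ) (Ws J s α) -
        ∑ j ∈ R, c j * (ft I f α * ft (Ioc A B) (fun _ => 1) (α - θ j) *
          (starRingEnd ℂ) (Ws J s α))) := by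
    rw [intervalIntegral.integral_sub i1 (ii_sum i2),
      intervalIntegral.integral_finsetSum i2, (hCI1 I (Ioc A B) J f g s (-η)).2 hs]
    congr 1
    refine sum_congr rfl fun j _ => ?_
    rw [intervalIntegral.integral_const_mul, mul_assoc, ← model I J f s _ fun N hN p hp =>
      (hs N hN p hp).1, ← (hCI1 I (Ioc A B) J f (fun m => ee (-(m * θ j))) s (-η)).2 hs]
    simp only [ft_shift]
  set u : ι → ℝ → ℝ := fun j => (Set.Ioo (θ j - η) (θ j + η)).indicator fun α =>
    ‖ft (Ioc A B) (fun m => g m * ee (m * θ j) - c j) (α - θ j)‖ ^ 2 with hu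
  set v : ι → ℝ → ℝ := fun j => Set.indicator {α : ℝ | η ≤ |α - θ j|} fun α =>
    ‖ft (Ioc A B) (fun _ => 1) (α - θ j)‖ ^ 2 with hv
  have iu : ∀ j ∈ R, IntervalIntegrable (u j) volume (-η) (-η + 1) := fun j _ =>
    ii_ind (by fun_prop) measurableSet_Ioo _ _
  have iv : ∀ j, IntervalIntegrable (v j) volume (-η) (-η + 1) := fun j =>
    ii_ind (by fun_prop) (measurableSet_le measurable_const (by fun_prop)) _ _
  have iF : IntervalIntegrable (fun α => ‖ft I f α‖ ^ 2) volume (-η) (-η + 1) :=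
    Continuous.intervalIntegrable (by fun_prop) _ _
  have iG : IntervalIntegrable (fun α => ‖ft (Ioc A B) g α‖ ^ 2) volume (-η) (-η + 1) :=
    Continuous.intervalIntegrable (by fun_prop) _ _
  have iU := ii_sum iu
  have iV : ∀ j ∈ R, IntervalIntegrable (fun α => ‖c j‖ * (ν * ‖ft I f α‖ ^ 2 + v j α / ν))
      volume (-η) (-η + 1) := fun j _ => ((iF.const_mul ν).add ((iv j).div_const ν)).const_mul _
  have iS := ii_sum iV
  have j1 := (iF.add iG).const_mul w0
  have j2 := ((iF.const_mul μ).add (iU.div_const μ)).const_mul (J.card : ℝ)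
  have j3 := iS.const_mul (J.card : ℝ)
  rw [e1]
  refine (intervalIntegral.norm_integral_le_of_norm_le (by linarith) (ae_of_all _ fun α hα => ?_)
    ((j1.add j2).add j3)).trans ?_
  · refine (hCP ι R θ c (fun j => ft (Ioc A B) (fun _ => 1) (α - θ j)) _ _ _ α η w0 J.card μ ν hμ hν
      hw (by rw [Complex.norm_conj]; exact norm_Ws_le J s α) hsep fun h => by
        rw [Complex.norm_conj]
        exact hmin α hα.1.le (by linarith [hα.2]) h).trans (le_of_eq ?_)
    congr 4
    · refine congrArg (· / μ) (sum_congr rfl fun j _ => ?_)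
      rw [ft_arc, hu]
      simp only [Set.indicator_apply, Set.mem_Ioo, abs_lt]
      refine if_congr ⟨fun h => ⟨by linarith [h.1], by linarith [h.2]⟩,
        fun h => ⟨by linarith [h.1], by linarith [h.2]⟩⟩ rfl rfl
  · rw [intervalIntegral.integral_add (j1.add j2) j3, intervalIntegral.integral_add j1 j2,
      intervalIntegral.integral_const_mul, intervalIntegral.integral_const_mul,
      intervalIntegral.integral_const_mul, intervalIntegral.integral_add iF iG,
      intervalIntegral.integral_add (iF.const_mul μ) (iU.div_const μ),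
      intervalIntegral.integral_const_mul, intervalIntegral.integral_div,
      intervalIntegral.integral_finsetSum iu, intervalIntegral.integral_finsetSum iV,
      (hCI1 I I J f f s (-η)).1, (hCI1 (Ioc A B) I J g f s (-η)).1]
    refine add_le_add (le_of_eq ?_) (mul_le_mul_of_nonneg_left (sum_le_sum fun j hj => ?_)
      (Nat.cast_nonneg _))
    · congr 4
      exact sum_congr rfl fun j hj => arc (h := fun β =>
        ‖ft (Ioc A B) (fun m => g m * ee (m * θ j) - c j) β‖ ^ 2) hη (hθ j hj).1 (hθ j hj).2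
    · rw [intervalIntegral.integral_const_mul,
        intervalIntegral.integral_add (iF.const_mul ν) ((iv j).div_const ν),
        intervalIntegral.integral_const_mul, intervalIntegral.integral_div,
        (hCI1 I I J f f s (-η)).1]
      refine mul_le_mul_of_nonneg_left (add_le_add_right ?_ _) (norm_nonneg _)
      rw [mul_comm ν η, ← div_div]
      exact div_le_div_of_nonneg_right (hCI2 A B η (θ j) hη (hθ j hj).1 (hθ j hj).2) hν.le

end Pool.Agent.P.E2
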