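import Pool.Agent.P.MP_e94e4b_nt.E2.IfZ

/-! Step LB. -/

namespace Pool.Agent.P.E2

open Finset Real Filter Topology MeasureTheory
open Pool.Agent.P.MP_e86632_nt (ee nn ee_add norm_ee ee_neg ee_zero)
open Pool.Agent.P.MP_8be758_nt.Avg (gs Rough red ft en nsq vau_g gs_pos gs_le_one gs_neg gs_anti)
open Pool.Agent.P.MP_e94e4b_nt.PF (mN sgm)
open ArithmeticFunction (vonMangoldt moebius)
open DirichletCharacter (LFunction)

namespace LBa

theorem pw {x y σ δ : ℝ} (hx : 1 ≤ x) (h : Real.log x ≤ y) (hσ : 1 - δ ≤ σ) (hδ : 0 ≤ δ) :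
    x ^ (1 - σ) ≤ Real.exp (y * δ) := by
  rw [Real.rpow_def_of_pos (by linarith)]
  exact Real.exp_le_exp.2 ((mul_le_mul_of_nonneg_left (by linarith) (Real.log_nonneg hx)).trans
    (mul_le_mul_of_nonneg_right h hδ))

theorem head {c : ℕ → ℂ} (hc : ∀ n, ‖c n‖ ≤ 1) {s : ℂ} {y : ℝ} {N : ℕ} (hy : 1 ≤ y)
    (hs : 1 - 1 / y ≤ s.re) (hN : Real.log N ≤ y + 1) :
    ‖∑ n ∈ Ioc 0 N, c n * (n : ℂ) ^ (-s)‖ ≤ 9 * (2 + y) := by
  have h9 : Real.exp ((y + 1) * (1 / y)) ≤ 9 := by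
    have h1 : (y + 1) * (1 / y) ≤ 1 + 1 := by
      rw [mul_one_div, div_le_iff₀ (by linarith)]; linarith
    refine (Real.exp_le_exp.2 h1).trans ?_
    rw [Real.exp_add]
    nlinarith [Real.exp_one_lt_three, Real.exp_pos 1]
  refine (norm_sum_le_of_le _ (n := fun n : ℕ => 9 * (1 / (n : ℝ))) fun n hn => ?_).trans ?_
  · obtain ⟨h0, h1⟩ := mem_Ioc.1 hn
    have h2 : (1 : ℝ) ≤ n := by exact_mod_cast h0
    have h3 := (pw h2 ((Real.log_le_log (by linarith) (Nat.cast_le.2 h1)).trans hN) hs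
      (by positivity)).trans h9
    rw [sub_eq_add_neg, Real.rpow_add (by linarith), Real.rpow_one] at h3
    rw [norm_mul, Complex.norm_natCast_cpow_of_pos h0, Complex.neg_re, mul_one_div,
      le_div_iff₀ (by linarith)]
    calc _ ≤ 1 * (n : ℝ) ^ (-s.re) * n := by gcongr; exact hc n
      _ ≤ 9 := by linarith
  · rw [← mul_sum]
    linarith [MP_e86632_nt.sum_inv_le N]

end LBa

theorem p_LB (hAPX : S_APX) (hBL : S_BL) (hDY : S_DY) :
    S_LB := by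
  filter_upwards [hBL, eventually_ge_atTop 10, ev_pe1 500 13, ev_lin 4 0 one_pos (k := 9) (by omega),
    ev_lin 0 4 one_pos (k := 9) (by omega), ev_pp 1 one_pos (show 9 < 13 by omega)]
    with r hB hr h1 h2 h3 h4 q _ χ s hq s1 s2 t1 t2
  simp only [one_mul, zero_mul, add_zero, zero_add] at h2 h3 h4
  have hy : 0 < r ^ 9 := by linarith
  have hδ : 1 / r ^ 9 ≤ 1 / 4 := one_div_le_one_div_of_le (by norm_num) h3
  have q1 : (1 : ℝ) ≤ q := by exact_mod_cast (per_ch χ).1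
  have n1 : ‖s‖ ≤ 3 * |s.im| := by
    have := Complex.norm_le_abs_re_add_abs_im s
    rw [abs_of_nonneg (by linarith : 0 ≤ s.re)] at this
    linarith
  have n2 : 1 ≤ q * ‖s‖ := one_le_mul_of_one_le_of_one_le q1 (t1.trans (Complex.abs_im_le_norm s))
  obtain ⟨k, hk⟩ : ∃ k, k = ⌈(q * ‖s‖) ^ 2⌉₊ := ⟨_, rfl⟩
  have k1 : (q * ‖s‖) ^ 2 ≤ k := hk ▸ Nat.le_ceil _
  have k2 : (k : ℝ) ≤ (q * ‖s‖) ^ 2 + 1 := hk ▸ (Nat.ceil_lt_add_one (by positivity)).le
  have k0 : (1 : ℝ) ≤ k := (one_le_pow₀ n2).trans k1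
  have hA := hAPX q χ s k (by linarith) t1 (by exact_mod_cast k0)
  have N1 : (1 : ℝ) ≤ (k * q : ℕ) := by push_cast; exact one_le_mul_of_one_le_of_one_le k0 q1
  have N2 : ((k * q : ℕ) : ℝ) ≤ Real.exp (4 * r) * s.im ^ 2 := by
    have e1 : 1 ≤ (q * |s.im|) ^ 2 := one_le_pow₀ (one_le_mul_of_one_le_of_one_le q1 t1)
    have e2 : (q * ‖s‖) ^ 2 ≤ (q * (3 * |s.im|)) ^ 2 := by gcongr
    have e3 : 10 ≤ Real.exp r := by linarith [Real.add_one_le_exp r]
    calc ((k * q : ℕ) : ℝ) = k * q := by push_cast; rfl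
      _ ≤ 10 * (q * |s.im|) ^ 2 * q := by gcongr; nlinarith
      _ ≤ Real.exp r * (Real.exp r * |s.im|) ^ 2 * Real.exp r := by gcongr
      _ = Real.exp r ^ 4 * s.im ^ 2 := by rw [mul_pow, sq_abs]; ring
      _ = _ := by rw [← Real.exp_nat_mul]; norm_num
  generalize k * q = N at hA N1 N2
  have N3 : Real.log N ≤ 4 * r + 2 * Real.log |s.im| := by
    refine (Real.log_le_log (by linarith) N2).trans_eq ?_
    rw [← sq_abs, Real.log_mul (by positivity) (by positivity), Real.log_exp, Real.log_pow]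
    norm_num
  have l0 := Real.log_nonneg t1
  have a1 : (N : ℝ) ^ (1 - s.re) / |s.im| ≤ 3 := by
    have e : (4 * r + 2 * Real.log |s.im|) * (1 / r ^ 9) ≤ 1 + Real.log |s.im| := by
      rw [mul_one_div, div_le_iff₀ hy]; nlinarith
    have := (LBa.pw N1 N3 s1 (by positivity)).trans (Real.exp_le_exp.2 e)
    rw [Real.exp_add, Real.exp_log (by linarith)] at this
    rw [div_le_iff₀ (by linarith)]
    nlinarith [Real.exp_one_lt_three]
  have a2 : 6 * q * ‖s‖ / √(k : ℝ) ≤ 6 := by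
    rw [div_le_iff₀ (by positivity), mul_assoc]
    gcongr
    exact Real.le_sqrt_of_sq_le k1
  obtain ⟨M, hM⟩ : ∃ M, M = ⌈Real.exp (r ^ 9)⌉₊ := ⟨_, rfl⟩
  have m1 : Real.exp (r ^ 9) ≤ M := hM ▸ Nat.le_ceil _
  have m0 : 1 ≤ Real.exp (r ^ 9) := Real.one_le_exp hy.le
  have m2 : Real.log M ≤ r ^ 9 + 1 := by
    have : (M : ℝ) ≤ Real.exp (r ^ 9) + 1 := hM ▸ (Nat.ceil_lt_add_one (by positivity)).le
    rw [Real.log_le_iff_le_exp (by linarith), Real.exp_add]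
    nlinarith [Real.add_one_le_exp 1]
  have hH := fun N h => LBa.head (norm_ch_le χ) (N := N) (by linarith) s1 h
  obtain ⟨J, hJ⟩ : ∃ J, J = ⌈13 * r ^ 13⌉₊ := ⟨_, rfl⟩
  have j1 : 13 * r ^ 13 ≤ J := hJ ▸ Nat.le_ceil _
  have j2 : (J : ℝ) ≤ 13 * r ^ 13 + 1 := hJ ▸ (Nat.ceil_lt_add_one (by positivity)).le
  have a3 : ‖∑ n ∈ Ioc 0 N, ch χ n * (n : ℂ) ^ (-s)‖ ≤ 9 * (2 + r ^ 9) + 30 * J := by
    rcases le_total N M with h | h
    · exact (hH N ((Real.log_le_log (by linarith) (Nat.cast_le.2 h)).trans m2)).trans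
        (le_add_of_nonneg_right (by positivity))
    rw [← sum_Ioc_consecutive _ (Nat.zero_le M) h]
    refine norm_add_le_of_le (hH M m2) ((hDY _ 30 M N (by exact_mod_cast m0.trans m1)
      (by norm_num)).2 J ?_ fun M' N' b1 b2 b3 b4 => hB q M' N' _ s (per_ch χ) hq
        (m1.trans (Nat.cast_le.2 b1)) b2 b3 ((Nat.cast_le.2 (b2.trans b4)).trans N2) t2 s1)
    have e1 : Real.log |s.im| ≤ 4 * r ^ 13 := (Real.log_le_iff_le_exp (by linarith)).2 t2
    have e2 : Real.log N ≤ Real.log (2 ^ J) := by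
      rw [Real.log_pow]
      nlinarith [Real.log_two_gt_d9]
    have e3 : (N : ℝ) ≤ M * 2 ^ J := ((Real.log_le_log_iff (by linarith) (by positivity)).1 e2).trans
      (le_mul_of_one_le_left (by positivity) (m0.trans m1))
    exact_mod_cast e3
  rw [show Icc 1 N = Ioc 0 N from Icc_add_one_left_eq_Ioc 0 N] at hA
  have := norm_add_le_of_le hA a3
  rw [sub_add_cancel] at this
  linarith

end Pool.Agent.P.E2
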