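import Pool.Agent.P.MP_e94e4b_nt.E2.IfC

/-! Step LOC. -/

namespace Pool.Agent.P.E2

open Finset Real Filter Topology MeasureTheory
open Pool.Agent.P.MP_e86632_nt (ee nn ee_add norm_ee ee_neg ee_zero)
open Pool.Agent.P.MP_8be758_nt.Avg (gs Rough red ft en nsq vau_g gs_pos gs_le_one gs_neg gs_anti)
open Pool.Agent.P.MP_e94e4b_nt.PF (mN sgm)
open ArithmeticFunction (vonMangoldt moebius)
open DirichletCharacter (LFunction)

namespace LOCa

theorem log_close {x u ε : ℝ} (hu : 0 < u) (h : |x - u| ≤ ε * u) (hε : ε ≤ 1 / 10) :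
    |Real.log x - Real.log u| ≤ 2 * ε := by
  obtain ⟨h1, h2⟩ := abs_le.1 h
  have h0 : 0 ≤ ε := nonneg_of_mul_nonneg_left ((abs_nonneg _).trans h) hu
  have hx : 0 < x := by nlinarith
  have a1 := Real.log_le_sub_one_of_pos (div_pos hx hu)
  have a2 := Real.log_le_sub_one_of_pos (div_pos hu hx)
  rw [Real.log_div hx.ne' hu.ne'] at a1
  rw [Real.log_div hu.ne' hx.ne'] at a2
  have b1 : x / u ≤ 1 + 2 * ε := by rw [div_le_iff₀ hu]; nlinarith
  have b2 : u / x ≤ 1 + 2 * ε := by rw [div_le_iff₀ hx]; nlinarith [mul_nonneg h0 hu.le]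
  rw [abs_le]; constructor <;> linarith

theorem lip (S : Finset ℕ) (b : ℕ → ℂ) {B a : ℝ} (ha : 0 < a) (hb : ∀ m, ‖b m‖ ≤ B) (v v' : ℝ) :
    ‖∑ m ∈ S, b m * (gk a (Real.log m - v) : ℂ) - ∑ m ∈ S, b m * (gk a (Real.log m - v') : ℂ)‖ ≤
      S.card * (B * (2 * |v - v'| / a ^ 2)) := by
  rw [← sum_sub_distrib]
  refine (norm_sum_le_of_le _ (n := fun _ => B * (2 * |v - v'| / a ^ 2)) fun m _ => ?_).trans
    (by simp)
  rw [← mul_sub, norm_mul, ← Complex.ofReal_sub, Complex.norm_real, Real.norm_eq_abs]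
  refine mul_le_mul (hb m) ((gk_lip ha _ _).trans_eq ?_) (abs_nonneg _)
    ((norm_nonneg _).trans (hb m))
  rw [show Real.log m - v - (Real.log m - v') = -(v - v') by ring, abs_neg]

theorem num : ∀ᶠ r : ℝ in atTop, 1 ≤ r ∧ 20 ≤ Real.exp r ∧ 4 * r ^ 7 ≤ Real.exp r ∧
    Real.exp (3 * r) / Real.exp (r ^ 13 / 2) ≤ 1 / 10 ∧
    1080 * r ^ 27 * Real.exp (14 * r) * (Real.exp (3 * r) / Real.exp (r ^ 13 / 2)) ≤
      1 / (3 * r ^ 400) ∧
    488 * r ^ 13 * XX r * Real.exp (-(r ^ 7) ^ 2) ≤ 1 / (3 * r ^ 400) ∧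
    16 * r ^ 13 / r ^ 600 ≤ 1 / (3 * r ^ 400) := by
  filter_upwards [eventually_ge_atTop 20, ev_pe1 4 7, ev_pe1 3240 427, ev_pe1 1464 413,
    ev_lin 18 0 (c := 1 / 2) (by norm_num) (k := 13) (by norm_num),
    ev_pp 2 one_pos (show 13 < 14 by norm_num), ev_pp 48 one_pos (show 413 < 600 by norm_num)]
    with r h1 h2 h3 h4 h5 h6 h7
  have h0 : 0 < r := by linarith
  have e1 : r + 1 ≤ Real.exp r := Real.add_one_le_exp r
  have e2 : Real.exp r * (Real.exp (14 * r) * Real.exp (3 * r)) ≤ Real.exp (r ^ 13 / 2) := by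
    rw [← Real.exp_add, ← Real.exp_add]; exact Real.exp_le_exp.2 (by linarith)
  have e3 : 1 ≤ Real.exp (14 * r) := Real.one_le_exp (by linarith)
  have e4 := Real.exp_pos (3 * r)
  have e5 : r ≤ r ^ 13 := le_self_pow₀ (by linarith) (by norm_num)
  refine ⟨by linarith, by linarith, h2, ?_, ?_, ?_, ?_⟩
  · rw [div_le_div_iff₀ (Real.exp_pos _) (by norm_num)]
    have : 10 * (1 * Real.exp (3 * r)) ≤ Real.exp r * (Real.exp (14 * r) * Real.exp (3 * r)) := by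
      gcongr; linarith
    linarith
  · rw [← mul_div_assoc, div_le_div_iff₀ (Real.exp_pos _) (by positivity)]
    have := mul_le_mul_of_nonneg_right h3 (mul_pos (Real.exp_pos (14 * r)) e4).le
    linarith
  · rw [le_div_iff₀ (by positivity), XX]
    have e6 : Real.exp r * (Real.exp (r ^ 13) * Real.exp (-(r ^ 7) ^ 2)) ≤ 1 := by
      rw [← Real.exp_add, ← Real.exp_add]
      exact Real.exp_le_one_iff.2 (by linarith)
    have := mul_le_mul_of_nonneg_right h4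
      (mul_pos (Real.exp_pos (r ^ 13)) (Real.exp_pos (-(r ^ 7) ^ 2))).le
    linarith
  · rw [div_le_div_iff₀ (by positivity) (by positivity)]
    linarith

end LOCa

open LOCa in
theorem p_LOC (hRS : S_RS) (hCMP : S_CMP) (hRNG : S_RNG) (hGEO : S_GEO) (hGS : S_GS) (hCB : S_CB) :
    S_LOC := by
  filter_upwards [hRNG, hGEO, hGS, hCB, num] with r hR hG hg hc ⟨r1, n1, n2, n3, n4, n5, n6⟩
  intro P y K H hS i hi α u a ha hu1 hu2
  have G := hG P y K H hS
  have R := hR P G.p1 hS.p2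
  have hg1 := (hg P G.p1 hS.p2).1
  obtain ⟨x1, x2, x3, x4⟩ := G.x1 i hi
  obtain ⟨-, y2⟩ := G.y1 i hi
  obtain ⟨i1, -, i3⟩ := G.ig i hi
  have hX := XX_pos r
  have x3' : (xb y (K * H) i : ℝ) + Yb y (K * H) i = xb y (K * H) (i + 1) := by exact_mod_cast x3
  have y2' : (Yb y (K * H) i : ℝ) ≤ 5 * y * (K * H) := by exact_mod_cast y2
  have hmem : ∀ m : ℕ, (xb y (K * H) i : ℝ) - Yb y (K * H) i < m →
      (m : ℝ) ≤ xb y (K * H) i + 2 * Yb y (K * H) i → m ∈ Ig y (K * H) i := fun m h1 h2 => by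
    rw [← Nat.cast_sub x4] at h1
    exact mem_Ioc.2 ⟨by exact_mod_cast h1, by exact_mod_cast h2⟩
  have hc1 := hc P (xb y (K * H) i) α G.p1 hS.p2 x1
    (by linarith [Nat.cast_nonneg (α := ℝ) (Yb y (K * H) i)])
  have hcb : cb r P (xb y (K * H) i) α = (∑ m ∈ Mr r, (gE r P m : ℂ) * ee (m * α) *
    (gk (Th r) (Real.log m - Real.log (xb y (K * H) i)) : ℂ)) / (xb y (K * H) i : ℝ) := rfl
  simp only [ba]
  generalize cb r P (xb y (K * H) i) α = c at hc1 hcb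
  generalize (xb y (K * H) i : ℝ) = x at *
  generalize (Yb y (K * H) i : ℝ) = Y at *
  generalize Ig y (K * H) i = I at *
  have hy := hS.hy
  have hy0 : (0 : ℝ) < y := by rw [G.ye]; exact Real.exp_pos _
  have hy1 : (1 : ℝ) ≤ y := by rw [G.ye]; exact Real.one_le_exp (by positivity)
  rw [← G.ye] at n3 n4
  set θ := (H : ℝ) ^ 2 / XX r with hθ
  set ε := Real.exp (3 * r) / y with hε
  have r6 : 1 ≤ r ^ 600 := one_le_pow₀ r1
  have r7 : 1 ≤ r ^ 7 := one_le_pow₀ r1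
  have hθ0 : 0 < θ := div_pos (by linarith [G.hl]) hX
  have hx0 : 0 < x := by linarith
  have a1 : r ^ 600 ≤ a := by
    have : θ * XX r = (H : ℝ) ^ 2 := div_mul_cancel₀ _ hX.ne'
    have := mul_le_mul_of_nonneg_left x1 hθ0.le
    linarith [G.hl]
  have a0 : 1 ≤ r ^ 7 * a := one_le_mul_of_one_le_of_one_le r7 (by linarith)
  have hu0 : XX r / 2 ≤ u := by linarith
  have e3 : Real.exp (3 * r) = Real.exp r * Real.exp (2 * r) := by
    rw [← Real.exp_add]; congr 1; ring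
  have e2 := Real.exp_pos (2 * r)
  have c1 : |x - u| ≤ ε * u := by
    have h1 : Y ≤ 5 * y * Real.exp (2 * r) := y2'.trans (by gcongr; exact G.lu)
    have h2 : ε * (XX r / 2) = Real.exp r * (y * Real.exp (2 * r)) / 2 := by
      rw [hε, ← hy, e3]; field_simp
    have h3 := mul_le_mul_of_nonneg_right n1 (mul_pos hy0 e2).le
    have h4 : ε * (XX r / 2) ≤ ε * u := by gcongr
    rw [abs_le]; constructor <;> nlinarith
  have c2 : r ^ 7 * θ ≤ ε := by
    rw [hθ, hε, ← hy, ← mul_div_assoc, div_le_div_iff₀ (by positivity) hy0, e3]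
    have h1 : r ^ 7 * (H : ℝ) ^ 2 ≤ Real.exp r * Real.exp (2 * r) := by
      have := mul_le_mul_of_nonneg_left G.hu (by positivity : 0 ≤ r ^ 7)
      nlinarith
    have h2 : (y : ℝ) ≤ y ^ 2 := by nlinarith
    gcongr
  have hb : ∀ m : ℕ, ‖(gE r P m : ℂ) * ee (m * α)‖ ≤ 2 * r ^ 13 := fun m => by
    rw [norm_mul, norm_ee, mul_one, Complex.norm_real, Real.norm_of_nonneg (hg1 m).1]
    exact (hg1 m).2
  have hin : ∀ m : ℕ, |m - u| ≤ 2 * r ^ 7 * a → m ∈ I := fun m h => by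
    obtain ⟨h1, h2⟩ := abs_le.1 h
    exact hmem m (by linarith) (by linarith)
  have k1 := hCMP u x θ (r ^ 7) ε (2 * r ^ 13) I (Mr r) _ (by linarith) hθ0 r7
    (by rw [← ha]; linarith) c1 c2 n3 (by positivity) hb (fun m hm => (mem_Icc.1 hm).1)
    fun m hm => by
      rw [← ha] at hm
      exact iff_of_true (hin m hm) (i3 (hin m hm))
  rw [← ha] at k1
  have k2 := (hRS a u I (by linarith)).2 (r ^ 7) (by positivity) (by linarith)
    fun m hm => hin m (by linarith)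
  have k3 := lip (Mr r) _ (Th_pos r) hb (Real.log x) (Real.log u)
  have k4 := log_close (by linarith : 0 < u) c1 n3
  have hxc : (x : ℂ) ≠ 0 := Complex.ofReal_ne_zero.2 hx0.ne'
  have e : ∑ m ∈ I, ((gE r P m : ℂ) * ee (m * α) - c) * (gk a (m - u) : ℂ) =
      Dl r P θ (fun m => ee (m * α)) (Real.log u) / x +
      ((∑ m ∈ I, (gE r P m : ℂ) * ee (m * α) * (gk a (m - u) : ℂ) -
        (∑ m ∈ Mr r, (gE r P m : ℂ) * ee (m * α) * (gk θ (Real.log m - Real.log u) : ℂ)) / x) -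
      c * ((∑ m ∈ I, gk a (m - u) - 1 : ℝ) : ℂ) -
      (∑ m ∈ Mr r, (gE r P m : ℂ) * ee (m * α) * (gk (Th r) (Real.log m - Real.log x) : ℂ) -
        ∑ m ∈ Mr r, (gE r P m : ℂ) * ee (m * α) * (gk (Th r) (Real.log m - Real.log u) : ℂ)) / x) := by
    simp only [Dl, sub_mul, sum_sub_distrib, ← mul_sum, Complex.ofReal_sub, mul_sub,
      Complex.ofReal_sum, Complex.ofReal_one, sub_div, ← hcb]
    ring
  have m1 := R.mrc
  have m2 : (I.card : ℝ) ≤ (Mr r).card := by exact_mod_cast card_le_card i3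
  have t2 : (Th r) ^ 2 = 1 / Real.exp (14 * r) := by
    rw [Th, ← Real.exp_nat_mul, one_div, ← Real.exp_neg]; congr 1; push_cast; ring
  have hε0 : 0 < ε := by positivity
  have e14 : 1 ≤ Real.exp (14 * r) := Real.one_le_exp (by linarith)
  have hX1 : 1 ≤ XX r := Real.one_le_exp (by positivity)
  have w := Real.exp_pos (-(r ^ 7) ^ 2)
  rw [e]
  refine (norm_add_le _ _).trans (add_le_add ?_ ?_)
  · rw [norm_div, Complex.norm_real, Real.norm_of_nonneg hx0.le]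
    gcongr
  refine (norm_sub_le _ _).trans ((add_le_add_left (norm_sub_le _ _) _).trans ?_)
  have b1 : 2 * r ^ 13 * (100 * (r ^ 7) ^ 2 * ε + (I.card + (Mr r).card) * Real.exp (-(r ^ 7) ^ 2)) ≤
      200 * r ^ 27 * Real.exp (14 * r) * ε + 440 * r ^ 13 * XX r * Real.exp (-(r ^ 7) ^ 2) := by
    have h1 : r ^ 27 * ε * 1 ≤ r ^ 27 * ε * Real.exp (14 * r) := by gcongr
    have h2 : r ^ 13 * ((I.card + (Mr r).card) * Real.exp (-(r ^ 7) ^ 2)) ≤
        r ^ 13 * (220 * XX r * Real.exp (-(r ^ 7) ^ 2)) := by gcongr; linarith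
    nlinarith
  have b2 : ‖c * ((∑ m ∈ I, gk a (m - u) - 1 : ℝ) : ℂ)‖ ≤
      16 * r ^ 13 / r ^ 600 + 48 * r ^ 13 * XX r * Real.exp (-(r ^ 7) ^ 2) := by
    rw [norm_mul, Complex.norm_real, Real.norm_eq_abs]
    refine (mul_le_mul hc1 k2 (abs_nonneg _) (by positivity)).trans ?_
    have h1 : 4 / a ≤ 4 / r ^ 600 := by gcongr
    have h2 : r ^ 13 * (4 / a) ≤ r ^ 13 * (4 / r ^ 600) := by gcongr
    have h3 : r ^ 13 * 1 * Real.exp (-(r ^ 7) ^ 2) ≤ r ^ 13 * XX r * Real.exp (-(r ^ 7) ^ 2) := by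
      gcongr
    have h4 : 16 * r ^ 13 / r ^ 600 = 4 * (r ^ 13 * (4 / r ^ 600)) := by ring
    nlinarith
  have b3 : ‖(∑ m ∈ Mr r, (gE r P m : ℂ) * ee (m * α) * (gk (Th r) (Real.log m - Real.log x) : ℂ) -
      ∑ m ∈ Mr r, (gE r P m : ℂ) * ee (m * α) * (gk (Th r) (Real.log m - Real.log u) : ℂ)) / x‖ ≤
      880 * r ^ 27 * Real.exp (14 * r) * ε := by
    rw [norm_div, Complex.norm_real, Real.norm_of_nonneg hx0.le, div_le_iff₀ hx0]
    refine k3.trans ?_
    rw [t2, div_div_eq_mul_div, div_one]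
    have h1 : r ^ 13 ≤ r ^ 27 := pow_le_pow_right₀ r1 (by norm_num)
    calc _ ≤ 110 * x * (2 * r ^ 27 * (2 * (2 * ε) * Real.exp (14 * r))) := by
          gcongr; linarith
      _ = _ := by ring
  have e400 : 1 / r ^ 400 = 3 * (1 / (3 * r ^ 400)) := by field_simp
  linarith

end Pool.Agent.P.E2
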