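import Pool.Agent.P.MP_e94e4b_nt.E2.IfC

/-! Step MAIN. -/

namespace Pool.Agent.P.E2

open Finset Real Filter Topology MeasureTheory
open Pool.Agent.P.MP_e86632_nt (ee nn ee_add norm_ee ee_neg ee_zero)
open Pool.Agent.P.MP_8be758_nt.Avg (gs Rough red ft en nsq vau_g gs_pos gs_le_one gs_neg gs_anti)
open Pool.Agent.P.MP_e94e4b_nt.PF (mN sgm)
open ArithmeticFunction (vonMangoldt moebius)
open DirichletCharacter (LFunction)

namespace MAINa

theorem sum_red_le (K : ℕ) (F : ℕ → ℕ → ℝ) {B : ℝ} (hB : 0 ≤ B)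
    (h : ∀ q ∈ Icc 1 K, ∀ a ∈ red q, F q a ≤ B) :
    ∑ q ∈ Icc 1 K, ∑ a ∈ red q, F q a ≤ (K : ℝ) ^ 2 * B := by
  refine (sum_le_card_nsmul _ _ (K * B) fun q hq => ?_).trans (le_of_eq (by simp; ring))
  refine (sum_le_card_nsmul _ _ B (h q hq)).trans ?_
  rw [nsmul_eq_mul]
  gcongr
  exact ((card_le_card fun a ha => mem_range.2 (mem_red.1 ha).1).trans (card_range q).le).trans
    (mem_Icc.1 hq).2

theorem low (S : ℝ) (M1 M2 : ℂ) : M1.re - ‖M2‖ - ‖(S : ℂ) - (M1 + M2)‖ ≤ S := by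
  have h1 := (abs_le.1 (Complex.abs_re_le_norm M2)).1
  have h2 := (abs_le.1 (Complex.abs_re_le_norm ((S : ℂ) - (M1 + M2)))).1
  simp only [Complex.sub_re, Complex.add_re, Complex.ofReal_re] at h2
  linarith

theorem num {r C X ρ T E : ℝ} (hr : 1 ≤ r) (hC : 0 < C) (hX : 0 < X) (hρ : 1 / (4 * r) ≤ ρ)
    (hT : T ≤ 4 * X) (hE : E ≤ (2 * r ^ 110) ^ 2 * (C * (2 * X / r ^ 350)))
    (e : 16 * (4 + 8 * C) * r ^ 14 ≤ 1 * r ^ 20) :
    T / r ^ 20 + r ^ 30 * E ≤ 1 / 4 * (ρ * X / r ^ 13) := by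
  have r0 : 0 < r := by linarith
  have h1 : r ^ 20 ≤ r ^ 100 := pow_le_pow_right₀ hr (by omega)
  calc T / r ^ 20 + r ^ 30 * E
      ≤ 4 * X / r ^ 20 + r ^ 30 * ((2 * r ^ 110) ^ 2 * (C * (2 * X / r ^ 350))) := by gcongr
    _ = 4 * X / r ^ 20 + 8 * C * X / r ^ 100 := by field_simp; ring
    _ ≤ 4 * X / r ^ 20 + 8 * C * X / r ^ 20 := by gcongr
    _ = (4 + 8 * C) * X / r ^ 20 := by ring
    _ ≤ (4 + 8 * C) * X / (16 * (4 + 8 * C) * r ^ 14) := by gcongr; linarith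
    _ = 1 / 4 * (1 / (4 * r) * X / r ^ 13) := by field_simp; ring
    _ ≤ _ := by gcongr

end MAINa

open MAINa in
theorem p_MAIN (hGEO : S_GEO) (hRHO : S_RHO) (hARC : S_ARC) (hCHR : S_CHR) (hBLK : S_BLK) (hPT : S_PT) (hLOW2 : S_LOW2) :
    S_MAIN := by
  obtain ⟨C, hC, hA⟩ := hARC
  obtain ⟨b, hb⟩ := hCHR
  obtain ⟨R0, hR⟩ := hPT (1 / 16) (by norm_num)
  refine ⟨b, ?_⟩
  filter_upwards [hGEO, hRHO, hA, hb, hBLK, hR (max R0 2) (le_max_left _ _),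
    hLOW2 (max R0 2) (le_max_right _ _), eventually_ge_atTop 1,
    eventually_ge_atTop ((max R0 2 : ℕ) : ℝ),
    ev_pp (16 * (4 + 8 * C)) one_pos (show 14 < 20 by omega)]
    with r g1 g2 g3 g4 g5 g6 g7 hr hRr e P y K H hS hP
  set R := max R0 2
  have G := g1 P y K H hS
  have r0 : 0 < r := by linarith
  have X0 := XX_pos r
  have ρ0 := rho_nonneg P
  have hRK : R ≤ K := by
    exact_mod_cast (hRr.trans (le_self_pow₀ hr (by omega))).trans hS.k1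
  have sp : ∀ F : ℕ → ℂ, ∑ q ∈ Icc 1 K, F q = ∑ q ∈ Icc 1 R, F q + ∑ q ∈ Ioc R K, F q := by
    intro F
    rw [show Icc 1 K = Ioc 0 K from rfl, show Icc 1 R = Ioc 0 R from rfl,
      sum_Ioc_consecutive F (Nat.zero_le R) hRK]
  have hT : ∑ i ∈ range (y / (K * H)), (Yb y (K * H) i : ℝ) ≤ 4 * XX r := by
    rw [← Nat.cast_sum, G.xt.1]; exact G.xt.2.2.2
  have hE : ∑ i ∈ range (y / (K * H)), ∑ q ∈ Icc 1 K, ∑ a ∈ red q,
      arcE r P y (K * H) i (1 / (H : ℝ) ^ 2) ((a : ℝ) / q) ≤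
      (2 * r ^ 110) ^ 2 * (C * (2 * XX r / r ^ 350)) := by
    rw [sum_comm]
    simp_rw [sum_comm (s := range (y / (K * H)))]
    refine (sum_red_le K _ (B := C * (2 * XX r / r ^ 350)) (by positivity)
      fun q hq a ha => (g3 P y K H hS _).trans ?_).trans (by gcongr; exact hS.k2)
    have h1 : r ^ 350 ≤ r ^ 600 := pow_le_pow_right₀ hr (by omega)
    calc _ ≤ C * (XX r ^ 2 / r ^ 350 / XX r + XX r / r ^ 350) := by
          gcongr; exact g4 P y K H hS hP q hq a ha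
      _ = _ := by field_simp; ring
  have hN := mul_le_mul_of_nonneg_left (num hr hC X0 (g2 P hS.p1 hS.p2).1 hT hE e)
    (show (0 : ℝ) ≤ K * H by positivity)
  have h7 := g7 P y K H hS
  rw [Complex.re_sum] at h7
  have h8 : ∑ i ∈ range (y / (K * H)),
      ((∑ q ∈ Icc 1 R, ∑ a ∈ red q, mt r P y (K * H) i ((a : ℝ) / q)).re -
        1 / 16 * rho P * (K * H) / r ^ 13 * Yb y (K * H) i -
        K * H * (Yb y (K * H) i / r ^ 20 + r ^ 30 *
          ∑ q ∈ Icc 1 K, ∑ a ∈ red q, arcE r P y (K * H) i (1 / (H : ℝ) ^ 2) ((a : ℝ) / q))) ≤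
      ∑ i ∈ range (y / (K * H)), ∑ N ∈ JJ y (K * H) i, Rc r P y (K * H) i N := by
    refine sum_le_sum fun i hi => le_trans ?_ (low _
      (∑ q ∈ Icc 1 R, ∑ a ∈ red q, mt r P y (K * H) i ((a : ℝ) / q))
      (∑ q ∈ Ioc R K, ∑ a ∈ red q, mt r P y (K * H) i ((a : ℝ) / q)))
    have h1 := g5 P y K H hS i (mem_range.1 hi)
    have h2 := (norm_sum_le_of_le _ fun q _ => norm_sum_le _ _).trans
      (g6 P y K H hS i (mem_range.1 hi))
    rw [sp] at h1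
    rw [div_mul_eq_mul_div]
    linarith
  rw [sum_sub_distrib, sum_sub_distrib, ← mul_sum, ← mul_sum, sum_add_distrib, ← mul_sum,
    ← sum_div] at h8
  have h9 := mul_le_mul_of_nonneg_left hT
    (show 0 ≤ 1 / 16 * rho P * (K * H) / r ^ 13 by positivity)
  have e1 : 1 / 16 * rho P * (K * H) / r ^ 13 * (4 * XX r) =
      1 / 4 * (rho P * (K * H) * XX r / r ^ 13) := by ring
  have e2 : (K * H : ℝ) * (1 / 4 * (rho P * XX r / r ^ 13)) =
      1 / 4 * (rho P * (K * H) * XX r / r ^ 13) := by ring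
  linarith

end Pool.Agent.P.E2
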