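import Pool.Agent.P.MP_e94e4b_nt.E2.IfZ

/-! Step MEL. -/

namespace Pool.Agent.P.E2

open Finset Real Filter Topology MeasureTheory
open Pool.Agent.P.MP_e86632_nt (ee nn ee_add norm_ee ee_neg ee_zero)
open Pool.Agent.P.MP_8be758_nt.Avg (gs Rough red ft en nsq vau_g gs_pos gs_le_one gs_neg gs_anti)
open Pool.Agent.P.MP_e94e4b_nt.PF (mN sgm)
open ArithmeticFunction (vonMangoldt moebius)
open DirichletCharacter (LFunction)

namespace MELa

theorem term_eq {a : ℕ → ℂ} (h : a 0 = 0) (σ u t : ℝ) (n : ℕ) :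
    LSeries.term a (pt σ (u + t)) n =
      a n * nit t n * Complex.exp (-(pt σ u * (Real.log n : ℝ))) := by
  rcases eq_or_ne n 0 with rfl | hn
  · simp [h]
  rw [LSeries.term_of_ne_zero hn, Complex.cpow_def_of_ne_zero (by exact_mod_cast hn),
    div_eq_mul_inv, ← Complex.exp_neg, mul_assoc, nit, ee, ← Complex.exp_add,
    ← Complex.ofReal_natCast, ← Complex.ofReal_log (Nat.cast_nonneg n), ← pt_add]
  congr 2
  push_cast
  ring

end MELa

theorem p_MEL (hGF : S_GF) :
    S_MEL := by
  intro a w v σ t hw h0 hs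
  obtain ⟨-, g2, g3⟩ := hGF w v σ hw
  have hn : ∀ n u, ‖LSeries.term a (pt σ (u + t)) n * km w v (pt σ u)‖ =
      ‖LSeries.term a σ n‖ * ‖km w v (pt σ u)‖ := fun n u => by
    simp [LSeries.norm_term_eq]
  have H := hasSum_integral_of_summable_integral_norm (μ := volume)
    (F := fun n u => LSeries.term a (pt σ (u + t)) n * km w v (pt σ u))
    (fun n => (g2.norm.const_mul ‖LSeries.term a σ n‖).mono' (by
      simp only [MELa.term_eq h0]
      exact AEStronglyMeasurable.mul (Continuous.aestronglyMeasurable (by fun_prop)) g2.1)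
      (ae_of_all _ fun u => (hn n u).le)) (by
      simp only [hn, integral_const_mul]
      exact (summable_norm_iff.2 hs).mul_right _)
  have e : ∀ n, ∫ u, LSeries.term a (pt σ (u + t)) n * km w v (pt σ u) =
      a n * nit t n * (gk w (Real.log n - v) : ℂ) := fun n => by
    rw [← g3, ← integral_const_mul]
    simp only [MELa.term_eq h0, mul_assoc, mul_comm (km w v _)]
  simp only [e, tsum_mul_right] at H
  exact ⟨H.summable, H.tsum_eq⟩

end Pool.Agent.P.E2
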