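import Pool.Agent.P.MP_e94e4b_nt.E2.IfC

/-! Step PERM. -/

namespace Pool.Agent.P.E2

open Finset Real Filter Topology MeasureTheory
open Pool.Agent.P.MP_e86632_nt (ee nn ee_add norm_ee ee_neg ee_zero)
open Pool.Agent.P.MP_8be758_nt.Avg (gs Rough red ft en nsq vau_g gs_pos gs_le_one gs_neg gs_anti)
open Pool.Agent.P.MP_e94e4b_nt.PF (mN sgm)
open ArithmeticFunction (vonMangoldt moebius)
open DirichletCharacter (LFunction)

namespace PERMa

theorem ft_mod (S : Finset ℕ) (γ : ℕ → ℂ) {q : ℕ} (hq : 0 < q) (m : ℕ) :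
    ft S γ ((m : ℝ) / q) = ft S γ (((m % q : ℕ) : ℝ) / q) := by
  refine sum_congr rfl fun n _ => ?_
  have h : (m : ℝ) = (m % q : ℕ) + q * (m / q : ℕ) := by exact_mod_cast (Nat.mod_add_div m q).symm
  have h0 : (q : ℝ) ≠ 0 := by exact_mod_cast hq.ne'
  rw [← Pool.Agent.P.MP_e86632_nt.ee_add_int (n * (((m % q : ℕ) : ℝ) / q)) ((n * (m / q) : ℕ) : ℤ),
    Int.cast_natCast, Nat.cast_mul]
  refine congrArg (fun x => γ n * ee x) ?_
  rw [h]
  field_simp

end PERMa

theorem p_PERM :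
    S_PERM := by
  intro q p S γ hp
  have inj : Set.InjOn (fun a => p * a % q) (red q) := fun a ha b hb e =>
    Nat.ModEq.eq_of_lt_of_lt (Nat.ModEq.cancel_left_of_coprime hp.symm e) (mem_red.1 ha).1
      (mem_red.1 hb).1
  have im : (red q).image (fun a => p * a % q) = red q := by
    refine eq_of_subset_of_card_le (fun b hb => ?_) (card_image_of_injOn inj).ge
    obtain ⟨a, ha, rfl⟩ := mem_image.1 hb
    obtain ⟨h1, h2⟩ := mem_red.1 ha
    refine mem_red.2 ⟨Nat.mod_lt _ (by omega), ?_⟩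
    rw [Nat.Coprime, ← Nat.gcd_rec, Nat.gcd_comm]
    exact Nat.Coprime.mul_left hp h2
  conv_rhs => rw [← im, sum_image inj]
  refine sum_congr rfl fun a ha => ?_
  rw [← PERMa.ft_mod S γ (by have := (mem_red.1 ha).1; omega), Nat.cast_mul, mul_div_assoc]

end Pool.Agent.P.E2
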