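import Pool.Agent.P.MP_e94e4b_nt.E2.IfD

/-! Step PU0. -/

namespace Pool.Agent.P.E2

open Finset Real Filter Topology MeasureTheory
open Pool.Agent.P.MP_e86632_nt (ee nn ee_add norm_ee ee_neg ee_zero)
open Pool.Agent.P.MP_8be758_nt.Avg (gs Rough red ft en nsq vau_g gs_pos gs_le_one gs_neg gs_anti)
open Pool.Agent.P.MP_e94e4b_nt.PF (mN sgm)
open ArithmeticFunction (vonMangoldt moebius)
open DirichletCharacter (LFunction)

namespace PU0a

end PU0a

open PU0a in
theorem p_PU0 (hRNG : S_RNG) (hRE2 : S_RE2) (hQB : S_QB) (hCONV : S_CONV) (hQU : S_QU) :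
    S_PU0 := by
  obtain ⟨κ, hκ, hQ⟩ := hQU
  refine ⟨min κ 1, by positivity, ?_⟩
  filter_upwards [hRNG, hQB, hQ, eventually_ge_atTop 1, ev_pe 1 20 (show (0 : ℝ) < 4 by norm_num),
    ev_pe 108 26 (show (0 : ℝ) < 1 / 6 by norm_num),
    ev_pp 12 one_pos (show 13 < 14 by norm_num), ev_lin 2 0 one_pos (show 2 ≤ 13 by norm_num)]
    with r hR hB hQ h1 h2 h3 h4 h5 P q _ χ U hP1 hP2 hq hU
  have r0 : 0 < r := by linarith
  have l0 : 0 < r ^ 13 := by positivity
  obtain ⟨Φ, c1, c2, c3⟩ := hRE2 r P r0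
  have hX : 1 ≤ X2 r P := (Real.one_le_exp (by linarith)).trans (hR P hP1 hP2).x2l
  have hU1 := hU.mono (Real.exp_le_exp.2 (mul_le_mul_of_nonneg_right (min_le_left κ 1) l0.le))
  have hU2 := hU.mono (Real.exp_le_exp.2 (mul_le_mul_of_nonneg_right (min_le_right κ 1) l0.le))
  have key := hCONV (fun t => Lin r P fun n => ch χ n * nit t n) Φ U (r ^ 13) (r ^ 7)
    (X2 r P ^ 2 * Real.exp (-(r / 2))) (Real.exp (5 * r ^ 13)) (Real.exp (1 * r ^ 13)) l0
    (by positivity) (by positivity) (cont_Lin r P fun n => by fun_prop) c1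
    (fun t => hB P _ hP1 hP2 fun n => by
      rw [norm_mul, norm_nit, mul_one]; exact norm_ch_le χ n) c2 hU.1 hU.fin hU2.2.2
    fun s hs => by
      have a1 : |s| ≤ Real.exp (4 * r) := hs.trans (by linarith)
      have a2 : Real.exp (4 * r) ≤ Real.exp (2 * r ^ 13) := Real.exp_le_exp.2 (by linarith)
      obtain ⟨b1, b2⟩ := hU1.shift (lo' := Real.exp (4 * r)) (hi' := 2 * Real.exp (2 * r ^ 13))
        (s := s) (by linarith) (by linarith)
      exact (b2 fun t => ‖Lin r P fun n => ch χ n * nit t n‖ ^ 2).trans_le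
        (hQ P q χ _ hP1 hP2 hq b1)
  simp only [c3]
  refine key.trans ?_
  have a1 : Real.exp (5 * r ^ 13) ^ 2 * Real.exp (1 * r ^ 13) * Real.exp (-(r ^ 7) ^ 2) ≤
      Real.exp (-(r / 2)) := by
    rw [← Real.exp_nat_mul, ← Real.exp_add, ← Real.exp_add]
    refine Real.exp_le_exp.2 ?_
    push_cast
    linarith
  have a2 : 1 ≤ X2 r P ^ 2 := one_le_pow₀ hX
  have a3 := Real.exp_pos (-(r / 2))
  have a4 : Real.exp (-(r / 3)) = Real.exp (1 / 6 * r) * Real.exp (-(r / 2)) := by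
    rw [← Real.exp_add]; congr 1; ring
  calc _ ≤ 36 * (r ^ 13) ^ 2 * (3 * (X2 r P ^ 2 * Real.exp (-(r / 2)))) :=
        mul_le_mul_of_nonneg_left (by nlinarith) (by positivity)
    _ = 108 * r ^ 26 * (X2 r P ^ 2 * Real.exp (-(r / 2))) := by ring
    _ ≤ _ := (mul_le_mul_of_nonneg_right h3 (by positivity)).trans (le_of_eq (by rw [a4]; ring))

end Pool.Agent.P.E2
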