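import Pool.Agent.P.MP_e94e4b_nt.E2.IfZ
import Pool.Agent.P.MP_b60056_nt.AA.Vino

/-! Step SH. -/

namespace Pool.Agent.P.E2

open Finset Real Filter Topology MeasureTheory
open Pool.Agent.P.MP_e86632_nt (ee nn ee_add norm_ee ee_neg ee_zero)
open Pool.Agent.P.MP_8be758_nt.Avg (gs Rough red ft en nsq vau_g gs_pos gs_le_one gs_neg gs_anti)
open Pool.Agent.P.MP_e94e4b_nt.PF (mN sgm)
open ArithmeticFunction (vonMangoldt moebius)
open DirichletCharacter (LFunction)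

namespace SHa

end SHa

theorem p_SH (hWB : S_WB) :
    S_SH := by
  intro Lg τ t0 θ M N hτ1 hτ3 hte θ0 θ1 hMN hM hN
  rw [← abs_neg] at hte
  have e0 : ∀ x : ℝ, ee (-(t0 * x)) = MP_b60056_nt.AA.ee (-(2 * π * t0) * x) := fun x => by
    rw [aa_ee]; congr 1; ring
  simp only [e0]
  generalize -(2 * π * t0) = t at hte
  have hlτ := MP_b60056_nt.AA.Vino.log_ge hτ1
  have hL0 : 10 ^ 9 ≤ Lg := by nlinarith
  set K := ⌈4 * τ⌉₊ with hK
  have hK1 : 4 * τ ≤ K := Nat.le_ceil _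
  have hK2 : (K : ℝ) < 4 * τ + 1 := Nat.ceil_lt_add_one (by linarith)
  have hKp : (0 : ℝ) < K := by linarith
  have hZ : 2 ≤ Real.exp (Lg / (3009 * K)) := by
    have h2 : 1 ≤ Lg / (3009 * K) := by
      rw [le_div_iff₀ (by positivity)]
      nlinarith
    linarith [Real.add_one_le_exp (Lg / (3009 * K))]
  obtain ⟨p, hp, hp1, hp2⟩ := MP_b60056_nt.AA.Vino.prime hZ
  have hP : ((p ^ (1003 * K) : ℕ) : ℝ) ≤ Real.exp (Lg / 3) := by
    push_cast
    refine (pow_le_pow_left₀ (Nat.cast_nonneg _) hp2 _).trans (le_of_eq ?_)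
    rw [← Real.exp_nat_mul]
    congr 1
    push_cast
    field_simp
    norm_num
  have hP0 : 0 < p ^ (1003 * K) := pow_pos hp.pos _
  generalize hPd : p ^ (1003 * K) = P at hP hP0
  have hP2 : (P : ℝ) ^ 2 ≤ Real.exp (2 / 3 * Lg) := by
    refine (pow_le_pow_left₀ (Nat.cast_nonneg _) hP 2).trans (le_of_eq ?_)
    rw [← Real.exp_nat_mul]
    congr 1
    push_cast
    ring
  have ha1 : ∀ a ∈ Ioc M N, Real.exp (99 / 100 * Lg) ≤ a + θ := fun a ha =>
    hM.trans (le_add_of_le_of_nonneg (by exact_mod_cast (mem_Ioc.1 ha).1.le) θ0)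
  refine (MP_b60056_nt.AA.Vino.core (fun n => MP_b60056_nt.AA.ee (t * Real.log (n + θ)))
    (fun n => (MP_b60056_nt.AA.norm_ee _).le) hMN hP0
    (fun a u v => MP_b60056_nt.AA.ee (2 * π * ∑ j ∈ Icc 1 K,
      (-1) ^ (j + 1) * t / (2 * π * j * ((a : ℝ) + θ) ^ j) * (u : ℝ) ^ j * (v : ℝ) ^ j))
    (2 * Real.exp (-(1 / 3 * Lg))) (Real.exp (-Lg / (10 ^ 11 * τ ^ 2))) ?_ ?_).trans (by linarith)
  · intro a ha u hu v hv
    have ha1 := ha1 a ha
    have ha0 : (0 : ℝ) < a + θ := lt_of_lt_of_le (Real.exp_pos _) ha1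
    have hu' : (u : ℝ) ≤ P := by exact_mod_cast (mem_range.1 hu).le
    have hv' : (v : ℝ) ≤ P := by exact_mod_cast (mem_range.1 hv).le
    have huv := mul_le_mul hu' hv' (Nat.cast_nonneg _) (Nat.cast_nonneg _)
    have hx0 : 0 ≤ (u : ℝ) * v / (a + θ) := by positivity
    have hx1 : (u : ℝ) * v / (a + θ) ≤ Real.exp (-(32 / 100 * Lg)) := by
      rw [div_le_iff₀ ha0]
      have h2 : Real.exp (2 / 3 * Lg) ≤
          Real.exp (-(32 / 100 * Lg)) * Real.exp (99 / 100 * Lg) := by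
        rw [← Real.exp_add, Real.exp_le_exp]
        linarith
      have h3 := mul_le_mul_of_nonneg_left ha1 (Real.exp_pos (-(32 / 100 * Lg))).le
      nlinarith
    have hx2 : Real.exp (-(32 / 100 * Lg)) ≤ 1 / 2 := by
      rw [Real.exp_neg, ← one_div]
      refine one_div_le_one_div_of_le (by norm_num) ?_
      linarith [Real.add_one_le_exp (32 / 100 * Lg)]
    have h4 := MP_b60056_nt.AA.Vino.taylor t (a + θ) u v K ha0 hx0 (hx1.trans hx2)
    push_cast
    rw [add_right_comm]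
    refine h4.trans ?_
    have h5 := pow_le_pow_left₀ hx0 hx1 (K + 1)
    rw [← Real.exp_nat_mul] at h5
    have h6 : Real.exp (τ * Lg) * Real.exp (((K + 1 : ℕ) : ℝ) * -(32 / 100 * Lg)) ≤
        Real.exp (-(1 / 3 * Lg)) := by
      rw [← Real.exp_add, Real.exp_le_exp]
      push_cast
      nlinarith
    have h7 := mul_le_mul_of_nonneg_left h5 (Real.exp_pos (τ * Lg)).le
    rw [hte]
    linarith
  · intro a ha
    have ha2 : (a : ℝ) ≤ N := by exact_mod_cast (mem_Ioc.1 ha).2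
    have h2 := hWB Lg τ (a + θ) t K p hτ1 hτ3 hte (ha1 a ha) (by linarith) hK hp hp1 hp2
    rw [hPd] at h2
    exact h2

end Pool.Agent.P.E2
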