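import Pool.Agent.P.MP_e94e4b_nt.E2.IfZ

/-! Step SWP. -/

namespace Pool.Agent.P.E2

open Finset Real Filter Topology MeasureTheory
open Pool.Agent.P.MP_e86632_nt (ee nn ee_add norm_ee ee_neg ee_zero)
open Pool.Agent.P.MP_8be758_nt.Avg (gs Rough red ft en nsq vau_g gs_pos gs_le_one gs_neg gs_anti)
open Pool.Agent.P.MP_e94e4b_nt.PF (mN sgm)
open ArithmeticFunction (vonMangoldt moebius)
open DirichletCharacter (LFunction)

namespace SWPa

theorem bd {a : ℕ → ℂ} {w β v : ℝ} (hw : 0 < w) (hw1 : w ≤ 1) (ha : ∀ n, ‖a n‖ ≤ n) (hv : v ≤ β)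
    (n : ℕ) :
    ‖a n * (gk w (Real.log n - v) : ℂ)‖ ≤ 8 * Real.exp (4 * β) / w * (1 / (n : ℝ) ^ 3) := by
  rcases Nat.eq_zero_or_pos n with rfl | hn
  · have h0 : a 0 = 0 := norm_le_zero_iff.1 (by simpa using ha 0)
    simp [h0]
  have h0 : (0 : ℝ) < n := by exact_mod_cast hn
  rw [norm_mul, Complex.norm_real, Real.norm_of_nonneg (gk_nonneg hw _)]
  calc _ ≤ n * (8 * Real.exp (4 * v) / (w * (n : ℝ) ^ 4)) :=
        mul_le_mul (ha n) (gk_log_le hw hw1 v hn.ne') (gk_nonneg hw _) h0.le
    _ ≤ n * (8 * Real.exp (4 * β) / (w * (n : ℝ) ^ 4)) := by gcongr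
    _ = _ := by field_simp

end SWPa

theorem p_SWP :
    S_SWP := by
  intro a w α β E hw hw1 hab ha hE
  have hc : ∀ n : ℕ, Continuous fun v => a n * (gk w (Real.log n - v) : ℂ) := fun n => by fun_prop
  have hs : Summable fun n : ℕ => 8 * Real.exp (4 * β) / w * (1 / (n : ℝ) ^ 3) * (β - α) :=
    ((Real.summable_one_div_nat_pow.2 (by norm_num)).mul_left _).mul_right _
  have h1 := hasSum_integral_of_summable_integral_norm (μ := volume.restrict (Set.Ioc α β))
    (F := fun (n : ℕ) v => a n * (gk w (Real.log n - v) : ℂ))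
    (fun n => (hc n).integrableOn_Ioc) (by
      refine Summable.of_nonneg_of_le (fun n => integral_nonneg fun v => norm_nonneg _)
        (fun n => ?_) hs
      rw [← intervalIntegral.integral_of_le hab]
      refine (le_abs_self _).trans ?_
      have := intervalIntegral.norm_integral_le_of_norm_le_const (a := α) (b := β)
        (f := fun v => ‖a n * (gk w (Real.log n - v) : ℂ)‖)
        (C := 8 * Real.exp (4 * β) / w * (1 / (n : ℝ) ^ 3)) fun v hv => by
          rw [Set.uIoc_of_le hab] at hv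
          rw [norm_norm]; exact SWPa.bd hw hw1 ha hv.2 n
      rwa [abs_of_nonneg (sub_nonneg.2 hab)] at this)
  have h2 : ∀ n : ℕ, ∫ v in Set.Ioc α β, a n * (gk w (Real.log n - v) : ℂ) =
      a n * (win w α β (Real.log n) : ℂ) := fun n => by
    rw [integral_const_mul, win, intervalIntegral.integral_of_le hab, integral_complex_ofReal]
  simp only [h2] at h1
  refine ⟨h1.summable, ?_⟩
  rw [h1.tsum_eq, ← intervalIntegral.integral_of_le hab]
  have := intervalIntegral.norm_integral_le_of_norm_le_const (a := α) (b := β)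
    (f := fun v => ∑' n : ℕ, a n * (gk w (Real.log n - v) : ℂ)) (C := E) fun v hv => by
      rw [Set.uIoc_of_le hab] at hv
      exact hE v hv.1.le hv.2
  rwa [abs_of_nonneg (sub_nonneg.2 hab), mul_comm] at this

end Pool.Agent.P.E2
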