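import Pool.Agent.P.MP_e94e4b_nt.E2.IfD

/-! Step VAU. -/

namespace Pool.Agent.P.E2

open Finset Real Filter Topology MeasureTheory
open Pool.Agent.P.MP_e86632_nt (ee nn ee_add norm_ee ee_neg ee_zero)
open Pool.Agent.P.MP_8be758_nt.Avg (gs Rough red ft en nsq vau_g gs_pos gs_le_one gs_neg gs_anti)
open Pool.Agent.P.MP_e94e4b_nt.PF (mN sgm)
open ArithmeticFunction (vonMangoldt moebius)
open DirichletCharacter (LFunction)

open Pool.Agent.P.MP_8be758_nt.Avg in
theorem p_VAU :
    S_VAU := by
  refine fun Y => ⟨fun k => ⟨?_, fun h => ?_⟩, fun n h => ?_⟩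
  · refine (abs_sum_le_sum_abs _ _).trans ((sum_le_card_nsmul _ _ 1 fun d _ => vau_mu d).trans ?_)
    rw [nsmul_one]
    exact_mod_cast card_filter_le _ _
  · exact sum_eq_zero fun d hd => absurd ((Nat.divisor_le (mem_filter.1 hd).1).trans h)
      (mem_filter.1 hd).2.not_ge
  have e : ∀ k, (((moebius : ArithmeticFunction ℝ) - vau_res Y (moebius : ArithmeticFunction ℝ)) *
      (ArithmeticFunction.zeta : ArithmeticFunction ℝ)) k = bt Y k := fun k => by
    rw [ArithmeticFunction.coe_mul_zeta_apply, bt, sum_filter]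
    refine sum_congr rfl fun d _ => ?_
    rw [vau_sub_apply, vau_res_apply]
    by_cases h : d ≤ Y <;> simp [h, ← not_le]
  conv_lhs => rw [vau_ring Y, vau_h, mul_left_comm]
  rw [ArithmeticFunction.add_apply, vau_sub_apply, ArithmeticFunction.add_apply, vau_res_apply,
    if_neg (not_le.2 h), zero_add, ArithmeticFunction.coe_mul_zeta_apply,
    ArithmeticFunction.mul_apply, ArithmeticFunction.mul_apply,
    ← Nat.sum_divisorsAntidiagonal fun a _ => vau_g Y a, ← sum_sub_distrib, ← sum_add_distrib]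
  refine sum_congr rfl fun x _ => ?_
  rw [e, vau_sub_apply, vau_res_apply, vau_res_apply]
  by_cases h : x.1 ≤ Y <;> simp [h, ← not_le, ArithmeticFunction.log_apply]

end Pool.Agent.P.E2
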